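import Pool.Agent.H95.HJ.ResC

/-!
Module Deg (project HJ, helper95).  The degree of the divisor of a function is zero.
The first lemmas are copied from the module FinZeros of helper18's project AC.
-/

namespace HJ

open ZC
open scoped Classical

open scoped IntermediateField.algebraAdjoinAdjoin in
private theorem Deg_alg {k K : Type} [Field k] [Field K] [Algebra k K]
    (hK : IsFunctionField k K) (f : K) (hf : Transcendental k f) :
    Algebra.IsAlgebraic (Algebra.adjoin k {f}) K := by
  obtain ⟨t, ht, hfin⟩ := hK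
  have h1 : Algebra.IsAlgebraic (IntermediateField.adjoin k {t}) K := inferInstance
  have h2 : Algebra.IsAlgebraic (Algebra.adjoin k {t}) K :=
    Algebra.IsAlgebraic.trans (Algebra.adjoin k {t}) (IntermediateField.adjoin k {t}) K
  have h3 : Algebra.trdeg k K ≤ 1 := by
    have := Algebra.IsAlgebraic.trdeg_le_cardinalMk k ({t} : Set K)
    simpa using this
  have hx : AlgebraicIndependent k (fun _ : Unit => f) := by
    rw [algebraicIndependent_unique_type_iff]
    exact hf
  have h4 := hx.isTranscendenceBasis_of_trdeg_le_of_finite (by simpa using h3)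
  have h5 := h4.isAlgebraic
  have h6 : Set.range (fun _ : Unit => f) = {f} := by
    ext x; simp [eq_comm]
  rw [h6] at h5
  exact h5

open scoped IntermediateField.algebraAdjoinAdjoin in
private theorem Deg_fin {k K : Type} [Field k] [Field K] [Algebra k K]
    (hK : IsFunctionField k K) (f : K) (hf : Transcendental k f) :
    FiniteDimensional (IntermediateField.adjoin k {f}) K := by
  have h1 := Deg_alg hK f hf
  have h2 : Algebra.IsAlgebraic (IntermediateField.adjoin k {f}) K :=
    Algebra.IsAlgebraic.extendScalars (R := Algebra.adjoin k {f})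
      (FaithfulSMul.algebraMap_injective _ _)
  obtain ⟨t, ht, hfin⟩ := hK
  have h3 : Algebra.EssFiniteType k (IntermediateField.adjoin k {t}) := by
    rw [IntermediateField.essFiniteType_iff]
    exact ⟨{t}, by simp⟩
  have h4 : Algebra.EssFiniteType k K :=
    Algebra.EssFiniteType.comp k (IntermediateField.adjoin k {t}) K
  have h5 : Algebra.EssFiniteType (IntermediateField.adjoin k {f}) K :=
    Algebra.EssFiniteType.of_comp k _ _
  have h6 : (⊤ : IntermediateField (IntermediateField.adjoin k {f}) K).FG :=
    IntermediateField.fg_top _ _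
  obtain ⟨s, hs⟩ := h6
  have h7 := IntermediateField.finiteDimensional_adjoin
    (K := IntermediateField.adjoin k {f}) (L := K) (S := (s : Set K))
    (fun x _ => (h2.isAlgebraic x).isIntegral)
  rw [hs] at h7
  exact Module.Finite.equiv IntermediateField.topEquiv.toLinearEquiv


private theorem Deg_le {k K : Type} [Field k] [Field K] [Algebra k K]
    (f : K) (v : Place k K) (hv : v.v f ≤ 1) (x : K)
    (hx : IsIntegral (Algebra.adjoin k {f}) x) : v.v x ≤ 1 := by
  have h1 : ∀ a ∈ Algebra.adjoin k {f}, v.v a ≤ 1 := by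
    intro a ha
    induction ha using Algebra.adjoin_induction with
    | mem x hx => rw [Set.mem_singleton_iff] at hx; rw [hx]; exact hv
    | algebraMap c =>
        by_cases hc : c = 0
        · rw [hc, map_zero, map_zero]; exact zero_le_one
        · rw [v.triv c hc]
    | add x y _ _ hx hy => exact v.v.map_add_le hx hy
    | mul x y _ _ hx hy => rw [map_mul]; exact mul_le_one' hx hy
  obtain ⟨p, hp, hp0⟩ := hx
  have h2 := (Valuation.integer.integers v.v).mem_of_integral (x := x)
    ⟨p.map ((algebraMap (Algebra.adjoin k {f}) K).codRestrict v.v.integer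
      (fun a => h1 _ a.2)), hp.map _, by
        rw [Polynomial.eval₂_map]
        exact hp0⟩
  exact h2

private theorem Deg_det {k K R : Type} [Field k] [Field K] [Algebra k K] [CommRing R]
    [IsDedekindDomain R] [Algebra R K] [IsFractionRing R K] (v : Place k K)
    (hv : ∀ b : R, v.v (algebraMap R K b) ≤ 1) (P : IsDedekindDomain.HeightOneSpectrum R)
    (hP : ∀ b : R, b ∈ P.asIdeal ↔ v.v (algebraMap R K b) < 1) :
    v.v = P.valuation K := by
  have h1 : ∀ x : K, P.valuation K x ≤ 1 → v.v x ≤ 1 := by
    intro x hx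
    obtain ⟨n, d, h⟩ := P.exists_primeCompl_mul_eq_of_integer x hx
    have hd : v.v (algebraMap R K d) = 1 := by
      have hd := d.2
      rw [Ideal.mem_primeCompl_iff, hP, not_lt] at hd
      exact le_antisymm (hv _) hd
    have h3 := congrArg v.v h
    rw [map_mul, hd, mul_one] at h3
    rw [h3]
    exact hv _
  have h2 : ∀ x : K, P.valuation K x = 1 → v.v x = 1 := by
    intro x hx
    have hx0 : x ≠ 0 := by
      rintro rfl
      rw [map_zero] at hx
      exact zero_ne_one hx
    apply le_antisymm (h1 x hx.le)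
    have h3 := h1 x⁻¹ (by rw [map_inv₀, hx, inv_one])
    rw [map_inv₀] at h3
    exact (inv_le_one₀ (by
      rw [zero_lt_iff]; exact (Valuation.ne_zero_iff _).2 hx0)).1 h3
  obtain ⟨π, hπ⟩ := P.valuation_exists_uniformizer K
  have hπ0 : π ≠ 0 := by
    rintro rfl
    rw [map_zero] at hπ
    exact WithZero.exp_ne_zero hπ.symm
  have h3 : ∀ x : K, x ≠ 0 → v.v x = (v.v π) ^ (- WithZero.log (P.valuation K x)) := by
    intro x hx
    have hx' : P.valuation K x ≠ 0 := (Valuation.ne_zero_iff _).2 hx
    have h4 := h2 (x * π ^ (WithZero.log (P.valuation K x))) (by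
      rw [map_mul, map_zpow₀, hπ, ← WithZero.exp_zsmul]
      simp [WithZero.exp_neg, hx'])
    rw [map_mul, map_zpow₀] at h4
    rw [zpow_neg]
    exact eq_inv_of_mul_eq_one_left h4
  have hvπ : v.v π ≠ 0 := (Valuation.ne_zero_iff _).2 hπ0
  have h4 : v.v π = WithZero.exp (-1 : ℤ) := by
    have h5 : v.v π ≤ 1 := h1 π (by
      rw [hπ, ← WithZero.exp_zero, WithZero.exp_le_exp]; norm_num)
    obtain ⟨x, hx⟩ := v.surj (WithZero.exp (-1 : ℤ))
    have hx0 : x ≠ 0 := by
      rintro rfl
      rw [map_zero] at hx
      exact WithZero.exp_ne_zero hx.symm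
    rw [h3 x hx0] at hx
    have h6 := congrArg WithZero.log hx
    rw [WithZero.log_zpow, WithZero.log_exp] at h6
    have h7 : WithZero.log (v.v π) ≤ 0 := by
      rw [WithZero.log_le_iff_le_exp hvπ]; simpa using h5
    have h8 : WithZero.log (v.v π) = -1 := by
      rw [smul_eq_mul] at h6
      have h9 : WithZero.log (v.v π) ∣ 1 := ⟨WithZero.log (P.valuation K x), by linarith⟩
      rcases Int.isUnit_iff.1 (isUnit_of_dvd_one h9) with h | h
      · rw [h] at h7; norm_num at h7
      · exact h
    rw [← h8, WithZero.exp_log hvπ]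
  ext x
  by_cases hx : x = 0
  · rw [hx, map_zero, map_zero]
  · rw [h3 x hx, h4, ← WithZero.exp_zsmul]
    have hx' : P.valuation K x ≠ 0 := (Valuation.ne_zero_iff _).2 hx
    simp [hx']

section main

variable {k K : Type} [Field k] [IsAlgClosed k] [CharZero k] [Field K] [Algebra k K]

open scoped IntermediateField.algebraAdjoinAdjoin in
private theorem Deg_zeros (hK : IsFunctionField k K) (f : K) (hf : Transcendental k f) :
    {w : Place k K | w.v f < 1}.Finite ∧
      (∑ᶠ (w : Place k K) (_ : w.v f < 1), w.ord f) =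
        (Module.finrank (IntermediateField.adjoin k {f}) K : ℤ) := by
  have hf0 : f ≠ 0 := by
    rintro rfl
    exact hf isAlgebraic_zero
  have hfin := Deg_fin hK f hf
  have hchar : CharZero K := charZero_of_injective_algebraMap (algebraMap k K).injective
  have hpid : IsPrincipalIdealRing (Algebra.adjoin k {f}) := by
    refine IsPrincipalIdealRing.of_surjective
      ((Polynomial.aeval (R := k)
        (⟨f, Algebra.self_mem_adjoin_singleton k f⟩ : Algebra.adjoin k {f})).toRingHom) ?_
    rintro ⟨x, hx⟩
    have hx' := hx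
    rw [Algebra.adjoin_singleton_eq_range_aeval] at hx'
    obtain ⟨p, hp⟩ := hx'
    refine ⟨p, ?_⟩
    apply Subtype.ext
    refine Eq.trans ?_ hp
    change (Algebra.adjoin k {f}).val (Polynomial.aeval _ p) = Polynomial.aeval f p
    rw [← Polynomial.aeval_algHom_apply]
    rfl
  set A := Algebra.adjoin k {f} with hA
  set F := IntermediateField.adjoin k {f} with hF
  set B := integralClosure A K with hB
  have hdd : IsDedekindDomain B := integralClosure.isDedekindDomain A F K
  have hfr : IsFractionRing B K := integralClosure.isFractionRing_of_finite_extension F K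
  have hfinB : Module.Finite A B := IsIntegralClosure.finite A F K B
  let z : A := ⟨f, Algebra.self_mem_adjoin_singleton k f⟩
  have hz0 : z ≠ 0 := fun h => hf0 (congrArg Subtype.val h)
  let p : Ideal A := Ideal.span {z}
  have hp0 : p ≠ ⊥ := by
    rw [Ne, Ideal.span_singleton_eq_bot]; exact hz0
  -- every element of `A` is a constant plus a multiple of `z`
  have hdec : ∀ a : A, ∃ (c : k) (b : A), a = algebraMap k A c + z * b := by
    rintro ⟨x, hx⟩
    have hx' := hx
    rw [hA, Algebra.adjoin_singleton_eq_range_aeval] at hx'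
    obtain ⟨q, hq⟩ := hx'
    refine ⟨q.coeff 0, Polynomial.aeval z q.divX, ?_⟩
    apply Subtype.ext
    have h1 : (Polynomial.aeval f q : K) = x := hq
    have h2 : ((Polynomial.aeval z q.divX : A) : K) = Polynomial.aeval f q.divX := by
      change A.val (Polynomial.aeval z q.divX) = _
      rw [← Polynomial.aeval_algHom_apply]
      rfl
    have h3 : x = algebraMap k K (q.coeff 0) + f * Polynomial.aeval f q.divX := by
      rw [← h1]
      conv_lhs => rw [← Polynomial.X_mul_divX_add q]
      simp only [map_add, map_mul, Polynomial.aeval_X, Polynomial.aeval_C]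
      ring
    refine h3.trans ?_
    rw [← h2]
    rfl
  have hnt : ∀ c : k, algebraMap k A c ∈ p → c = 0 := by
    intro c hc
    by_contra hc0
    have h1 : (1 : A) ∈ p := by
      have h2 := p.mul_mem_left (algebraMap k A c⁻¹) hc
      rwa [← map_mul, inv_mul_cancel₀ hc0, map_one] at h2
    rw [Ideal.mem_span_singleton] at h1
    obtain ⟨⟨x, hx⟩, h1⟩ := h1
    have hx' := hx
    rw [hA, Algebra.adjoin_singleton_eq_range_aeval] at hx'
    obtain ⟨q, hq⟩ := hx'
    have h3 : (1 : K) = f * x := congrArg Subtype.val h1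
    have h4 : Polynomial.aeval f (Polynomial.X * q - 1) = 0 := by
      have h5 : (Polynomial.aeval f q : K) = x := hq
      rw [map_sub, map_mul, Polynomial.aeval_X, h5, map_one, ← h3, sub_self]
    have h5 : (Polynomial.X * q - 1 : Polynomial k) = 0 := by
      by_contra h6
      exact hf ⟨_, h6, h4⟩
    have h6 := congrArg (fun P => Polynomial.coeff P 0) h5
    simp at h6
  have hpm : p.IsMaximal := by
    rw [Ideal.isMaximal_iff]
    refine ⟨fun h => one_ne_zero (hnt 1 (by rwa [map_one])), ?_⟩
    intro J a hJ haJ ha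
    obtain ⟨c, b, rfl⟩ := hdec a
    have hc0 : c ≠ 0 := by
      rintro rfl
      apply haJ
      rw [map_zero, zero_add]
      exact Ideal.mul_mem_right _ _ (Ideal.mem_span_singleton_self z)
    have h1 : algebraMap k A c ∈ J := by
      have h2 : z * b ∈ J := J.mul_mem_right _ (hJ (Ideal.mem_span_singleton_self z))
      have h3 := J.sub_mem ha h2
      rwa [add_sub_cancel_right] at h3
    have h2 := J.mul_mem_left (algebraMap k A c⁻¹) h1
    rwa [← map_mul, inv_mul_cancel₀ hc0, map_one] at h2
  let vp : IsDedekindDomain.HeightOneSpectrum A := ⟨p, hpm.isPrime, hp0⟩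
  -- the primes over `p`
  have hle : ∀ v : Place k K, v.v f < 1 → ∀ b : B, v.v (algebraMap B K b) ≤ 1 :=
    fun v hv b => Deg_le f v hv.le _ b.2
  let Φ : Place k K → Ideal B := fun v =>
    if hv : v.v f < 1 then
      { carrier := {b | v.v (algebraMap B K b) < 1}
        add_mem' := by
          intro a b ha hb
          rw [Set.mem_ofPred_eq] at ha hb ⊢
          rw [map_add]
          exact v.v.map_add_lt ha hb
        zero_mem' := by
          rw [Set.mem_ofPred_eq, map_zero, map_zero]; exact zero_lt_one
        smul_mem' := by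
          intro c x hx
          rw [Set.mem_ofPred_eq] at hx ⊢
          rw [smul_eq_mul, map_mul, map_mul]
          exact lt_of_le_of_lt (mul_le_of_le_one_left' (hle v hv c)) hx }
    else ⊥
  have hΦ : ∀ v : Place k K, v.v f < 1 → ∀ b : B, b ∈ Φ v ↔ v.v (algebraMap B K b) < 1 := by
    intro v hv b
    simp only [Φ, dif_pos hv]
    exact Iff.rfl
  have hΦp : ∀ v : Place k K, v.v f < 1 → (Φ v).IsPrime := by
    intro v hv
    refine ⟨?_, ?_⟩
    · rw [Ideal.ne_top_iff_one, hΦ v hv, map_one, map_one]
      exact lt_irrefl _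
    · intro x y hxy
      rw [hΦ v hv, map_mul, map_mul] at hxy
      rw [hΦ v hv, hΦ v hv]
      by_contra hcon
      push Not at hcon
      have h1 := le_antisymm (hle v hv x) hcon.1
      have h2 := le_antisymm (hle v hv y) hcon.2
      rw [h1, h2, one_mul] at hxy
      exact lt_irrefl _ hxy
  have hzΦ : ∀ v : Place k K, v.v f < 1 → algebraMap A B z ∈ Φ v := by
    intro v hv
    rw [hΦ v hv]
    exact hv
  have hΦb : ∀ v : Place k K, v.v f < 1 → Φ v ≠ ⊥ := by
    intro v hv h
    have h1 := hzΦ v hv
    rw [h, Ideal.mem_bot] at h1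
    exact hf0 (congrArg Subtype.val h1)
  have hdet : ∀ (v : Place k K) (hv : v.v f < 1),
      v.v = (⟨Φ v, hΦp v hv, hΦb v hv⟩ : IsDedekindDomain.HeightOneSpectrum B).valuation K :=
    fun v hv => Deg_det v (hle v hv) _ (hΦ v hv)
  have hover : ∀ v : Place k K, v.v f < 1 → (Φ v).LiesOver p := by
    intro v hv
    refine ⟨?_⟩
    have h1 : p ≤ (Φ v).under A := by
      rw [Ideal.span_singleton_le_iff_mem]
      exact hzΦ v hv
    refine hpm.eq_of_le ?_ h1
    have := hΦp v hv
    exact Ideal.IsPrime.ne_top inferInstance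
  have hbij : Set.BijOn Φ {w : Place k K | w.v f < 1}
      (IsDedekindDomain.primesOverFinset p B : Set (Ideal B)) := by
    refine ⟨?_, ?_, ?_⟩
    · intro v hv
      rw [Finset.mem_coe, IsDedekindDomain.mem_primesOverFinset_iff hp0]
      exact ⟨hΦp v hv, hover v hv⟩
    · intro v hv v' hv' h
      have h1 := hdet v hv
      have h2 := hdet v' hv'
      have h3 : v.v = v'.v := by
        rw [h1, h2]
        congr 1
        exact IsDedekindDomain.HeightOneSpectrum.ext h
      rcases v with ⟨v, _, _⟩
      rcases v' with ⟨v', _, _⟩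
      change v = v' at h3
      subst h3
      rfl
    · intro P hP
      rw [Finset.mem_coe, IsDedekindDomain.mem_primesOverFinset_iff hp0] at hP
      obtain ⟨hP1, hP2⟩ := hP
      have hPb : P ≠ ⊥ := Ideal.ne_bot_of_mem_primesOver hp0 ⟨hP1, hP2⟩
      let q : IsDedekindDomain.HeightOneSpectrum B := ⟨P, hP1, hPb⟩
      have hzP : algebraMap A B z ∈ P := by
        have h1 : z ∈ P.under A := by
          rw [← hP2.over]; exact Ideal.mem_span_singleton_self z
        exact h1
      have hq1 : ∀ b : B, b ∈ P ↔ q.valuation K (algebraMap B K b) < 1 := by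
        intro b
        rw [IsDedekindDomain.HeightOneSpectrum.valuation_lt_one_iff_mem]
      let w : Place k K :=
        { v := q.valuation K
          surj := q.valuation_surjective K
          triv := by
            intro c hc
            have h1 : ∀ c : k, q.valuation K (algebraMap k K c) ≤ 1 := by
              intro c
              have := q.valuation_le_one (K := K) (algebraMap A B (algebraMap k A c))
              exact this
            apply le_antisymm (h1 c)
            have h2 := h1 c⁻¹
            rw [map_inv₀, map_inv₀] at h2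
            have h3 : q.valuation K (algebraMap k K c) ≠ 0 := by
              rw [Valuation.ne_zero_iff]
              simpa using hc
            rwa [inv_le_one₀ (by rwa [zero_lt_iff])] at h2 }
      have hw : w.v f < 1 := (hq1 _).1 hzP
      refine ⟨w, hw, ?_⟩
      ext b
      rw [hΦ w hw, hq1]
  have hord : ∀ v : Place k K, v.v f < 1 → v.ord f =
      ((p.ramificationIdx' (Φ v) * p.inertiaDeg' (Φ v) : ℕ) : ℤ) := by
    intro v hv
    have hov := hover v hv
    have hpr := hΦp v hv
    let q : IsDedekindDomain.HeightOneSpectrum B := ⟨Φ v, hΦp v hv, hΦb v hv⟩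
    have : q.asIdeal.LiesOver vp.asIdeal := hov
    have h1 := vp.valuation_liesOver (K := F) K q (algebraMap A F z)
    rw [IsDedekindDomain.HeightOneSpectrum.valuation_of_algebraMap,
      vp.intValuation_singleton hz0 rfl] at h1
    have h2 : v.v f = WithZero.exp (-1 : ℤ) ^ (p.ramificationIdx' (Φ v)) := by
      rw [hdet v hv, h1]
      rfl
    have h3 : p.inertiaDeg' (Φ v) = 1 := by
      rw [Ideal.inertiaDeg'_algebraMap]
      have hmax : (Φ v).IsMaximal := hpr.isMaximal (hΦb v hv)
      have hs : Function.Surjective (algebraMap (A ⧸ p) (B ⧸ Φ v)) := by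
        intro x
        obtain ⟨b, rfl⟩ := Ideal.Quotient.mk_surjective x
        obtain ⟨c, hc⟩ := res_const hK v (algebraMap B K b) (hle v hv b)
        refine ⟨Ideal.Quotient.mk p (algebraMap k A c), ?_⟩
        rw [Ideal.Quotient.algebraMap_mk_of_liesOver, eq_comm, Ideal.Quotient.eq, hΦ v hv]
        exact hc
      have hi : Function.Injective (algebraMap (A ⧸ p) (B ⧸ Φ v)) := by
        have : Field (A ⧸ p) := Ideal.Quotient.field p
        have : Nontrivial (B ⧸ Φ v) := Ideal.Quotient.nontrivial_iff.2 hmax.ne_top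
        intro x y hxy
        obtain ⟨a, rfl⟩ := Ideal.Quotient.mk_surjective x
        obtain ⟨b, rfl⟩ := Ideal.Quotient.mk_surjective y
        rw [Ideal.Quotient.algebraMap_mk_of_liesOver, Ideal.Quotient.algebraMap_mk_of_liesOver,
          Ideal.Quotient.eq, ← map_sub] at hxy
        rw [Ideal.Quotient.eq, hov.over]
        exact hxy
      have e : (A ⧸ p) ≃ₗ[A ⧸ p] (B ⧸ Φ v) :=
        LinearEquiv.ofBijective (Algebra.linearMap (A ⧸ p) (B ⧸ Φ v)) ⟨hi, hs⟩
      rw [← e.finrank_eq, Module.finrank_self]
    rw [Place.ord, h2, h3, mul_one, WithZero.log_pow, WithZero.log_exp]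
    simp
  refine ⟨?_, ?_⟩
  · exact hbij.finite_iff_finite.2 (Finset.finite_toSet _)
  · have h1 := finsum_mem_eq_of_bijOn (f := fun w : Place k K => w.ord f)
      (g := fun P : Ideal B => ((p.ramificationIdx' P * p.inertiaDeg' P : ℕ) : ℤ)) Φ hbij
      (fun v hv => hord v hv)
    have h2 : (∑ᶠ (w : Place k K) (_ : w.v f < 1), w.ord f) =
        ∑ᶠ (w : Place k K) (_ : w ∈ {w : Place k K | w.v f < 1}), w.ord f := rfl
    rw [h2, h1, finsum_mem_coe_finset, ← Nat.cast_sum,
      Ideal.sum_ramification_inertia B F K hp0]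

theorem deg_zero (hK : IsFunctionField k K) (z : K) (hz : Transcendental k z) :
    ∃ N : ℕ, 0 < N ∧ {w : Place k K | w.v z < 1}.Finite ∧ {w : Place k K | 1 < w.v z}.Finite ∧
      (∑ᶠ (w : Place k K) (_ : w.v z < 1), w.ord z) = (N : ℤ) ∧
      (∑ᶠ (w : Place k K) (_ : 1 < w.v z), w.ord z) = -(N : ℤ) := by
  have hz0 : z ≠ 0 := by
    rintro rfl
    exact hz isAlgebraic_zero
  have hz' : Transcendental k z⁻¹ := by
    intro h
    exact hz (by simpa using h.inv)
  have hfin := Deg_fin hK z hz
  obtain ⟨h1, h2⟩ := Deg_zeros hK z hz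
  obtain ⟨h3, h4⟩ := Deg_zeros hK z⁻¹ hz'
  have hadj : IntermediateField.adjoin k {z⁻¹} = IntermediateField.adjoin k {z} := by
    apply le_antisymm
    · rw [IntermediateField.adjoin_simple_le_iff]
      exact inv_mem (IntermediateField.mem_adjoin_simple_self k z)
    · rw [IntermediateField.adjoin_simple_le_iff]
      have := inv_mem (IntermediateField.mem_adjoin_simple_self k z⁻¹)
      rwa [inv_inv] at this
  have hiff : ∀ w : Place k K, w.v z⁻¹ < 1 ↔ 1 < w.v z := by
    intro w
    have hw : w.v z ≠ 0 := (Valuation.ne_zero_iff _).2 hz0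
    rw [map_inv₀, inv_lt_one₀ (by rwa [zero_lt_iff])]
  have hset : {w : Place k K | w.v z⁻¹ < 1} = {w : Place k K | 1 < w.v z} := by
    ext w; exact hiff w
  refine ⟨Module.finrank (IntermediateField.adjoin k {z}) K, Module.finrank_pos, h1,
    hset ▸ h3, h2, ?_⟩
  have h5 : (∑ᶠ (w : Place k K) (_ : w.v z⁻¹ < 1), w.ord z⁻¹) =
      ∑ᶠ (w : Place k K) (_ : 1 < w.v z), - w.ord z := by
    refine finsum_congr fun w => ?_
    by_cases hw : 1 < w.v z
    · have h7 : w.ord z⁻¹ = - w.ord z := by
        rw [Place.ord, Place.ord, map_inv₀, WithZero.log_inv]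
      rw [finsum_eq_if, finsum_eq_if, if_pos hw, if_pos ((hiff w).2 hw), h7]
    · rw [finsum_eq_if, finsum_eq_if, if_neg hw, if_neg (mt (hiff w).1 hw)]
  have h6 : (∑ᶠ (w : Place k K) (_ : 1 < w.v z), - w.ord z) =
      - ∑ᶠ (w : Place k K) (_ : 1 < w.v z), w.ord z := by
    rw [← finsum_neg_distrib]
    refine finsum_congr fun w => ?_
    rw [← finsum_neg_distrib]
  rw [h6, h4, hadj] at h5
  linarith

end main

end HJ
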