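import Pool.Agent.H95.HJ.Defs

/-!
Basic facts on vectors of the plane, homogeneous coordinates and points (project HJ, helper95).
-/

namespace HJ

open ZC
open scoped Classical

section vec

variable {R : Type*} [CommRing R]

theorem dt_smul_left (c : R) (u v : Fin 2 → R) : dt (c • u) v = c * dt u v := by
  simp only [dt, Pi.smul_apply, smul_eq_mul]; ring

theorem dt_smul_right (c : R) (u v : Fin 2 → R) : dt u (c • v) = c * dt u v := by
  simp only [dt, Pi.smul_apply, smul_eq_mul]; ring

theorem dt_self (u : Fin 2 → R) : dt u u = 0 := by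
  simp only [dt]; ring

theorem dt_comm (u v : Fin 2 → R) : dt u v = - dt v u := by
  simp only [dt]; ring

theorem dt_add_left (u u' v : Fin 2 → R) : dt (u + u') v = dt u v + dt u' v := by
  simp only [dt, Pi.add_apply]; ring

theorem dt_add_right (u v v' : Fin 2 → R) : dt u (v + v') = dt u v + dt u v' := by
  simp only [dt, Pi.add_apply]; ring

theorem dt_sub_left (u u' v : Fin 2 → R) : dt (u - u') v = dt u v - dt u' v := by
  simp only [dt, Pi.sub_apply]; ring

theorem dt_sub_right (u v v' : Fin 2 → R) : dt u (v - v') = dt u v - dt u v' := by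
  simp only [dt, Pi.sub_apply]; ring

theorem dt_mulVec (M : Matrix (Fin 2) (Fin 2) R) (u v : Fin 2 → R) :
    dt (M.mulVec u) (M.mulVec v) = M.det * dt u v := by
  simp only [dt, Matrix.mulVec, dotProduct, Fin.sum_univ_two, Matrix.det_fin_two]; ring

/-- For a traceless matrix `M` the form `det (u, M v)` is symmetric. -/
theorem dt_mulVec_symm (M : Matrix (Fin 2) (Fin 2) R) (hM : M.trace = 0) (u v : Fin 2 → R) :
    dt u (M.mulVec v) = dt v (M.mulVec u) := by
  rw [Matrix.trace_fin_two] at hM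
  have h : M 1 1 = - M 0 0 := by linear_combination hM
  simp only [dt, Matrix.mulVec, dotProduct, Fin.sum_univ_two, h]; ring

/-- A traceless matrix of order two satisfies `M ^ 2 = - det M`. -/
theorem mulVec_mulVec (M : Matrix (Fin 2) (Fin 2) R) (hM : M.trace = 0) (v : Fin 2 → R) :
    M.mulVec (M.mulVec v) = (-M.det) • v := by
  rw [Matrix.trace_fin_two] at hM
  have h : M 1 1 = - M 0 0 := by linear_combination hM
  funext j
  fin_cases j
  · simp [Matrix.mulVec, dotProduct, Fin.sum_univ_two, Matrix.det_fin_two, h]; ring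
  · simp [Matrix.mulVec, dotProduct, Fin.sum_univ_two, Matrix.det_fin_two, h]; ring

/-- Cramer's rule. -/
theorem dt_cramer (u v w : Fin 2 → R) : dt u v • w = dt w v • u + dt u w • v := by
  funext j
  fin_cases j
  · simp [dt]; ring
  · simp [dt]; ring

end vec

section field

variable {L : Type*} [Field L]

theorem exists_smul_of_dt {u v : Fin 2 → L} (hu : u ≠ 0) (hv : v ≠ 0) (h : dt u v = 0) :
    ∃ c : L, c ≠ 0 ∧ v = c • u := by
  have key : ∃ c : L, v = c • u := by
    simp only [dt] at h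
    by_cases h0 : u 0 = 0
    · have h1 : u 1 ≠ 0 := by
        intro h1
        apply hu
        funext j
        fin_cases j
        · exact h0
        · exact h1
      refine ⟨v 1 / u 1, ?_⟩
      funext j
      fin_cases j
      · have h2 : v 0 = 0 := by
          rw [h0, zero_mul, zero_sub, neg_eq_zero] at h
          rcases mul_eq_zero.1 h with h | h
          · exact absurd h h1
          · exact h
        simp [h0, h2]
      · simp [div_mul_cancel₀ _ h1]
    · refine ⟨v 0 / u 0, ?_⟩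
      funext j
      fin_cases j
      · simp [div_mul_cancel₀ _ h0]
      · simp only [Fin.mk_one, Pi.smul_apply, smul_eq_mul]
        rw [div_mul_eq_mul_div, eq_div_iff h0]
        linear_combination h
  obtain ⟨c, hc⟩ := key
  refine ⟨c, ?_, hc⟩
  rintro rfl
  exact hv (by rw [hc, zero_smul])

theorem dt_eq_zero_of_smul {u v : Fin 2 → L} {c : L} (h : v = c • u) : dt u v = 0 := by
  rw [h, dt_smul_right, dt_self, mul_zero]

theorem mulVec_ne_zero {M : Matrix (Fin 2) (Fin 2) L} (hM : M.det ≠ 0) {v : Fin 2 → L}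
    (hv : v ≠ 0) : M.mulVec v ≠ 0 := by
  intro h
  apply hv
  have h1 : ∀ u : Fin 2 → L, dt u v = 0 := by
    intro u
    have h2 := dt_mulVec M u v
    rw [h] at h2
    have h3 : dt (M.mulVec u) (0 : Fin 2 → L) = 0 := by simp [dt]
    rw [h3] at h2
    rcases mul_eq_zero.1 h2.symm with h4 | h4
    · exact absurd h4 hM
    · exact h4
  funext j
  fin_cases j
  · have := h1 ![0, 1]
    simpa [dt] using this
  · have := h1 ![1, 0]
    simpa [dt] using this

end field

section curve

variable {k : Type} [Field k] {n : ℕ} (H : Hyp k n)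

theorem Hyp.r_ne (i : Fin (2 * n)) : H.r i ≠ 0 := by
  intro h
  have hn := H.two_le
  obtain ⟨j, hj⟩ : ∃ j : Fin (2 * n), i ≠ j := by
    by_cases hi : i = ⟨0, by omega⟩
    · refine ⟨⟨1, by omega⟩, ?_⟩
      rw [hi]
      intro h
      simpa using congrArg Fin.val h
    · exact ⟨_, hi⟩
  apply H.indep i j hj
  rw [h]
  simp [dt]

/-- A vector over `k` as a vector over `K`. -/
def cst (K : Type) [Field K] [Algebra k K] (v : Fin 2 → k) : Fin 2 → K :=
  fun j => algebraMap k K (v j)

variable {K : Type} [Field K] [Algebra k K]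

theorem dt_cst (u v : Fin 2 → k) : dt (cst K u) (cst K v) = algebraMap k K (dt u v) := by
  simp [dt, cst]

theorem cst_self (v : Fin 2 → k) : cst k v = v := rfl

theorem cst_ne {v : Fin 2 → k} (hv : v ≠ 0) : cst K v ≠ 0 := by
  intro h
  apply hv
  funext j
  have := congrFun h j
  simpa [cst] using this

theorem cst_mulVec (M : Matrix (Fin 2) (Fin 2) k) (v : Fin 2 → k) :
    cst K (M.mulVec v) = (M.map (algebraMap k K)).mulVec (cst K v) := by
  funext j
  simp [cst, Matrix.mulVec, dotProduct, Fin.sum_univ_two]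

theorem Hyp.F_def (v : Fin 2 → K) : H.F v = ∏ i, dt (cst K (H.r i)) v := rfl

theorem Hyp.F_cst (v : Fin 2 → k) : H.F (cst K v) = algebraMap k K (H.F v) := by
  rw [Hyp.F_def, Hyp.F_def, map_prod]
  refine Finset.prod_congr rfl fun i _ => ?_
  rw [dt_cst, cst_self]

theorem Hyp.F_smul (c : K) (v : Fin 2 → K) : H.F (c • v) = (c ^ n) ^ 2 * H.F v := by
  rw [Hyp.F_def, Hyp.F_def]
  simp only [dt_smul_right]
  rw [Finset.prod_mul_distrib, Finset.prod_const, Finset.card_univ, Fintype.card_fin, ← pow_mul,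
    mul_comm n 2]

theorem Hyp.F_map {L : Type} [Field L] [Algebra k L] (φ : K →ₐ[k] L) (v : Fin 2 → K) :
    H.F (fun j => φ (v j)) = φ (H.F v) := by
  rw [Hyp.F_def, Hyp.F_def, map_prod]
  refine Finset.prod_congr rfl fun i _ => ?_
  simp [dt, cst]

variable {H}

/-- Multiplication of the homogeneous coordinates by a constant. -/
def Hyp.Tri.smul (t : H.Tri K) (c : K) (hc : c ≠ 0) : H.Tri K :=
  ⟨c • t.v, c ^ n * t.y, smul_ne_zero hc t.ne, by rw [H.F_smul, mul_pow, t.eq]⟩

/-- The hyperelliptic involution. -/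
def Hyp.Tri.neg (t : H.Tri K) : H.Tri K := ⟨t.v, -t.y, t.ne, by rw [neg_sq]; exact t.eq⟩

/-- Homogeneous coordinates over `k` as homogeneous coordinates over `K`. -/
def Hyp.Tri.bc (K : Type) [Field K] [Algebra k K] (t : H.Tri k) : H.Tri K :=
  ⟨cst K t.v, algebraMap k K t.y, cst_ne t.ne, by rw [H.F_cst, ← t.eq, map_pow]⟩

/-- The point with given homogeneous coordinates. -/
def Hyp.Tri.mk' (t : H.Tri k) : H.Pt := Quotient.mk H.setoid t

theorem mk'_eq_iff (s t : H.Tri k) :
    s.mk' = t.mk' ↔ ∃ c : k, c ≠ 0 ∧ t.v = c • s.v ∧ t.y = c ^ n * s.y :=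
  ⟨fun h => Quotient.exact h, fun h => Quotient.sound h⟩

theorem mk'_smul (t : H.Tri k) (c : k) (hc : c ≠ 0) : (t.smul c hc).mk' = t.mk' :=
  ((mk'_eq_iff _ _).2 ⟨c, hc, rfl, rfl⟩).symm

theorem mk'_neg (t : H.Tri k) : t.neg.mk' = t.mk'.inv := rfl

theorem exists_mk' (P : H.Pt) : ∃ t : H.Tri k, t.mk' = P := Quotient.exists_rep P

theorem Pt.inv_inv (P : H.Pt) : P.inv.inv = P := by
  obtain ⟨t, rfl⟩ := exists_mk' P
  rw [← mk'_neg, ← mk'_neg]
  congr 1
  cases t
  simp [Hyp.Tri.neg]

/-- Points with proportional coordinates `(X, Z)` are equal or interchanged by the involution. -/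
theorem eq_or_inv (s t : H.Tri k) (h : dt s.v t.v = 0) : t.mk' = s.mk' ∨ t.mk' = s.mk'.inv := by
  obtain ⟨c, hc, h1⟩ := exists_smul_of_dt s.ne t.ne h
  have h2 : t.y ^ 2 = (c ^ n * s.y) ^ 2 := by
    rw [t.eq, h1, H.F_smul, mul_pow, s.eq]
  rcases sq_eq_sq_iff_eq_or_eq_neg.1 h2 with h3 | h3
  · left
    exact ((mk'_eq_iff _ _).2 ⟨c, hc, h1, h3⟩).symm
  · right
    rw [← mk'_neg]
    refine ((mk'_eq_iff s.neg t).2 ⟨c, hc, h1, ?_⟩).symm
    rw [h3]
    simp [Hyp.Tri.neg]

end curve

end HJ
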