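import Pool.Agent.H95.HJ.Defs

/-!
# Curves of genus two

The curves `y ^ 2 = (x - a 0) ⋯ (x - a 4)` (project HJ, third part).
-/

namespace HJ

/-- The curve `y ^ 2 = (x - a 0) (x - a 1) (x - a 2) (x - a 3) (x - a 4)` of genus two, with the branch
points `a 0, …, a 4, ∞`. -/
def quint {k : Type} [Field k] (a : Fin 5 → k) (ha : Function.Injective a) : Hyp k 3 where
  r i := if h : (i : ℕ) < 5 then ![a ⟨i, h⟩, 1] else ![-1, 0]
  two_le := by norm_num
  indep := by
    intro i j hij
    by_cases hi : (i : ℕ) < 5
    · by_cases hj : (j : ℕ) < 5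
      · simp only [dif_pos hi, dif_pos hj, dt, Matrix.cons_val_zero, Matrix.cons_val_one, mul_one,
          one_mul]
        intro h
        apply hij
        have h1 := ha (sub_eq_zero.1 h)
        rw [Fin.mk.injEq] at h1
        exact Fin.ext h1
      · simp [dif_pos hi, dif_neg hj, dt]
    · by_cases hj : (j : ℕ) < 5
      · simp [dif_neg hi, dif_pos hj, dt]
      · exact absurd (Fin.ext (by omega)) hij

end HJ
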