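import Mathlib

/-!
Module AlgM (project HJ, helper95).  An expansion of a product in a torsion free commutative ring.
-/

namespace HJ

open scoped Classical

private lemma expand {S : Type*} [CommRing S] {PP : Type*} (e : PP → S) (κ : S)
    (s : Multiset PP) (he : ∀ P ∈ s, e P * e P = 0) :
    ∃ c : ℕ → S, (∀ j, (j.factorial : S) * c j = (s.map e).sum ^ j) ∧
      (∀ j, Multiset.card s < j → c j = 0) ∧
      (s.map fun P => κ + e P).prod =
        ∑ j ∈ Finset.range (Multiset.card s + 1), κ ^ (Multiset.card s - j) * c j := by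
  induction s using Multiset.induction_on with
  | empty =>
    refine ⟨fun j => if j = 0 then 1 else 0, ?_, ?_, ?_⟩
    · intro j
      rcases Nat.eq_zero_or_pos j with h | h
      · subst h; simp
      · have : j ≠ 0 := h.ne'
        simp [this]
    · intro j hj
      have : j ≠ 0 := by
        simp at hj; omega
      simp [this]
    · simp
  | cons a t ih =>
    obtain ⟨c, hc1, hc2, hc3⟩ := ih (fun P hP => he P (Multiset.mem_cons_of_mem hP))
    have ha : e a * e a = 0 := he a (Multiset.mem_cons_self a t)
    refine ⟨fun j => c j + (if j = 0 then 0 else c (j - 1) * e a), ?_, ?_, ?_⟩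
    · intro j
      rcases j with _ | j
      · simpa using hc1 0
      · have key : ∀ (E x : S), x * x = 0 → (E + x) ^ (j + 1) =
            E ^ (j + 1) + ((j : S) + 1) * E ^ j * x := by
          intro E x hx
          induction j with
          | zero => simp
          | succ j ihj =>
            rw [pow_succ, ihj]
            push_cast
            have : E ^ j * x * x = 0 := by rw [mul_assoc, hx, mul_zero]
            linear_combination ((j : S) + 1) * this
        have h1 := hc1 (j + 1)
        have h2 := hc1 j
        simp only [Multiset.map_cons, Multiset.sum_cons, Nat.add_sub_cancel, Nat.succ_ne_zero,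
          if_false]
        rw [add_comm (e a), key _ _ ha, ← h1, ← h2, Nat.factorial_succ]
        push_cast
        ring
    · intro j hj
      rw [Multiset.card_cons] at hj
      have h0 : j ≠ 0 := by omega
      simp only [h0, if_false]
      rw [hc2 j (by omega), hc2 (j - 1) (by omega)]
      simp
    · rw [Multiset.map_cons, Multiset.prod_cons, hc3, Multiset.card_cons]
      set n := Multiset.card t
      have e1 : ∑ j ∈ Finset.range (n + 1 + 1), κ ^ (n + 1 - j) *
          (c j + (if j = 0 then 0 else c (j - 1) * e a)) =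
          ∑ j ∈ Finset.range (n + 1 + 1), κ ^ (n + 1 - j) * c j +
          ∑ j ∈ Finset.range (n + 1 + 1), κ ^ (n + 1 - j) *
            (if j = 0 then 0 else c (j - 1) * e a) := by
        rw [← Finset.sum_add_distrib]
        exact Finset.sum_congr rfl fun j _ => by ring
      rw [e1, Finset.sum_range_succ (fun j => κ ^ (n + 1 - j) * c j) (n + 1),
        hc2 (n + 1) (by omega), mul_zero, add_zero,
        Finset.sum_range_succ' (fun j => κ ^ (n + 1 - j) * (if j = 0 then 0 else c (j - 1) * e a))]
      simp only [Nat.succ_ne_zero, if_false, if_true, Nat.add_sub_cancel, mul_zero, add_zero,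
        Nat.add_sub_add_right]
      rw [add_mul, Finset.mul_sum, Finset.mul_sum]
      congr 1
      · refine Finset.sum_congr rfl fun j hj => ?_
        have : n + 1 - j = (n - j) + 1 := by
          have := Finset.mem_range.mp hj; omega
        rw [this, pow_succ]; ring
      · exact Finset.sum_congr rfl fun j hj => by ring

theorem one_type {S : Type*} [CommRing S] (hS : ∀ (m : ℕ) (x : S), m ≠ 0 → (m : S) * x = 0 → x = 0)
    {PP : Type*} (x e : PP → S) (κ : S) (s : Multiset PP) (h2 : ∀ P ∈ s, 2 * x P = κ + e P)
    (he : ∀ P ∈ s, e P * e P = 0) (hE : (s.map e).sum * (s.map e).sum = 0) :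
    2 ^ Multiset.card s * (s.map x).prod =
      κ ^ Multiset.card s + κ ^ (Multiset.card s - 1) * (s.map e).sum := by
  obtain ⟨c, hc1, hc2, hc3⟩ := expand e κ s he
  have hc0 : c 0 = 1 := by simpa using hc1 0
  have hcone : c 1 = (s.map e).sum := by simpa using hc1 1
  have hcj : ∀ j, 2 ≤ j → c j = 0 := by
    intro j hj
    apply hS j.factorial (c j) (Nat.factorial_ne_zero j)
    rw [hc1 j]
    obtain ⟨i, rfl⟩ := Nat.exists_eq_add_of_le hj
    rw [pow_add, pow_two, hE, zero_mul]
  have hL : 2 ^ Multiset.card s * (s.map x).prod = (s.map fun P => κ + e P).prod := by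
    rw [← Multiset.prod_replicate, ← Multiset.map_const', ← Multiset.prod_map_mul]
    exact congrArg Multiset.prod (Multiset.map_congr rfl fun P hP => h2 P hP)
  rw [hL, hc3]
  rcases Nat.eq_zero_or_pos (Multiset.card s) with h | h
  · have : s = 0 := Multiset.card_eq_zero.mp h
    subst this
    simp [hc0]
  · obtain ⟨n, hn⟩ := Nat.exists_eq_add_of_le h
    rw [hn, show 0 + 1 + n + 1 = n + 1 + 1 by omega, Finset.sum_range_succ', Finset.sum_range_succ',
      Finset.sum_eq_zero (fun j _ => by rw [hcj (j + 1 + 1) (by omega), mul_zero])]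
    simp only [zero_add, Nat.sub_zero, hc0, hcone, mul_one]
    ring

private lemma prod_aux {S : Type*} [CommRing S]
    (hS : ∀ (m : ℕ) (x : S), m ≠ 0 → (m : S) * x = 0 → x = 0)
    {PP ι : Type*} (ty : PP → ι) (x e : PP → S) (κ : ι → S) (h2 : ∀ P, 2 * x P = κ (ty P) + e P)
    (he : ∀ P, e P * e P = 0) (I : Finset ι) : ∀ (s : Multiset PP),
    (∀ P ∈ s, ty P ∈ I) →
    (∀ i j, ((s.filter fun P => ty P = i).map e).sum *
      ((s.filter fun P => ty P = j).map e).sum = 0) →
    2 ^ (∑ i ∈ I, Multiset.card (s.filter fun P => ty P = i)) * (s.map x).prod =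
      ∏ i ∈ I, κ i ^ Multiset.card (s.filter fun P => ty P = i) +
      ∑ i ∈ I, (κ i ^ (Multiset.card (s.filter fun P => ty P = i) - 1) *
        ∏ j ∈ I.erase i, κ j ^ Multiset.card (s.filter fun P => ty P = j)) *
        ((s.filter fun P => ty P = i).map e).sum := by
  induction I using Finset.induction_on with
  | empty =>
    intro s hI _
    have : s = 0 := Multiset.eq_zero_of_forall_notMem fun P hP => by simpa using hI P hP
    subst this
    simp
  | insert i I hi ih =>
    intro s hI hE
    set s1 := s.filter (fun P => ty P = i) with hs1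
    set s2 := s.filter (fun P => ¬ ty P = i) with hs2
    have hs : s = s1 + s2 := (Multiset.filter_add_not _ s).symm
    have hf : ∀ j, j ≠ i → s2.filter (fun P => ty P = j) = s.filter (fun P => ty P = j) := by
      intro j hj
      rw [hs2, Multiset.filter_filter]
      apply Multiset.filter_congr
      intro P _
      constructor
      · rintro ⟨h, _⟩; exact h
      · intro h; exact ⟨h, fun h' => hj (h.symm.trans h')⟩
    have hf0 : s2.filter (fun P => ty P = i) = 0 := by
      rw [hs2, Multiset.filter_filter, Multiset.filter_eq_nil]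
      rintro P _ ⟨h, h'⟩
      exact h' h
    have hI2 : ∀ P ∈ s2, ty P ∈ I := by
      intro P hP
      have h := Multiset.mem_filter.mp hP
      have := Finset.mem_insert.mp (hI P h.1)
      rcases this with h' | h'
      · exact absurd h' h.2
      · exact h'
    have hE2 : ∀ a b, ((s2.filter fun P => ty P = a).map e).sum *
        ((s2.filter fun P => ty P = b).map e).sum = 0 := by
      intro a b
      by_cases ha : a = i
      · rw [ha, hf0]; simp
      · by_cases hb : b = i
        · rw [hb, hf0]; simp
        · rw [hf a ha, hf b hb]; exact hE a b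
    have h1 := one_type hS x e (κ i) s1 (fun P hP => by
        rw [h2 P, (Multiset.mem_filter.mp hP).2]) (fun P _ => he P) (hE i i)
    have h3 := ih s2 hI2 hE2
    have hne : ∀ j ∈ I, j ≠ i := fun j hj h => hi (h ▸ hj)
    have c1 : ∑ j ∈ I, Multiset.card (s2.filter fun P => ty P = j) =
        ∑ j ∈ I, Multiset.card (s.filter fun P => ty P = j) :=
      Finset.sum_congr rfl fun j hj => by rw [hf j (hne j hj)]
    have c2 : ∏ j ∈ I, κ j ^ Multiset.card (s2.filter fun P => ty P = j) =
        ∏ j ∈ I, κ j ^ Multiset.card (s.filter fun P => ty P = j) :=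
      Finset.prod_congr rfl fun j hj => by rw [hf j (hne j hj)]
    have c3 : ∑ j ∈ I, (κ j ^ (Multiset.card (s2.filter fun P => ty P = j) - 1) *
        ∏ l ∈ I.erase j, κ l ^ Multiset.card (s2.filter fun P => ty P = l)) *
        ((s2.filter fun P => ty P = j).map e).sum =
        ∑ j ∈ I, (κ j ^ (Multiset.card (s.filter fun P => ty P = j) - 1) *
        ∏ l ∈ I.erase j, κ l ^ Multiset.card (s.filter fun P => ty P = l)) *
        ((s.filter fun P => ty P = j).map e).sum := by
      refine Finset.sum_congr rfl fun j hj => ?_
      rw [hf j (hne j hj)]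
      congr 2
      exact Finset.prod_congr rfl fun l hl => by
        rw [hf l (hne l (Finset.mem_of_mem_erase hl))]
    rw [c1, c2, c3] at h3
    have hprod : (s.map x).prod = (s1.map x).prod * (s2.map x).prod := by
      conv_lhs => rw [hs]
      rw [Multiset.map_add, Multiset.prod_add]
    rw [Finset.sum_insert hi, Finset.prod_insert hi, Finset.sum_insert hi, Finset.erase_insert hi,
      hprod, pow_add]
    have c4 : ∑ j ∈ I, (κ j ^ (Multiset.card (s.filter fun P => ty P = j) - 1) *
        ∏ l ∈ (insert i I).erase j, κ l ^ Multiset.card (s.filter fun P => ty P = l)) *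
        ((s.filter fun P => ty P = j).map e).sum =
        κ i ^ Multiset.card s1 *
        ∑ j ∈ I, (κ j ^ (Multiset.card (s.filter fun P => ty P = j) - 1) *
        ∏ l ∈ I.erase j, κ l ^ Multiset.card (s.filter fun P => ty P = l)) *
        ((s.filter fun P => ty P = j).map e).sum := by
      rw [Finset.mul_sum]
      refine Finset.sum_congr rfl fun j hj => ?_
      rw [Finset.erase_insert_of_ne (hne j hj).symm, Finset.prod_insert (fun h =>
        hi (Finset.mem_of_mem_erase h))]
      ring
    rw [c4]
    have hz : (s1.map e).sum * ∑ j ∈ I, (κ j ^ (Multiset.card (s.filter fun P => ty P = j) - 1) *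
        ∏ l ∈ I.erase j, κ l ^ Multiset.card (s.filter fun P => ty P = l)) *
        ((s.filter fun P => ty P = j).map e).sum = 0 := by
      rw [Finset.mul_sum]
      refine Finset.sum_eq_zero fun j _ => ?_
      have := hE i j
      rw [← hs1] at this
      linear_combination (κ j ^ (Multiset.card (s.filter fun P => ty P = j) - 1) *
        ∏ l ∈ I.erase j, κ l ^ Multiset.card (s.filter fun P => ty P = l)) * this
    set A := κ i ^ Multiset.card s1
    set B := κ i ^ (Multiset.card s1 - 1)
    set E1 := (s1.map e).sum
    set Q := ∑ j ∈ I, (κ j ^ (Multiset.card (s.filter fun P => ty P = j) - 1) *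
        ∏ l ∈ I.erase j, κ l ^ Multiset.card (s.filter fun P => ty P = l)) *
        ((s.filter fun P => ty P = j).map e).sum
    set R := ∏ j ∈ I, κ j ^ Multiset.card (s.filter fun P => ty P = j)
    calc 2 ^ Multiset.card s1 * 2 ^ (∑ j ∈ I, Multiset.card (s.filter fun P => ty P = j)) *
          ((s1.map x).prod * (s2.map x).prod)
        = (2 ^ Multiset.card s1 * (s1.map x).prod) *
          (2 ^ (∑ j ∈ I, Multiset.card (s.filter fun P => ty P = j)) * (s2.map x).prod) := by ring
      _ = (A + B * E1) * (R + Q) := by rw [h1, h3]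
      _ = A * R + (B * R * E1 + A * Q) := by linear_combination B * hz

theorem prod_formula {S : Type*} [CommRing S]
    (hS : ∀ (m : ℕ) (x : S), m ≠ 0 → (m : S) * x = 0 → x = 0)
    {PP ι : Type*} (ty : PP → ι) (x e : PP → S) (κ : ι → S) (h2 : ∀ P, 2 * x P = κ (ty P) + e P)
    (he : ∀ P, e P * e P = 0) (I : Finset ι) (m : ι → ℕ) (s : Multiset PP)
    (hI : ∀ P ∈ s, ty P ∈ I) (hm : ∀ i, Multiset.card (s.filter fun P => ty P = i) = m i)
    (hE : ∀ i j, ((s.filter fun P => ty P = i).map e).sum *
      ((s.filter fun P => ty P = j).map e).sum = 0) :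
    2 ^ (∑ i ∈ I, m i) * (s.map x).prod = ∏ i ∈ I, κ i ^ m i +
      ∑ i ∈ I, (κ i ^ (m i - 1) * ∏ j ∈ I.erase i, κ j ^ m j) *
        ((s.filter fun P => ty P = i).map e).sum := by
  have hm' : m = fun i => Multiset.card (s.filter fun P => ty P = i) := funext fun i => (hm i).symm
  rw [hm']
  exact prod_aux hS ty x e κ h2 he I s hI hE

end HJ
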