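import Pool.Agent.H95.HJ.LemB

/-!
Module LinkII (project HJ, helper95).  e_P e_Q is torsion if P and Q are linked by a Moebius transformation that maps all but one of the
branch points of C_i to branch points of C_j.
PROOF.  s, t representatives, t.v = M s.v (exact_over).  If s.y = 0 or t.y = 0: ep_left, ep_right.  c = r_(i₀), d the vector with M d = r'_(σ i₀)
(M invertible).  If dt c d = 0 then iso_full.  G(v) = prod over a ≠ i₀ of dt (r_a, v).
F_i(v) = G(v) dt(c,v), F_j(M v) = κ G(v) dt(d,v), κ <> 0 a constant (M r_a = μ_a r'_(σ a), dt_mulVec), κ = ρ^2.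
G(s.v), dt(c,s.v), dt(d,s.v) are not 0 because s.y, t.y are not 0.  u₀ = s.y t.y / (ρ G(s.v) dt(d,s.v)), u₀^2 = dt(c,s.v) / dt(d,s.v), u₀ <> 0.
Curve (exists_curve): V j = C (c j) * (1 - X)^2 - C (u₀^2 * d j) * (1 + X)^2, so T.v = (1-z)^2 c - u₀^2 (1+z)^2 d; u = u₀ (1+z)/(1-z);
dt(c,T.v) = -u₀^2 (1+z)^2 dt(c,d), dt(d,T.v) = -(1-z)^2 dt(c,d), quotient u^2; T.y <> 0 (F(T.v) <> 0: T.v is not proportional to a constant vector: it
is a combination of the independent vectors c, d with coefficients whose quotient is transcendental).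
T' = (M T.v, y'), y' = ρ G(T.v) dt(d,T.v) u / T.y.
fib_pair with a = b = 1, c = d = 0.  Place w with w.v z < 1: T.v ≡ c - u₀^2 d = μ s.v (dt(c - u₀^2 d, s.v) = 0, nonzero vector), so
Cong w (μ⁻¹ • T.v) s.v, spec_lift: t₁.v = s.v, μ⁻ⁿ T.y ≡ t₁.y, and Cong w (μ⁻¹ • T'.v) t.v, t₂.v = t.v, μ⁻ⁿ T'.y ≡ t₂.y;
multiplying: t₁.y t₂.y = ρ G(s.v) dt(d,s.v) u₀ = s.y t.y (G has degree 2n-1), t₁.y = ± s.y, t₂.y = ± t.y with the same sign:
(p, q) = (P, Q) or (inv P, inv Q), the cycle is pr P Q + pr (inv P) (inv Q).  1 < w.v z: multiply by z⁻²: z⁻² T.v ≡ c - u₀^2 d, u ≡ -u₀, opposite signs: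
the cycle is pr P (inv Q) + pr (inv P) Q.  The difference is ep P Q.
-/

namespace HJ

open ZC
open scoped Classical

section cong

variable {k K : Type} [Field k] [Field K] [Algebra k K]

/-- Congruence of a function and a constant at a place. -/
private def Cg (w : Place k K) (x : K) (a : k) : Prop := w.v (x - algebraMap k K a) < 1

private theorem cg_const (w : Place k K) (a : k) : Cg w (algebraMap k K a) a := by
  unfold Cg
  rw [sub_self, map_zero]
  exact zero_lt_one

private theorem const_le (w : Place k K) (a : k) : w.v (algebraMap k K a) ≤ 1 := by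
  by_cases ha : a = 0
  · rw [ha, map_zero, map_zero]
    exact zero_le_one
  · rw [w.triv a ha]

private theorem cg_le {w : Place k K} {x : K} {a : k} (h : Cg w x a) : w.v x ≤ 1 := by
  have h1 : x = (x - algebraMap k K a) + algebraMap k K a := by ring
  rw [h1]
  exact (w.v.map_add _ _).trans (max_le (le_of_lt h) (const_le w a))

private theorem cg_add {w : Place k K} {x y : K} {a b : k} (h : Cg w x a) (h' : Cg w y b) :
    Cg w (x + y) (a + b) := by
  unfold Cg
  have h1 : x + y - algebraMap k K (a + b) = (x - algebraMap k K a) + (y - algebraMap k K b) := by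
    rw [map_add]; ring
  rw [h1]
  exact w.v.map_add_lt h h'

private theorem cg_neg {w : Place k K} {x : K} {a : k} (h : Cg w x a) : Cg w (-x) (-a) := by
  unfold Cg
  have h1 : -x - algebraMap k K (-a) = -(x - algebraMap k K a) := by
    rw [map_neg]; ring
  rw [h1, Valuation.map_neg]
  exact h

private theorem cg_mul {w : Place k K} {x y : K} {a b : k} (h : Cg w x a) (h' : Cg w y b) :
    Cg w (x * y) (a * b) := by
  unfold Cg
  have h1 : x * y - algebraMap k K (a * b) =
      (x - algebraMap k K a) * y + algebraMap k K a * (y - algebraMap k K b) := by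
    rw [map_mul]; ring
  rw [h1]
  refine w.v.map_add_lt ?_ ?_
  · rw [map_mul]
    exact mul_lt_one_of_lt_of_le h (cg_le h')
  · rw [map_mul, mul_comm]
    exact mul_lt_one_of_lt_of_le h' (const_le w a)

private theorem cg_unique {w : Place k K} {x : K} {a b : k} (h : Cg w x a) (h' : Cg w x b) :
    a = b := by
  by_contra hne
  have h1 : w.v (algebraMap k K (a - b)) = 1 := w.triv _ (sub_ne_zero.2 hne)
  have h2 : algebraMap k K (a - b) = (x - algebraMap k K b) + -(x - algebraMap k K a) := by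
    rw [map_sub]; ring
  have h3 : w.v (algebraMap k K (a - b)) < 1 := by
    rw [h2]
    refine w.v.map_add_lt h' ?_
    rw [Valuation.map_neg]
    exact h
  rw [h1] at h3
  exact lt_irrefl _ h3

private theorem cg_prod {w : Place k K} {α : Type} (S : Finset α) {f : α → K} {g : α → k}
    (h : ∀ a ∈ S, Cg w (f a) (g a)) : Cg w (∏ a ∈ S, f a) (∏ a ∈ S, g a) := by
  induction S using Finset.induction_on with
  | empty =>
    rw [Finset.prod_empty, Finset.prod_empty]
    have := cg_const w (1 : k)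
    rwa [map_one] at this
  | insert a S ha ih =>
    rw [Finset.prod_insert ha, Finset.prod_insert ha]
    exact cg_mul (h a (Finset.mem_insert_self a S))
      (ih fun b hb => h b (Finset.mem_insert_of_mem hb))

private theorem cg_small {w : Place k K} {x : K} (h : w.v x < 1) : Cg w x 0 := by
  unfold Cg
  rw [map_zero, sub_zero]
  exact h

/-- the inverse of a function congruent to a nonzero constant -/
private theorem cg_inv {w : Place k K} {x : K} {a : k} (ha : a ≠ 0) (h : Cg w x a) :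
    Cg w x⁻¹ a⁻¹ := by
  have ha' : algebraMap k K a ≠ 0 := by rwa [Ne, map_eq_zero]
  have hx : w.v x = 1 := by
    refine le_antisymm (cg_le h) ?_
    by_contra hlt
    push Not at hlt
    have h1 := cg_unique (cg_small hlt) h
    exact ha h1.symm
  have hx0 : x ≠ 0 := by
    rintro rfl
    rw [map_zero] at hx
    exact zero_ne_one hx
  unfold Cg
  have h1 : x⁻¹ - algebraMap k K a⁻¹ = -((x - algebraMap k K a) * (x⁻¹ * (algebraMap k K a)⁻¹)) := by
    rw [map_inv₀]
    field_simp
    ring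
  rw [h1, Valuation.map_neg, map_mul, map_mul, map_inv₀, map_inv₀, hx, w.triv a ha, inv_one, mul_one,
    mul_one]
  exact h

end cong

section form

variable {k : Type} [Field k]

/-- The product of all but one of the linear forms. -/
private def GG {m : ℕ} (r : Fin m → Fin 2 → k) (i₀ : Fin m) (K : Type) [Field K] [Algebra k K]
    (v : Fin 2 → K) : K :=
  ∏ a ∈ Finset.univ.erase i₀, dt (cst K (r a)) v

private theorem GG_smul {m : ℕ} (r : Fin m → Fin 2 → k) (i₀ : Fin m) (K : Type) [Field K]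
    [Algebra k K] (e : K) (v : Fin 2 → K) : GG r i₀ K (e • v) = e ^ (m - 1) * GG r i₀ K v := by
  unfold GG
  simp only [dt_smul_right]
  rw [Finset.prod_mul_distrib, Finset.prod_const, Finset.card_erase_of_mem (Finset.mem_univ _),
    Finset.card_univ, Fintype.card_fin]

private theorem F_eq_GG {m : ℕ} (H : Hyp k m) (i₀ : Fin (2 * m)) (K : Type) [Field K]
    [Algebra k K] (v : Fin 2 → K) : H.F v = dt (cst K (H.r i₀)) v * GG H.r i₀ K v := by
  rw [Hyp.F_def]
  unfold GG
  exact (Finset.mul_prod_erase Finset.univ (fun a => dt (cst K (H.r a)) v)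
    (Finset.mem_univ i₀)).symm

private theorem det_map (M : Matrix (Fin 2) (Fin 2) k) (K : Type) [Field K] [Algebra k K] :
    (M.map (algebraMap k K)).det = algebraMap k K M.det := by
  rw [Matrix.det_fin_two, Matrix.det_fin_two]
  simp

private theorem cst_smul (K : Type) [Field K] [Algebra k K] (l : k) (v : Fin 2 → k) :
    cst K (l • v) = algebraMap k K l • cst K v := by
  funext j
  simp [cst]

private theorem F_mulVec {m m' : ℕ} (H : Hyp k m) (H' : Hyp k m') (M : Matrix (Fin 2) (Fin 2) k)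
    (hM : M.det ≠ 0) (σ : Fin (2 * m) ≃ Fin (2 * m')) (i₀ : Fin (2 * m))
    (hσ : ∀ a, a ≠ i₀ → dt (M.mulVec (H.r a)) (H'.r (σ a)) = 0) (d : Fin 2 → k)
    (hd : M.mulVec d = H'.r (σ i₀)) :
    ∃ κ : k, κ ≠ 0 ∧ ∀ (K : Type) [Field K] [Algebra k K] (v : Fin 2 → K),
      H'.F ((M.map (algebraMap k K)).mulVec v) =
        algebraMap k K κ * (GG H.r i₀ K v * dt (cst K d) v) := by
  have hl : ∀ a, ∃ l : k, l ≠ 0 ∧ (a ≠ i₀ → H'.r (σ a) = l • M.mulVec (H.r a)) := by
    intro a
    by_cases ha : a = i₀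
    · exact ⟨1, one_ne_zero, fun h => absurd ha h⟩
    · obtain ⟨l, hl, h⟩ := exists_smul_of_dt (mulVec_ne_zero hM (H.r_ne a)) (H'.r_ne (σ a)) (hσ a ha)
      exact ⟨l, hl, fun _ => h⟩
  choose l hl0 hl using hl
  refine ⟨M.det * ∏ a ∈ Finset.univ.erase i₀, (l a * M.det), mul_ne_zero hM
    (Finset.prod_ne_zero_iff.2 fun a _ => mul_ne_zero (hl0 a) hM), ?_⟩
  intro K _ _ v
  rw [Hyp.F_def, ← Equiv.prod_comp σ, ← Finset.mul_prod_erase Finset.univ _ (Finset.mem_univ i₀),
    ← hd, cst_mulVec, dt_mulVec, det_map]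
  have h1 : ∀ a ∈ Finset.univ.erase i₀,
      dt (cst K (H'.r (σ a))) ((M.map (algebraMap k K)).mulVec v) =
        algebraMap k K (l a * M.det) * dt (cst K (H.r a)) v := by
    intro a ha
    rw [hl a (Finset.ne_of_mem_erase ha), cst_smul, dt_smul_left, cst_mulVec, dt_mulVec, det_map,
      map_mul]
    ring
  rw [Finset.prod_congr rfl h1, Finset.prod_mul_distrib, ← map_prod, map_mul]
  unfold GG
  ring

end form

section place

variable {k K : Type} [Field k] [IsAlgClosed k] [CharZero k] [Field K] [Algebra k K]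

private theorem GG_cong {m : ℕ} (r : Fin m → Fin 2 → k) (i₀ : Fin m) {w : Place k K}
    {u : Fin 2 → K} {a : Fin 2 → k} (h : Cong w u a) : Cg w (GG r i₀ K u) (GG r i₀ k a) := by
  unfold GG
  refine cg_prod _ fun b _ => ?_
  exact dt_cong w (fun j => cg_const w (r b j)) h

private theorem place_lemma {m m' : ℕ} {H : Hyp k m} {H' : Hyp k m'} (hmm : m' = m)
    (hK : IsFunctionField k K) (w : Place k K) (M : Matrix (Fin 2) (Fin 2) k) (d : Fin 2 → k)
    (i₀ : Fin (2 * m)) (ρ u₁ : k) (u : K) (T : H.Tri K) (T' : H'.Tri K)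
    (hT' : T'.v = (M.map (algebraMap k K)).mulVec T.v)
    (hyy : T.y * T'.y = algebraMap k K ρ * (GG H.r i₀ K T.v * dt (cst K d) T.v) * u)
    (s : H.Tri k) (t : H'.Tri k) (ht : t.v = M.mulVec s.v) (e : K) (he : Cong w (e • T.v) s.v)
    (hu : Cg w u u₁) (p : H.Pt) (q : H'.Pt) (hp : Spec w T p) (hq : Spec w T' q) :
    ∃ (t₁ : H.Tri k) (t₂ : H'.Tri k), t₁.v = s.v ∧ t₂.v = t.v ∧ p = t₁.mk' ∧ q = t₂.mk' ∧
      t₁.y * t₂.y = ρ * (GG H.r i₀ k s.v * dt d s.v) * u₁ := by
  subst hmm
  obtain ⟨t₁, h1, h2, h3⟩ := spec_lift hK w T e s.v s.ne he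
  have he' : Cong w (e • T'.v) t.v := by
    rw [hT', ht, ← Matrix.mulVec_smul]
    exact mulVec_cong w M he
  obtain ⟨t₂, g1, g2, g3⟩ := spec_lift hK w T' e t.v t.ne he'
  refine ⟨t₁, t₂, h1, g1, Spec.unique hK w T hp h3, Spec.unique hK w T' hq g3, ?_⟩
  have hm : 0 < 2 * m' := by have := H.two_le; omega
  have k1 : Cg w (e ^ m' * T.y * (e ^ m' * T'.y)) (t₁.y * t₂.y) := cg_mul h2 g2
  have k2 : e ^ m' * T.y * (e ^ m' * T'.y) =
      algebraMap k K ρ * (GG H.r i₀ K (e • T.v) * dt (cst K d) (e • T.v)) * u := by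
    rw [GG_smul, dt_smul_right]
    have h5 : e ^ m' * e ^ m' = e ^ (2 * m' - 1) * e := by
      rw [← pow_add, ← pow_succ]
      congr 1
      omega
    calc e ^ m' * T.y * (e ^ m' * T'.y) = (e ^ m' * e ^ m') * (T.y * T'.y) := by ring
      _ = _ := by rw [h5, hyy]; ring
  rw [k2] at k1
  have k3 : Cg w (algebraMap k K ρ * (GG H.r i₀ K (e • T.v) * dt (cst K d) (e • T.v)) * u)
      (ρ * (GG H.r i₀ k s.v * dt d s.v) * u₁) :=
    cg_mul (cg_mul (cg_const w ρ) (cg_mul (GG_cong H.r i₀ he)
      (dt_cong w (fun j => cg_const w (d j)) he))) hu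
  exact cg_unique k1 k3

end place

section sign

variable {k : Type} [Field k]

private theorem tri_sign {m : ℕ} {H : Hyp k m} (s t : H.Tri k) (h : t.v = s.v) :
    (t.y = s.y ∧ t.mk' = s.mk') ∨ (t.y = -s.y ∧ t.mk' = s.mk'.inv) := by
  have h2 : t.y ^ 2 = s.y ^ 2 := by rw [t.eq, s.eq, h]
  rcases sq_eq_sq_iff_eq_or_eq_neg.1 h2 with h3 | h3
  · left
    refine ⟨h3, ?_⟩
    exact ((mk'_eq_iff _ _).2 ⟨1, one_ne_zero, by rw [one_smul, h], by rw [one_pow, one_mul, h3]⟩).symm
  · right
    refine ⟨h3, ?_⟩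
    rw [← mk'_neg]
    exact ((mk'_eq_iff _ _).2 ⟨1, one_ne_zero, by rw [one_smul, h]; rfl,
      by rw [one_pow, one_mul, h3]; rfl⟩).symm

end sign

section trans

variable {k K : Type} [Field k] [Field K] [Algebra k K]

private theorem trans_pol [CharZero k] {z : K} (hz : Transcendental k z) {α β : k}
    (h : algebraMap k K α * (1 - z) ^ 2 - algebraMap k K β * (1 + z) ^ 2 = 0) :
    α = 0 ∧ β = 0 := by
  have h1 : Polynomial.aeval z (Polynomial.C α * (1 - Polynomial.X) ^ 2 -
      Polynomial.C β * (1 + Polynomial.X) ^ 2 : Polynomial k) = 0 := by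
    simp only [map_sub, map_mul, map_pow, map_add, map_one, Polynomial.aeval_C, Polynomial.aeval_X]
    exact h
  have h2 := transcendental_iff.1 hz _ h1
  have h3 := congrArg (Polynomial.eval (-1)) h2
  have h4 := congrArg (Polynomial.eval 1) h2
  simp only [Polynomial.eval_sub, Polynomial.eval_mul, Polynomial.eval_pow, Polynomial.eval_add,
    Polynomial.eval_one, Polynomial.eval_C, Polynomial.eval_X, Polynomial.eval_zero] at h3 h4
  constructor
  · have h5 : (4 : k) * α = 0 := by linear_combination h3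
    exact (mul_eq_zero.1 h5).resolve_left (by norm_num)
  · have h5 : (4 : k) * β = 0 := by linear_combination -h4
    exact (mul_eq_zero.1 h5).resolve_left (by norm_num)

private theorem trans_ne {z : K} (hz : Transcendental k z) (c : k) : z ≠ algebraMap k K c := by
  rintro rfl
  exact hz (isAlgebraic_algebraMap c)

end trans

variable {k : Type} [Field k] [IsAlgClosed k] [CharZero k] {ι : Type} {n : ι → ℕ}
  {H : ∀ i, Hyp k (n i)}

theorem iso_linked (i j : ι) (P : (H i).Pt) (Q : (H j).Pt) (h : IsoLinked P Q) :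
    Tors H (ep (⟨i, P⟩ : Pts H) ⟨j, Q⟩) := by
  obtain ⟨M, hM, hO, σ, i₀, hσ⟩ := h
  obtain ⟨s, t, rfl, rfl, hts⟩ := exact_over hM hO
  by_cases hsy : s.y = 0
  · rw [ep_left _ _ (inv_eq_of_y s hsy)]
    exact tors_zero
  by_cases hty : t.y = 0
  · rw [ep_right _ _ (inv_eq_of_y t hty)]
    exact tors_zero
  have hnn : n j = n i := by
    have := Fintype.card_congr σ
    rw [Fintype.card_fin, Fintype.card_fin] at this
    omega
  obtain ⟨d, hd⟩ : ∃ d : Fin 2 → k, M.mulVec d = (H j).r (σ i₀) := by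
    refine ⟨M⁻¹.mulVec ((H j).r (σ i₀)), ?_⟩
    rw [Matrix.mulVec_mulVec, Matrix.mul_nonsing_inv _ (isUnit_iff_ne_zero.2 hM), Matrix.one_mulVec]
  by_cases hcd : dt ((H i).r i₀) d = 0
  · refine iso_full i j s.mk' t.mk' M hM hO σ fun a => ?_
    by_cases ha : a = i₀
    · rw [ha, ← hd, dt_mulVec, hcd, mul_zero]
    · exact hσ a ha
  set c : Fin 2 → k := (H i).r i₀ with hc
  obtain ⟨κ, hκ, hF'⟩ := F_mulVec (H i) (H j) M hM σ i₀ hσ d hd
  obtain ⟨ρ, hρ⟩ := IsAlgClosed.exists_pow_nat_eq κ (n := 2) (by norm_num)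
  have hρ0 : ρ ≠ 0 := by
    rintro rfl
    exact hκ (by rw [← hρ]; ring)
  -- at `s`
  have map_id : M.map (algebraMap k k) = M := by
    ext a b
    rfl
  have hs2 : s.y ^ 2 = dt c s.v * GG (H i).r i₀ k s.v := by
    rw [s.eq, F_eq_GG (H i) i₀ k s.v, cst_self]
  have ht2 : t.y ^ 2 = κ * (GG (H i).r i₀ k s.v * dt d s.v) := by
    have h1 := hF' k s.v
    rw [map_id, cst_self, ← hts] at h1
    rw [t.eq, h1]
    rfl
  have hG0 : GG (H i).r i₀ k s.v ≠ 0 := by
    intro h0
    rw [h0, mul_zero] at hs2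
    exact hsy (pow_eq_zero_iff (two_ne_zero)|>.1 hs2)
  have hcs : dt c s.v ≠ 0 := by
    intro h0
    rw [h0, zero_mul] at hs2
    exact hsy (pow_eq_zero_iff (two_ne_zero)|>.1 hs2)
  have hds : dt d s.v ≠ 0 := by
    intro h0
    rw [h0, mul_zero, mul_zero] at ht2
    exact hty (pow_eq_zero_iff (two_ne_zero)|>.1 ht2)
  set u₀ : k := s.y * t.y / (ρ * (GG (H i).r i₀ k s.v * dt d s.v)) with hu₀
  have hden : ρ * (GG (H i).r i₀ k s.v * dt d s.v) ≠ 0 := mul_ne_zero hρ0 (mul_ne_zero hG0 hds)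
  have hu₀' : ρ * (GG (H i).r i₀ k s.v * dt d s.v) * u₀ = s.y * t.y := by
    rw [hu₀, mul_div_cancel₀ _ hden]
  have hu₀0 : u₀ ≠ 0 := by
    intro h0
    rw [h0, mul_zero] at hu₀'
    exact mul_ne_zero hsy hty hu₀'.symm
  have hu₀2 : u₀ ^ 2 * dt d s.v = dt c s.v := by
    have h1 : (ρ * (GG (H i).r i₀ k s.v * dt d s.v)) ^ 2 * (u₀ ^ 2 * dt d s.v) =
        (ρ * (GG (H i).r i₀ k s.v * dt d s.v)) ^ 2 * dt c s.v := by
      calc (ρ * (GG (H i).r i₀ k s.v * dt d s.v)) ^ 2 * (u₀ ^ 2 * dt d s.v)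
          = (ρ * (GG (H i).r i₀ k s.v * dt d s.v) * u₀) ^ 2 * dt d s.v := by ring
        _ = s.y ^ 2 * t.y ^ 2 * dt d s.v := by rw [hu₀']; ring
        _ = _ := by rw [hs2, ht2, ← hρ]; ring
    exact mul_left_cancel₀ (pow_ne_zero 2 hden) h1
  -- the curve
  obtain ⟨K, _, _, z, T, hK, hz, hT⟩ := exists_curve (H i)
    (fun l => Polynomial.C (c l) * (1 - Polynomial.X) ^ 2 -
      Polynomial.C (u₀ ^ 2 * d l) * (1 + Polynomial.X) ^ 2) (by
      intro h0
      apply (H i).r_ne i₀
      funext l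
      have h1 := congrArg (Polynomial.eval (-1)) (congrFun h0 l)
      simp only [Polynomial.eval_sub, Polynomial.eval_mul, Polynomial.eval_pow,
        Polynomial.eval_add, Polynomial.eval_one, Polynomial.eval_C, Polynomial.eval_X,
        Pi.zero_apply, Polynomial.eval_zero] at h1
      have h2 : (4 : k) * c l = 0 := by linear_combination h1
      exact (mul_eq_zero.1 h2).resolve_left (by norm_num))
  have hTv : T.v = (1 - z) ^ 2 • cst K c - (algebraMap k K u₀ ^ 2 * (1 + z) ^ 2) • cst K d := by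
    funext l
    rw [hT l]
    simp only [map_sub, map_mul, map_pow, map_add, map_one, Polynomial.aeval_C,
      Polynomial.aeval_X, Pi.sub_apply, Pi.smul_apply, smul_eq_mul, cst]
    ring
  have hz1 : 1 - z ≠ 0 := by
    intro h0
    apply trans_ne hz 1
    rw [map_one]
    linear_combination -h0
  have hz2 : 1 + z ≠ 0 := by
    intro h0
    apply trans_ne hz (-1)
    rw [map_neg, map_one]
    linear_combination h0
  have hz0 : z ≠ 0 := by
    intro h0
    apply trans_ne hz 0
    rw [map_zero]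
    exact h0
  have au0 : algebraMap k K u₀ ≠ 0 := by rwa [Ne, map_eq_zero]
  have acd : algebraMap k K (dt c d) ≠ 0 := by rwa [Ne, map_eq_zero]
  set u : K := algebraMap k K u₀ * (1 + z) / (1 - z) with hu
  have hu1 : u * (1 - z) = algebraMap k K u₀ * (1 + z) := by
    rw [hu, div_mul_cancel₀ _ hz1]
  have dcT : dt (cst K c) T.v = -(algebraMap k K u₀ ^ 2 * (1 + z) ^ 2 * algebraMap k K (dt c d)) := by
    rw [hTv, dt_sub_right, dt_smul_right, dt_smul_right, dt_self, dt_cst]
    ring
  have ddT : dt (cst K d) T.v = -((1 - z) ^ 2 * algebraMap k K (dt c d)) := by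
    rw [hTv, dt_sub_right, dt_smul_right, dt_smul_right, dt_self, dt_cst, dt_comm d c, map_neg]
    ring
  have hdd : dt (cst K c) T.v = u ^ 2 * dt (cst K d) T.v := by
    rw [dcT, ddT]
    linear_combination algebraMap k K (dt c d) * (u * (1 - z) + algebraMap k K u₀ * (1 + z)) * hu1
  have hT2 : T.y ^ 2 = dt (cst K c) T.v * GG (H i).r i₀ K T.v := by
    rw [T.eq, F_eq_GG (H i) i₀ K T.v]
  have hTy : T.y ≠ 0 := by
    intro h0
    have h1 : (H i).F T.v = 0 := by rw [← T.eq, h0]; ring
    rw [Hyp.F_def, Finset.prod_eq_zero_iff] at h1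
    obtain ⟨a, -, ha⟩ := h1
    rw [hTv, dt_sub_right, dt_smul_right, dt_smul_right, dt_cst, dt_cst] at ha
    have h2 := trans_pol hz (α := dt ((H i).r a) c) (β := u₀ ^ 2 * dt ((H i).r a) d) (by
      rw [map_mul, map_pow]
      linear_combination ha)
    have h3 : dt ((H i).r a) d = 0 :=
      (mul_eq_zero.1 h2.2).resolve_left (pow_ne_zero 2 hu₀0)
    by_cases hai : a = i₀
    · rw [hai] at h3
      exact hcd h3
    · exact (H i).indep a i₀ hai h2.1
  have hy' : (algebraMap k K ρ * (GG (H i).r i₀ K T.v * dt (cst K d) T.v) * u / T.y) ^ 2 =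
      (H j).F ((M.map (algebraMap k K)).mulVec T.v) := by
    rw [hF' K T.v, div_pow, div_eq_iff (pow_ne_zero 2 hTy), hT2, hdd, ← hρ, map_pow]
    ring
  have hMT : (M.map (algebraMap k K)).mulVec T.v ≠ 0 := by
    refine mulVec_ne_zero ?_ T.ne
    rw [det_map]
    rwa [Ne, map_eq_zero]
  let T' : (H j).Tri K := ⟨(M.map (algebraMap k K)).mulVec T.v,
    algebraMap k K ρ * (GG (H i).r i₀ K T.v * dt (cst K d) T.v) * u / T.y, hMT, hy'⟩
  have hyy : T.y * T'.y = algebraMap k K ρ * (GG (H i).r i₀ K T.v * dt (cst K d) T.v) * u := by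
    change T.y * (algebraMap k K ρ * (GG (H i).r i₀ K T.v * dt (cst K d) T.v) * u / T.y) = _
    rw [mul_div_cancel₀ _ hTy]
  -- the limit vector
  have ha0 : c - u₀ ^ 2 • d ≠ 0 := by
    intro h0
    have h1 : dt c (c - u₀ ^ 2 • d) = 0 := by rw [h0]; simp [dt]
    rw [dt_sub_right, dt_self, dt_smul_right, zero_sub, neg_eq_zero] at h1
    exact (mul_ne_zero (pow_ne_zero 2 hu₀0) hcd) h1
  have has : dt (c - u₀ ^ 2 • d) s.v = 0 := by
    rw [dt_sub_left, dt_smul_left, hu₀2, sub_self]
  obtain ⟨ν, hν, hνs⟩ := exists_smul_of_dt ha0 s.ne has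
  -- a congruence
  have cong_gen : ∀ (w : Place k K) (x y : K) (l : K), Cg w x 1 → Cg w y 1 →
      l • T.v = x • cst K c - (algebraMap k K u₀ ^ 2 * y) • cst K d →
      Cong w ((algebraMap k K ν * l) • T.v) s.v := by
    intro w x y l hx hy hl m
    rw [mul_smul, hl, hνs]
    have e1 : (algebraMap k K ν • (x • cst K c - (algebraMap k K u₀ ^ 2 * y) • cst K d)) m =
        algebraMap k K ν * (x * algebraMap k K (c m) +
          -((algebraMap k K (u₀ ^ 2) * y) * algebraMap k K (d m))) := by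
      simp only [Pi.smul_apply, Pi.sub_apply, smul_eq_mul, cst, map_pow]
      ring
    have e2 : (ν • (c - u₀ ^ 2 • d)) m = ν * (1 * c m + -((u₀ ^ 2 * 1) * d m)) := by
      simp only [Pi.smul_apply, Pi.sub_apply, smul_eq_mul]
      ring
    rw [e1, e2]
    exact cg_mul (cg_const w ν) (cg_add (cg_mul hx (cg_const w _))
      (cg_neg (cg_mul (cg_mul (cg_const w _) hy) (cg_const w _))))
  have c1 : ∀ w : Place k K, Cg w (1 : K) 1 := by
    intro w
    have := cg_const w (1 : k)
    rwa [map_one] at this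
  have hfin := fib_pair (H := H) hK z hz T T' 1 1 0 0
    (pr (⟨i, s.mk'⟩ : Pts H) ⟨j, t.mk'⟩ + pr (inv (⟨i, s.mk'⟩ : Pts H)) (inv ⟨j, t.mk'⟩))
    (pr (⟨i, s.mk'⟩ : Pts H) (inv ⟨j, t.mk'⟩) + pr (inv (⟨i, s.mk'⟩ : Pts H)) ⟨j, t.mk'⟩)
    (by
      intro w hw p q hp hq
      have hz' : Cg w z 0 := cg_small hw
      have m1 : Cg w (1 - z) 1 := by
        have := cg_add (c1 w) (cg_neg hz')
        rwa [neg_zero, add_zero, ← sub_eq_add_neg] at this
      have m2 : Cg w (1 + z) 1 := by
        have := cg_add (c1 w) hz'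
        rwa [add_zero] at this
      have hcu : Cg w u u₀ := by
        have := cg_mul (cg_mul (cg_const w u₀) m2) (cg_inv one_ne_zero m1)
        rw [inv_one, mul_one, mul_one] at this
        rw [hu, div_eq_mul_inv]
        exact this
      have hco : Cong w ((algebraMap k K ν * 1) • T.v) s.v := by
        refine cong_gen w ((1 - z) ^ 2) ((1 + z) ^ 2) 1 ?_ ?_ (by rw [one_smul, hTv])
        · have := cg_mul m1 m1
          rw [mul_one] at this
          rwa [sq]
        · have := cg_mul m2 m2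
          rw [mul_one] at this
          rwa [sq]
      obtain ⟨t₁, t₂, h1, h2, rfl, rfl, h3⟩ := place_lemma hnn hK w M d i₀ ρ u₀ u T T' rfl hyy s t
        hts _ hco hcu p q hp hq
      rw [hu₀'] at h3
      rcases tri_sign s t₁ h1 with ⟨e1, e2⟩ | ⟨e1, e2⟩
      · have e3 : t₂.y = t.y := by
          rw [e1] at h3
          exact mul_left_cancel₀ hsy h3
        have e4 : t₂.mk' = t.mk' := by
          rcases tri_sign t t₂ h2 with ⟨_, e5⟩ | ⟨e5, _⟩
          · exact e5
          · exfalso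
            rw [e3] at e5
            have : (2 : k) * t.y = 0 := by linear_combination e5
            exact hty ((mul_eq_zero.1 this).resolve_left two_ne_zero)
        rw [e2, e4, one_smul, one_smul, zero_smul, zero_smul, add_zero, add_zero]
      · have e3 : t₂.y = -t.y := by
          rw [e1] at h3
          have : s.y * t₂.y = s.y * (-t.y) := by linear_combination -h3
          exact mul_left_cancel₀ hsy this
        have e4 : t₂.mk' = t.mk'.inv := by
          rcases tri_sign t t₂ h2 with ⟨e5, _⟩ | ⟨_, e5⟩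
          · exfalso
            rw [e3] at e5
            have : (2 : k) * t.y = 0 := by linear_combination -e5
            exact hty ((mul_eq_zero.1 this).resolve_left two_ne_zero)
          · exact e5
        rw [e2, e4, one_smul, one_smul, zero_smul, zero_smul, add_zero, add_zero]
        have f1 : (⟨i, s.mk'.inv⟩ : Pts H) = inv ⟨i, s.mk'⟩ := rfl
        have f2 : (⟨j, t.mk'.inv⟩ : Pts H) = inv ⟨j, t.mk'⟩ := rfl
        rw [f1, f2, inv_inv', inv_inv', add_comm])
    (by
      intro w hw p q hp hq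
      have hzi : w.v z⁻¹ < 1 := by
        rw [map_inv₀]
        exact inv_lt_one_of_one_lt₀ hw
      have hz' : Cg w z⁻¹ 0 := cg_small hzi
      have m1 : Cg w (z⁻¹ + -1) (-1) := by
        have := cg_add hz' (cg_neg (c1 w))
        rwa [zero_add] at this
      have m2 : Cg w (z⁻¹ + 1) 1 := by
        have := cg_add hz' (c1 w)
        rwa [zero_add] at this
      have hcu : Cg w u (-u₀) := by
        have := cg_mul (cg_mul (cg_const w u₀) m2) (cg_inv (neg_ne_zero.2 one_ne_zero) m1)
        have e1 : u₀ * 1 * (-1 : k)⁻¹ = -u₀ := by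
          rw [inv_neg, inv_one]
          ring
        rw [e1] at this
        have e2 : algebraMap k K u₀ * (z⁻¹ + 1) * (z⁻¹ + -1)⁻¹ = u := by
          rw [hu]
          have h5 : z⁻¹ + -1 = (1 - z) * z⁻¹ := by
            field_simp
            ring
          have h6 : z⁻¹ + 1 = (1 + z) * z⁻¹ := by
            field_simp
          rw [h5, h6, mul_inv, inv_inv]
          field_simp
        rwa [e2] at this
      have hco : Cong w ((algebraMap k K ν * (z⁻¹) ^ 2) • T.v) s.v := by
        refine cong_gen w ((z⁻¹ + -1) ^ 2) ((z⁻¹ + 1) ^ 2) _ ?_ ?_ ?_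
        · have := cg_mul m1 m1
          rw [neg_mul_neg, mul_one] at this
          rwa [sq]
        · have := cg_mul m2 m2
          rw [mul_one] at this
          rwa [sq]
        · have h5 : z⁻¹ + -1 = (1 - z) * z⁻¹ := by
            field_simp
            ring
          have h6 : z⁻¹ + 1 = (1 + z) * z⁻¹ := by
            field_simp
          rw [hTv, h5, h6, smul_sub, smul_smul, smul_smul]
          congr 2
          · ring
          · ring
      obtain ⟨t₁, t₂, h1, h2, rfl, rfl, h3⟩ := place_lemma hnn hK w M d i₀ ρ (-u₀) u T T' rfl hyy s t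
        hts _ hco hcu p q hp hq
      rw [mul_neg, hu₀'] at h3
      rcases tri_sign s t₁ h1 with ⟨e1, e2⟩ | ⟨e1, e2⟩
      · have e3 : t₂.y = -t.y := by
          rw [e1] at h3
          have : s.y * t₂.y = s.y * (-t.y) := by linear_combination h3
          exact mul_left_cancel₀ hsy this
        have e4 : t₂.mk' = t.mk'.inv := by
          rcases tri_sign t t₂ h2 with ⟨e5, _⟩ | ⟨_, e5⟩
          · exfalso
            rw [e3] at e5
            have : (2 : k) * t.y = 0 := by linear_combination -e5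
            exact hty ((mul_eq_zero.1 this).resolve_left two_ne_zero)
          · exact e5
        rw [e2, e4, one_smul, one_smul, zero_smul, zero_smul, add_zero, add_zero]
        have f2 : (⟨j, t.mk'.inv⟩ : Pts H) = inv ⟨j, t.mk'⟩ := rfl
        rw [f2, inv_inv']
      · have e3 : t₂.y = t.y := by
          rw [e1] at h3
          have : s.y * t₂.y = s.y * t.y := by linear_combination -h3
          exact mul_left_cancel₀ hsy this
        have e4 : t₂.mk' = t.mk' := by
          rcases tri_sign t t₂ h2 with ⟨_, e5⟩ | ⟨e5, _⟩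
          · exact e5
          · exfalso
            rw [e3] at e5
            have : (2 : k) * t.y = 0 := by linear_combination e5
            exact hty ((mul_eq_zero.1 this).resolve_left two_ne_zero)
        rw [e2, e4, one_smul, one_smul, zero_smul, zero_smul, add_zero, add_zero]
        have f1 : (⟨i, s.mk'.inv⟩ : Pts H) = inv ⟨i, s.mk'⟩ := rfl
        rw [f1, inv_inv', add_comm])
  have hep : ep (⟨i, s.mk'⟩ : Pts H) ⟨j, t.mk'⟩ =
      (pr (⟨i, s.mk'⟩ : Pts H) ⟨j, t.mk'⟩ + pr (inv (⟨i, s.mk'⟩ : Pts H)) (inv ⟨j, t.mk'⟩)) -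
      (pr (⟨i, s.mk'⟩ : Pts H) (inv ⟨j, t.mk'⟩) + pr (inv (⟨i, s.mk'⟩ : Pts H)) ⟨j, t.mk'⟩) := by
    unfold ep
    abel
  rw [hep]
  exact hfin

end HJ
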