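import Pool.Agent.H95.HJ.Idl

/-!
Module Ring (project HJ, helper95).  The ring of zero-cycles modulo torsion.
PROOF.  A = AddMonoidAlgebra ℤ (Multiset (Pts H)), coeff : A ≃ (Multiset (Pts H) →₀ ℤ), single.  I = {x | Tors H x.coeff} is an ideal:
additive subgroup (multiply the two N), closed under multiplication by single s a: coeff (single s 1 * x) = mapDomain (· + s) x.coeff (ratZero_add),
and by an arbitrary element (AddMonoidAlgebra.induction or sum of singles).  S = A ⧸ I, φ s = class of single s 1.
Torsion free: m • x in I with m ≠ 0 implies x in I.  Last clause: the sum over c is the class of the element with coeff = c (additive in c,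
Finsupp.induction_linear), Ideal.Quotient.eq_zero_iff_mem.
-/

namespace HJ

open ZC
open scoped Classical

variable {k : Type} [Field k] [IsAlgClosed k] [CharZero k] {ι : Type} {n : ι → ℕ}

section Tors

variable {H : ∀ i, Hyp k (n i)}

omit [IsAlgClosed k] [CharZero k] in
private theorem Ring_tors_zero : Tors H 0 :=
  ⟨1, one_pos, by rw [smul_zero]; exact (ratZero H).zero_mem⟩

omit [IsAlgClosed k] [CharZero k] in
private theorem Ring_tors_add {c d : Cyc H} (hc : Tors H c) (hd : Tors H d) : Tors H (c + d) := by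
  obtain ⟨N, hN, h1⟩ := hc
  obtain ⟨M, hM, h2⟩ := hd
  refine ⟨N * M, Nat.mul_pos hN hM, ?_⟩
  rw [smul_add]
  refine (ratZero H).add_mem ?_ ?_
  · rw [mul_comm, mul_smul]; exact (ratZero H).nsmul_mem h1 M
  · rw [mul_smul]; exact (ratZero H).nsmul_mem h2 N

omit [IsAlgClosed k] [CharZero k] in
private theorem Ring_tors_zsmul {c : Cyc H} (hc : Tors H c) (a : ℤ) : Tors H (a • c) := by
  obtain ⟨N, hN, h1⟩ := hc
  refine ⟨N, hN, ?_⟩
  rw [smul_comm]
  exact (ratZero H).zsmul_mem h1 a

omit [IsAlgClosed k] [CharZero k] in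
private theorem Ring_tors_of_nsmul {c : Cyc H} {m : ℕ} (hm : m ≠ 0) (hc : Tors H (m • c)) :
    Tors H c := by
  obtain ⟨N, hN, h1⟩ := hc
  refine ⟨N * m, Nat.mul_pos hN (Nat.pos_of_ne_zero hm), ?_⟩
  rw [mul_smul]
  exact h1

private theorem Ring_tors_mapDomain {c : Cyc H} (s : Multiset (Pts H)) (hc : Tors H c) :
    Tors H (Finsupp.mapDomain (fun t => t + s) c) := by
  obtain ⟨N, hN, h1⟩ := hc
  refine ⟨N, hN, ?_⟩
  have h2 : N • Finsupp.mapDomain (fun t => t + s) c =
      Finsupp.mapDomain (fun t => t + s) (N • c) := by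
    have := map_nsmul (Finsupp.mapDomain.addMonoidHom (M := ℤ) (fun t : Multiset (Pts H) => t + s)) N c
    exact this.symm
  rw [h2]
  exact ratZero_add s h1

omit [IsAlgClosed k] [CharZero k] in
private theorem Ring_coeff_mul (s : Multiset (Pts H)) (a : ℤ)
    (x : AddMonoidAlgebra ℤ (Multiset (Pts H))) :
    (AddMonoidAlgebra.single s a * x).coeff =
      a • Finsupp.mapDomain (fun t => t + s) x.coeff := by
  induction x using AddMonoidAlgebra.induction_linear with
  | zero => rw [mul_zero, AddMonoidAlgebra.coeff_zero, Finsupp.mapDomain_zero, smul_zero]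
  | add f g hf hg =>
    rw [mul_add, AddMonoidAlgebra.coeff_add, hf, hg, AddMonoidAlgebra.coeff_add,
      Finsupp.mapDomain_add, smul_add]
  | single t b =>
    rw [AddMonoidAlgebra.single_mul_single, AddMonoidAlgebra.coeff_single,
      AddMonoidAlgebra.coeff_single, Finsupp.mapDomain_single, Finsupp.smul_single, smul_eq_mul,
      add_comm]

/-- the ideal of the cycles that are torsion modulo rational equivalence -/
private noncomputable def Ring_I (H : ∀ i, Hyp k (n i)) :
    Ideal (AddMonoidAlgebra ℤ (Multiset (Pts H))) where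
  carrier := {x | Tors H x.coeff}
  zero_mem' := Ring_tors_zero
  add_mem' {x y} hx hy := Ring_tors_add hx hy
  smul_mem' := by
    intro c x hx
    change Tors H (c * x).coeff
    induction c using AddMonoidAlgebra.induction_linear with
    | zero => rw [zero_mul]; exact Ring_tors_zero
    | add f g hf hg => rw [add_mul]; exact Ring_tors_add hf hg
    | single s a =>
      rw [Ring_coeff_mul]
      exact Ring_tors_zsmul (Ring_tors_mapDomain s hx) a

private theorem Ring_mem (x : AddMonoidAlgebra ℤ (Multiset (Pts H))) :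
    x ∈ Ring_I H ↔ Tors H x.coeff := Iff.rfl

end Tors

theorem exists_ring (H : ∀ i, Hyp k (n i)) :
    ∃ (S : Type) (_ : CommRing S) (φ : Multiset (Pts H) → S), (∀ s t, φ (s + t) = φ s * φ t) ∧
      φ 0 = 1 ∧ (∀ (m : ℕ) (x : S), m ≠ 0 → (m : S) * x = 0 → x = 0) ∧
      ∀ c : Cyc H, Tors H c ↔ (c.sum fun s a => (a : S) * φ s) = 0 := by
  refine ⟨AddMonoidAlgebra ℤ (Multiset (Pts H)) ⧸ Ring_I H, inferInstance,
    fun s => Ideal.Quotient.mk (Ring_I H) (AddMonoidAlgebra.single s 1), ?_, ?_, ?_, ?_⟩
  · intro s t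
    rw [← map_mul, AddMonoidAlgebra.single_mul_single, mul_one]
  · exact map_one _
  · intro m x hm hx
    obtain ⟨y, rfl⟩ := Ideal.Quotient.mk_surjective x
    rw [← map_natCast (Ideal.Quotient.mk (Ring_I H)), ← map_mul, Ideal.Quotient.eq_zero_iff_mem,
      ← nsmul_eq_mul, Ring_mem, AddMonoidAlgebra.coeff_smul] at hx
    rw [Ideal.Quotient.eq_zero_iff_mem, Ring_mem]
    exact Ring_tors_of_nsmul hm hx
  · intro c
    have h1 : (c.sum fun s a => (a : AddMonoidAlgebra ℤ (Multiset (Pts H)) ⧸ Ring_I H) *
        Ideal.Quotient.mk (Ring_I H) (AddMonoidAlgebra.single s 1)) =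
        Ideal.Quotient.mk (Ring_I H) (AddMonoidAlgebra.ofCoeff c) := by
      induction c using Finsupp.induction_linear with
      | zero =>
        rw [Finsupp.sum_zero_index]
        exact (map_zero _).symm
      | add f g hf hg =>
        rw [Finsupp.sum_add_index', hf, hg, ← map_add]
        · rfl
        · intro s; rw [Int.cast_zero, zero_mul]
        · intro s a b; rw [Int.cast_add, add_mul]
      | single s a =>
        rw [Finsupp.sum_single_index, ← map_intCast (Ideal.Quotient.mk (Ring_I H)), ← map_mul,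
          ← zsmul_eq_mul]
        · congr 1
          apply AddMonoidAlgebra.coeff_injective
          rw [AddMonoidAlgebra.coeff_smul, AddMonoidAlgebra.coeff_single, Finsupp.smul_single,
            smul_eq_mul, mul_one]
        · rw [Int.cast_zero, zero_mul]
    rw [h1, Ideal.Quotient.eq_zero_iff_mem, Ring_mem]

end HJ
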