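import Pool.Agent.H95.HJ.LinkI
import Pool.Agent.H95.HJ.LinkII
import Pool.Agent.H95.HJ.Ring
import Pool.Agent.H95.HJ.AlgM

/-!
Module Final (project HJ, helper95).  Zero-cycles of degree zero with trivial Albanese image that are supported on linked groups are torsion.
PROOF.  exists_ring: S, φ.  Let ψ c = sum over s of c s * φ s (additive homomorphism Cyc H → S, zero on ratZero; kernel = Tors).  x P = φ {P},
e P = x P - x (inv P) = ψ (ee P), κ i = x P + x (inv P) for any point P of C_i (ksum), 2 x P = κ (P.1) + e P.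
ψ (ep P Q) = e P * e Q.  e P * e P = 0 (iso_full with M = 1), e P * e Q = 0 for P, Q in A (Linked).  Hence a * b = 0 for a, b in the additive subgroup of S
generated by the e P, P in A (closure_induction₂), and by hsupp and torsion freeness E i s * E j s = 0 where E i s = sum over part i s of e P = ψ (sum of ee P).
Every s in the support: φ s = prod over s of x P; prod_formula with ty P = P.1, I = the types occurring in one (so in all) s of the support
(m i = card (part i s)).  Sum over s with the coefficients c s: 2^M ψ c = (sum c s) * prod κ + sum_i K_i * (sum_s c s E i s) and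
sum_s c s E i s = 2 ψ(Albanese cycle) - m i κ i (sum c s) = 0.  So ψ c = 0 by torsion freeness.
-/

namespace HJ

open ZC
open scoped Classical

variable {k : Type} [Field k] [IsAlgClosed k] [CharZero k] {ι : Type} {n : ι → ℕ}

theorem sq_tors (H : ∀ i, Hyp k (n i)) (P : Pts H) : Tors H (ep P P) := by
  obtain ⟨i, P⟩ := P
  refine iso_full i i P P 1 (by simp) ?_ (Equiv.refl _) (fun a => by simp [dt_self])
  obtain ⟨s, hs⟩ := exists_mk' P
  exact ⟨s, s, hs, hs, by simp [dt_self]⟩

theorem main (H : ∀ i, Hyp k (n i)) (A : Set (Pts H)) (hA : A.Pairwise (Linked H)) (m : ι → ℕ)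
    (c : Cyc H)
    (hm : ∀ s ∈ c.support, ∀ i, Multiset.card (part i s) = m i)
    (hsupp : ∀ s ∈ c.support, ∀ i, ∃ N : ℕ, 0 < N ∧
      N • ((part i s).map ee).sum ∈ AddSubgroup.closure (ee '' A) ⊔ ratZero H)
    (hdeg : (c.sum fun _ a => a) = 0)
    (halb : ∀ i, Tors H (c.sum fun s a => a • ((part i s).map pt).sum)) :
    Tors H c := by
  obtain ⟨S, _, φ, hadd, hzero, htf, hT⟩ := exists_ring H
  let ψ : Cyc H →+ S :=
    Finsupp.liftAddHom (fun s => (AddMonoidHom.mulRight (φ s)).comp (Int.castAddHom S))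
  have hψ : ∀ c : Cyc H, ψ c = c.sum fun s a => (a : S) * φ s := fun c => by
    simp only [ψ, Finsupp.liftAddHom_apply]
    rfl
  have hTψ : ∀ c : Cyc H, Tors H c ↔ ψ c = 0 := fun c => by rw [hψ]; exact hT c
  have hrat : ∀ c ∈ ratZero H, ψ c = 0 := fun c hc =>
    (hTψ c).1 ⟨1, one_pos, by rwa [one_smul]⟩
  have hsingle : ∀ s : Multiset (Pts H), ψ (Finsupp.single s 1) = φ s := fun s => by
    rw [hψ, Finsupp.sum_single_index (by simp), Int.cast_one, one_mul]
  let x : Pts H → S := fun P => φ {P}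
  let e : Pts H → S := fun P => x P - x (inv P)
  have hpt : ∀ P, ψ (pt P) = x P := fun P => hsingle {P}
  have hee : ∀ P, ψ (ee P) = e P := fun P => by
    rw [ee, map_sub, hpt, hpt]
  have hpr : ∀ P Q, ψ (pr P Q) = x P * x Q := fun P Q => by
    rw [pr, hsingle]
    change φ (P ::ₘ {Q}) = _
    rw [← Multiset.singleton_add, hadd]
  have hep : ∀ P Q, ψ (ep P Q) = e P * e Q := fun P Q => by
    rw [ep, map_sub, map_sub, map_add, hpr, hpr, hpr, hpr]
    simp only [e]
    ring
  have he : ∀ P, e P * e P = 0 := fun P => by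
    rw [← hep]
    exact (hTψ _).1 (sq_tors H P)
  have heA : ∀ P ∈ A, ∀ Q ∈ A, e P * e Q = 0 := by
    intro P hP Q hQ
    by_cases hPQ : P = Q
    · rw [hPQ]
      exact he Q
    · rw [← hep]
      refine (hTψ _).1 ?_
      have h := hA hP hQ hPQ
      cases h with
      | inv i P Q h => exact inv_linked i P Q h
      | iso i j P Q h => exact iso_linked i j P Q h
  -- the subgroup generated by the `e P`
  have hB1 : ∀ P ∈ A, ∀ b ∈ AddSubgroup.closure (e '' A), e P * b = 0 := by
    intro P hP b hb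
    induction hb using AddSubgroup.closure_induction with
    | mem b hb =>
      obtain ⟨Q, hQ, rfl⟩ := hb
      exact heA P hP Q hQ
    | zero => rw [mul_zero]
    | add a b _ _ ha hb => rw [mul_add, ha, hb, add_zero]
    | neg a _ ha => rw [mul_neg, ha, neg_zero]
  have hB : ∀ a ∈ AddSubgroup.closure (e '' A), ∀ b ∈ AddSubgroup.closure (e '' A),
      a * b = 0 := by
    intro a ha b hb
    induction ha using AddSubgroup.closure_induction with
    | mem a ha =>
      obtain ⟨P, hP, rfl⟩ := ha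
      exact hB1 P hP b hb
    | zero => rw [zero_mul]
    | add a a' _ _ ha ha' => rw [add_mul, ha, ha', add_zero]
    | neg a _ ha => rw [neg_mul, ha, neg_zero]
  have hmap : ∀ d ∈ AddSubgroup.closure (ee '' A) ⊔ ratZero H,
      ψ d ∈ AddSubgroup.closure (e '' A) := by
    intro d hd
    obtain ⟨a, ha, b, hb, rfl⟩ := AddSubgroup.mem_sup.1 hd
    rw [map_add, hrat b hb, add_zero]
    have h1 : ψ a ∈ (AddSubgroup.closure (ee '' A)).map ψ := AddSubgroup.mem_map_of_mem ψ ha
    rw [AddMonoidHom.map_closure, ← Set.image_comp] at h1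
    have h3 : (ψ ∘ ee) = e := funext hee
    rwa [h3] at h1
  -- the sums of the `e P`
  let E : ι → Multiset (Pts H) → S := fun i s => ((part i s).map e).sum
  have hEψ : ∀ i s, ψ ((part i s).map ee).sum = E i s := by
    intro i s
    rw [map_multiset_sum, Multiset.map_map]
    have h3 : (ψ ∘ ee) = e := funext hee
    rw [h3]
  have hEmem : ∀ s ∈ c.support, ∀ i, ∃ N : ℕ, 0 < N ∧
      (N : S) * E i s ∈ AddSubgroup.closure (e '' A) := by
    intro s hs i
    obtain ⟨N, hN, h⟩ := hsupp s hs i
    refine ⟨N, hN, ?_⟩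
    have h1 := hmap _ h
    rwa [map_nsmul, hEψ, nsmul_eq_mul] at h1
  have hEE : ∀ s ∈ c.support, ∀ i j, E i s * E j s = 0 := by
    intro s hs i j
    obtain ⟨N, hN, h⟩ := hEmem s hs i
    obtain ⟨M, hM, h'⟩ := hEmem s hs j
    have h1 := hB _ h _ h'
    refine htf N _ hN.ne' (htf M _ hM.ne' ?_)
    rw [← h1]
    ring
  -- the class of `[P] + [w P]`
  let κ : ι → S := fun i =>
    if h : Nonempty (H i).Pt then x ⟨i, h.some⟩ + x (inv ⟨i, h.some⟩) else 0
  have hκ : ∀ P : Pts H, κ P.1 = x P + x (inv P) := by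
    rintro ⟨i, P⟩
    have h : Nonempty (H i).Pt := ⟨P⟩
    have h1 := (hTψ _).1 (ksum (H := H) i h.some P)
    rw [map_sub, map_add, map_add, hpt, hpt, hpt, hpt, sub_eq_zero] at h1
    simp only [κ, dif_pos h]
    exact h1
  have h2 : ∀ P : Pts H, 2 * x P = κ P.1 + e P := by
    intro P
    rw [hκ]
    simp only [e]
    ring
  have hφ : ∀ s, φ s = (s.map x).prod := by
    intro s
    induction s using Multiset.induction_on with
    | empty => rw [hzero, Multiset.map_zero, Multiset.prod_zero]
    | cons P s ih =>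
      rw [← Multiset.singleton_add, hadd, ih, Multiset.map_add, Multiset.prod_add,
        Multiset.map_singleton, Multiset.prod_singleton]
  by_cases hc : c = 0
  · subst hc
    exact tors_zero
  obtain ⟨s₀, hs₀⟩ := Finsupp.support_nonempty_iff.2 hc
  let I : Finset ι := (s₀.map (fun P : Pts H => P.1)).toFinset
  have hI : ∀ s ∈ c.support, ∀ P ∈ s, P.1 ∈ I := by
    intro s hs P hP
    have h1 : 0 < m P.1 := by
      rw [← hm s hs P.1]
      exact Multiset.card_pos_iff_exists_mem.2 ⟨P, Multiset.mem_filter.2 ⟨hP, rfl⟩⟩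
    rw [← hm s₀ hs₀ P.1] at h1
    obtain ⟨Q, hQ⟩ := Multiset.card_pos_iff_exists_mem.1 h1
    obtain ⟨h3, h4⟩ := Multiset.mem_filter.1 hQ
    rw [Multiset.mem_toFinset, Multiset.mem_map]
    exact ⟨Q, h3, h4⟩
  let K : ι → S := fun i => κ i ^ (m i - 1) * ∏ j ∈ I.erase i, κ j ^ m j
  have hform : ∀ s ∈ c.support, 2 ^ (∑ i ∈ I, m i) * φ s =
      ∏ i ∈ I, κ i ^ m i + ∑ i ∈ I, K i * E i s := by
    intro s hs
    rw [hφ]
    exact prod_formula htf (fun P : Pts H => P.1) x e κ h2 he I m s (hI s hs)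
      (fun i => hm s hs i) (fun i j => hEE s hs i j)
  have hdeg' : ∑ s ∈ c.support, (c s : S) = 0 := by
    have h1 : ((∑ s ∈ c.support, c s : ℤ) : S) = 0 := by
      have : (∑ s ∈ c.support, c s : ℤ) = 0 := hdeg
      rw [this, Int.cast_zero]
    rwa [Int.cast_sum] at h1
  have hE0 : ∀ i, ∑ s ∈ c.support, (c s : S) * E i s = 0 := by
    intro i
    have h1 := (hTψ _).1 (halb i)
    rw [Finsupp.sum, map_sum] at h1
    have h3 : ∀ s ∈ c.support, (c s : S) * E i s =
        2 * ψ (c s • ((part i s).map pt).sum) - (m i : S) * κ i * (c s : S) := by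
      intro s hs
      have h4 : E i s = 2 * ((part i s).map x).sum - (m i : S) * κ i := by
        have h5 : E i s = ((part i s).map (fun P => 2 * x P - κ i)).sum := by
          refine congrArg Multiset.sum (Multiset.map_congr rfl fun P hP => ?_)
          have h6 : P.1 = i := (Multiset.mem_filter.1 hP).2
          rw [h2, h6]
          ring
        rw [h5, Multiset.sum_map_sub, Multiset.sum_map_mul_left, Multiset.map_const',
          Multiset.sum_replicate, hm s hs i, nsmul_eq_mul]
      rw [map_zsmul, map_multiset_sum, Multiset.map_map]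
      have h7 : (ψ ∘ pt) = x := funext hpt
      rw [h7, h4, zsmul_eq_mul]
      ring
    rw [Finset.sum_congr rfl h3, Finset.sum_sub_distrib, ← Finset.mul_sum, ← Finset.mul_sum, h1,
      hdeg', mul_zero, mul_zero, sub_zero]
  rw [hTψ]
  refine htf (2 ^ (∑ i ∈ I, m i)) _ (pow_ne_zero _ two_ne_zero) ?_
  rw [hψ, Finsupp.sum, Nat.cast_pow, Nat.cast_ofNat, Finset.mul_sum]
  have h3 : ∀ s ∈ c.support, (2 : S) ^ (∑ i ∈ I, m i) * ((c s : S) * φ s) =
      (∏ i ∈ I, κ i ^ m i) * (c s : S) + ∑ i ∈ I, K i * ((c s : S) * E i s) := by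
    intro s hs
    have h4 := hform s hs
    have h5 : (2 : S) ^ (∑ i ∈ I, m i) * ((c s : S) * φ s) =
        (c s : S) * ((2 : S) ^ (∑ i ∈ I, m i) * φ s) := by ring
    rw [h5, h4, mul_add, Finset.mul_sum]
    congr 1
    · ring
    · refine Finset.sum_congr rfl fun i _ => ?_
      ring
  rw [Finset.sum_congr rfl h3, Finset.sum_add_distrib, ← Finset.mul_sum, hdeg', mul_zero,
    Finset.sum_comm, zero_add]
  refine Finset.sum_eq_zero fun i _ => ?_
  rw [← Finset.mul_sum, hE0, mul_zero]

end HJ
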