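import Pool.Agent.H95.HJ.SpecV
import Pool.Agent.H95.HJ.Deg

/-!
Module Fib (project HJ, helper95).  The fibre principle.
PROOF of fib.  Let Z = {w | w.v z < 1} and Q = {w | 1 < w.v z} (finite by deg_zero), w.ord z = 0 for all other w (z <> 0; w.v z = 1).
For every r and every w choose (Spec.exists, Spec.unique) the values p r w j, and let x_r w = the multiset of them.  The cycle
  D_r = sum over w in Z ∪ Q of single (x_r w) (ord_w z)
is principal (K, J r, i r, T r, f = z): for every s, the condition of IsPrincipal is s = x_r w (uniqueness), so the finsum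
is the finite sum over w in Z ∪ Q with x_r w = s.  Hence sum_r a_r • D_r is in ratZero, and it is
sum over w in Z of ord_w z • (sum_r a_r single (x_r w)) + the same over Q = (sum_Z ord_w z) • c₀ + (sum_Q ord_w z) • c₁ = N • c₀ - N • c₁.
fib_pair: R = Fin 4 or Bool × Bool, J r = Bool, T r true = ± T, T r false = ± T'.
-/

namespace HJ

open ZC
open scoped Classical

variable {k K : Type} [Field k] [IsAlgClosed k] [CharZero k] [Field K] [Algebra k K]
  {ι : Type} {n : ι → ℕ} {H : ∀ i, Hyp k (n i)}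

theorem fib (hK : IsFunctionField k K) (z : K) (hz : Transcendental k z)
    {R : Type} [Fintype R] (a : R → ℤ) (J : R → Type) [∀ r, Fintype (J r)] (i : ∀ r, J r → ι)
    (T : ∀ r j, (H (i r j)).Tri K) (c₀ c₁ : Cyc H)
    (h₀ : ∀ w : Place k K, w.v z < 1 → ∀ p : ∀ r j, (H (i r j)).Pt,
      (∀ r j, Spec w (T r j) (p r j)) → ∑ r, Finsupp.single ((Finset.univ : Finset (J r)).val.map
        (fun j => (⟨i r j, p r j⟩ : Pts H))) (a r) = c₀)
    (h₁ : ∀ w : Place k K, 1 < w.v z → ∀ p : ∀ r j, (H (i r j)).Pt,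
      (∀ r j, Spec w (T r j) (p r j)) → ∑ r, Finsupp.single ((Finset.univ : Finset (J r)).val.map
        (fun j => (⟨i r j, p r j⟩ : Pts H))) (a r) = c₁) :
    Tors H (c₀ - c₁) := by
  obtain ⟨N, hN, f0, f1, s0, s1⟩ := deg_zero hK z hz
  have hz0 : z ≠ 0 := by
    rintro rfl
    exact hz (isAlgebraic_zero)
  set A0 : Finset (Place k K) := f0.toFinset with hA0
  set A1 : Finset (Place k K) := f1.toFinset with hA1
  have m0 : ∀ w, w ∈ A0 ↔ w.v z < 1 := fun w => by
    rw [hA0, Set.Finite.mem_toFinset]; rfl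
  have m1 : ∀ w, w ∈ A1 ↔ 1 < w.v z := fun w => by
    rw [hA1, Set.Finite.mem_toFinset]; rfl
  have hdis : Disjoint A0 A1 := by
    rw [Finset.disjoint_left]
    intro w h h'
    rw [m0] at h
    rw [m1] at h'
    exact lt_asymm h h'
  have hord : ∀ w : Place k K, w ∉ A0 ∪ A1 → w.ord z = 0 := by
    intro w hw
    rw [Finset.mem_union, m0, m1, not_or, not_lt, not_lt] at hw
    have h1 : w.v z = 1 := le_antisymm hw.2 hw.1
    unfold Place.ord
    rw [h1, WithZero.log_one, neg_zero]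
  have t0 : ∑ w ∈ A0, w.ord z = (N : ℤ) := by
    rw [← s0]
    exact (finsum_mem_eq_finite_toFinset_sum (fun w : Place k K => w.ord z) f0).symm
  have t1 : ∑ w ∈ A1, w.ord z = -(N : ℤ) := by
    rw [← s1]
    exact (finsum_mem_eq_finite_toFinset_sum (fun w : Place k K => w.ord z) f1).symm
  choose P hP using fun (r : R) (w : Place k K) (j : J r) => Spec.exists hK w (T r j)
  let x : R → Place k K → Multiset (Pts H) := fun r w =>
    (Finset.univ : Finset (J r)).val.map (fun j => (⟨i r j, P r w j⟩ : Pts H))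
  have hx : ∀ r w s, (∃ p : ∀ j, (H (i r j)).Pt, (∀ j, Spec w (T r j) (p j)) ∧
      s = (Finset.univ : Finset (J r)).val.map (fun j => (⟨i r j, p j⟩ : Pts H))) ↔ x r w = s := by
    intro r w s
    constructor
    · rintro ⟨p, hp, rfl⟩
      have h1 : p = P r w := funext fun j => Spec.unique hK w (T r j) (hp j) (hP r w j)
      rw [h1]
    · rintro rfl
      exact ⟨P r w, hP r w, rfl⟩
  let Dc : R → Cyc H := fun r => ∑ w ∈ A0 ∪ A1, Finsupp.single (x r w) (w.ord z)
  have hD : ∀ r, IsPrincipal H (Dc r) := by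
    intro r
    refine ⟨K, inferInstance, inferInstance, hK, J r, inferInstance, i r, T r, z, hz0, fun s => ?_⟩
    have h1 : ∀ w : Place k K, (∑ᶠ (_ : ∃ p : ∀ j, (H (i r j)).Pt, (∀ j, Spec w (T r j) (p j)) ∧
        s = (Finset.univ : Finset (J r)).val.map (fun j => (⟨i r j, p j⟩ : Pts H))), w.ord z) =
        if x r w = s then w.ord z else 0 := by
      intro w
      rw [finsum_eq_if]
      by_cases h2 : x r w = s
      · rw [if_pos h2, if_pos ((hx r w s).2 h2)]
      · rw [if_neg h2, if_neg fun h3 => h2 ((hx r w s).1 h3)]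
    rw [finsum_congr h1, finsum_eq_sum_of_support_subset (s := A0 ∪ A1)]
    · change (∑ w ∈ A0 ∪ A1, Finsupp.single (x r w) (w.ord z)) s = _
      rw [Finsupp.finset_sum_apply]
      refine Finset.sum_congr rfl fun w _ => ?_
      rw [Finsupp.single_apply]
    · intro w hw
      rw [Function.mem_support] at hw
      by_contra h2
      apply hw
      rw [hord w h2]
      split_ifs <;> rfl
  refine ⟨N, hN, ?_⟩
  have hsum : N • (c₀ - c₁) = ∑ r, a r • Dc r := by
    have h1 : ∀ w : Place k K, ∑ r, a r • Finsupp.single (x r w) (w.ord z) =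
        w.ord z • ∑ r, Finsupp.single (x r w) (a r) := by
      intro w
      rw [Finset.smul_sum]
      refine Finset.sum_congr rfl fun r _ => ?_
      rw [Finsupp.smul_single, Finsupp.smul_single, smul_eq_mul, smul_eq_mul, mul_comm]
    have h2 : ∑ r, a r • Dc r = ∑ w ∈ A0 ∪ A1, w.ord z • ∑ r, Finsupp.single (x r w) (a r) := by
      rw [← Finset.sum_congr rfl fun w _ => h1 w, Finset.sum_comm]
      refine Finset.sum_congr rfl fun r _ => ?_
      rw [← Finset.smul_sum]
    rw [h2, Finset.sum_union hdis]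
    have h3 : ∑ w ∈ A0, w.ord z • ∑ r, Finsupp.single (x r w) (a r) = (N : ℤ) • c₀ := by
      rw [← t0, Finset.sum_smul]
      refine Finset.sum_congr rfl fun w hw => ?_
      congr 1
      exact h₀ w ((m0 w).1 hw) (fun r j => P r w j) (fun r j => hP r w j)
    have h4 : ∑ w ∈ A1, w.ord z • ∑ r, Finsupp.single (x r w) (a r) = (-(N : ℤ)) • c₁ := by
      rw [← t1, Finset.sum_smul]
      refine Finset.sum_congr rfl fun w hw => ?_
      congr 1
      exact h₁ w ((m1 w).1 hw) (fun r j => P r w j) (fun r j => hP r w j)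
    rw [h3, h4, smul_sub, neg_smul, natCast_zsmul, natCast_zsmul, sub_eq_add_neg]
  rw [hsum]
  have hmem : ∀ r, Dc r ∈ ratZero H := fun r =>
    AddSubgroup.subset_closure (show Dc r ∈ {c | IsPrincipal H c} from hD r)
  exact AddSubgroup.sum_mem _ fun r _ => AddSubgroup.zsmul_mem _ (hmem r) _

/-- The fibre principle for `[T] + [w T]`. -/
theorem fib_one (hK : IsFunctionField k K) (z : K) (hz : Transcendental k z) {i : ι}
    (T : (H i).Tri K) (c₀ c₁ : Cyc H)
    (h₀ : ∀ w : Place k K, w.v z < 1 → ∀ p : (H i).Pt, Spec w T p →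
      pt (⟨i, p⟩ : Pts H) + pt (inv (⟨i, p⟩ : Pts H)) = c₀)
    (h₁ : ∀ w : Place k K, 1 < w.v z → ∀ p : (H i).Pt, Spec w T p →
      pt (⟨i, p⟩ : Pts H) + pt (inv (⟨i, p⟩ : Pts H)) = c₁) :
    Tors H (c₀ - c₁) := by
  have key : ∀ (w : Place k K) (p : ∀ (b : Bool) (_ : Unit), (H i).Pt),
      (∀ b u, Spec w ((fun (b : Bool) (_ : Unit) => if b = true then T else T.neg) b u) (p b u)) →
      Spec w T (p true ()) ∧ p false () = (p true ()).inv := by
    intro w p hp
    have h1 : Spec w T (p true ()) := hp true ()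
    have h2 : Spec w T.neg (p false ()) := hp false ()
    exact ⟨h1, Spec.unique hK w T.neg h2 (Spec.inv w T h1)⟩
  have hsum : ∀ p : ∀ (b : Bool) (_ : Unit), (H i).Pt, p false () = (p true ()).inv →
      ∑ r : Bool, Finsupp.single ((Finset.univ : Finset Unit).val.map
        (fun j => (⟨i, p r j⟩ : Pts H))) (1 : ℤ) =
      pt (⟨i, p true ()⟩ : Pts H) + pt (inv (⟨i, p true ()⟩ : Pts H)) := by
    intro p hp
    rw [Fintype.sum_bool]
    have e1 : (Finset.univ : Finset Unit).val.map (fun j => (⟨i, p true j⟩ : Pts H)) =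
        {(⟨i, p true ()⟩ : Pts H)} := rfl
    have e2 : (Finset.univ : Finset Unit).val.map (fun j => (⟨i, p false j⟩ : Pts H)) =
        {(⟨i, p false ()⟩ : Pts H)} := rfl
    rw [e1, e2, hp]
    rfl
  refine fib hK z hz (R := Bool) (fun _ => 1) (fun _ => Unit) (fun _ _ => i)
    (fun b _ => if b = true then T else T.neg) c₀ c₁ (fun w hw p hp => ?_) (fun w hw p hp => ?_)
  · obtain ⟨h1, h2⟩ := key w p hp
    rw [hsum p h2]
    exact h₀ w hw _ h1
  · obtain ⟨h1, h2⟩ := key w p hp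
    rw [hsum p h2]
    exact h₁ w hw _ h1

/-- The cycle `{P, Q}`. -/
noncomputable def pr (P Q : Pts H) : Cyc H := Finsupp.single {P, Q} 1

/-- The fibre principle for a combination of `[T, T']`, `[w T, w T']`, `[T, w T']`, `[w T, T']`. -/
theorem fib_pair (hK : IsFunctionField k K) (z : K) (hz : Transcendental k z) {i j : ι}
    (T : (H i).Tri K) (T' : (H j).Tri K) (a b c d : ℤ) (c₀ c₁ : Cyc H)
    (h₀ : ∀ w : Place k K, w.v z < 1 → ∀ (p : (H i).Pt) (q : (H j).Pt), Spec w T p → Spec w T' q →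
      a • pr (⟨i, p⟩ : Pts H) ⟨j, q⟩ + b • pr (inv (⟨i, p⟩ : Pts H)) (inv ⟨j, q⟩) +
        c • pr (⟨i, p⟩ : Pts H) (inv ⟨j, q⟩) + d • pr (inv (⟨i, p⟩ : Pts H)) ⟨j, q⟩ = c₀)
    (h₁ : ∀ w : Place k K, 1 < w.v z → ∀ (p : (H i).Pt) (q : (H j).Pt), Spec w T p → Spec w T' q →
      a • pr (⟨i, p⟩ : Pts H) ⟨j, q⟩ + b • pr (inv (⟨i, p⟩ : Pts H)) (inv ⟨j, q⟩) +
        c • pr (⟨i, p⟩ : Pts H) (inv ⟨j, q⟩) + d • pr (inv (⟨i, p⟩ : Pts H)) ⟨j, q⟩ = c₁) :
    Tors H (c₀ - c₁) := by
  -- the signs and the points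
  let ix : Bool → ι := fun b => match b with
    | true => i
    | false => j
  let TT : ∀ (_ : Fin 4) (b : Bool), (H (ix b)).Tri K := fun r b => match b with
    | true => if r = 0 ∨ r = 2 then T else T.neg
    | false => if r = 0 ∨ r = 3 then T' else T'.neg
  have key : ∀ (w : Place k K) (p : ∀ (_ : Fin 4) (b : Bool), (H (ix b)).Pt),
      (∀ r b, Spec w (TT r b) (p r b)) →
      (Spec w T (p 0 true) ∧ Spec w T' (p 0 false)) ∧
      (p 1 true = (show (H i).Pt from p 0 true).inv ∧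
        p 1 false = (show (H j).Pt from p 0 false).inv) ∧
      (p 2 true = p 0 true ∧ p 2 false = (show (H j).Pt from p 0 false).inv) ∧
      (p 3 true = (show (H i).Pt from p 0 true).inv ∧ p 3 false = p 0 false) := by
    intro w p hp
    have a0 : Spec w T (p 0 true) := hp 0 true
    have b0 : Spec w T' (p 0 false) := hp 0 false
    have a1 : Spec w T.neg (p 1 true) := hp 1 true
    have b1 : Spec w T'.neg (p 1 false) := hp 1 false
    have a2 : Spec w T (p 2 true) := hp 2 true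
    have b2 : Spec w T'.neg (p 2 false) := hp 2 false
    have a3 : Spec w T.neg (p 3 true) := hp 3 true
    have b3 : Spec w T' (p 3 false) := hp 3 false
    exact ⟨⟨a0, b0⟩, ⟨Spec.unique hK w _ a1 (Spec.inv w T a0),
      Spec.unique hK w _ b1 (Spec.inv w T' b0)⟩, ⟨Spec.unique hK w _ a2 a0,
      Spec.unique hK w _ b2 (Spec.inv w T' b0)⟩, ⟨Spec.unique hK w _ a3 (Spec.inv w T a0),
      Spec.unique hK w _ b3 b0⟩⟩
  have e : ∀ (p : ∀ (b : Bool), (H (ix b)).Pt), (Finset.univ : Finset Bool).val.map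
      (fun b => (⟨ix b, p b⟩ : Pts H)) = {(⟨i, p true⟩ : Pts H), (⟨j, p false⟩ : Pts H)} := by
    intro p
    rfl
  have hsum : ∀ (w : Place k K) (p : ∀ (_ : Fin 4) (b : Bool), (H (ix b)).Pt),
      (∀ r b, Spec w (TT r b) (p r b)) →
      ∑ r : Fin 4, Finsupp.single ((Finset.univ : Finset Bool).val.map
        (fun b => (⟨ix b, p r b⟩ : Pts H))) ((![a, b, c, d] : Fin 4 → ℤ) r) =
      a • pr (⟨i, p 0 true⟩ : Pts H) ⟨j, p 0 false⟩ +
        b • pr (inv (⟨i, p 0 true⟩ : Pts H)) (inv ⟨j, p 0 false⟩) +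
        c • pr (⟨i, p 0 true⟩ : Pts H) (inv ⟨j, p 0 false⟩) +
        d • pr (inv (⟨i, p 0 true⟩ : Pts H)) ⟨j, p 0 false⟩ := by
    intro w p hp
    obtain ⟨-, ⟨k1, k2⟩, ⟨k3, k4⟩, ⟨k5, k6⟩⟩ := key w p hp
    rw [Fin.sum_univ_four, e, e, e, e, k1, k2, k3, k4, k5, k6]
    unfold pr
    simp only [Finsupp.smul_single, smul_eq_mul, mul_one]
    rfl
  refine fib hK z hz (R := Fin 4) ![a, b, c, d] (fun _ => Bool) (fun _ => ix) TT c₀ c₁
    (fun w hw p hp => ?_) (fun w hw p hp => ?_)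
  · rw [hsum w p hp]
    exact h₀ w hw _ _ (key w p hp).1.1 (key w p hp).1.2
  · rw [hsum w p hp]
    exact h₁ w hw _ _ (key w p hp).1.1 (key w p hp).1.2

/-- The cycle `e_P e_Q`. -/
noncomputable def ep (P Q : Pts H) : Cyc H :=
  pr P Q + pr (inv P) (inv Q) - pr P (inv Q) - pr (inv P) Q

end HJ
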