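import Pool.Agent.ZC.Defs

/-!
Module ResC (project HJ).  Residue fields of places of function fields of curves.
The two theorems are copied from helper18's project AC (modules Triv and Norm).
-/

namespace HJ

open ZC
open scoped Classical

private theorem triv_alg_le {F L : Type} [Field F] [Field L] [Algebra F L] [Algebra.IsAlgebraic F L]
    {Γ : Type} [LinearOrderedCommGroupWithZero Γ] (v : Valuation L Γ)
    (h : ∀ u : F, u ≠ 0 → v (algebraMap F L u) = 1) (u : L) : v u ≤ 1 := by
  have hmem : ∀ c : F, algebraMap F L c ∈ v.integer := by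
    intro c
    by_cases hc : c = 0
    · rw [hc, map_zero]; exact zero_mem _
    · change v _ ≤ 1
      rw [h c hc]
  have hint : IsIntegral F u := (Algebra.IsAlgebraic.isAlgebraic (R := F) u).isIntegral
  obtain ⟨p, hp, hpu⟩ := hint
  have hint' : IsIntegral v.integer u := by
    refine ⟨p.map ((algebraMap F L).codRestrict v.integer hmem), hp.map _, ?_⟩
    rw [Polynomial.eval₂_map]
    exact hpu
  exact Valuation.Integers.mem_of_integral (Valuation.integer.integers v) hint'

theorem triv_alg {F L : Type} [Field F] [Field L] [Algebra F L] [Algebra.IsAlgebraic F L]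
    {Γ : Type} [LinearOrderedCommGroupWithZero Γ] (v : Valuation L Γ)
    (h : ∀ u : F, u ≠ 0 → v (algebraMap F L u) = 1) : ∀ u : L, u ≠ 0 → v u = 1 := by
  intro u hu
  apply le_antisymm (triv_alg_le v h u)
  have h1 := triv_alg_le v h u⁻¹
  rw [map_inv₀] at h1
  have h2 : 0 < v u := by
    rw [zero_lt_iff]
    exact (Valuation.ne_zero_iff v).2 hu
  exact (inv_le_one₀ h2).1 h1

variable {k : Type} [Field k] [CharZero k] {a : k} {F L : Type} [Field F] [Field L] [Algebra k F]
  [Algebra k L] [Algebra F L] [IsScalarTower k F L] {m : ℕ}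

omit [CharZero k] in

theorem res_const {k K : Type} [Field k] [IsAlgClosed k] [CharZero k] [Field K] [Algebra k K]
    (hK : IsFunctionField k K) (v : Place k K) (u : K) (hu : v.v u ≤ 1) :
    ∃ c : k, v.v (u - algebraMap k K c) < 1 := by
  by_contra hcon
  push Not at hcon
  have hc1 : ∀ c : k, v.v (algebraMap k K c) ≤ 1 := by
    intro c
    by_cases hc : c = 0
    · rw [hc, map_zero, map_zero]; exact zero_le_one
    · rw [v.triv c hc]
  have h1 : ∀ c : k, v.v (u - algebraMap k K c) = 1 := fun c =>
    le_antisymm ((v.v.map_sub _ _).trans (max_le hu (hc1 c))) (hcon c)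
  have h2 : ∀ P : Polynomial k, P ≠ 0 → v.v (Polynomial.aeval u P) = 1 := by
    intro P hP
    have hs := IsAlgClosed.splits P
    rw [hs.eq_prod_roots, map_mul, Polynomial.aeval_C, map_mul,
      v.triv _ (Polynomial.leadingCoeff_ne_zero.mpr hP), one_mul, map_multiset_prod,
      map_multiset_prod, Multiset.map_map, Multiset.map_map]
    refine Multiset.prod_eq_one fun x hx => ?_
    rw [Multiset.mem_map] at hx
    obtain ⟨r, -, rfl⟩ := hx
    simp only [Function.comp_apply, map_sub, Polynomial.aeval_X, Polynomial.aeval_C]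
    exact h1 r
  have htr : Transcendental k u := by
    rw [transcendental_iff]
    intro P hP
    by_contra hP0
    have := h2 P hP0
    rw [hP, map_zero] at this
    exact zero_ne_one this
  obtain ⟨t, ht, hfin⟩ := hK
  have halg : ∀ a : K, IsAlgebraic (IntermediateField.adjoin k {u}) a := by
    have hat : ∀ a : K, IsAlgebraic (Algebra.adjoin k {t}) a := fun a =>
      IntermediateField.isAlgebraic_adjoin_iff.mp (Algebra.IsAlgebraic.isAlgebraic a)
    have htu : IsAlgebraic (Algebra.adjoin k {u}) (algebraMap K K t) :=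
      IsAlgebraic.adjoin_singleton ht htr (hat u)
    intro a
    refine IntermediateField.isAlgebraic_adjoin_iff.mpr
      (IsAlgebraic.adjoin_of_forall_isAlgebraic ?_ (hat a))
    rintro x ⟨hx, -⟩
    rw [Set.mem_singleton_iff] at hx
    rw [hx]
    exact htu
  have : Algebra.IsAlgebraic (IntermediateField.adjoin k {u}) K := ⟨halg⟩
  have hall := triv_alg (F := IntermediateField.adjoin k {u}) v.v (by
    rintro ⟨x, hx⟩ hx0
    obtain ⟨r, s, hrs⟩ := IntermediateField.mem_adjoin_simple_iff k x |>.mp hx
    have hx0' : x ≠ 0 := fun h => hx0 (Subtype.ext h)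
    change v.v x = 1
    have hr : r ≠ 0 := by
      rintro rfl
      rw [map_zero, zero_div] at hrs
      exact hx0' hrs
    have hs : s ≠ 0 := by
      rintro rfl
      rw [map_zero, div_zero] at hrs
      exact hx0' hrs
    rw [hrs, map_div₀, h2 r hr, h2 s hs, div_one])
  obtain ⟨z, hz⟩ := v.surj (WithZero.exp 1)
  have hz0 : z ≠ 0 := by
    rintro rfl
    rw [map_zero] at hz
    exact WithZero.exp_ne_zero hz.symm
  have := hall z hz0
  rw [hz] at this
  have h3 := congrArg WithZero.log this
  simp at h3

end HJ
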