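import Pool.Agent.H95.HJ.Basic
import Pool.Agent.H95.HJ.ResC

/-!
Module SpecV (project HJ, helper95).  Values of a point of the curve over `K` at a place of `K`.
NOTATION.  m = elements with w.v < 1, O = elements with w.v <= 1; res_const: every element of O is congruent
to a constant modulo m (unique, because w.triv).
PROOFS.
* val_ne: if c * T.v j is congruent to t.v j for both j then c <> 0 (otherwise w.v (t.v j) < 1, so t.v = 0).
* spec_mk: (t, c) and (t', c') two representations (congruences) of values of T.  Let d = c' / c.  If w.v d <= 1 take the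
  constant e congruent to d (res_const); then t'.v = e t.v modulo m, both constants, so equal (w.triv: a constant in m is 0), and
  t'.y = e^n t.y.  If w.v d > 1 exchange the roles (w.v d⁻¹ < 1: then t.v = 0, impossible).  e <> 0 because t'.v <> 0.
* Spec.unique from spec_mk.
* Spec.exists: choose j0 with w.v (T.v j) <= w.v (T.v j0) for both j (then T.v j0 <> 0), c = (T.v j0)⁻¹: all c * T.v j are in O,
  let t.v j be the constants (res_const), t.v j0 = 1, so t.v <> 0.  (c^n T.y)^2 = F (c T.v) (H.F_smul) is in O and congruent to F(t.v)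
  (F is a product of linear forms, use Hyp.F_cst), so c^n T.y is in O, congruent to a constant y0, y0^2 = H.F t.v.
* spec_lift: like Spec.exists but for given c with c * T.v j congruent to constants u j, u <> 0.
* Spec.inv, spec_bc: immediate from the definitions (spec_bc: <- take c = 1; -> uniqueness).
-/

namespace HJ

open ZC
open scoped Classical

variable {k K : Type} [Field k] [IsAlgClosed k] [CharZero k] [Field K] [Algebra k K] {n : ℕ}
  {H : Hyp k n}

/-- Congruence of vectors at a place. -/
def Cong (w : Place k K) (u : Fin 2 → K) (a : Fin 2 → k) : Prop :=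
  ∀ j, w.v (u j - algebraMap k K (a j)) < 1

private theorem sv_const_le (w : Place k K) (x : k) : w.v (algebraMap k K x) ≤ 1 := by
  by_cases hx : x = 0
  · subst hx; simp
  · rw [w.triv x hx]

private theorem sv_le (w : Place k K) {X : K} {x : k} (h : w.v (X - algebraMap k K x) < 1) :
    w.v X ≤ 1 := by
  have : X = (X - algebraMap k K x) + algebraMap k K x := by ring
  rw [this]
  exact (Valuation.map_add _ _ _).trans (max_le h.le (sv_const_le w x))

private theorem sv_cst (w : Place k K) (x : k) :
    w.v (algebraMap k K x - algebraMap k K x) < 1 := by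
  simp

private theorem sv_add (w : Place k K) {X Y : K} {x y : k}
    (hX : w.v (X - algebraMap k K x) < 1) (hY : w.v (Y - algebraMap k K y) < 1) :
    w.v ((X + Y) - algebraMap k K (x + y)) < 1 := by
  have : (X + Y) - algebraMap k K (x + y)
      = (X - algebraMap k K x) + (Y - algebraMap k K y) := by
    rw [map_add]; ring
  rw [this]
  exact Valuation.map_add_lt _ hX hY

private theorem sv_neg (w : Place k K) {X : K} {x : k}
    (hX : w.v (X - algebraMap k K x) < 1) :
    w.v (-X - algebraMap k K (-x)) < 1 := by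
  have : -X - algebraMap k K (-x) = -(X - algebraMap k K x) := by
    rw [map_neg]; ring
  rw [this, Valuation.map_neg]
  exact hX

private theorem sv_sub (w : Place k K) {X Y : K} {x y : k}
    (hX : w.v (X - algebraMap k K x) < 1) (hY : w.v (Y - algebraMap k K y) < 1) :
    w.v ((X - Y) - algebraMap k K (x - y)) < 1 := by
  have h := sv_add w hX (sv_neg w hY)
  rwa [← sub_eq_add_neg, ← sub_eq_add_neg] at h

private theorem sv_mul (w : Place k K) {X Y : K} {x y : k}
    (hX : w.v (X - algebraMap k K x) < 1) (hY : w.v (Y - algebraMap k K y) < 1) :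
    w.v ((X * Y) - algebraMap k K (x * y)) < 1 := by
  have : (X * Y) - algebraMap k K (x * y)
      = (X - algebraMap k K x) * Y + algebraMap k K x * (Y - algebraMap k K y) := by
    rw [map_mul]; ring
  rw [this]
  refine Valuation.map_add_lt _ ?_ ?_
  · rw [map_mul]
    exact (mul_le_of_le_one_right' (sv_le w hY)).trans_lt hX
  · rw [map_mul]
    exact (mul_le_of_le_one_left' (sv_const_le w x)).trans_lt hY

private theorem sv_pow (w : Place k K) {X : K} {x : k}
    (hX : w.v (X - algebraMap k K x) < 1) (m : ℕ) :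
    w.v (X ^ m - algebraMap k K (x ^ m)) < 1 := by
  induction m with
  | zero => simp
  | succ m ih =>
    rw [pow_succ, pow_succ]
    exact sv_mul w ih hX

private theorem sv_prod (w : Place k K) {I : Type} (s : Finset I) (X : I → K) (x : I → k)
    (hX : ∀ i, w.v (X i - algebraMap k K (x i)) < 1) :
    w.v (∏ i ∈ s, X i - algebraMap k K (∏ i ∈ s, x i)) < 1 := by
  induction s using Finset.induction_on with
  | empty => simp
  | insert i s hi ih =>
    rw [Finset.prod_insert hi, Finset.prod_insert hi]
    exact sv_mul w (hX i) ih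

private theorem sv_uniq (w : Place k K) {X : K} {x y : k}
    (hX : w.v (X - algebraMap k K x) < 1) (hY : w.v (X - algebraMap k K y) < 1) : x = y := by
  by_contra hne
  have h1 : w.v (algebraMap k K (x - y)) < 1 := by
    have : algebraMap k K (x - y) = (X - algebraMap k K y) - (X - algebraMap k K x) := by
      rw [map_sub]; ring
    rw [this]
    exact Valuation.map_sub_lt _ hY hX
  rw [w.triv _ (sub_ne_zero.2 hne)] at h1
  exact lt_irrefl _ h1

theorem F_cong (w : Place k K) {u : Fin 2 → K} {a : Fin 2 → k} (h : Cong w u a) :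
    w.v (H.F u - algebraMap k K (H.F a)) < 1 := by
  rw [Hyp.F_def, Hyp.F_def]
  refine sv_prod w _ _ _ fun i => ?_
  unfold dt cst
  exact sv_sub w (sv_mul w (sv_cst w _) (h 1)) (sv_mul w (sv_cst w _) (h 0))

theorem dt_cong (w : Place k K) {u u' : Fin 2 → K} {a a' : Fin 2 → k} (h : Cong w u a)
    (h' : Cong w u' a') : w.v (dt u u' - algebraMap k K (dt a a')) < 1 := by
  unfold dt
  exact sv_sub w (sv_mul w (h 0) (h' 1)) (sv_mul w (h 1) (h' 0))

theorem mulVec_cong (w : Place k K) (M : Matrix (Fin 2) (Fin 2) k) {u : Fin 2 → K} {a : Fin 2 → k}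
    (h : Cong w u a) : Cong w ((M.map (algebraMap k K)).mulVec u) (M.mulVec a) := by
  intro j
  simp only [Matrix.mulVec, dotProduct, Fin.sum_univ_two, Matrix.map_apply]
  exact sv_add w (sv_mul w (sv_cst w _) (h 0)) (sv_mul w (sv_cst w _) (h 1))

/-- If `c * T.v` is congruent to `a ≠ 0` then the value of `T` has a representative over `a`. -/
theorem spec_lift (hK : IsFunctionField k K) (w : Place k K) (T : H.Tri K) (c : K)
    (a : Fin 2 → k) (ha : a ≠ 0) (h : Cong w (c • T.v) a) :
    ∃ t : H.Tri k, t.v = a ∧ w.v (c ^ n * T.y - algebraMap k K t.y) < 1 ∧ Spec w T t.mk' := by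
  have hF := F_cong (H := H) w h
  have hsq : (c ^ n * T.y) ^ 2 = H.F (c • T.v) := by
    rw [H.F_smul, mul_pow, T.eq]
  have hle : w.v (c ^ n * T.y) ≤ 1 := by
    have h1 := sv_le w hF
    rw [← hsq, map_pow] at h1
    exact (pow_le_one_iff_of_nonneg zero_le (two_ne_zero)).1 h1
  obtain ⟨y0, hy0⟩ := res_const hK w _ hle
  have hy2 : y0 ^ 2 = H.F a := by
    have h1 := sv_pow w hy0 2
    rw [hsq] at h1
    exact sv_uniq w h1 hF
  exact ⟨⟨a, y0, ha, hy2⟩, rfl, hy0, c, ⟨a, y0, ha, hy2⟩, rfl, h, hy0⟩

theorem Spec.exists (hK : IsFunctionField k K) (w : Place k K) (T : H.Tri K) :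
    ∃ p : H.Pt, Spec w T p := by
  obtain ⟨j0, hj0⟩ : ∃ j0 : Fin 2, ∀ j, w.v (T.v j) ≤ w.v (T.v j0) := by
    rcases le_total (w.v (T.v 0)) (w.v (T.v 1)) with h | h
    · refine ⟨1, fun j => ?_⟩
      fin_cases j
      · exact h
      · exact le_rfl
    · refine ⟨0, fun j => ?_⟩
      fin_cases j
      · exact le_rfl
      · exact h
  have hne : T.v j0 ≠ 0 := by
    intro h0
    apply T.ne
    funext j
    have h1 := hj0 j
    rw [h0, map_zero] at h1
    exact (Valuation.zero_iff w.v).1 (le_antisymm h1 zero_le)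
  have hle : ∀ j, w.v ((T.v j0)⁻¹ * T.v j) ≤ 1 := by
    intro j
    rw [map_mul, map_inv₀]
    have h0 : w.v (T.v j0) ≠ 0 := (Valuation.ne_zero_iff w.v).2 hne
    calc (w.v (T.v j0))⁻¹ * w.v (T.v j) ≤ (w.v (T.v j0))⁻¹ * w.v (T.v j0) :=
          mul_le_mul_right (hj0 j) _
      _ = 1 := inv_mul_cancel₀ h0
  choose a ha using fun j => res_const hK w _ (hle j)
  have ha0 : a ≠ 0 := by
    intro h0
    have h1 := ha j0
    rw [inv_mul_cancel₀ hne, h0, Pi.zero_apply, map_zero, sub_zero, map_one] at h1
    exact lt_irrefl _ h1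
  obtain ⟨t, -, -, ht⟩ := spec_lift hK w T (T.v j0)⁻¹ a ha0 ha
  exact ⟨_, ht⟩

/-- Every function `c` that makes the coordinates of `T` congruent to those of a point `t` exhibits
the value. -/
theorem Spec.unique (hK : IsFunctionField k K) (w : Place k K) (T : H.Tri K) {p p' : H.Pt}
    (h : Spec w T p) (h' : Spec w T p') : p = p' := by
  have hne : ∀ (c : K) (t : H.Tri k), (∀ j, w.v (c * T.v j - algebraMap k K (t.v j)) < 1) →
      c ≠ 0 := by
    rintro c t h rfl
    apply t.ne
    funext j
    by_contra h0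
    have h1 := h j
    rw [zero_mul, zero_sub, Valuation.map_neg, w.triv _ h0] at h1
    exact lt_irrefl _ h1
  have key : ∀ (c c' : K) (t t' : H.Tri k), (∀ j, w.v (c * T.v j - algebraMap k K (t.v j)) < 1) →
      w.v (c ^ n * T.y - algebraMap k K t.y) < 1 →
      (∀ j, w.v (c' * T.v j - algebraMap k K (t'.v j)) < 1) →
      w.v (c' ^ n * T.y - algebraMap k K t'.y) < 1 → w.v (c' * c⁻¹) ≤ 1 →
      t.mk' = t'.mk' := by
    intro c c' t t' h1 h2 h1' h2' hd
    have hc := hne c t h1
    obtain ⟨e, he⟩ := res_const hK w _ hd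
    have h3 : t'.v = e • t.v := by
      funext j
      have h4 := sv_mul w he (h1 j)
      have h5 : c' * c⁻¹ * (c * T.v j) = c' * T.v j := by
        rw [mul_assoc, inv_mul_cancel_left₀ hc]
      rw [h5] at h4
      exact sv_uniq w (h1' j) h4
    have h4 : t'.y = e ^ n * t.y := by
      have h5 := sv_mul w (sv_pow w he n) h2
      have h6 : (c' * c⁻¹) ^ n * (c ^ n * T.y) = c' ^ n * T.y := by
        rw [← mul_assoc, ← mul_pow, mul_assoc, inv_mul_cancel₀ hc, mul_one]
      rw [h6] at h5
      exact sv_uniq w h2' h5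
    have he0 : e ≠ 0 := by
      rintro rfl
      exact t'.ne (by rw [h3, zero_smul])
    exact (mk'_eq_iff _ _).2 ⟨e, he0, h3, h4⟩
  obtain ⟨c, t, rfl, h1, h2⟩ := h
  obtain ⟨c', t', rfl, h1', h2'⟩ := h'
  change t.mk' = t'.mk'
  have hc := hne c t h1
  have hc' := hne c' t' h1'
  rcases le_total (w.v (c' * c⁻¹)) 1 with h3 | h3
  · exact key c c' t t' h1 h2 h1' h2' h3
  · refine (key c' c t' t h1' h2' h1 h2 ?_).symm
    have h4 : c * c'⁻¹ = (c' * c⁻¹)⁻¹ := by
      rw [mul_inv, inv_inv, mul_comm]
    rw [h4, map_inv₀]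
    exact inv_le_one_of_one_le₀ h3

theorem Spec.inv (w : Place k K) (T : H.Tri K) {p : H.Pt} (h : Spec w T p) :
    Spec w T.neg p.inv := by
  obtain ⟨c, t, rfl, h1, h2⟩ := h
  refine ⟨c, t.neg, rfl, h1, ?_⟩
  have h3 := sv_neg w h2
  rw [← mul_neg] at h3
  exact h3

theorem spec_bc (hK : IsFunctionField k K) (w : Place k K) (t : H.Tri k) (p : H.Pt) :
    Spec w (t.bc K) p ↔ p = t.mk' := by
  have h1 : Spec w (t.bc K) t.mk' := by
    refine ⟨1, t, rfl, fun j => ?_, ?_⟩
    · rw [one_mul]
      exact sv_cst w _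
    · rw [one_pow, one_mul]
      exact sv_cst w _
  constructor
  · intro h
    exact Spec.unique hK w _ h h1
  · rintro rfl
    exact h1

end HJ
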