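import Pool.Agent.H95.HJ.LemB
import Pool.Agent.H95.HJ.Ring

/-!
Module RingL (project HJ part 2, helper95).  Consequences in the ring of zero-cycles modulo torsion.
PROOF.  S, φ of exists_ring; x P = φ {P}, ψ c = c.sum (...), additive, ψ (pr P Q) = x P * x Q, ψ (pt P) = x P.  ksum: x P + x (inv P) = K_i depends only on
the curve i = P.1.  inv W = W gives 2 x W = K.  So 2 (x W x R + x W x (inv R)) = 2 x W K_(R.1) = K_(W.1) K_(R.1).
* weier_tors: both cycles have the class K K' / 2; S is torsion free.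
* ep_of_weier: let a = x P x Q + x (inv P) x (inv Q), a' = x P x (inv Q) + x (inv P) x Q; a + a' = K_(P.1) K_(Q.1), ep = a - a' = 2 a - K K', and
  2 a = K K' by hypothesis.
* tors_sub etc. in the ring or directly.
-/

namespace HJ

open ZC
open scoped Classical

variable {k : Type} [Field k] [IsAlgClosed k] [CharZero k] {ι : Type} {n : ι → ℕ}
  {H : ∀ i, Hyp k (n i)}

omit [IsAlgClosed k] [CharZero k] in
theorem Tors.add {c d : Cyc H} (hc : Tors H c) (hd : Tors H d) : Tors H (c + d) := by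
  obtain ⟨N, hN, h1⟩ := hc
  obtain ⟨M, hM, h2⟩ := hd
  refine ⟨N * M, Nat.mul_pos hN hM, ?_⟩
  rw [smul_add]
  refine (ratZero H).add_mem ?_ ?_
  · rw [mul_comm, mul_smul]; exact (ratZero H).nsmul_mem h1 M
  · rw [mul_smul]; exact (ratZero H).nsmul_mem h2 N

omit [IsAlgClosed k] [CharZero k] in
theorem Tors.sub {c d : Cyc H} (hc : Tors H c) (hd : Tors H d) : Tors H (c - d) := by
  rw [sub_eq_add_neg]
  exact hc.add hd.neg

omit [IsAlgClosed k] [CharZero k] in
theorem Tors.zsmul {c : Cyc H} (hc : Tors H c) (a : ℤ) : Tors H (a • c) := by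
  obtain ⟨N, hN, h1⟩ := hc
  refine ⟨N, hN, ?_⟩
  rw [smul_comm]
  exact (ratZero H).zsmul_mem h1 a

omit [IsAlgClosed k] [CharZero k] in
theorem Tors.of_zsmul {c : Cyc H} {a : ℤ} (ha : a ≠ 0) (hc : Tors H (a • c)) : Tors H c := by
  have hc' : Tors H ((a.natAbs : ℕ) • c) := by
    rw [← natCast_zsmul, Int.natCast_natAbs]
    rcases abs_choice a with h | h
    · rw [h]; exact hc
    · rw [h, neg_smul]; exact hc.neg
  obtain ⟨N, hN, h1⟩ := hc'
  refine ⟨N * a.natAbs, Nat.mul_pos hN (Int.natAbs_pos.2 ha), ?_⟩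
  rw [mul_smul]
  exact h1

private theorem RingL_hom (H : ∀ i, Hyp k (n i)) :
    ∃ (S : Type) (_ : CommRing S) (x : Pts H → S) (ψ : Cyc H →+ S),
      (∀ (m : ℕ) (y : S), m ≠ 0 → (m : S) * y = 0 → y = 0) ∧ (∀ c, Tors H c ↔ ψ c = 0) ∧
      (∀ P, ψ (pt P) = x P) ∧ ∀ P Q, ψ (pr P Q) = x P * x Q := by
  obtain ⟨S, iS, φ, hφ, hφ0, hS, hT⟩ := exists_ring H
  refine ⟨S, iS, fun P => φ {P},
    { toFun := fun c => c.sum fun s a => (a : S) * φ s
      map_zero' := Finsupp.sum_zero_index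
      map_add' := fun c d => by
        rw [Finsupp.sum_add_index']
        · intro s; rw [Int.cast_zero, zero_mul]
        · intro s a b; rw [Int.cast_add, add_mul] }, hS, hT, ?_, ?_⟩
  · intro P
    change (pt P).sum (fun s a => (a : S) * φ s) = φ {P}
    unfold pt
    rw [Finsupp.sum_single_index]
    · rw [Int.cast_one, one_mul]
    · rw [Int.cast_zero, zero_mul]
  · intro P Q
    change (pr P Q).sum (fun s a => (a : S) * φ s) = φ {P} * φ {Q}
    unfold pr
    rw [Finsupp.sum_single_index]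
    · rw [Int.cast_one, one_mul, ← hφ, Multiset.insert_eq_cons, Multiset.singleton_add]
    · rw [Int.cast_zero, zero_mul]

omit [IsAlgClosed k] [CharZero k] in
private theorem RingL_eta (P : Pts H) : (⟨P.1, P.2⟩ : Pts H) = P := rfl

private theorem RingL_K {S : Type} [CommRing S] (x : Pts H → S) (ψ : Cyc H →+ S)
    (hT : ∀ c, Tors H c ↔ ψ c = 0) (h1 : ∀ P, ψ (pt P) = x P) (P P' : Pts H) (h : P.1 = P'.1) :
    x P + x (inv P) = x P' + x (inv P') := by
  obtain ⟨i, p⟩ := P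
  obtain ⟨i', p'⟩ := P'
  obtain rfl : i = i' := h
  have h2 := (hT _).1 (ksum i p p')
  rw [map_sub, map_add, map_add, h1, h1, h1, h1] at h2
  exact sub_eq_zero.1 h2

theorem weier_tors (W R W' R' : Pts H) (hW : inv W = W) (hW' : inv W' = W')
    (h : (W'.1 = W.1 ∧ R'.1 = R.1) ∨ (W'.1 = R.1 ∧ R'.1 = W.1)) :
    Tors H ((pr W R + pr W (inv R)) - (pr W' R' + pr W' (inv R'))) := by
  obtain ⟨S, iS, x, ψ, hS, hT, h1, h2⟩ := RingL_hom H
  rw [hT, map_sub, map_add, map_add, h2, h2, h2, h2]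
  apply hS 2 _ two_ne_zero
  have hK := fun (P P' : Pts H) (h : P.1 = P'.1) => RingL_K x ψ hT h1 P P' h
  have e1 : (2 : S) * x W = x W + x (inv W) := by rw [hW]; ring
  have e2 : (2 : S) * x W' = x W' + x (inv W') := by rw [hW']; ring
  have e3 : (2 : ℕ) * (x W * x R + x W * x (inv R) - (x W' * x R' + x W' * x (inv R'))) =
      (x W + x (inv W)) * (x R + x (inv R)) - (x W' + x (inv W')) * (x R' + x (inv R')) := by
    rw [← e1, ← e2]
    push_cast
    ring
  rw [e3]
  rcases h with ⟨h3, h4⟩ | ⟨h3, h4⟩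
  · rw [hK W' W h3, hK R' R h4, sub_self]
  · rw [hK W' R h3, hK R' W h4]
    ring

theorem ep_of_weier (P Q W R : Pts H) (hW : inv W = W)
    (h : (W.1 = P.1 ∧ R.1 = Q.1) ∨ (W.1 = Q.1 ∧ R.1 = P.1))
    (h' : Tors H ((pr P Q + pr (inv P) (inv Q)) - (pr W R + pr W (inv R)))) :
    Tors H (ep P Q) := by
  obtain ⟨S, iS, x, ψ, hS, hT, h1, h2⟩ := RingL_hom H
  have hK := fun (P P' : Pts H) (h : P.1 = P'.1) => RingL_K x ψ hT h1 P P' h
  rw [hT, map_sub, map_add, map_add, h2, h2, h2, h2] at h'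
  have e1 : (2 : S) * x W = x W + x (inv W) := by rw [hW]; ring
  have e0 : (2 : S) * (x W * x R + x W * x (inv R)) =
      (x P + x (inv P)) * (x Q + x (inv Q)) := by
    have e3 : (2 : S) * (x W * x R + x W * x (inv R)) =
      (x W + x (inv W)) * (x R + x (inv R)) := by
      rw [← e1]; ring
    rw [e3]
    rcases h with ⟨h3, h4⟩ | ⟨h3, h4⟩
    · rw [hK W P h3, hK R Q h4]
    · rw [hK W Q h3, hK R P h4]
      ring
  rw [hT]
  unfold ep
  rw [map_sub, map_sub, map_add, h2, h2, h2, h2]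
  linear_combination 2 * h' + e0

end HJ
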