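import Pool.Agent.ZC.Defs

/-!
# Zero-cycles on products of symmetric powers of hyperelliptic curves

`k` is an algebraically closed field of characteristic zero.  Every hyperelliptic (or elliptic) curve
over `k` of genus `n - 1` is a curve `C : y ^ 2 = ∏ det (r_i, (X, Z))` in the weighted projective plane
with coordinates `(X : Z : y)` of weights `1, 1, n`, where the `r_i` are `2 n` different points of the
projective line.  For a family of such curves `C_i` the points of all products of symmetric powers of
the `C_i` are the multisets of points of the `C_i`.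

A morphism from a smooth projective curve with function field `K` to a product of the curves `C_i` is
the same thing as a finite family of points of the `C_i` over `K`, and the closed points of the curve
are the discrete valuations of `K` that are trivial on `k` (`ZC.Place`).
-/

namespace HJ

open ZC
open scoped Classical

/-- The determinant of two vectors of the plane. -/
def dt {R : Type*} [CommRing R] (u v : Fin 2 → R) : R := u 0 * v 1 - u 1 * v 0

/-- A hyperelliptic curve of genus `n - 1`, given by its `2 n` branch points `r i = (a_i : b_i)` in the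
projective line. -/
structure Hyp (k : Type) [Field k] (n : ℕ) where
  /-- the branch points -/
  r : Fin (2 * n) → Fin 2 → k
  two_le : 2 ≤ n
  indep : ∀ i j, i ≠ j → dt (r i) (r j) ≠ 0

variable {k : Type} [Field k] {n : ℕ}

/-- The binary form `∏ det (r i, v)` of degree `2 n`. -/
def Hyp.F (H : Hyp k n) {L : Type} [Field L] [Algebra k L] (v : Fin 2 → L) : L :=
  ∏ i, dt (fun j => algebraMap k L (H.r i j)) v

/-- Homogeneous coordinates `(X : Z : y)` of a point of the curve over an extension `L` of `k`. -/
structure Hyp.Tri (H : Hyp k n) (L : Type) [Field L] [Algebra k L] where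
  /-- the coordinates `(X, Z)` -/
  v : Fin 2 → L
  /-- the coordinate `y` -/
  y : L
  ne : v ≠ 0
  eq : y ^ 2 = H.F v

/-- Two systems of homogeneous coordinates of the same point. -/
instance Hyp.setoid (H : Hyp k n) : Setoid (H.Tri k) where
  r s t := ∃ c : k, c ≠ 0 ∧ t.v = c • s.v ∧ t.y = c ^ n * s.y
  iseqv := by
    refine ⟨fun s => ⟨1, one_ne_zero, by simp, by simp⟩, ?_, ?_⟩
    · rintro s t ⟨c, hc, h1, h2⟩
      refine ⟨c⁻¹, inv_ne_zero hc, ?_, ?_⟩
      · rw [h1, smul_smul, inv_mul_cancel₀ hc, one_smul]
      · rw [h2, ← mul_assoc, ← mul_pow, inv_mul_cancel₀ hc, one_pow, one_mul]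
    · rintro s t u ⟨c, hc, h1, h2⟩ ⟨d, hd, h3, h4⟩
      refine ⟨d * c, mul_ne_zero hd hc, ?_, ?_⟩
      · rw [h3, h1, smul_smul]
      · rw [h4, h2, mul_pow, mul_assoc]

/-- The set of points of the curve (over `k`). -/
def Hyp.Pt (H : Hyp k n) : Type := Quotient H.setoid

/-- The hyperelliptic involution `(X : Z : y) ↦ (X : Z : -y)`. -/
def Hyp.Pt.inv {H : Hyp k n} : H.Pt → H.Pt :=
  Quotient.map (fun s => ⟨s.v, -s.y, s.ne, by rw [neg_sq]; exact s.eq⟩) (by
    rintro s t ⟨c, hc, h1, h2⟩
    exact ⟨c, hc, h1, by simp only [h2, mul_neg]⟩)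

/-- `Spec w T p`: the point `T` of the curve over `K` has the value `p` at the place `w`, that is, `T`
and `p` have homogeneous coordinates that are congruent modulo the maximal ideal of `w`. -/
def Spec {K : Type} [Field K] [Algebra k K] (w : Place k K) {H : Hyp k n} (T : H.Tri K) (p : H.Pt) :
    Prop :=
  ∃ (c : K) (t : H.Tri k), (⟦t⟧ : Quotient H.setoid) = p ∧
    (∀ j, w.v (c * T.v j - algebraMap k K (t.v j)) < 1) ∧
    w.v (c ^ n * T.y - algebraMap k K t.y) < 1

section family

variable {ι : Type} {n : ι → ℕ} (H : ∀ i, Hyp k (n i))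

/-- The disjoint union of the curves `C_i`. -/
abbrev Pts : Type := Σ i, (H i).Pt

/-- The zero-cycles on the products of symmetric powers of the curves `C_i` (a point of such a product
is a multiset of points of the `C_i`). -/
abbrev Cyc : Type := Multiset (Pts H) →₀ ℤ

/-- The zero-cycle `c` is the image of the divisor of a function `f ≠ 0` on a smooth projective curve
with function field `K` under the morphism to a product of symmetric powers of the `C_i` given by a
finite family `T` of points of the `C_i` over `K`. -/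
def IsPrincipal (c : Cyc H) : Prop :=
  ∃ (K : Type) (_ : Field K) (_ : Algebra k K), IsFunctionField k K ∧
    ∃ (J : Type) (_ : Fintype J) (i : J → ι) (T : ∀ j, (H (i j)).Tri K) (f : K), f ≠ 0 ∧
      ∀ s : Multiset (Pts H), c s =
        ∑ᶠ (w : Place k K) (_ : ∃ p : ∀ j, (H (i j)).Pt, (∀ j, Spec w (T j) (p j)) ∧
          s = (Finset.univ : Finset J).val.map (fun j => (⟨i j, p j⟩ : Pts H))), w.ord f

/-- The group generated by the principal zero-cycles.  All its elements are rationally equivalent to
zero. -/
noncomputable def ratZero : AddSubgroup (Cyc H) := AddSubgroup.closure {c | IsPrincipal H c}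

/-- `c` is torsion modulo `ratZero`. -/
def Tors (c : Cyc H) : Prop := ∃ N : ℕ, 0 < N ∧ N • c ∈ ratZero H

variable {H}

/-- The hyperelliptic involution on the union of the curves. -/
def inv (P : Pts H) : Pts H := ⟨P.1, P.2.inv⟩

/-- The zero-cycle `[P]` on the curve `C_i` that contains `P`. -/
noncomputable def pt (P : Pts H) : Cyc H := Finsupp.single {P} 1

/-- The zero-cycle `e_P = [P] - [w P]`, `w` the hyperelliptic involution. -/
noncomputable def ee (P : Pts H) : Cyc H := pt P - pt (inv P)

/-- The points of the multiset `s` on the curve `C_i`. -/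
noncomputable def part (i : ι) (s : Multiset (Pts H)) : Multiset (Pts H) :=
  s.filter (fun P => P.1 = i)

end family

/-- The point `Q` lies over the image of `x(P)` under the linear map `M`. -/
def Over {n' : ℕ} (M : Matrix (Fin 2) (Fin 2) k) {H : Hyp k n} {H' : Hyp k n'} (P : H.Pt)
    (Q : H'.Pt) : Prop :=
  ∃ (s : H.Tri k) (t : H'.Tri k), (⟦s⟧ : Quotient H.setoid) = P ∧ (⟦t⟧ : Quotient H'.setoid) = Q ∧
    dt (M.mulVec s.v) t.v = 0

/-- `P` and `Q` are interchanged (up to the hyperelliptic involution) by an involution `M` of the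
projective line that interchanges all but two of the branch points in pairs. -/
def InvLinked {H : Hyp k n} (P Q : H.Pt) : Prop :=
  ∃ M : Matrix (Fin 2) (Fin 2) k, M.det ≠ 0 ∧ M.trace = 0 ∧ Over M P Q ∧
    ∃ σ : Equiv.Perm (Fin (2 * n)), (∀ i, σ i ≠ i) ∧ (∀ i, σ (σ i) = i) ∧
      ∃ i₀, ∀ i, i ≠ i₀ → i ≠ σ i₀ → dt (M.mulVec (H.r i)) (H.r (σ i)) = 0

/-- An automorphism `M` of the projective line maps all but one of the branch points of `H` to branch
points of `H'` and `x(P)` to `x(Q)`. -/
def IsoLinked {n' : ℕ} {H : Hyp k n} {H' : Hyp k n'} (P : H.Pt) (Q : H'.Pt) : Prop :=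
  ∃ M : Matrix (Fin 2) (Fin 2) k, M.det ≠ 0 ∧ Over M P Q ∧
    ∃ σ : Fin (2 * n) ≃ Fin (2 * n'), ∃ i₀, ∀ i, i ≠ i₀ →
      dt (M.mulVec (H.r i)) (H'.r (σ i)) = 0

/-- The points `P` and `Q` of the curves `C_i` are linked. -/
inductive Linked {ι : Type} {n : ι → ℕ} (H : ∀ i, Hyp k (n i)) : Pts H → Pts H → Prop
  | inv (i : ι) (P Q : (H i).Pt) : InvLinked P Q → Linked H ⟨i, P⟩ ⟨i, Q⟩
  | iso (i j : ι) (P : (H i).Pt) (Q : (H j).Pt) : IsoLinked P Q → Linked H ⟨i, P⟩ ⟨j, Q⟩

end HJ
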