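import Pool.Agent.H95.HJ.Defs

/-!
# Linked points

The general definition of linked points on hyperelliptic curves (project HJ, second part).
-/

namespace HJ

open ZC Polynomial
open scoped Classical

/-- The value at `v` of the binary quadratic form with coefficients `q`. -/
def qv {R : Type*} [CommRing R] (q : Fin 3 → R) (v : Fin 2 → R) : R :=
  q 0 * v 0 ^ 2 + q 1 * (v 0 * v 1) + q 2 * v 1 ^ 2

/-- The value at the unordered pair of the points `v`, `v'` of the projective line (a point with the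
coordinates `m 0 = v 0 * v' 0`, `m 1 = v 0 * v' 1 + v 1 * v' 0`, `m 2 = v 1 * v' 1` of the plane
`Sym² P¹`) of the quadratic form with the coefficients `S`. -/
def cv {R : Type*} [CommRing R] (S : Fin 6 → R) (v v' : Fin 2 → R) : R :=
  S 0 * (v 0 * v' 0) ^ 2 + S 1 * (v 0 * v' 0) * (v 0 * v' 1 + v 1 * v' 0) +
    S 2 * (v 0 * v' 1 + v 1 * v' 0) ^ 2 + S 3 * (v 0 * v' 0) * (v 1 * v' 1) +
    S 4 * (v 0 * v' 1 + v 1 * v' 0) * (v 1 * v' 1) + S 5 * (v 1 * v' 1) ^ 2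

variable {k : Type} [Field k] {n : ℕ}

/-- The unordered pair of `x(P)` and `x(Q)` lies on a rational curve `z ↦ {zeros of q_z}` in `Sym² P¹`
whose inverse image in the Kummer surface `y ^ 2 = F(x) F(x')` is a rational curve. -/
def KumLinked {H : Hyp k n} (P Q : H.Pt) : Prop :=
  ∃ (q : Fin 3 → k[X]) (g h : k[X]) (z₀ : k) (s t : H.Tri k),
    (⟦s⟧ : Quotient H.setoid) = P ∧ (⟦t⟧ : Quotient H.setoid) = Q ∧
    (∀ z : k, (fun j => (q j).eval z) ≠ 0) ∧ (∃ j, (q j).natDegree ≠ 0) ∧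
    h.natDegree ≤ 2 ∧ ∏ i, qv q (fun j => C (H.r i j)) = g ^ 2 * h ∧
    ∃ c : k, c ≠ 0 ∧ ∀ v : Fin 2 → k, qv (fun j => (q j).eval z₀) v = c * (dt s.v v * dt t.v v)

/-- The pair `(x(P), x(Q))` lies on a rational curve `z ↦ (V_z, V'_z)` in `P¹ × P¹` whose inverse image
in the surface `y ^ 2 = F(x) F'(x')` is a rational curve. -/
def PairLinked {n' : ℕ} {H : Hyp k n} {H' : Hyp k n'} (P : H.Pt) (Q : H'.Pt) : Prop :=
  ∃ (V V' : Fin 2 → k[X]) (g h : k[X]) (z₀ : k) (s : H.Tri k) (t : H'.Tri k),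
    (⟦s⟧ : Quotient H.setoid) = P ∧ (⟦t⟧ : Quotient H'.setoid) = Q ∧
    (∀ z : k, (fun j => (V j).eval z) ≠ 0 ∧ (fun j => (V' j).eval z) ≠ 0) ∧
    ((∃ j, (V j).natDegree ≠ 0) ∨ ∃ j, (V' j).natDegree ≠ 0) ∧
    h.natDegree ≤ 2 ∧
    (∏ i, dt (fun j => C (H.r i j)) V) * (∏ i, dt (fun j => C (H'.r i j)) V') = g ^ 2 * h ∧
    dt (fun j => (V j).eval z₀) s.v = 0 ∧ dt (fun j => (V' j).eval z₀) t.v = 0

/-- The curve has genus two and `x(P)`, `x(Q)` are vertices of a pentagon `v` on the conic `P¹` whose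
sides touch a conic that also touches the sides of a pentagon `b` of branch points: the ten points
`{b_j, b_(j+1)}`, `{v_j, v_(j+1)}` of the plane `Sym² P¹` lie on a conic. -/
def PentLinked {H : Hyp k n} (P Q : H.Pt) : Prop :=
  n = 3 ∧ ∃ (b : ZMod 5 → Fin (2 * n)) (v : ZMod 5 → Fin 2 → k) (S : Fin 6 → k),
    Function.Injective b ∧ (∀ i j, i ≠ j → dt (v i) (v j) ≠ 0) ∧ S ≠ 0 ∧
    (∀ j, cv S (H.r (b j)) (H.r (b (j + 1))) = 0) ∧ (∀ j, cv S (v j) (v (j + 1)) = 0) ∧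
    ∃ (i i' : ZMod 5) (s t : H.Tri k), (⟦s⟧ : Quotient H.setoid) = P ∧
      (⟦t⟧ : Quotient H.setoid) = Q ∧ dt s.v (v i) = 0 ∧ dt t.v (v i') = 0

/-- The points `P` and `Q` of the curves `C_i` are linked. -/
inductive Lk {ι : Type} {n : ι → ℕ} (H : ∀ i, Hyp k (n i)) : Pts H → Pts H → Prop
  | kum (i : ι) (P Q : (H i).Pt) : KumLinked P Q → Lk H ⟨i, P⟩ ⟨i, Q⟩
  | pair (i j : ι) (P : (H i).Pt) (Q : (H j).Pt) : PairLinked P Q → Lk H ⟨i, P⟩ ⟨j, Q⟩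
  | inv (i : ι) (P Q : (H i).Pt) : InvLinked P Q → Lk H ⟨i, P⟩ ⟨i, Q⟩
  | pent (i : ι) (P Q : (H i).Pt) : PentLinked P Q → Lk H ⟨i, P⟩ ⟨i, Q⟩

end HJ
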