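import Pool.Agent.H95.HJ.Basic

/-!
Module FF (project HJ, helper95).  Existence of function fields.
PROOF.  Ω = AlgebraicClosure (RatFunc k).  exists_ff: K = IntermediateField.adjoin (RatFunc k) S, finite over RatFunc k (S finite, all elements
algebraic: IntermediateField.finiteDimensional_adjoin).  t = image of RatFunc.X in K is transcendental over k (RatFunc.transcendental_X,
transcendental_algebraMap_iff); K is finite over k(t): k(t) contains the image of RatFunc k (every element is num/denom, compare Quad.lean of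
project ZC: IntermediateField.algebra_adjoin_le_adjoin, aeval_mem_adjoin_singleton), so a basis of K over RatFunc k generates K over
k(t).
exists_curve: let z be the image of X in Ω, v j = aeval z (V j) (nonzero because V ≠ 0 and aeval z is injective), y a square root of H.F v
(IsAlgClosed.exists_pow_nat_eq), S = {y}.
exists_conic: u = u₀ (1 + z) / (1 - z); the binary quadratic form (1-z)^2 q_β - (u₀ (1+z))^2 q_γ has a nonzero zero v in Ω^2 (Ω algebraically closed:
A X^2 + B X Z + C Z^2; if A = 0 take (1,0), otherwise a root of A X^2 + B X + C, Z = 1); y a square root of H.F v; S = {v 0, v 1, y}.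
-/

namespace HJ

open ZC
open scoped Classical

variable {k : Type} [Field k] [IsAlgClosed k] [CharZero k] {n : ℕ}

omit [IsAlgClosed k] [CharZero k] in
private theorem ff_num_denom (u : RatFunc k) :
    u * algebraMap (Polynomial k) (RatFunc k) u.denom =
      algebraMap (Polynomial k) (RatFunc k) u.num := by
  rw [eq_comm, ← div_eq_iff (RatFunc.algebraMap_ne_zero (RatFunc.denom_ne_zero u))]
  exact RatFunc.num_div_denom u

omit [IsAlgClosed k] [CharZero k] in
private theorem ff_aeval {K : Type} [Field K] [Algebra k K] [Algebra (RatFunc k) K]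
    [IsScalarTower k (RatFunc k) K] (A : Polynomial k) :
    Polynomial.aeval (algebraMap (RatFunc k) K RatFunc.X) A =
      algebraMap (RatFunc k) K (algebraMap (Polynomial k) (RatFunc k) A) := by
  rw [Polynomial.aeval_algebraMap_apply, RatFunc.aeval_X_left_eq_algebraMap]

omit [IsAlgClosed k] [CharZero k] in
private theorem ff_trans {K : Type} [Field K] [Algebra k K] [Algebra (RatFunc k) K]
    [IsScalarTower k (RatFunc k) K] :
    Transcendental k (algebraMap (RatFunc k) K RatFunc.X) := by
  rw [transcendental_algebraMap_iff (algebraMap (RatFunc k) K).injective]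
  exact RatFunc.transcendental_X

omit [IsAlgClosed k] [CharZero k] in
private theorem ff_isff {K : Type} [Field K] [Algebra k K] [Algebra (RatFunc k) K]
    [IsScalarTower k (RatFunc k) K] [Module.Finite (RatFunc k) K] : IsFunctionField k K := by
  refine ⟨algebraMap (RatFunc k) K RatFunc.X, ff_trans, ?_⟩
  obtain ⟨s, hs⟩ := (Module.finite_def.mp (inferInstance : Module.Finite (RatFunc k) K))
  refine ⟨⟨s, ?_⟩⟩
  rw [eq_top_iff]
  rintro f -
  have hf : f ∈ Submodule.span (RatFunc k) (s : Set K) := by rw [hs]; trivial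
  have hmem : ∀ u : RatFunc k, algebraMap (RatFunc k) K u ∈
      IntermediateField.adjoin k {algebraMap (RatFunc k) K RatFunc.X} := by
    intro u
    have h1 : ∀ A : Polynomial k, algebraMap (RatFunc k) K (algebraMap (Polynomial k) (RatFunc k) A) ∈
        IntermediateField.adjoin k {algebraMap (RatFunc k) K RatFunc.X} := by
      intro A
      rw [← ff_aeval]
      exact IntermediateField.algebra_adjoin_le_adjoin k _
        (Polynomial.aeval_mem_adjoin_singleton k _)
    have h2 : algebraMap (RatFunc k) K u =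
        algebraMap (RatFunc k) K (algebraMap (Polynomial k) (RatFunc k) u.num) /
          algebraMap (RatFunc k) K (algebraMap (Polynomial k) (RatFunc k) u.denom) := by
      rw [← map_div₀, RatFunc.num_div_denom]
    rw [h2]
    exact div_mem (h1 _) (h1 _)
  induction hf using Submodule.span_induction with
  | mem x hx => exact Submodule.subset_span hx
  | zero => exact zero_mem _
  | add x y _ _ hx hy => exact add_mem hx hy
  | smul u x _ hx =>
    have h3 : u • x = (⟨algebraMap (RatFunc k) K u, hmem u⟩ :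
        IntermediateField.adjoin k {algebraMap (RatFunc k) K RatFunc.X}) • x := by
      rw [IntermediateField.smul_def, Algebra.smul_def]
      rfl
    rw [h3]
    exact Submodule.smul_mem _ _ hx

theorem exists_ff (S : Set (AlgebraicClosure (RatFunc k))) (hS : S.Finite) :
    ∃ K : IntermediateField (RatFunc k) (AlgebraicClosure (RatFunc k)), S ⊆ K ∧
      IsFunctionField k K ∧ Transcendental k (algebraMap (RatFunc k) K RatFunc.X) := by
  have : Finite S := hS
  have : FiniteDimensional (RatFunc k) (IntermediateField.adjoin (RatFunc k) S) :=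
    IntermediateField.finiteDimensional_adjoin fun x _ =>
      (AlgebraicClosure.isAlgebraic (RatFunc k)).isAlgebraic x |>.isIntegral
  exact ⟨IntermediateField.adjoin (RatFunc k) S, IntermediateField.subset_adjoin _ _, ff_isff,
    ff_trans⟩

/-- A curve over which the point with the coordinates `(V 0 (z) : V 1 (z))` of the projective line
lifts to `H`. -/
theorem exists_curve (H : Hyp k n) (V : Fin 2 → Polynomial k) (hV : V ≠ 0) :
    ∃ (K : Type) (_ : Field K) (_ : Algebra k K) (z : K) (T : H.Tri K), IsFunctionField k K ∧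
      Transcendental k z ∧ ∀ j, T.v j = Polynomial.aeval z (V j) := by
  obtain ⟨y, hy⟩ := IsAlgClosed.exists_pow_nat_eq (k := AlgebraicClosure (RatFunc k))
    (H.F (fun j => Polynomial.aeval
      (algebraMap (RatFunc k) (AlgebraicClosure (RatFunc k)) RatFunc.X) (V j))) (n := 2)
      (by norm_num)
  obtain ⟨K, hK, hff, htr⟩ := exists_ff ({y} : Set (AlgebraicClosure (RatFunc k)))
    (Set.finite_singleton y)
  have hyK : y ∈ K := hK rfl
  let φ : K →ₐ[k] AlgebraicClosure (RatFunc k) := K.val.restrictScalars k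
  have hφ : Function.Injective φ := φ.toRingHom.injective
  have hφX : φ (algebraMap (RatFunc k) K RatFunc.X) =
      algebraMap (RatFunc k) (AlgebraicClosure (RatFunc k)) RatFunc.X := rfl
  refine ⟨K, inferInstance, inferInstance, algebraMap (RatFunc k) K RatFunc.X,
    ⟨fun j => Polynomial.aeval (algebraMap (RatFunc k) K RatFunc.X) (V j), ⟨y, hyK⟩, ?_, ?_⟩,
    hff, htr, fun j => rfl⟩
  · intro h
    apply hV
    funext j
    have h1 := congrFun h j
    exact (transcendental_iff.mp htr) (V j) h1
  · apply hφ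
    rw [map_pow, ← Hyp.F_map]
    simp only [← Polynomial.aeval_algHom_apply, hφX]
    exact hy

omit [IsAlgClosed k] [CharZero k] in
private theorem ff_quad {Ω : Type} [Field Ω] [IsAlgClosed Ω] (A B C : Ω) :
    ∃ v : Fin 2 → Ω, v ≠ 0 ∧ A * v 0 ^ 2 + B * (v 0 * v 1) + C * v 1 ^ 2 = 0 := by
  by_cases hA : A = 0
  · refine ⟨![1, 0], ?_, ?_⟩
    · intro h
      have := congrFun h 0
      simp at this
    · simp [hA]
  · obtain ⟨x, hx⟩ := IsAlgClosed.exists_root
      (Polynomial.C A * Polynomial.X ^ 2 + Polynomial.C B * Polynomial.X + Polynomial.C C)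
      (by rw [Polynomial.degree_quadratic hA]; norm_num)
    refine ⟨![x, 1], ?_, ?_⟩
    · intro h
      have := congrFun h 1
      simp at this
    · simp [Polynomial.IsRoot.def] at hx
      simp
      linear_combination hx

/-- A curve over which a point of a conic over the projective line lifts to `H`. -/
theorem exists_conic (H : Hyp k n) (M : Matrix (Fin 2) (Fin 2) k) (β γ : Fin 2 → k) (u₀ : k) :
    ∃ (K : Type) (_ : Field K) (_ : Algebra k K) (z : K) (T : H.Tri K), IsFunctionField k K ∧
      Transcendental k z ∧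
      (1 - z) ^ 2 * (dt (cst K β) T.v * dt (cst K β) ((M.map (algebraMap k K)).mulVec T.v)) =
        (algebraMap k K u₀ * (1 + z)) ^ 2 *
          (dt (cst K γ) T.v * dt (cst K γ) ((M.map (algebraMap k K)).mulVec T.v)) := by
  set Ω := AlgebraicClosure (RatFunc k) with hΩ
  set Z : Ω := algebraMap (RatFunc k) Ω RatFunc.X with hZ
  have hq : ∃ v : Fin 2 → Ω, v ≠ 0 ∧
      (1 - Z) ^ 2 * (dt (cst Ω β) v * dt (cst Ω β) ((M.map (algebraMap k Ω)).mulVec v)) =
        (algebraMap k Ω u₀ * (1 + Z)) ^ 2 *
          (dt (cst Ω γ) v * dt (cst Ω γ) ((M.map (algebraMap k Ω)).mulVec v)) := by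
    obtain ⟨v, hv, h⟩ := ff_quad
      ((1 - Z) ^ 2 * (-(cst Ω β 1) * (cst Ω β 0 * algebraMap k Ω (M 1 0)
          - cst Ω β 1 * algebraMap k Ω (M 0 0)))
        - (algebraMap k Ω u₀ * (1 + Z)) ^ 2 * (-(cst Ω γ 1) * (cst Ω γ 0 * algebraMap k Ω (M 1 0)
          - cst Ω γ 1 * algebraMap k Ω (M 0 0))))
      ((1 - Z) ^ 2 * (cst Ω β 0 * (cst Ω β 0 * algebraMap k Ω (M 1 0)
          - cst Ω β 1 * algebraMap k Ω (M 0 0)) - cst Ω β 1 * (cst Ω β 0 * algebraMap k Ω (M 1 1)
          - cst Ω β 1 * algebraMap k Ω (M 0 1)))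
        - (algebraMap k Ω u₀ * (1 + Z)) ^ 2 * (cst Ω γ 0 * (cst Ω γ 0 * algebraMap k Ω (M 1 0)
          - cst Ω γ 1 * algebraMap k Ω (M 0 0)) - cst Ω γ 1 * (cst Ω γ 0 * algebraMap k Ω (M 1 1)
          - cst Ω γ 1 * algebraMap k Ω (M 0 1))))
      ((1 - Z) ^ 2 * (cst Ω β 0 * (cst Ω β 0 * algebraMap k Ω (M 1 1)
          - cst Ω β 1 * algebraMap k Ω (M 0 1)))
        - (algebraMap k Ω u₀ * (1 + Z)) ^ 2 * (cst Ω γ 0 * (cst Ω γ 0 * algebraMap k Ω (M 1 1)
          - cst Ω γ 1 * algebraMap k Ω (M 0 1))))
    refine ⟨v, hv, ?_⟩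
    simp only [dt, Matrix.mulVec, dotProduct, Fin.sum_univ_two, Matrix.map_apply]
    linear_combination h
  obtain ⟨v, hv, hvq⟩ := hq
  obtain ⟨y, hy⟩ := IsAlgClosed.exists_pow_nat_eq (k := Ω) (H.F v) (n := 2) (by norm_num)
  obtain ⟨K, hK, hff, htr⟩ := exists_ff ({v 0, v 1, y} : Set (AlgebraicClosure (RatFunc k)))
    (Set.toFinite _)
  have hyK : y ∈ K := hK (by simp)
  have hvK : ∀ j, v j ∈ K := by
    intro j
    fin_cases j
    · exact hK (by simp)
    · exact hK (by simp)
  let φ : K →ₐ[k] Ω := K.val.restrictScalars k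
  have hφ : Function.Injective φ := φ.toRingHom.injective
  have hφX : φ (algebraMap (RatFunc k) K RatFunc.X) = Z := rfl
  have hφv : ∀ j, φ (⟨v j, hvK j⟩ : K) = v j := fun j => rfl
  refine ⟨K, inferInstance, inferInstance, algebraMap (RatFunc k) K RatFunc.X,
    ⟨fun j => ⟨v j, hvK j⟩, ⟨y, hyK⟩, ?_, ?_⟩, hff, htr, ?_⟩
  · intro h
    apply hv
    funext j
    have h1 := congrArg φ (congrFun h j)
    exact h1
  · apply hφ
    rw [map_pow, ← Hyp.F_map]
    exact hy
  · apply hφ
    simp only [dt, cst, Matrix.mulVec, dotProduct, Fin.sum_univ_two, Matrix.map_apply, map_mul,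
      map_sub, map_add, map_pow, map_one, hφX, hφv, AlgHom.commutes]
    simp only [dt, cst, Matrix.mulVec, dotProduct, Fin.sum_univ_two, Matrix.map_apply] at hvq
    exact hvq

end HJ
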