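import Pool.Agent.H95.HJ.FF
import Pool.Agent.H95.HJ.Defs2

/-!
Module FFq (project HJ part 2, helper95).  Function fields for rational curves in the Kummer surface.
NOTATION.  K is a function field over k with a generator z; σ in K is a rational function of z.
PROOFS.
* exists_sigma: Let s₀ ≠ s₁ in k, h a polynomial of degree at most 2.  Assume h(s₁) = 0 or h is constant, h(s₀) ≠ 0.
  Case A: h = c (constant, c ≠ 0) or h = c (s - s₁)^2: u = z + u₀, u₀ = (s₀ - s₁)⁻¹, σ = s₁ + u⁻¹; h(σ) is a square of an element of k(z).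
  Case B: h = (s - s₁) (l₀ + l₁ (s - s₁)), l₀ ≠ 0: u₀ a square root of h(s₀) / (s₀ - s₁)^2 = l₁ + l₀ / (s₀ - s₁), u = z + u₀, σ = s₁ + l₀ / (u^2 - l₁); h(σ) = (l₀ u / (u^2 - l₁))^2.
  Let K be any field with a transcendental element z over k (statement below is for a given K and z).  σ is transcendental over k (z is algebraic over k(σ)).
  At a place with w.v z < 1: u ≡ u₀, u^2 - l₁ ≡ l₀ / (s₀ - s₁) ≠ 0, so σ ≡ s₀.  At a place with 1 < w.v z: w.v u > 1, so σ ≡ s₁.
* exists_quad: Ω = AlgebraicClosure (RatFunc k), z = X; given σ(z) as an element of RatFunc k and q with q(σ) ≠ 0, factor the binary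
  quadratic form with the coefficients q_j(σ) over Ω: qv (q(σ)) v = dt V v * dt V' v with V, V' ≠ 0 (A X^2 + B X Z + C Z^2 is a product of two linear forms
  over an algebraically closed field; dt V v = V 0 * v 1 - V 1 * v 0); y a square root of H.F V; K = the field of exists_ff for
  S = {V 0, V 1, V' 0, V' 1, y} (and σ is the image of an element of RatFunc k).
* exists_pair: the same with V_j(σ), V'_j(σ) and y a square root of H.F (V(σ)).
-/

namespace HJ

open ZC Polynomial
open scoped Classical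

variable {k : Type} [Field k] [IsAlgClosed k] [CharZero k] {n : ℕ}

omit [IsAlgClosed k] [CharZero k] in
private theorem ffq_le_one {K : Type} [Field K] [Algebra k K] (w : Place k K) (c : k) :
    w.v (algebraMap k K c) ≤ 1 := by
  by_cases hc : c = 0
  · simp [hc]
  · exact (w.triv c hc).le

omit [IsAlgClosed k] [CharZero k] in
private theorem ffq_place (s₀ s₁ l : k) (hs : s₀ ≠ s₁) (hl : l ≠ 0) {K : Type} [Field K]
    [Algebra k K] (w : Place k K) (D : K) :
    (w.v (D - algebraMap k K (l / (s₀ - s₁))) < 1 →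
      w.v (algebraMap k K s₁ + algebraMap k K l / D - algebraMap k K s₀) < 1) ∧
    (1 < w.v D → w.v (algebraMap k K s₁ + algebraMap k K l / D - algebraMap k K s₁) < 1) := by
  have hs' : s₀ - s₁ ≠ 0 := sub_ne_zero.2 hs
  constructor
  · intro h
    set c : k := l / (s₀ - s₁) with hc
    have hc0 : c ≠ 0 := div_ne_zero hl hs'
    have hvD : w.v D = 1 := by
      have h1 : D = algebraMap k K c + (D - algebraMap k K c) := by ring
      rw [h1, Valuation.map_add_eq_of_lt_left, w.triv c hc0]
      rw [w.triv c hc0]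
      exact h
    have hD : D ≠ 0 := by
      rintro rfl
      simp at hvD
    have h2 : algebraMap k K s₁ + algebraMap k K l / D - algebraMap k K s₀ =
        - algebraMap k K (s₀ - s₁) * (D - algebraMap k K c) / D := by
      have h3 : algebraMap k K l = algebraMap k K (s₀ - s₁) * algebraMap k K c := by
        rw [← map_mul, hc, mul_div_cancel₀ _ hs']
      rw [h3, map_sub]
      field_simp
      ring
    rw [h2, map_div₀, map_mul, Valuation.map_neg, hvD, div_one, w.triv _ hs', one_mul]
    exact h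
  · intro h
    rw [add_sub_cancel_left, map_div₀, w.triv l hl]
    exact (div_lt_one₀ (zero_lt_one.trans h)).2 h

omit [IsAlgClosed k] [CharZero k] in
private theorem ffq_trans (s₁ l : k) (hl : l ≠ 0) (D : RatFunc k) (hD : Transcendental k D) :
    Transcendental k (algebraMap k (RatFunc k) s₁ + algebraMap k (RatFunc k) l / D) := by
  intro h
  apply hD
  have h1 : IsAlgebraic k (algebraMap k (RatFunc k) l / D) := by
    have := h.sub (isAlgebraic_algebraMap (A := RatFunc k) s₁)
    rwa [add_sub_cancel_left] at this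
  have h2 : IsAlgebraic k ((algebraMap k (RatFunc k) l / D)⁻¹) := h1.inv
  have h3 : D = algebraMap k (RatFunc k) l * (algebraMap k (RatFunc k) l / D)⁻¹ := by
    have : algebraMap k (RatFunc k) l ≠ 0 := by
      rw [Ne, map_eq_zero]
      exact hl
    rw [inv_div, mul_div_cancel₀ _ this]
  rw [h3]
  exact (isAlgebraic_algebraMap (A := RatFunc k) l).mul h2

omit [IsAlgClosed k] [CharZero k] in
private theorem ffq_trans_lin (u₀ : k) :
    Transcendental k (RatFunc.X + algebraMap k (RatFunc k) u₀) := by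
  intro h
  apply RatFunc.transcendental_X (K := k)
  have := h.sub (isAlgebraic_algebraMap (A := RatFunc k) u₀)
  rwa [add_sub_cancel_right] at this

omit [IsAlgClosed k] [CharZero k] in
private theorem ffq_trans_quad (u₀ l₁ : k) :
    Transcendental k ((RatFunc.X + algebraMap k (RatFunc k) u₀) ^ 2 -
      algebraMap k (RatFunc k) l₁) := by
  intro h
  apply ffq_trans_lin (k := k) u₀
  have := h.add (isAlgebraic_algebraMap (A := RatFunc k) l₁)
  rw [sub_add_cancel] at this
  exact this.of_pow (by norm_num)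

omit [IsAlgClosed k] [CharZero k] in
private theorem ffq_lin (u₀ : k) {K : Type} [Field K] [Algebra k K] (w : Place k K) (z : K) :
    (w.v z < 1 → w.v (z + algebraMap k K u₀ - algebraMap k K u₀) < 1) ∧
    (1 < w.v z → 1 < w.v (z + algebraMap k K u₀)) := by
  constructor
  · intro h
    rwa [add_sub_cancel_right]
  · intro h
    rw [Valuation.map_add_eq_of_lt_left]
    · exact h
    · exact lt_of_le_of_lt (ffq_le_one w u₀) h

omit [IsAlgClosed k] [CharZero k] in
private theorem ffq_quad (u₀ l₁ : k) {K : Type} [Field K] [Algebra k K] (w : Place k K) (z : K) :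
    (w.v z < 1 → w.v ((z + algebraMap k K u₀) ^ 2 - algebraMap k K l₁ -
      algebraMap k K (u₀ ^ 2 - l₁)) < 1) ∧
    (1 < w.v z → 1 < w.v ((z + algebraMap k K u₀) ^ 2 - algebraMap k K l₁)) := by
  constructor
  · intro h
    have h1 : (z + algebraMap k K u₀) ^ 2 - algebraMap k K l₁ - algebraMap k K (u₀ ^ 2 - l₁) =
        z * (z + algebraMap k K (2 * u₀)) := by
      simp only [map_sub, map_pow, map_mul, map_ofNat]
      ring
    rw [h1, map_mul]
    have h2 : w.v (z + algebraMap k K (2 * u₀)) ≤ 1 :=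
      (w.v.map_add _ _).trans (max_le h.le (ffq_le_one w _))
    calc w.v z * w.v (z + algebraMap k K (2 * u₀)) ≤ w.v z * 1 := mul_le_mul_right h2 _
      _ < 1 := by rwa [mul_one]
  · intro h
    have h1 := (ffq_lin u₀ w z).2 h
    have h2 : 1 < w.v ((z + algebraMap k K u₀) ^ 2) := by
      rw [map_pow]
      exact one_lt_pow₀ h1 (by norm_num)
    rw [sub_eq_add_neg, Valuation.map_add_eq_of_lt_left]
    · exact h2
    · rw [Valuation.map_neg]
      exact lt_of_le_of_lt (ffq_le_one w _) h2

theorem exists_sigma (h : k[X]) (hh : h.natDegree ≤ 2) (s₀ s₁ : k) (hs : s₀ ≠ s₁)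
    (h0 : h.eval s₀ ≠ 0) (h1 : h.eval s₁ = 0 ∨ h.natDegree = 0) :
    ∃ σ y : RatFunc k, y ^ 2 = aeval σ h ∧ Transcendental k σ ∧
      ∀ (K : Type) (_ : Field K) (_ : Algebra k K) (φ : RatFunc k →ₐ[k] K) (w : Place k K),
        (w.v (φ RatFunc.X) < 1 → w.v (φ σ - algebraMap k K s₀) < 1) ∧
        (1 < w.v (φ RatFunc.X) → w.v (φ σ - algebraMap k K s₁) < 1) := by
  have hs' : s₀ - s₁ ≠ 0 := sub_ne_zero.2 hs
  have hform : (∃ c : k, h = C c) ∨ (∃ c : k, h = C c * (X - C s₁) ^ 2) ∨
      ∃ l₀ l₁ : k, l₀ ≠ 0 ∧ h = (X - C s₁) * (C l₀ + C l₁ * (X - C s₁)) := by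
    rcases h1 with h1 | h1
    · obtain ⟨g, hg⟩ := dvd_iff_isRoot.2 h1
      have hgd : g.natDegree ≤ 1 := by
        by_cases hg0 : g = 0
        · simp [hg0]
        · have := natDegree_mul (X_sub_C_ne_zero s₁) hg0
          rw [← hg, natDegree_X_sub_C] at this
          omega
      have hg2 : g = C (g.eval s₁) + C (g.coeff 1) * (X - C s₁) := by
        conv_lhs => rw [eq_X_add_C_of_natDegree_le_one hgd]
        have : g.eval s₁ = g.coeff 1 * s₁ + g.coeff 0 := by
          conv_lhs => rw [eq_X_add_C_of_natDegree_le_one hgd]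
          simp
        rw [this]
        simp only [map_add, map_mul]
        ring
      by_cases hl : g.eval s₁ = 0
      · refine Or.inr (Or.inl ⟨g.coeff 1, ?_⟩)
        rw [hg]
        conv_lhs => rw [hg2, hl]
        simp only [map_zero]
        ring
      · refine Or.inr (Or.inr ⟨g.eval s₁, g.coeff 1, hl, ?_⟩)
        rw [← hg2]
        exact hg
    · exact Or.inl ⟨h.coeff 0, eq_C_of_natDegree_eq_zero h1⟩
  have hA : ∀ y : RatFunc k, y ^ 2 = aeval (algebraMap k (RatFunc k) s₁ +
      algebraMap k (RatFunc k) 1 / (RatFunc.X + algebraMap k (RatFunc k) (1 / (s₀ - s₁)))) h →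
      ∃ σ y : RatFunc k, y ^ 2 = aeval σ h ∧ Transcendental k σ ∧
      ∀ (K : Type) (_ : Field K) (_ : Algebra k K) (φ : RatFunc k →ₐ[k] K) (w : Place k K),
        (w.v (φ RatFunc.X) < 1 → w.v (φ σ - algebraMap k K s₀) < 1) ∧
        (1 < w.v (φ RatFunc.X) → w.v (φ σ - algebraMap k K s₁) < 1) := by
    intro y hy
    refine ⟨_, y, hy, ffq_trans s₁ 1 one_ne_zero _ (ffq_trans_lin _), ?_⟩
    intro K _ _ φ w
    simp only [map_add, map_div₀, AlgHom.commutes]
    have e1 := ffq_place s₀ s₁ 1 hs one_ne_zero w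
      (φ RatFunc.X + algebraMap k K (1 / (s₀ - s₁)))
    have e2 := ffq_lin (1 / (s₀ - s₁)) w (φ RatFunc.X)
    simp only [map_div₀] at e1 e2
    exact ⟨fun hw => e1.1 (e2.1 hw), fun hw => e1.2 (e2.2 hw)⟩
  rcases hform with ⟨c, hc⟩ | ⟨c, hc⟩ | ⟨l₀, l₁, hl₀, hc⟩
  · obtain ⟨d, hd⟩ := IsAlgClosed.exists_pow_nat_eq (k := k) c (n := 2) (by norm_num)
    apply hA (algebraMap k (RatFunc k) d)
    rw [hc, aeval_C, ← map_pow, hd]
  · obtain ⟨d, hd⟩ := IsAlgClosed.exists_pow_nat_eq (k := k) c (n := 2) (by norm_num)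
    apply hA (algebraMap k (RatFunc k) d * (algebraMap k (RatFunc k) 1 /
      (RatFunc.X + algebraMap k (RatFunc k) (1 / (s₀ - s₁)))))
    rw [hc]
    simp only [map_mul, map_pow, map_sub, aeval_X, aeval_C, add_sub_cancel_left]
    rw [mul_pow, ← map_pow, hd]
  · have hu : l₀ / (s₀ - s₁) + l₁ ≠ 0 := by
      intro hu
      apply h0
      rw [hc]
      simp only [eval_mul, eval_sub, eval_X, eval_C, eval_add]
      have : l₀ + l₁ * (s₀ - s₁) = (l₀ / (s₀ - s₁) + l₁) * (s₀ - s₁) := by
        field_simp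
      rw [this, hu]
      ring
    obtain ⟨u₀, hu₀⟩ := IsAlgClosed.exists_pow_nat_eq (k := k) (l₀ / (s₀ - s₁) + l₁) (n := 2)
      (by norm_num)
    have hD := ffq_trans_quad (k := k) u₀ l₁
    set D : RatFunc k := (RatFunc.X + algebraMap k (RatFunc k) u₀) ^ 2 -
      algebraMap k (RatFunc k) l₁ with hDdef
    have hD0 : D ≠ 0 := by
      intro h
      apply hD
      rw [h]
      exact isAlgebraic_zero
    refine ⟨algebraMap k (RatFunc k) s₁ + algebraMap k (RatFunc k) l₀ / D,
      algebraMap k (RatFunc k) l₀ * (RatFunc.X + algebraMap k (RatFunc k) u₀) / D, ?_,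
      ffq_trans s₁ l₀ hl₀ D hD, ?_⟩
    · rw [hc]
      simp only [map_mul, map_add, map_sub, aeval_X, aeval_C, add_sub_cancel_left]
      have e : (RatFunc.X + algebraMap k (RatFunc k) u₀) ^ 2 =
          D + algebraMap k (RatFunc k) l₁ := by
        rw [hDdef]
        ring
      rw [div_pow, mul_pow, e]
      field_simp
    · intro K _ _ φ w
      have hφD : φ D = (φ RatFunc.X + algebraMap k K u₀) ^ 2 - algebraMap k K l₁ := by
        rw [hDdef]
        simp only [map_sub, map_pow, map_add, AlgHom.commutes]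
      simp only [map_add, map_div₀, AlgHom.commutes]
      have e1 := ffq_place s₀ s₁ l₀ hs hl₀ w (φ D)
      have e2 := ffq_quad u₀ l₁ w (φ RatFunc.X)
      rw [← hφD, hu₀, add_sub_cancel_right] at e2
      exact ⟨fun hw => e1.1 (e2.1 hw), fun hw => e1.2 (e2.2 hw)⟩

omit [IsAlgClosed k] [CharZero k] in
private theorem ffq_factor {Ω : Type} [Field Ω] [IsAlgClosed Ω] (A : Fin 3 → Ω) (hA : A ≠ 0) :
    ∃ V V' : Fin 2 → Ω, V ≠ 0 ∧ V' ≠ 0 ∧ A 0 = V 1 * V' 1 ∧
      A 1 = -(V 0 * V' 1 + V 1 * V' 0) ∧ A 2 = V 0 * V' 0 := by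
  by_cases h0 : A 0 = 0
  · refine ⟨![1, 0], ![A 2, -A 1], ?_, ?_, ?_, ?_, ?_⟩
    · intro h
      have := congrFun h 0
      simp at this
    · intro h
      apply hA
      have e1 := congrFun h 0
      have e2 := congrFun h 1
      simp at e1 e2
      funext j
      fin_cases j
      · exact h0
      · exact e2
      · exact e1
    · simp [h0]
    · simp
    · simp
  · obtain ⟨x, hx⟩ := IsAlgClosed.exists_root
      (C (A 0) * X ^ 2 + C (A 1) * X + C (A 2))
      (by rw [degree_quadratic h0]; norm_num)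
    simp [IsRoot.def] at hx
    refine ⟨![x, 1], ![-(A 0 * x + A 1), A 0], ?_, ?_, ?_, ?_, ?_⟩
    · intro h
      have := congrFun h 1
      simp at this
    · intro h
      have := congrFun h 1
      simp at this
      exact h0 this
    · simp
    · simp
      ring
    · simp
      linear_combination hx

theorem exists_quad (H : Hyp k n) (q : Fin 3 → k[X]) (hq : q ≠ 0) (σ : RatFunc k)
    (hσ : Transcendental k σ) :
    ∃ (K : Type) (_ : Field K) (_ : Algebra k K) (φ : RatFunc k →ₐ[k] K) (T : H.Tri K)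
      (V' : Fin 2 → K), IsFunctionField k K ∧ Transcendental k (φ RatFunc.X) ∧ V' ≠ 0 ∧
        ∀ v : Fin 2 → K, qv (fun j => aeval (φ σ) (q j)) v = dt T.v v * dt V' v := by
  set Ω := AlgebraicClosure (RatFunc k) with hΩ
  let ψ : RatFunc k →ₐ[k] Ω := (Algebra.ofId (RatFunc k) Ω).restrictScalars k
  have hψ : Function.Injective ψ := ψ.toRingHom.injective
  have hA : (fun j => aeval (ψ σ) (q j)) ≠ 0 := by
    intro h
    apply hq
    funext j
    have h1 := congrFun h j
    simp only [Pi.zero_apply] at h1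
    rw [aeval_algHom_apply] at h1
    have h2 : aeval σ (q j) = 0 := hψ (by rw [h1, map_zero])
    exact (transcendental_iff.mp hσ) (q j) h2
  obtain ⟨V, V', hV, hV', e0, e1, e2⟩ := ffq_factor _ hA
  obtain ⟨y, hy⟩ := IsAlgClosed.exists_pow_nat_eq (k := Ω) (H.F V) (n := 2) (by norm_num)
  obtain ⟨K, hK, hff, htr⟩ := exists_ff
    ({V 0, V 1, V' 0, V' 1, y} : Set (AlgebraicClosure (RatFunc k))) (Set.toFinite _)
  have hyK : y ∈ K := hK (by simp)
  have hVK : ∀ j, V j ∈ K := by
    intro j
    fin_cases j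
    · exact hK (by simp)
    · exact hK (by simp)
  have hVK' : ∀ j, V' j ∈ K := by
    intro j
    fin_cases j
    · exact hK (by simp)
    · exact hK (by simp)
  let χ : K →ₐ[k] Ω := K.val.restrictScalars k
  have hχ : Function.Injective χ := χ.toRingHom.injective
  let φ : RatFunc k →ₐ[k] K := (Algebra.ofId (RatFunc k) K).restrictScalars k
  have hχφ : ∀ x, χ (φ x) = ψ x := fun x => rfl
  have hχV : ∀ j, χ (⟨V j, hVK j⟩ : K) = V j := fun j => rfl
  have hχV' : ∀ j, χ (⟨V' j, hVK' j⟩ : K) = V' j := fun j => rfl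
  refine ⟨K, inferInstance, inferInstance, φ,
    ⟨fun j => ⟨V j, hVK j⟩, ⟨y, hyK⟩, ?_, ?_⟩, fun j => ⟨V' j, hVK' j⟩, hff, htr, ?_, ?_⟩
  · intro h
    apply hV
    funext j
    exact congrArg χ (congrFun h j)
  · apply hχ
    rw [map_pow, ← Hyp.F_map]
    exact hy
  · intro h
    apply hV'
    funext j
    exact congrArg χ (congrFun h j)
  · intro v
    apply hχ
    simp only [dt, qv, map_mul, map_sub, map_add, map_pow, hχV, hχV']
    simp only [← aeval_algHom_apply, hχφ]
    rw [e0, e1, e2]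
    ring

theorem exists_pair (H : Hyp k n) (V : Fin 2 → k[X]) (hV : V ≠ 0) (σ : RatFunc k)
    (hσ : Transcendental k σ) :
    ∃ (K : Type) (_ : Field K) (_ : Algebra k K) (φ : RatFunc k →ₐ[k] K) (T : H.Tri K),
      IsFunctionField k K ∧ Transcendental k (φ RatFunc.X) ∧
        ∀ j, T.v j = aeval (φ σ) (V j) := by
  set Ω := AlgebraicClosure (RatFunc k) with hΩ
  let ψ : RatFunc k →ₐ[k] Ω := (Algebra.ofId (RatFunc k) Ω).restrictScalars k
  obtain ⟨y, hy⟩ := IsAlgClosed.exists_pow_nat_eq (k := Ω)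
    (H.F (fun j => aeval (ψ σ) (V j))) (n := 2) (by norm_num)
  obtain ⟨K, hK, hff, htr⟩ := exists_ff ({y} : Set (AlgebraicClosure (RatFunc k)))
    (Set.finite_singleton y)
  have hyK : y ∈ K := hK rfl
  let χ : K →ₐ[k] Ω := K.val.restrictScalars k
  have hχ : Function.Injective χ := χ.toRingHom.injective
  let φ : RatFunc k →ₐ[k] K := (Algebra.ofId (RatFunc k) K).restrictScalars k
  have hφ : Function.Injective φ := φ.toRingHom.injective
  have hχφ : ∀ x, χ (φ x) = ψ x := fun x => rfl
  refine ⟨K, inferInstance, inferInstance, φ,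
    ⟨fun j => aeval (φ σ) (V j), ⟨y, hyK⟩, ?_, ?_⟩, hff, htr, fun j => rfl⟩
  · intro h
    apply hV
    funext j
    have h1 := congrFun h j
    simp only [Pi.zero_apply] at h1
    rw [aeval_algHom_apply] at h1
    have h2 : aeval σ (V j) = 0 := hφ (by rw [h1, map_zero])
    exact (transcendental_iff.mp hσ) (V j) h2
  · apply hχ
    rw [map_pow, ← Hyp.F_map]
    simp only [← aeval_algHom_apply, hχφ]
    exact hy

end HJ
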