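import Pool.Agent.H95.HJ.RingL

/-!
Module Fib2 (project HJ part 2, helper95).  The fibre principle modulo torsion.
PROOF.  As the proof of fib (Fib.lean), with R = Bool, J r = Bool, T r = (± T, ± T'): with the finite sets A0 = {w.v z < 1}, A1 = {1 < w.v z} and the
values p w, q w of T, T' (Spec.exists, Spec.unique, Spec.inv) the sum over w in A0 ∪ A1 of ord_w z • (pr (p w) (q w) + pr (inv ..) (inv ..)) is in ratZero.
It is the sum of N • c₀ - N • c₁ and of ord_w z • (torsion), so Tors (N • (c₀ - c₁)) (Tors.add, Tors.zsmul), Tors.of_zsmul.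
(Perhaps apply fib itself to modified data is not possible; copy its proof.)
-/

namespace HJ

open ZC
open scoped Classical

variable {k K : Type} [Field k] [IsAlgClosed k] [CharZero k] [Field K] [Algebra k K]
  {ι : Type} {n : ι → ℕ} {H : ∀ i, Hyp k (n i)}

private theorem Fib2_of_mem {c : Cyc H} (hc : c ∈ ratZero H) : Tors H c :=
  ⟨1, one_pos, by rw [one_smul]; exact hc⟩

private theorem Fib2_sum {A : Type} (s : Finset A) (f : A → Cyc H)
    (h : ∀ a ∈ s, Tors H (f a)) : Tors H (∑ a ∈ s, f a) := by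
  classical
  induction s using Finset.induction_on with
  | empty =>
    rw [Finset.sum_empty]
    exact Fib2_of_mem (ratZero H).zero_mem
  | insert a s ha ih =>
    rw [Finset.sum_insert ha]
    exact Tors.add (h a (Finset.mem_insert_self a s))
      (ih fun b hb => h b (Finset.mem_insert_of_mem hb))

private theorem Fib2_gen (hK : IsFunctionField k K) (z : K) (hz : Transcendental k z)
    {R : Type} [Fintype R] (J : R → Type) [∀ r, Fintype (J r)] (i : ∀ r, J r → ι)
    (T : ∀ r j, (H (i r j)).Tri K) (c₀ c₁ : Cyc H)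
    (h₀ : ∀ w : Place k K, w.v z < 1 → ∀ p : ∀ r j, (H (i r j)).Pt,
      (∀ r j, Spec w (T r j) (p r j)) →
        Tors H ((∑ r, Finsupp.single ((Finset.univ : Finset (J r)).val.map
          (fun j => (⟨i r j, p r j⟩ : Pts H))) (1 : ℤ)) - c₀))
    (h₁ : ∀ w : Place k K, 1 < w.v z → ∀ p : ∀ r j, (H (i r j)).Pt,
      (∀ r j, Spec w (T r j) (p r j)) →
        Tors H ((∑ r, Finsupp.single ((Finset.univ : Finset (J r)).val.map
          (fun j => (⟨i r j, p r j⟩ : Pts H))) (1 : ℤ)) - c₁)) :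
    Tors H (c₀ - c₁) := by
  obtain ⟨N, hN, f0, f1, s0, s1⟩ := deg_zero hK z hz
  have hz0 : z ≠ 0 := by
    rintro rfl
    exact hz (isAlgebraic_zero)
  set A0 : Finset (Place k K) := f0.toFinset with hA0
  set A1 : Finset (Place k K) := f1.toFinset with hA1
  have m0 : ∀ w, w ∈ A0 ↔ w.v z < 1 := fun w => by
    rw [hA0, Set.Finite.mem_toFinset]; rfl
  have m1 : ∀ w, w ∈ A1 ↔ 1 < w.v z := fun w => by
    rw [hA1, Set.Finite.mem_toFinset]; rfl
  have hdis : Disjoint A0 A1 := by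
    rw [Finset.disjoint_left]
    intro w h h'
    rw [m0] at h
    rw [m1] at h'
    exact lt_asymm h h'
  have hord : ∀ w : Place k K, w ∉ A0 ∪ A1 → w.ord z = 0 := by
    intro w hw
    rw [Finset.mem_union, m0, m1, not_or, not_lt, not_lt] at hw
    have h1 : w.v z = 1 := le_antisymm hw.2 hw.1
    unfold Place.ord
    rw [h1, WithZero.log_one, neg_zero]
  have t0 : ∑ w ∈ A0, w.ord z = (N : ℤ) := by
    rw [← s0]
    exact (finsum_mem_eq_finite_toFinset_sum (fun w : Place k K => w.ord z) f0).symm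
  have t1 : ∑ w ∈ A1, w.ord z = -(N : ℤ) := by
    rw [← s1]
    exact (finsum_mem_eq_finite_toFinset_sum (fun w : Place k K => w.ord z) f1).symm
  choose P hP using fun (r : R) (w : Place k K) (j : J r) => Spec.exists hK w (T r j)
  let x : R → Place k K → Multiset (Pts H) := fun r w =>
    (Finset.univ : Finset (J r)).val.map (fun j => (⟨i r j, P r w j⟩ : Pts H))
  have hx : ∀ r w s, (∃ p : ∀ j, (H (i r j)).Pt, (∀ j, Spec w (T r j) (p j)) ∧
      s = (Finset.univ : Finset (J r)).val.map (fun j => (⟨i r j, p j⟩ : Pts H))) ↔ x r w = s := by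
    intro r w s
    constructor
    · rintro ⟨p, hp, rfl⟩
      have h1 : p = P r w := funext fun j => Spec.unique hK w (T r j) (hp j) (hP r w j)
      rw [h1]
    · rintro rfl
      exact ⟨P r w, hP r w, rfl⟩
  let Dc : R → Cyc H := fun r => ∑ w ∈ A0 ∪ A1, Finsupp.single (x r w) (w.ord z)
  have hD : ∀ r, IsPrincipal H (Dc r) := by
    intro r
    refine ⟨K, inferInstance, inferInstance, hK, J r, inferInstance, i r, T r, z, hz0, fun s => ?_⟩
    have h1 : ∀ w : Place k K, (∑ᶠ (_ : ∃ p : ∀ j, (H (i r j)).Pt, (∀ j, Spec w (T r j) (p j)) ∧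
        s = (Finset.univ : Finset (J r)).val.map (fun j => (⟨i r j, p j⟩ : Pts H))), w.ord z) =
        if x r w = s then w.ord z else 0 := by
      intro w
      rw [finsum_eq_if]
      by_cases h2 : x r w = s
      · rw [if_pos h2, if_pos ((hx r w s).2 h2)]
      · rw [if_neg h2, if_neg fun h3 => h2 ((hx r w s).1 h3)]
    rw [finsum_congr h1, finsum_eq_sum_of_support_subset (s := A0 ∪ A1)]
    · change (∑ w ∈ A0 ∪ A1, Finsupp.single (x r w) (w.ord z)) s = _
      rw [Finsupp.finset_sum_apply]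
      refine Finset.sum_congr rfl fun w _ => ?_
      rw [Finsupp.single_apply]
    · intro w hw
      rw [Function.mem_support] at hw
      by_contra h2
      apply hw
      rw [hord w h2]
      split_ifs <;> rfl
  let E : Place k K → Cyc H := fun w => ∑ r, Finsupp.single (x r w) (1 : ℤ)
  have hsum : ∑ r, Dc r = ∑ w ∈ A0 ∪ A1, w.ord z • E w := by
    have h1 : ∀ w : Place k K, w.ord z • E w = ∑ r, Finsupp.single (x r w) (w.ord z) := by
      intro w
      change w.ord z • (∑ r, Finsupp.single (x r w) (1 : ℤ)) = _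
      rw [Finset.smul_sum]
      refine Finset.sum_congr rfl fun r _ => ?_
      rw [Finsupp.smul_single, smul_eq_mul, mul_one]
    rw [Finset.sum_congr rfl fun w _ => h1 w, Finset.sum_comm]
  have hmem : ∀ r, Dc r ∈ ratZero H := fun r =>
    AddSubgroup.subset_closure (show Dc r ∈ {c | IsPrincipal H c} from hD r)
  have k1 : Tors H (∑ w ∈ A0 ∪ A1, w.ord z • E w) := by
    rw [← hsum]
    exact Fib2_of_mem (AddSubgroup.sum_mem _ fun r _ => hmem r)
  have k2 : Tors H (∑ w ∈ A0, w.ord z • (E w - c₀)) := by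
    refine Fib2_sum _ _ fun w hw => Tors.zsmul ?_ _
    exact h₀ w ((m0 w).1 hw) (fun r j => P r w j) (fun r j => hP r w j)
  have k3 : Tors H (∑ w ∈ A1, w.ord z • (E w - c₁)) := by
    refine Fib2_sum _ _ fun w hw => Tors.zsmul ?_ _
    exact h₁ w ((m1 w).1 hw) (fun r j => P r w j) (fun r j => hP r w j)
  have k4 : (N : ℤ) • (c₀ - c₁) = (∑ w ∈ A0 ∪ A1, w.ord z • E w) -
      (∑ w ∈ A0, w.ord z • (E w - c₀)) - (∑ w ∈ A1, w.ord z • (E w - c₁)) := by
    rw [Finset.sum_union hdis]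
    have e0 : ∑ w ∈ A0, w.ord z • (E w - c₀) = (∑ w ∈ A0, w.ord z • E w) - (N : ℤ) • c₀ := by
      rw [← t0, Finset.sum_smul, ← Finset.sum_sub_distrib]
      exact Finset.sum_congr rfl fun w _ => smul_sub _ _ _
    have e1 : ∑ w ∈ A1, w.ord z • (E w - c₁) = (∑ w ∈ A1, w.ord z • E w) - (-(N : ℤ)) • c₁ := by
      rw [← t1, Finset.sum_smul, ← Finset.sum_sub_distrib]
      exact Finset.sum_congr rfl fun w _ => smul_sub _ _ _
    rw [e0, e1, smul_sub, neg_smul]
    abel
  have k5 : Tors H ((N : ℤ) • (c₀ - c₁)) := by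
    rw [k4]
    exact Tors.sub (Tors.sub k1 k2) k3
  exact Tors.of_zsmul (by exact_mod_cast hN.ne') k5

theorem fib_tors (hK : IsFunctionField k K) (z : K) (hz : Transcendental k z) {i j : ι}
    (T : (H i).Tri K) (T' : (H j).Tri K) (c₀ c₁ : Cyc H)
    (h₀ : ∀ w : Place k K, w.v z < 1 → ∀ (p : (H i).Pt) (q : (H j).Pt), Spec w T p → Spec w T' q →
      Tors H ((pr (⟨i, p⟩ : Pts H) ⟨j, q⟩ + pr (inv (⟨i, p⟩ : Pts H)) (inv ⟨j, q⟩)) - c₀))
    (h₁ : ∀ w : Place k K, 1 < w.v z → ∀ (p : (H i).Pt) (q : (H j).Pt), Spec w T p → Spec w T' q →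
      Tors H ((pr (⟨i, p⟩ : Pts H) ⟨j, q⟩ + pr (inv (⟨i, p⟩ : Pts H)) (inv ⟨j, q⟩)) - c₁)) :
    Tors H (c₀ - c₁) := by
  let ix : Bool → ι := fun b => match b with
    | true => i
    | false => j
  let TT : ∀ (_ : Fin 2) (b : Bool), (H (ix b)).Tri K := fun r b => match b with
    | true => if r = 0 then T else T.neg
    | false => if r = 0 then T' else T'.neg
  have key : ∀ (w : Place k K) (p : ∀ (_ : Fin 2) (b : Bool), (H (ix b)).Pt),
      (∀ r b, Spec w (TT r b) (p r b)) →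
      (Spec w T (p 0 true) ∧ Spec w T' (p 0 false)) ∧
      (p 1 true = (show (H i).Pt from p 0 true).inv ∧
        p 1 false = (show (H j).Pt from p 0 false).inv) := by
    intro w p hp
    have a0 : Spec w T (p 0 true) := hp 0 true
    have b0 : Spec w T' (p 0 false) := hp 0 false
    have a1 : Spec w T.neg (p 1 true) := hp 1 true
    have b1 : Spec w T'.neg (p 1 false) := hp 1 false
    exact ⟨⟨a0, b0⟩, ⟨Spec.unique hK w _ a1 (Spec.inv w T a0),
      Spec.unique hK w _ b1 (Spec.inv w T' b0)⟩⟩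
  have e : ∀ (p : ∀ (b : Bool), (H (ix b)).Pt), (Finset.univ : Finset Bool).val.map
      (fun b => (⟨ix b, p b⟩ : Pts H)) = {(⟨i, p true⟩ : Pts H), (⟨j, p false⟩ : Pts H)} := by
    intro p
    rfl
  have hsum : ∀ (w : Place k K) (p : ∀ (_ : Fin 2) (b : Bool), (H (ix b)).Pt),
      (∀ r b, Spec w (TT r b) (p r b)) →
      ∑ r : Fin 2, Finsupp.single ((Finset.univ : Finset Bool).val.map
        (fun b => (⟨ix b, p r b⟩ : Pts H))) (1 : ℤ) =
      pr (⟨i, p 0 true⟩ : Pts H) ⟨j, p 0 false⟩ +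
        pr (inv (⟨i, p 0 true⟩ : Pts H)) (inv ⟨j, p 0 false⟩) := by
    intro w p hp
    obtain ⟨-, k1, k2⟩ := key w p hp
    rw [Fin.sum_univ_two, e, e, k1, k2]
    rfl
  refine Fib2_gen hK z hz (R := Fin 2) (fun _ => Bool) (fun _ => ix) TT c₀ c₁
    (fun w hw p hp => ?_) (fun w hw p hp => ?_)
  · rw [hsum w p hp]
    exact h₀ w hw _ _ (key w p hp).1.1 (key w p hp).1.2
  · rw [hsum w p hp]
    exact h₁ w hw _ _ (key w p hp).1.1 (key w p hp).1.2

end HJ
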