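import Pool.Agent.H95.HJ.KumL

/-!
Module PairL (project HJ part 2, helper95).  e_P e_Q is torsion if (P, Q) lies on a rational curve of the surface y^2 = F(x) F'(x').
PROOF.  As KumL, with T = (V(σ), y), T' = (V'(σ), Y / y), Y = g(σ) y_h, Y^2 = F(V(σ)) F'(V'(σ)).  s.y = 0 or t.y = 0: ep_left, ep_right.  Otherwise V(z₀) = μ s.v,
V'(z₀) = μ' t.v (exists_smul_of_dt), the product at z₀ is not 0.  s₁ as in KumL: root of h if h is not constant; otherwise g is not constant: if the product is a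
constant ≠ 0 then all dt(r_i, V), dt(r'_i, V') are constant, so V and V' are constant (two independent r_i), contradiction.  exists_sigma,
exists_pair (H i) V.  fib_tors: zero w of z: V(σ) ≡ V(z₀) = μ s.v, spec_lift with scale μ⁻¹: t₁.v = s.v, t₂.v = t.v, t₁.y t₂.y ≡ Y₀ / (μ^(n i) μ'^(n j)), a constant m with
m^2 = s.y^2 t.y^2, so m = ε s.y t.y with ε independent of w (ratfunc_cong for Y) and the cycle is pr P Q_ε + pr (inv P) (inv Q_ε).
Pole w of z: V(σ) ≡ V(s₁) ≠ 0, V'(σ) ≡ V'(s₁) ≠ 0; F(V(s₁)) F'(V'(s₁)) = 0, so the value of T or of T' is a Weierstrass point (inv W = W); weier_tors compares all these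
cycles (W on C_i and R on C_j, or W on C_j and R on C_i).  ep_of_weier, ep_inv_right.
If i ≠ j or i = j makes no difference.
-/

namespace HJ

open ZC Polynomial
open scoped Classical

section cong

variable {k K : Type} [Field k] [Field K] [Algebra k K]

private theorem pl_const_le (w : Place k K) (x : k) : w.v (algebraMap k K x) ≤ 1 := by
  by_cases hx : x = 0
  · subst hx; simp
  · rw [w.triv x hx]

private theorem pl_le (w : Place k K) {X : K} {x : k} (h : w.v (X - algebraMap k K x) < 1) :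
    w.v X ≤ 1 := by
  have : X = (X - algebraMap k K x) + algebraMap k K x := by ring
  rw [this]
  exact (Valuation.map_add _ _ _).trans (max_le h.le (pl_const_le w x))

private theorem pl_cst (w : Place k K) (x : k) :
    w.v (algebraMap k K x - algebraMap k K x) < 1 := by
  simp

private theorem pl_add (w : Place k K) {X Y : K} {x y : k}
    (hX : w.v (X - algebraMap k K x) < 1) (hY : w.v (Y - algebraMap k K y) < 1) :
    w.v ((X + Y) - algebraMap k K (x + y)) < 1 := by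
  have : (X + Y) - algebraMap k K (x + y)
      = (X - algebraMap k K x) + (Y - algebraMap k K y) := by
    rw [map_add]; ring
  rw [this]
  exact Valuation.map_add_lt _ hX hY

private theorem pl_mul (w : Place k K) {X Y : K} {x y : k}
    (hX : w.v (X - algebraMap k K x) < 1) (hY : w.v (Y - algebraMap k K y) < 1) :
    w.v ((X * Y) - algebraMap k K (x * y)) < 1 := by
  have : (X * Y) - algebraMap k K (x * y)
      = (X - algebraMap k K x) * Y + algebraMap k K x * (Y - algebraMap k K y) := by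
    rw [map_mul]; ring
  rw [this]
  refine Valuation.map_add_lt _ ?_ ?_
  · rw [map_mul]
    exact (mul_le_of_le_one_right' (pl_le w hY)).trans_lt hX
  · rw [map_mul]
    exact (mul_le_of_le_one_left' (pl_const_le w x)).trans_lt hY

private theorem pl_uniq (w : Place k K) {X : K} {x y : k}
    (hX : w.v (X - algebraMap k K x) < 1) (hY : w.v (X - algebraMap k K y) < 1) : x = y := by
  by_contra hne
  have h1 : w.v (algebraMap k K (x - y)) < 1 := by
    have : algebraMap k K (x - y) = (X - algebraMap k K y) - (X - algebraMap k K x) := by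
      rw [map_sub]; ring
    rw [this]
    exact Valuation.map_sub_lt _ hY hX
  rw [w.triv _ (sub_ne_zero.2 hne)] at h1
  exact lt_irrefl _ h1

private theorem pl_aeval (w : Place k K) {X : K} {x : k}
    (hX : w.v (X - algebraMap k K x) < 1) (p : k[X]) :
    w.v (aeval X p - algebraMap k K (p.eval x)) < 1 := by
  induction p using Polynomial.induction_on' with
  | add p q hp hq =>
    rw [map_add, eval_add]
    exact pl_add w hp hq
  | monomial m a =>
    have hpow : w.v (X ^ m - algebraMap k K (x ^ m)) < 1 := by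
      induction m with
      | zero => simp
      | succ m ih =>
        rw [pow_succ, pow_succ]
        exact pl_mul w ih hX
    rw [aeval_monomial, eval_monomial]
    exact pl_mul w (pl_cst w a) hpow

end cong

section pol

variable {k : Type} [Field k] {n : ℕ}

/-- The polynomial `F(V)`. -/
private noncomputable def plF (H : Hyp k n) (V : Fin 2 → k[X]) : k[X] :=
  ∏ i, dt (fun j => C (H.r i j)) V

private theorem plF_aeval (H : Hyp k n) (V : Fin 2 → k[X]) {K : Type} [Field K] [Algebra k K]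
    (x : K) : aeval x (plF H V) = H.F (fun j => aeval x (V j)) := by
  unfold plF
  rw [map_prod, Hyp.F_def]
  refine Finset.prod_congr rfl fun i _ => ?_
  simp [dt, cst]

private theorem plF_eval (H : Hyp k n) (V : Fin 2 → k[X]) (x : k) :
    (plF H V).eval x = H.F (fun j => (V j).eval x) := by
  have := plF_aeval H V x
  simpa using this

private theorem pl_unit {f : k[X]} {c : k} {g : k[X]} (hc : c ≠ 0) (h : f * g = C c) :
    f.natDegree = 0 := by
  have h1 : f ≠ 0 := by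
    rintro rfl
    rw [zero_mul] at h
    exact hc (C_eq_zero.1 h.symm)
  have h2 : g ≠ 0 := by
    rintro rfl
    rw [mul_zero] at h
    exact hc (C_eq_zero.1 h.symm)
  have h3 := natDegree_mul h1 h2
  rw [h, natDegree_C] at h3
  omega

private theorem pl_const_V (H : Hyp k n) (V : Fin 2 → k[X]) (g : k[X]) (c : k) (hc : c ≠ 0)
    (h : plF H V * g = C c) (j : Fin 2) : (V j).natDegree = 0 := by
  have h1 : ∀ i, (dt (fun j => C (H.r i j)) V).natDegree = 0 := by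
    intro i
    refine pl_unit (c := c) (g := (∏ i' ∈ Finset.univ.erase i, dt (fun j => C (H.r i' j)) V) * g)
      hc ?_
    rw [← h]
    unfold plF
    rw [← Finset.mul_prod_erase Finset.univ _ (Finset.mem_univ i)]
    ring
  have hn := H.two_le
  have h01 := H.indep ⟨0, by omega⟩ ⟨1, by omega⟩ (by
    intro h
    simpa using congrArg Fin.val h)
  set r₀ := H.r ⟨0, by omega⟩ with hr₀
  set r₁ := H.r ⟨1, by omega⟩ with hr₁
  have e := congrFun (dt_cramer (fun j => C (r₀ j)) (fun j => C (r₁ j)) V) j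
  simp only [Pi.smul_apply, Pi.add_apply, smul_eq_mul] at e
  have e0 : dt (fun j => C (r₀ j)) (fun j => C (r₁ j)) = C (dt r₀ r₁) := by
    simp [dt]
  obtain ⟨a, ha⟩ : ∃ a, dt V (fun j => C (r₁ j)) = C a := by
    rw [dt_comm]
    refine ⟨-(dt (fun j => C (r₁ j)) V).coeff 0, ?_⟩
    rw [map_neg, ← eq_C_of_natDegree_eq_zero (h1 _)]
  obtain ⟨b, hb⟩ : ∃ b, dt (fun j => C (r₀ j)) V = C b :=
    ⟨_, eq_C_of_natDegree_eq_zero (h1 _)⟩
  rw [e0, ha, hb, ← C_mul, ← C_mul, ← C_add] at e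
  have e2 : V j = C ((dt r₀ r₁)⁻¹ * (a * r₀ j + b * r₁ j)) := by
    rw [C_mul, ← e, ← mul_assoc, ← C_mul, inv_mul_cancel₀ h01, C_1, one_mul]
  rw [e2, natDegree_C]

private theorem pl_tri {H : Hyp k n} (s t : H.Tri k) (h : t.v = s.v) (hy : t.y = s.y) :
    t = s := by
  cases s
  cases t
  simp only at h hy
  subst h
  subst hy
  rfl

end pol

variable {k : Type} [Field k] [IsAlgClosed k] [CharZero k] {ι : Type} {n : ι → ℕ}
  {H : ∀ i, Hyp k (n i)}

private theorem pl_cyc {i j : ι} (s t₁ : (H i).Tri k) (t t₂ : (H j).Tri k) (hs : s.y ≠ 0)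
    (h1 : t₁.v = s.v) (h2 : t₂.v = t.v) (h3 : t₁.y * t₂.y = s.y * t.y) :
    pr (⟨i, t₁.mk'⟩ : Pts H) ⟨j, t₂.mk'⟩ + pr (inv (⟨i, t₁.mk'⟩ : Pts H)) (inv ⟨j, t₂.mk'⟩) =
      pr (⟨i, s.mk'⟩ : Pts H) ⟨j, t.mk'⟩ + pr (inv (⟨i, s.mk'⟩ : Pts H)) (inv ⟨j, t.mk'⟩) := by
  have h4 : t₁.y ^ 2 = s.y ^ 2 := by rw [t₁.eq, s.eq, h1]
  rcases sq_eq_sq_iff_eq_or_eq_neg.1 h4 with h5 | h5
  · have h6 : t₂.y = t.y := by
      rw [h5] at h3
      exact mul_left_cancel₀ hs h3
    rw [pl_tri s t₁ h1 h5, pl_tri t t₂ h2 h6]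
  · have h6 : t₂.y = t.neg.y := by
      rw [h5] at h3
      apply mul_left_cancel₀ hs
      change s.y * t₂.y = s.y * (-t.y)
      rw [mul_neg, ← h3]
      ring
    have e1 : t₁ = s.neg := pl_tri s.neg t₁ h1 h5
    have e2 : t₂ = t.neg := pl_tri t.neg t₂ h2 h6
    have f1 : (⟨i, s.neg.mk'⟩ : Pts H) = inv ⟨i, s.mk'⟩ := rfl
    have f2 : (⟨j, t.neg.mk'⟩ : Pts H) = inv ⟨j, t.mk'⟩ := rfl
    rw [e1, e2, f1, f2, inv_inv', inv_inv', add_comm]

private theorem pl_core (i j : ι) (s : (H i).Tri k) (t : (H j).Tri k) (hs : s.y ≠ 0)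
    (ht : t.y ≠ 0) (V V' : Fin 2 → k[X]) (g h : k[X]) (z₀ s₁ : k)
    (hV : ∀ z : k, (fun j => (V j).eval z) ≠ 0 ∧ (fun j => (V' j).eval z) ≠ 0)
    (hdeg : h.natDegree ≤ 2) (hF : plF (H i) V * plF (H j) V' = g ^ 2 * h)
    (hs0 : dt (fun j => (V j).eval z₀) s.v = 0) (ht0 : dt (fun j => (V' j).eval z₀) t.v = 0)
    (hs1 : (g ^ 2 * h).eval s₁ = 0) (hs1' : h.eval s₁ = 0 ∨ h.natDegree = 0) :
    Tors H (ep (⟨i, s.mk'⟩ : Pts H) ⟨j, t.mk'⟩) := by
  obtain ⟨μ, hμ, hμs⟩ := exists_smul_of_dt s.ne (hV z₀).1 (by rw [dt_comm, hs0, neg_zero])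
  obtain ⟨μ', hμ', hμt⟩ := exists_smul_of_dt t.ne (hV z₀).2 (by rw [dt_comm, ht0, neg_zero])
  have hFz : (g ^ 2 * h).eval z₀ ≠ 0 := by
    rw [← hF, eval_mul, plF_eval, plF_eval, hμs, hμt, Hyp.F_smul, Hyp.F_smul, ← s.eq, ← t.eq]
    exact mul_ne_zero (mul_ne_zero (pow_ne_zero _ (pow_ne_zero _ hμ)) (pow_ne_zero _ hs))
      (mul_ne_zero (pow_ne_zero _ (pow_ne_zero _ hμ')) (pow_ne_zero _ ht))
  have hz1 : z₀ ≠ s₁ := by
    rintro rfl
    exact hFz hs1
  have hh0 : h.eval z₀ ≠ 0 := by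
    intro hh
    apply hFz
    rw [eval_mul, hh, mul_zero]
  obtain ⟨σ, yh, hyh, hσ, hpl⟩ := exists_sigma h hdeg z₀ s₁ hz1 hh0 hs1'
  have hVne : V ≠ 0 := by
    rintro rfl
    apply (hV z₀).1
    funext l
    simp
  obtain ⟨K, _, _, φ, T, hK, hz, hT⟩ := exists_pair (H i) V hVne σ hσ
  have hφ : Function.Injective φ := φ.toRingHom.injective
  have hσK : Transcendental k (φ σ) := by
    intro hal
    exact hσ ((isAlgebraic_algHom_iff φ hφ).1 hal)
  have hTv : T.v = fun l => aeval (φ σ) (V l) := funext hT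
  obtain ⟨Y₀, hY₀⟩ := ratfunc_cong (aeval σ g * yh)
  set Y : K := φ (aeval σ g * yh) with hYdef
  have hY : Y ^ 2 = (H i).F T.v * (H j).F (fun l => aeval (φ σ) (V' l)) := by
    rw [hTv, ← plF_aeval, ← plF_aeval, ← map_mul, hF, hYdef, ← map_pow, mul_pow, hyh,
      aeval_algHom_apply]
    simp only [map_mul, map_pow]
  have hFne : plF (H i) V ≠ 0 := by
    intro h0
    apply hFz
    rw [← hF, h0, zero_mul, eval_zero]
  have hTy : T.y ≠ 0 := by
    intro h0
    have h1 := T.eq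
    rw [h0, hTv, ← plF_aeval] at h1
    apply hFne
    apply (transcendental_iff.mp hσK) (plF (H i) V)
    rw [← h1]
    ring
  have hV'K : (fun l => aeval (φ σ) (V' l)) ≠ 0 := by
    intro h0
    apply (hV z₀).2
    funext l
    have h1 := (transcendental_iff.mp hσK) (V' l) (congrFun h0 l)
    rw [h1]
    simp
  let T' : (H j).Tri K := ⟨fun l => aeval (φ σ) (V' l), Y / T.y, hV'K, by
    rw [div_pow, hY, T.eq, mul_comm, mul_div_assoc, div_self, mul_one]
    rw [← T.eq]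
    exact pow_ne_zero _ hTy⟩
  -- values at the zeros of `z`
  have hcong : ∀ (w : Place k K) (x : k), w.v (φ σ - algebraMap k K x) < 1 →
      Cong w T.v (fun l => (V l).eval x) ∧ Cong w T'.v (fun l => (V' l).eval x) := by
    intro w x hx
    refine ⟨fun l => ?_, fun l => ?_⟩
    · rw [hT l]
      exact pl_aeval w hx (V l)
    · exact pl_aeval w hx (V' l)
  have hzero : ∀ w : Place k K, w.v (φ RatFunc.X) < 1 →
      ∃ (t₁ : (H i).Tri k) (t₂ : (H j).Tri k), t₁.v = s.v ∧ t₂.v = t.v ∧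
        Spec w T t₁.mk' ∧ Spec w T' t₂.mk' ∧
        t₁.y * t₂.y = (μ⁻¹) ^ n i * (μ'⁻¹) ^ n j * Y₀ := by
    intro w hw
    obtain ⟨c1, c2⟩ := hcong w z₀ ((hpl K _ _ φ w).1 hw)
    have c1' : Cong w ((algebraMap k K μ⁻¹) • T.v) s.v := by
      intro l
      have h1 := pl_mul w (pl_cst w μ⁻¹) (c1 l)
      have h2 : μ⁻¹ * (fun l => (V l).eval z₀) l = s.v l := by
        rw [hμs, Pi.smul_apply, smul_eq_mul, ← mul_assoc, inv_mul_cancel₀ hμ, one_mul]
      rw [h2] at h1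
      exact h1
    have c2' : Cong w ((algebraMap k K μ'⁻¹) • T'.v) t.v := by
      intro l
      have h1 := pl_mul w (pl_cst w μ'⁻¹) (c2 l)
      have h2 : μ'⁻¹ * (fun l => (V' l).eval z₀) l = t.v l := by
        rw [hμt, Pi.smul_apply, smul_eq_mul, ← mul_assoc, inv_mul_cancel₀ hμ', one_mul]
      rw [h2] at h1
      exact h1
    obtain ⟨t₁, a1, a2, a3⟩ := spec_lift hK w T _ s.v s.ne c1'
    obtain ⟨t₂, b1, b2, b3⟩ := spec_lift hK w T' _ t.v t.ne c2'
    refine ⟨t₁, t₂, a1, b1, a3, b3, ?_⟩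
    have hYle : w.v Y ≤ 1 := by
      have h1 : w.v (Y ^ 2) ≤ 1 := by
        have h2 := pl_aeval w ((hpl K _ _ φ w).1 hw) (g ^ 2 * h)
        have h3 : aeval (φ σ) (g ^ 2 * h) = Y ^ 2 := by
          rw [hY, hTv, ← plF_aeval, ← plF_aeval, ← map_mul, hF]
        rw [h3] at h2
        exact pl_le w h2
      rw [map_pow] at h1
      exact (pow_le_one_iff (by norm_num)).1 h1
    have hYc := hY₀ K _ _ φ w hw hYle
    have h1 := pl_mul w a2 b2
    have h2 := pl_mul w (pl_cst w ((μ⁻¹) ^ n i * (μ'⁻¹) ^ n j)) hYc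
    have h3 : algebraMap k K μ⁻¹ ^ n i * T.y * (algebraMap k K μ'⁻¹ ^ n j * T'.y) =
        algebraMap k K ((μ⁻¹) ^ n i * (μ'⁻¹) ^ n j) * φ (aeval σ g * yh) := by
      have h4 : T.y * T'.y = Y := by
        change T.y * (Y / T.y) = Y
        rw [mul_div_cancel₀ _ hTy]
      rw [← hYdef, ← h4, map_mul, map_pow, map_pow]
      ring
    rw [h3] at h1
    exact pl_uniq w h1 h2
  have hsq : ∀ w : Place k K, w.v (φ RatFunc.X) < 1 →
      (μ⁻¹) ^ n i * (μ'⁻¹) ^ n j * Y₀ = s.y * t.y ∨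
        (μ⁻¹) ^ n i * (μ'⁻¹) ^ n j * Y₀ = s.y * t.neg.y := by
    intro w hw
    obtain ⟨t₁, t₂, a1, b1, -, -, hm⟩ := hzero w hw
    have h1 : ((μ⁻¹) ^ n i * (μ'⁻¹) ^ n j * Y₀) ^ 2 = (s.y * t.y) ^ 2 := by
      rw [← hm, mul_pow, mul_pow, t₁.eq, t₂.eq, s.eq, t.eq, a1, b1]
    rcases sq_eq_sq_iff_eq_or_eq_neg.1 h1 with h2 | h2
    · exact Or.inl h2
    · right
      rw [h2]
      change -(s.y * t.y) = s.y * (-t.y)
      ring
  obtain ⟨t', ht'v, ht'm, ht't⟩ : ∃ t' : (H j).Tri k, t'.v = t.v ∧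
      (∀ w : Place k K, w.v (φ RatFunc.X) < 1 →
        (μ⁻¹) ^ n i * (μ'⁻¹) ^ n j * Y₀ = s.y * t'.y) ∧ (t' = t ∨ t' = t.neg) := by
    by_cases hm : (μ⁻¹) ^ n i * (μ'⁻¹) ^ n j * Y₀ = s.y * t.y
    · exact ⟨t, rfl, fun _ _ => hm, Or.inl rfl⟩
    · exact ⟨t.neg, rfl, fun w hw => (hsq w hw).resolve_left hm, Or.inr rfl⟩
  have h₀ : ∀ w : Place k K, w.v (φ RatFunc.X) < 1 → ∀ (p : (H i).Pt) (q : (H j).Pt),
      Spec w T p → Spec w T' q →
      Tors H ((pr (⟨i, p⟩ : Pts H) ⟨j, q⟩ + pr (inv (⟨i, p⟩ : Pts H)) (inv ⟨j, q⟩)) -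
        (pr (⟨i, s.mk'⟩ : Pts H) ⟨j, t'.mk'⟩ +
          pr (inv (⟨i, s.mk'⟩ : Pts H)) (inv ⟨j, t'.mk'⟩))) := by
    intro w hw p q hp hq
    obtain ⟨t₁, t₂, a1, b1, a3, b3, hm⟩ := hzero w hw
    rw [Spec.unique hK w T hp a3, Spec.unique hK w T' hq b3,
      pl_cyc s t₁ t' t₂ hs a1 (b1.trans ht'v.symm) (hm.trans (ht'm w hw)), sub_self]
    exact tors_zero
  have hval : ∀ w : Place k K, 1 < w.v (φ RatFunc.X) →
      ∃ (t₁ : (H i).Tri k) (t₂ : (H j).Tri k), t₁.v = (fun l => (V l).eval s₁) ∧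
        t₂.v = (fun l => (V' l).eval s₁) ∧ Spec w T t₁.mk' ∧ Spec w T' t₂.mk' := by
    intro w hw
    obtain ⟨c1, c2⟩ := hcong w s₁ ((hpl K _ _ φ w).2 hw)
    obtain ⟨t₁, a1, -, a3⟩ := spec_lift hK w T 1 _ (hV s₁).1 (by rw [one_smul]; exact c1)
    obtain ⟨t₂, b1, -, b3⟩ := spec_lift hK w T' 1 _ (hV s₁).2 (by rw [one_smul]; exact c2)
    exact ⟨t₁, t₂, a1, b1, a3, b3⟩
  have hprod : (H i).F (fun l => (V l).eval s₁) * (H j).F (fun l => (V' l).eval s₁) = 0 := by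
    rw [← plF_eval, ← plF_eval, ← eval_mul, hF, hs1]
  have key : Tors H (ep (⟨i, s.mk'⟩ : Pts H) ⟨j, t'.mk'⟩) := by
    rcases mul_eq_zero.1 hprod with hF0 | hF0
    · let W₀ : (H i).Tri k := ⟨fun l => (V l).eval s₁, 0, (hV s₁).1, by rw [hF0]; ring⟩
      have hW : inv (⟨i, W₀.mk'⟩ : Pts H) = ⟨i, W₀.mk'⟩ := inv_eq_of_y W₀ rfl
      refine ep_of_weier _ _ (⟨i, W₀.mk'⟩ : Pts H) ⟨j, t'.mk'⟩ hW (Or.inl ⟨rfl, rfl⟩)
        (fib_tors hK (φ RatFunc.X) hz T T' _ _ h₀ ?_)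
      intro w hw p q hp hq
      obtain ⟨t₁, t₂, a1, -, a3, -⟩ := hval w hw
      have hy : t₁.y = W₀.y := by
        change t₁.y = 0
        have h1 := t₁.eq
        rw [a1, hF0] at h1
        exact pow_eq_zero_iff (two_ne_zero) |>.1 h1
      rw [Spec.unique hK w T hp a3, pl_tri W₀ t₁ a1 hy, hW]
      exact weier_tors _ _ _ _ hW hW (Or.inl ⟨rfl, rfl⟩)
    · let W₀ : (H j).Tri k := ⟨fun l => (V' l).eval s₁, 0, (hV s₁).2, by rw [hF0]; ring⟩
      have hW : inv (⟨j, W₀.mk'⟩ : Pts H) = ⟨j, W₀.mk'⟩ := inv_eq_of_y W₀ rfl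
      refine ep_of_weier _ _ (⟨j, W₀.mk'⟩ : Pts H) ⟨i, s.mk'⟩ hW (Or.inr ⟨rfl, rfl⟩)
        (fib_tors hK (φ RatFunc.X) hz T T' _ _ h₀ ?_)
      intro w hw p q hp hq
      obtain ⟨t₁, t₂, -, b1, -, b3⟩ := hval w hw
      have hy : t₂.y = W₀.y := by
        change t₂.y = 0
        have h1 := t₂.eq
        rw [b1, hF0] at h1
        exact pow_eq_zero_iff (two_ne_zero) |>.1 h1
      rw [Spec.unique hK w T' hq b3, pl_tri W₀ t₂ b1 hy, hW, pr_comm _ (⟨j, W₀.mk'⟩ : Pts H),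
        pr_comm (inv _) (⟨j, W₀.mk'⟩ : Pts H)]
      exact weier_tors _ _ _ _ hW hW (Or.inl ⟨rfl, rfl⟩)
  rcases ht't with rfl | rfl
  · exact key
  · have f2 : (⟨j, t.neg.mk'⟩ : Pts H) = inv ⟨j, t.mk'⟩ := rfl
    rw [f2, ep_inv_right] at key
    have := key.neg
    rwa [neg_neg] at this

theorem pair_linked (i j : ι) (P : (H i).Pt) (Q : (H j).Pt) (h : PairLinked P Q) :
    Tors H (ep (⟨i, P⟩ : Pts H) ⟨j, Q⟩) := by
  obtain ⟨V, V', g, h, z₀, s, t, hs, ht, hV, hnc, hdeg, hF, h0s, h0t⟩ := h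
  change s.mk' = P at hs
  change t.mk' = Q at ht
  subst hs
  subst ht
  by_cases hsy : s.y = 0
  · rw [ep_left _ _ (inv_eq_of_y s hsy)]
    exact tors_zero
  by_cases hty : t.y = 0
  · rw [ep_right _ _ (inv_eq_of_y t hty)]
    exact tors_zero
  by_cases hh : h.natDegree = 0
  · by_cases hg : g.natDegree = 0
    · exfalso
      have e1 : plF (H i) V * plF (H j) V' = C (g.coeff 0 ^ 2 * h.coeff 0) := by
        have e2 := eq_C_of_natDegree_eq_zero hg
        have e3 := eq_C_of_natDegree_eq_zero hh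
        rw [C_mul, C_pow, ← e2, ← e3]
        exact hF
      have hc : g.coeff 0 ^ 2 * h.coeff 0 ≠ 0 := by
        intro hc
        rw [hc, C_0] at e1
        obtain ⟨μ, hμ, hμs⟩ := exists_smul_of_dt s.ne (hV z₀).1 (by rw [dt_comm, h0s, neg_zero])
        obtain ⟨μ', hμ', hμt⟩ := exists_smul_of_dt t.ne (hV z₀).2
          (by rw [dt_comm, h0t, neg_zero])
        have e4 := congrArg (eval z₀) e1
        rw [eval_mul, plF_eval, plF_eval, hμs, hμt, Hyp.F_smul, Hyp.F_smul, ← s.eq, ← t.eq,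
          eval_zero] at e4
        exact (mul_ne_zero (mul_ne_zero (pow_ne_zero _ (pow_ne_zero _ hμ)) (pow_ne_zero _ hsy))
          (mul_ne_zero (pow_ne_zero _ (pow_ne_zero _ hμ')) (pow_ne_zero _ hty))) e4
      rcases hnc with ⟨l, hl⟩ | ⟨l, hl⟩
      · exact hl (pl_const_V (H i) V _ _ hc e1 l)
      · exact hl (pl_const_V (H j) V' _ _ hc (by rw [mul_comm]; exact e1) l)
    · obtain ⟨s₁, hs₁⟩ := IsAlgClosed.exists_root g (by
        intro h0
        exact hg (natDegree_eq_of_degree_eq_some h0))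
      exact pl_core i j s t hsy hty V V' g h z₀ s₁ hV hdeg hF h0s h0t (by
        rw [eval_mul, eval_pow, hs₁.eq_zero]
        ring) (Or.inr hh)
  · obtain ⟨s₁, hs₁⟩ := IsAlgClosed.exists_root h (by
      intro h0
      exact hh (natDegree_eq_of_degree_eq_some h0))
    exact pl_core i j s t hsy hty V V' g h z₀ s₁ hV hdeg hF h0s h0t (by
      rw [eval_mul, hs₁.eq_zero, mul_zero]) (Or.inl hs₁.eq_zero)

end HJ
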