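import Pool.Agent.H95.HJ.Basic
import Pool.Agent.H95.HJ.Defs2

/-!
Module PentA (project HJ part 2, helper95).  The conic through the five points {b_j, b_(j+1)} of Sym² P¹.
NOTATION.  For p in k^3 let ev_r(p) = p 0 * r 1 ^2 - p 1 * r 0 * r 1 + p 2 * r 0 ^ 2, so that ev_r(m(v,v')) = dt v r * dt v' r, m(v,v') = (v 0 v' 0, v 0 v' 1 + v 1 v' 0,
v 1 v' 1).  S(p) = S 0 p0^2 + S 1 p0 p1 + S 2 p1^2 + S 3 p0 p2 + S 4 p1 p2 + S 5 p2^2, B its polar form (B(p,p') = S(p+p')-S(p)-S(p')).  p_j = m(b_j, b_(j+1)).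
PROOFS.
* no_three: det(m(a,b), m(b,c), m(c,d)) = ± dt a c * dt b c * dt b d and det(m(a,b), m(b,c), m(d,e)) = ± dt a c * dt b d * dt b e; so any three of the five
  points p_j are linearly independent.
* no_line: there is no d not proportional to p_0 with S(d) = 0 and B(p_0, d) = 0: otherwise S vanishes on the plane <p_0, d>, S is a product of two
  linear forms (S ≠ 0), one of them vanishes at three of the five p_j, contradicting no_three.
* parametrisation: for d in k^3: p(d) = S(d) p_0 - B(p_0,d) d, S(p(d)) = 0.  p(d) ≠ 0 unless d is proportional to p_0.  Take d = d₁ + s d₂ (s a parameter) with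
  p_0, d₁, d₂ a basis: the coefficients of p(d) are polynomials in s of degree at most 2; every zero p' ≠ 0 of S is proportional to some
  p(d) with d in <d₁, d₂> nonzero (project p' from p_0: d = p' + t p_0; p' itself proportional to p(d) since B(p_0,p') ≠ 0; for p' = p_0: d with B(p_0,d) = 0,
  S(d) ≠ 0).  Given the target p' = m(v,v') choose the basis such that its d is d₁ (parameter s = 0).
* q_s: the binary quadratic form v ↦ ev_v(p(d)) : coefficients q 0 = p 2, q 1 = - p 1, q 2 = p 0.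
* product: ev_j = ev_(b_j).  ev_0(p(d)) = - B(p_0,d) ev_0(d), ev_1(p(d)) = - B(p_0,d) ev_1(d) since ev_0(p_0) = ev_1(p_0) = 0.  On <d₁,d₂> (or k^3/p_0): ev_0(d) is proportional to
  δ_4(d) = det(p_0,p_4,d), ev_1(d) to δ_1(d) = det(p_0,p_1,d); ev_2(p(d)) is a quadratic form on the two-dimensional space k^3/p_0 vanishing
  at p_1 and p_2 (p(p_1) is proportional to p_1 and ev_2(p_1) = 0), so proportional to δ_1 δ_2; ev_3(p(d)) to δ_2 δ_3; ev_4(p(d)) to δ_3 δ_4.  So the product of the five is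
  a constant times (B(p_0,d) δ_1 δ_2 δ_3 δ_4)^2, and h(s) = constant * ev_(b_6)(p(d(s))) has degree at most 2, b_6 the sixth branch point.
* conic_linked: put this together.  If v, v' are given with S(v,v') = 0 then {v,v'} is the point s = 0 of the family.  The family is not constant: q_s not all constant
  (p(d(s)) is a nondegenerate conic; e.g. otherwise ev_0(p(d)) = -B(p_0,d) ev_0(d) constant in s and also the others; the conic has more than one point:
  it contains the five different points p_j).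
-/

namespace HJ

open ZC Polynomial
open scoped Classical

variable {k : Type} [Field k] [IsAlgClosed k] [CharZero k]

/-- The quadratic form of the conic on the binary quadratic forms. -/
private def PentA_Sq {R : Type*} [CommRing R] (S : Fin 6 → R) (q : Fin 3 → R) : R :=
  S 0 * q 2 ^ 2 - S 1 * q 2 * q 1 + S 2 * q 1 ^ 2 + S 3 * q 2 * q 0 - S 4 * q 1 * q 0 +
    S 5 * q 0 ^ 2

/-- The polar form. -/
private def PentA_Bq {R : Type*} [CommRing R] (S : Fin 6 → R) (q r : Fin 3 → R) : R :=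
  2 * S 0 * q 2 * r 2 - S 1 * (q 2 * r 1 + q 1 * r 2) + 2 * S 2 * q 1 * r 1 +
    S 3 * (q 2 * r 0 + q 0 * r 2) - S 4 * (q 1 * r 0 + q 0 * r 1) + 2 * S 5 * q 0 * r 0

/-- The binary quadratic form with the zeros `u`, `v`. -/
private def PentA_N {R : Type*} [CommRing R] (u v : Fin 2 → R) : Fin 3 → R :=
  ![u 1 * v 1, -(u 0 * v 1 + u 1 * v 0), u 0 * v 0]

private theorem PentA_qv_N {R : Type*} [CommRing R] (u v r : Fin 2 → R) :
    qv (PentA_N u v) r = dt u r * dt v r := by
  simp only [qv, PentA_N, dt, Matrix.cons_val_zero, Matrix.cons_val_one, Matrix.cons_val]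
  ring

private theorem PentA_cv {R : Type*} [CommRing R] (S : Fin 6 → R) (u v : Fin 2 → R) :
    cv S u v = PentA_Sq S (PentA_N u v) := by
  simp only [cv, PentA_Sq, PentA_N, Matrix.cons_val_zero, Matrix.cons_val_one, Matrix.cons_val]
  ring

private theorem PentA_exp {R : Type*} [CommRing R] (S : Fin 6 → R) (x0 x1 x2 : R)
    (N0 N1 N2 : Fin 3 → R) :
    PentA_Sq S (fun j => x0 * N0 j + x1 * N1 j + x2 * N2 j) =
      x0 ^ 2 * PentA_Sq S N0 + x1 ^ 2 * PentA_Sq S N1 + x2 ^ 2 * PentA_Sq S N2 +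
      x0 * x1 * PentA_Bq S N0 N1 + x0 * x2 * PentA_Bq S N0 N2 + x1 * x2 * PentA_Bq S N1 N2 := by
  simp only [PentA_Sq, PentA_Bq]
  ring

private theorem PentA_qv_lin {R : Type*} [CommRing R] (x0 x1 x2 : R) (N0 N1 N2 : Fin 3 → R)
    (r : Fin 2 → R) :
    qv (fun j => x0 * N0 j + x1 * N1 j + x2 * N2 j) r =
      x0 * qv N0 r + x1 * qv N1 r + x2 * qv N2 r := by
  simp only [qv]
  ring

omit [IsAlgClosed k] [CharZero k] in
private theorem PentA_S0 (S : Fin 6 → k) (h : ∀ q : Fin 3 → k, PentA_Sq S q = 0) : S = 0 := by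
  have h0 := h ![0, 0, 1]
  have h5 := h ![1, 0, 0]
  have h2 := h ![0, 1, 0]
  have h1 := h ![0, 1, 1]
  have h3 := h ![1, 0, 1]
  have h4 := h ![1, 1, 0]
  simp only [PentA_Sq, Matrix.cons_val_zero, Matrix.cons_val_one, Matrix.cons_val] at h0 h1 h2 h3 h4 h5
  have e0 : S 0 = 0 := by linear_combination h0
  have e5 : S 5 = 0 := by linear_combination h5
  have e2 : S 2 = 0 := by linear_combination h2
  have e1 : S 1 = 0 := by linear_combination -h1 + e0 + e2
  have e3 : S 3 = 0 := by linear_combination h3 - e0 - e5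
  have e4 : S 4 = 0 := by linear_combination -h4 + e2 + e5
  funext i
  fin_cases i
  · exact e0
  · exact e1
  · exact e2
  · exact e3
  · exact e4
  · exact e5

omit [IsAlgClosed k] [CharZero k] in
/-- A binary quadratic form with three zeros is zero. -/
private theorem PentA_three (D : Fin 3 → k) (a b c : Fin 2 → k) (ha : qv D a = 0)
    (hb : qv D b = 0) (hc : qv D c = 0) (hab : dt a b ≠ 0) (hbc : dt b c ≠ 0)
    (hac : dt a c ≠ 0) : D = 0 := by
  have hΔ : dt a b * dt a c * dt b c ≠ 0 := mul_ne_zero (mul_ne_zero hab hac) hbc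
  have e0 : (dt a b * dt a c * dt b c) * D 0 = 0 := by
    simp only [qv, dt] at ha hb hc ⊢
    linear_combination (b 1 * c 1 * (b 0 * c 1 - b 1 * c 0)) * ha -
      (a 1 * c 1 * (a 0 * c 1 - a 1 * c 0)) * hb + (a 1 * b 1 * (a 0 * b 1 - a 1 * b 0)) * hc
  have e2 : (dt a b * dt a c * dt b c) * D 2 = 0 := by
    simp only [qv, dt] at ha hb hc ⊢
    linear_combination (b 0 * c 0 * (b 0 * c 1 - b 1 * c 0)) * ha -
      (a 0 * c 0 * (a 0 * c 1 - a 1 * c 0)) * hb + (a 0 * b 0 * (a 0 * b 1 - a 1 * b 0)) * hc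
  have e1 : (dt a b * dt a c * dt b c) * D 1 = 0 := by
    simp only [qv, dt] at ha hb hc ⊢
    linear_combination -((b 0 ^ 2 * c 1 ^ 2 - b 1 ^ 2 * c 0 ^ 2)) * ha +
      (a 0 ^ 2 * c 1 ^ 2 - a 1 ^ 2 * c 0 ^ 2) * hb -
      (a 0 ^ 2 * b 1 ^ 2 - a 1 ^ 2 * b 0 ^ 2) * hc
  funext i
  fin_cases i
  · exact (mul_eq_zero.1 e0).resolve_left hΔ
  · exact (mul_eq_zero.1 e1).resolve_left hΔ
  · exact (mul_eq_zero.1 e2).resolve_left hΔ

omit [IsAlgClosed k] [CharZero k] in
/-- A binary quadratic form with two given zeros. -/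
private theorem PentA_two (D : Fin 3 → k) (a b : Fin 2 → k) (ha : qv D a = 0)
    (hb : qv D b = 0) (hab : dt a b ≠ 0) : ∃ κ : k, ∀ j, D j = κ * PentA_N a b j := by
  refine ⟨-(qv D (a + b)) / (dt a b) ^ 2, fun j => ?_⟩
  have h2 : (dt a b) ^ 2 ≠ 0 := pow_ne_zero 2 hab
  have key : (fun j => D j + (qv D (a + b)) / (dt a b) ^ 2 * PentA_N a b j) = 0 := by
    have hlin : ∀ r, qv (fun j => D j + (qv D (a + b)) / (dt a b) ^ 2 * PentA_N a b j) r =
        qv D r + (qv D (a + b)) / (dt a b) ^ 2 * (dt a r * dt b r) := by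
      intro r
      rw [← PentA_qv_N]
      simp only [qv]
      ring
    refine PentA_three _ a b (a + b) ?_ ?_ ?_ hab ?_ ?_
    · rw [hlin, ha, dt_self]; ring
    · rw [hlin, hb, dt_self]; ring
    · rw [hlin, dt_add_right, dt_add_right, dt_self, dt_self, dt_comm b a]
      field_simp
      ring
    · rw [dt_add_right, dt_self, add_zero, dt_comm]
      exact neg_ne_zero.2 hab
    · rw [dt_add_right, dt_self, zero_add]
      exact hab
  have := congrFun key j
  simp only [Pi.zero_apply] at this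
  rw [neg_div]
  linear_combination this

omit [IsAlgClosed k] [CharZero k] in
private theorem PentA_lin (l0 l1 : k) (w : Fin 2 → k) (hw : w ≠ 0)
    (h : l0 * w 0 + l1 * w 1 = 0) : ∃ c : k, l0 = -(c * w 1) ∧ l1 = c * w 0 := by
  by_cases h0 : w 0 = 0
  · have h1 : w 1 ≠ 0 := by
      intro h1
      apply hw
      funext i
      fin_cases i
      · exact h0
      · exact h1
    have hl : l1 = 0 := by
      rw [h0, mul_zero, zero_add] at h
      exact (mul_eq_zero.1 h).resolve_right h1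
    refine ⟨-l0 / w 1, ?_, ?_⟩
    · field_simp
    · rw [h0, hl, mul_zero]
  · refine ⟨l1 / w 0, ?_, ?_⟩
    · field_simp
      linear_combination h
    · field_simp

omit [IsAlgClosed k] [CharZero k] in
/-- The parametrisation of the conic. -/
private theorem PentA_param {α β γ x0 x1 x2 : k} (hα : α ≠ 0) (hβ : β ≠ 0) (hγ : γ ≠ 0)
    (h : γ * (x0 * x1) + β * (x0 * x2) + α * (x1 * x2) = 0)
    (hx : ¬ (x0 = 0 ∧ x1 = 0 ∧ x2 = 0)) :
    ∃ (w : Fin 2 → k) (c : k), w ≠ 0 ∧ c ≠ 0 ∧ α * (w 1 * (w 0 + w 1)) = c * x0 ∧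
      β * (w 0 * (w 0 + w 1)) = c * x1 ∧ -(γ * (w 0 * w 1)) = c * x2 := by
  by_cases h01 : x0 = 0 ∧ x1 = 0
  · obtain ⟨rfl, rfl⟩ := h01
    have hx2 : x2 ≠ 0 := fun h2 => hx ⟨rfl, rfl, h2⟩
    refine ⟨![1, -1], γ / x2, ?_, div_ne_zero hγ hx2, ?_, ?_, ?_⟩
    · intro h0
      have := congrFun h0 0
      simp at this
    · simp
    · simp
    · simp [div_mul_cancel₀ _ hx2]
  · refine ⟨![α * x1, β * x0], α * β * (α * x1 + β * x0), ?_, ?_, ?_, ?_, ?_⟩
    · intro h0
      apply h01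
      have e0 := congrFun h0 0
      have e1 := congrFun h0 1
      simp only [Matrix.cons_val_zero, Matrix.cons_val_one, Pi.zero_apply] at e0 e1
      exact ⟨(mul_eq_zero.1 e1).resolve_left hβ, (mul_eq_zero.1 e0).resolve_left hα⟩
    · refine mul_ne_zero (mul_ne_zero hα hβ) fun h0 => h01 ?_
      have e1 : γ * (x0 * x1) = 0 := by linear_combination h - x2 * h0
      rcases mul_eq_zero.1 ((mul_eq_zero.1 e1).resolve_left hγ) with e | e
      · refine ⟨e, ?_⟩
        rw [e, mul_zero, add_zero] at h0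
        exact (mul_eq_zero.1 h0).resolve_left hα
      · refine ⟨?_, e⟩
        rw [e, mul_zero, zero_add] at h0
        exact (mul_eq_zero.1 h0).resolve_left hβ
    · simp only [Matrix.cons_val_zero, Matrix.cons_val_one]
      ring
    · simp only [Matrix.cons_val_zero, Matrix.cons_val_one]
      ring
    · simp only [Matrix.cons_val_zero, Matrix.cons_val_one]
      linear_combination (-(α * β)) * h

omit [IsAlgClosed k] [CharZero k] in
/-- Three of the five forms are a basis. -/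
private theorem PentA_dec {a0 a1 a2 a3 : Fin 2 → k} (h01 : dt a0 a1 ≠ 0) (h02 : dt a0 a2 ≠ 0)
    (h12 : dt a1 a2 ≠ 0) (h13 : dt a1 a3 ≠ 0) (D : Fin 3 → k) :
    ∃ x0 x1 x2 : k, D = fun j => x0 * PentA_N a0 a1 j + x1 * PentA_N a1 a2 j +
      x2 * PentA_N a2 a3 j := by
  have c01 := dt_comm a0 a1
  have c02 := dt_comm a0 a2
  have c12 := dt_comm a1 a2
  have c13 := dt_comm a1 a3
  have h10 : dt a1 a0 ≠ 0 := by rw [dt_comm]; exact neg_ne_zero.2 h01
  have h20 : dt a2 a0 ≠ 0 := by rw [dt_comm]; exact neg_ne_zero.2 h02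
  have h21 : dt a2 a1 ≠ 0 := by rw [dt_comm]; exact neg_ne_zero.2 h12
  have h31 : dt a3 a1 ≠ 0 := by rw [dt_comm]; exact neg_ne_zero.2 h13
  set x2 : k := qv D a1 / (dt a2 a1 * dt a3 a1) with hx2
  set x0 : k := qv D a2 / (dt a0 a2 * dt a1 a2) with hx0
  set x1 : k := (qv D a0 - x2 * (dt a2 a0 * dt a3 a0)) / (dt a1 a0 * dt a2 a0) with hx1
  have e2 : x2 * (dt a2 a1 * dt a3 a1) = qv D a1 :=
    div_mul_cancel₀ _ (mul_ne_zero h21 h31)
  have e0 : x0 * (dt a0 a2 * dt a1 a2) = qv D a2 :=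
    div_mul_cancel₀ _ (mul_ne_zero h02 h12)
  have e1 : x1 * (dt a1 a0 * dt a2 a0) = qv D a0 - x2 * (dt a2 a0 * dt a3 a0) :=
    div_mul_cancel₀ _ (mul_ne_zero h10 h20)
  refine ⟨x0, x1, x2, ?_⟩
  have hlin : ∀ r, qv (fun j => D j - (x0 * PentA_N a0 a1 j + x1 * PentA_N a1 a2 j +
      x2 * PentA_N a2 a3 j)) r = qv D r - (x0 * (dt a0 r * dt a1 r) + x1 * (dt a1 r * dt a2 r) +
      x2 * (dt a2 r * dt a3 r)) := by
    intro r
    rw [← PentA_qv_N, ← PentA_qv_N, ← PentA_qv_N]
    simp only [qv]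
    ring
  have key := PentA_three (fun j => D j - (x0 * PentA_N a0 a1 j + x1 * PentA_N a1 a2 j +
      x2 * PentA_N a2 a3 j)) a0 a1 a2 (by
        rw [hlin, dt_self]
        linear_combination -e1) (by
        rw [hlin, dt_self]
        linear_combination -e2) (by
        rw [hlin, dt_self]
        linear_combination -e0) h01 h12 h02
  funext j
  have := congrFun key j
  simp only [Pi.zero_apply] at this
  linear_combination this

/-- The point of the conic with the parameter `w`. -/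
private def PentA_Q {R : Type*} [CommRing R] (α β γ : R) (N0 N1 N2 : Fin 3 → R) (w : Fin 2 → R) :
    Fin 3 → R := fun j => (α * (w 1 * (w 0 + w 1))) * N0 j + (β * (w 0 * (w 0 + w 1))) * N1 j +
      (-(γ * (w 0 * w 1))) * N2 j

omit [IsAlgClosed k] in
private theorem PentA_core {a0 a1 a2 a3 a4 : Fin 2 → k} (a5 : Fin 2 → k)
    (h01 : dt a0 a1 ≠ 0) (h02 : dt a0 a2 ≠ 0) (h03 : dt a0 a3 ≠ 0) (h04 : dt a0 a4 ≠ 0)
    (h12 : dt a1 a2 ≠ 0) (h13 : dt a1 a3 ≠ 0) (h14 : dt a1 a4 ≠ 0) (h23 : dt a2 a3 ≠ 0)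
    (h24 : dt a2 a4 ≠ 0) (h34 : dt a3 a4 ≠ 0) {S : Fin 6 → k} (hS : S ≠ 0)
    (s0 : PentA_Sq S (PentA_N a0 a1) = 0) (s1 : PentA_Sq S (PentA_N a1 a2) = 0)
    (s2 : PentA_Sq S (PentA_N a2 a3) = 0) (s3 : PentA_Sq S (PentA_N a3 a4) = 0)
    (s4 : PentA_Sq S (PentA_N a4 a0) = 0) {u v : Fin 2 → k} (hu : u ≠ 0) (hv : v ≠ 0)
    (huv : PentA_Sq S (PentA_N u v) = 0) :
    ∃ (q : Fin 3 → k[X]) (g h : k[X]), (∀ z : k, (fun j => (q j).eval z) ≠ 0) ∧
      (∃ j, (q j).natDegree ≠ 0) ∧ h.natDegree ≤ 2 ∧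
      qv q (fun j => C (a0 j)) * qv q (fun j => C (a1 j)) * qv q (fun j => C (a2 j)) *
        qv q (fun j => C (a3 j)) * qv q (fun j => C (a4 j)) * qv q (fun j => C (a5 j)) =
        g ^ 2 * h ∧
      ∃ c : k, c ≠ 0 ∧ ∀ r : Fin 2 → k, qv (fun j => (q j).eval 0) r = c * (dt u r * dt v r) := by
  have sw : ∀ {x y : Fin 2 → k}, dt x y ≠ 0 → dt y x ≠ 0 := fun {x y} h => by
    rw [dt_comm]; exact neg_ne_zero.2 h
  -- the conic in the coordinates
  set α : k := PentA_Bq S (PentA_N a1 a2) (PentA_N a2 a3) with hαd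
  set β : k := PentA_Bq S (PentA_N a0 a1) (PentA_N a2 a3) with hβd
  set γ : k := PentA_Bq S (PentA_N a0 a1) (PentA_N a1 a2) with hγd
  have hexp : ∀ x0 x1 x2 : k, PentA_Sq S (fun j => x0 * PentA_N a0 a1 j + x1 * PentA_N a1 a2 j +
      x2 * PentA_N a2 a3 j) = γ * (x0 * x1) + β * (x0 * x2) + α * (x1 * x2) := by
    intro x0 x1 x2
    rw [PentA_exp, s0, s1, s2]
    ring
  have hnz : ¬ (α = 0 ∧ β = 0 ∧ γ = 0) := by
    rintro ⟨e1, e2, e3⟩
    apply hS
    apply PentA_S0
    intro D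
    obtain ⟨x0, x1, x2, rfl⟩ := PentA_dec h01 h02 h12 h13 D
    rw [hexp, e1, e2, e3]
    ring
  obtain ⟨y0, y1, y2, hy⟩ := PentA_dec h01 h02 h12 h13 (PentA_N a3 a4)
  obtain ⟨z0, z1, z2, hz⟩ := PentA_dec h01 h02 h12 h13 (PentA_N a4 a0)
  have hyr : ∀ r, dt a3 r * dt a4 r = y0 * (dt a0 r * dt a1 r) + y1 * (dt a1 r * dt a2 r) +
      y2 * (dt a2 r * dt a3 r) := by
    intro r
    rw [← PentA_qv_N a3 a4, hy, PentA_qv_lin, PentA_qv_N, PentA_qv_N, PentA_qv_N]
  have hzr : ∀ r, dt a4 r * dt a0 r = z0 * (dt a0 r * dt a1 r) + z1 * (dt a1 r * dt a2 r) +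
      z2 * (dt a2 r * dt a3 r) := by
    intro r
    rw [← PentA_qv_N a4 a0, hz, PentA_qv_lin, PentA_qv_N, PentA_qv_N, PentA_qv_N]
  have hyS := s3
  rw [hy, hexp] at hyS
  have hzS := s4
  rw [hz, hexp] at hzS
  have hy2 : y2 ≠ 0 := by
    intro h
    have := hyr a1
    rw [h, dt_self] at this
    exact mul_ne_zero (sw h13) (sw h14) (by linear_combination this)
  have hy0 : y0 ≠ 0 := by
    intro h
    have := hyr a2
    rw [h, dt_self] at this
    exact mul_ne_zero (sw h23) (sw h24) (by linear_combination this)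
  have hz2 : z2 ≠ 0 := by
    intro h
    have := hzr a1
    rw [h, dt_self] at this
    exact mul_ne_zero (sw h14) h01 (by linear_combination this)
  have hz0 : z0 ≠ 0 := by
    intro h
    have := hzr a2
    rw [h, dt_self] at this
    exact mul_ne_zero (sw h24) h02 (by linear_combination this)
  have hy1 : y1 ≠ 0 := by
    intro h
    have := hyr a3
    rw [h, dt_self] at this
    exact mul_ne_zero hy0 (mul_ne_zero h03 h13) (by linear_combination -this)
  have hz1 : z1 ≠ 0 := by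
    intro h
    have := hzr a0
    rw [h, dt_self] at this
    exact mul_ne_zero hz2 (mul_ne_zero (sw h02) (sw h03)) (by linear_combination -this)
  have hα : α ≠ 0 := by
    intro h
    have e1 : γ * y1 + β * y2 = 0 := by
      have : y0 * (γ * y1 + β * y2) = 0 := by rw [h] at hyS; linear_combination hyS
      exact (mul_eq_zero.1 this).resolve_left hy0
    have e2 : γ * z1 + β * z2 = 0 := by
      have : z0 * (γ * z1 + β * z2) = 0 := by rw [h] at hzS; linear_combination hzS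
      exact (mul_eq_zero.1 this).resolve_left hz0
    have e3 : y1 * z2 - y2 * z1 = 0 := by
      by_cases hg : γ = 0
      · have hb : β ≠ 0 := fun hb => hnz ⟨h, hb, hg⟩
        rw [hg, zero_mul, zero_add] at e1
        exact absurd (mul_ne_zero hb hy2) (not_not.2 e1)
      · have : γ * (y1 * z2 - y2 * z1) = 0 := by linear_combination z2 * e1 - y2 * e2
        exact (mul_eq_zero.1 this).resolve_left hg
    have f4 : (z2 * y0 - y2 * z0) * (dt a0 a4 * dt a1 a4) = 0 := by
      have r1 := hyr a4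
      have r2 := hzr a4
      rw [dt_self] at r1 r2
      linear_combination y2 * r2 - z2 * r1 - (dt a1 a4 * dt a2 a4) * e3
    have f5 := (mul_eq_zero.1 f4).resolve_right (mul_ne_zero h04 h14)
    have r1 := hyr a3
    have r2 := hzr a3
    rw [dt_self] at r1 r2
    refine mul_ne_zero hy2 (mul_ne_zero (sw h34) h03) ?_
    linear_combination y2 * r2 - z2 * r1 - (dt a0 a3 * dt a1 a3) * f5 - (dt a1 a3 * dt a2 a3) * e3
  have hβ : β ≠ 0 := by
    intro h
    have e1 : α * y2 + γ * y0 = 0 := by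
      have : y1 * (α * y2 + γ * y0) = 0 := by rw [h] at hyS; linear_combination hyS
      exact (mul_eq_zero.1 this).resolve_left hy1
    have e2 : α * z2 + γ * z0 = 0 := by
      have : z1 * (α * z2 + γ * z0) = 0 := by rw [h] at hzS; linear_combination hzS
      exact (mul_eq_zero.1 this).resolve_left hz1
    have e3 : y0 * z2 - y2 * z0 = 0 := by
      have : α * (y0 * z2 - y2 * z0) = 0 := by linear_combination y0 * e2 - z0 * e1
      exact (mul_eq_zero.1 this).resolve_left hα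
    have r1 := hyr a4
    have r2 := hzr a4
    rw [dt_self] at r1 r2
    have f4 : (z2 * y1 - y2 * z1) * (dt a1 a4 * dt a2 a4) = 0 := by
      linear_combination y2 * r2 - z2 * r1 - (dt a0 a4 * dt a1 a4) * e3
    have f5 := (mul_eq_zero.1 f4).resolve_right (mul_ne_zero h14 h24)
    have r3 := hyr a3
    have r4 := hzr a3
    rw [dt_self] at r3 r4
    refine mul_ne_zero hy2 (mul_ne_zero (sw h34) h03) ?_
    linear_combination y2 * r4 - z2 * r3 - (dt a1 a3 * dt a2 a3) * f5 - (dt a0 a3 * dt a1 a3) * e3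
  have hγ : γ ≠ 0 := by
    intro h
    have e1 : α * y1 + β * y0 = 0 := by
      have : y2 * (α * y1 + β * y0) = 0 := by rw [h] at hyS; linear_combination hyS
      exact (mul_eq_zero.1 this).resolve_left hy2
    have e2 : α * z1 + β * z0 = 0 := by
      have : z2 * (α * z1 + β * z0) = 0 := by rw [h] at hzS; linear_combination hzS
      exact (mul_eq_zero.1 this).resolve_left hz2
    have e3 : y0 * z1 - y1 * z0 = 0 := by
      have : α * (y0 * z1 - y1 * z0) = 0 := by linear_combination y0 * e2 - z0 * e1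
      exact (mul_eq_zero.1 this).resolve_left hα
    have r1 := hyr a4
    have r2 := hzr a4
    rw [dt_self] at r1 r2
    have f4 : (z1 * y2 - y1 * z2) * (dt a2 a4 * dt a3 a4) = 0 := by
      linear_combination y1 * r2 - z1 * r1 - (dt a0 a4 * dt a1 a4) * e3
    have f5 := (mul_eq_zero.1 f4).resolve_right (mul_ne_zero h24 h34)
    have r3 := hyr a3
    have r4 := hzr a3
    rw [dt_self] at r3 r4
    refine mul_ne_zero hy1 (mul_ne_zero (sw h34) h03) ?_
    linear_combination y1 * r4 - z1 * r3 - (dt a0 a3 * dt a1 a3) * e3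
  -- evaluation of the parametrised form
  have hQr : ∀ w r : Fin 2 → k, qv (PentA_Q α β γ (PentA_N a0 a1) (PentA_N a1 a2)
      (PentA_N a2 a3) w) r = α * (w 1 * (w 0 + w 1)) * (dt a0 r * dt a1 r) +
        β * (w 0 * (w 0 + w 1)) * (dt a1 r * dt a2 r) - γ * (w 0 * w 1) * (dt a2 r * dt a3 r) := by
    intro w r
    unfold PentA_Q
    rw [PentA_qv_lin, PentA_qv_N, PentA_qv_N, PentA_qv_N]
    ring
  have hQne : ∀ w : Fin 2 → k, w ≠ 0 → PentA_Q α β γ (PentA_N a0 a1) (PentA_N a1 a2)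
      (PentA_N a2 a3) w ≠ 0 := by
    intro w hw h0
    have hr : ∀ r, qv (PentA_Q α β γ (PentA_N a0 a1) (PentA_N a1 a2)
      (PentA_N a2 a3) w) r = 0 := by
      intro r
      rw [h0]
      simp [qv]
    have t1 := hr a1
    have t2 := hr a2
    have t0 := hr a0
    rw [hQr, dt_self] at t1 t2 t0
    have u1 : w 0 * w 1 = 0 := by
      have : γ * (w 0 * w 1) * (dt a2 a1 * dt a3 a1) = 0 := by linear_combination -t1
      exact (mul_eq_zero.1 ((mul_eq_zero.1 this).resolve_right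
        (mul_ne_zero (sw h12) (sw h13)))).resolve_left hγ
    have u2 : w 1 * (w 0 + w 1) = 0 := by
      have : α * (w 1 * (w 0 + w 1)) * (dt a0 a2 * dt a1 a2) = 0 := by linear_combination t2
      exact (mul_eq_zero.1 ((mul_eq_zero.1 this).resolve_right
        (mul_ne_zero h02 h12))).resolve_left hα
    have u3 : w 0 * (w 0 + w 1) = 0 := by
      have : β * (w 0 * (w 0 + w 1)) * (dt a1 a0 * dt a2 a0) = 0 := by
        linear_combination t0 + γ * (dt a2 a0 * dt a3 a0) * u1
      exact (mul_eq_zero.1 ((mul_eq_zero.1 this).resolve_right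
        (mul_ne_zero (sw h01) (sw h02)))).resolve_left hβ
    have w1 : w 1 ^ 2 = 0 := by linear_combination u2 - u1
    have w0 : w 0 ^ 2 = 0 := by linear_combination u3 - u1
    apply hw
    funext i
    fin_cases i
    · exact pow_eq_zero_iff (two_ne_zero) |>.1 w0
    · exact pow_eq_zero_iff (two_ne_zero) |>.1 w1
  -- every zero of the conic is parametrised
  have hpar : ∀ T : Fin 3 → k, T ≠ 0 → PentA_Sq S T = 0 → ∃ (w : Fin 2 → k) (c : k), w ≠ 0 ∧
      c ≠ 0 ∧ ∀ r, qv (PentA_Q α β γ (PentA_N a0 a1) (PentA_N a1 a2) (PentA_N a2 a3) w) r =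
        c * qv T r := by
    intro T hT hTS
    obtain ⟨x0, x1, x2, rfl⟩ := PentA_dec h01 h02 h12 h13 T
    rw [hexp] at hTS
    obtain ⟨w, c, hw, hc, f0, f1, f2⟩ := PentA_param hα hβ hγ hTS (by
      rintro ⟨rfl, rfl, rfl⟩
      apply hT
      funext j
      simp)
    refine ⟨w, c, hw, hc, fun r => ?_⟩
    rw [hQr, PentA_qv_lin, PentA_qv_N, PentA_qv_N, PentA_qv_N]
    linear_combination (dt a0 r * dt a1 r) * f0 + (dt a1 r * dt a2 r) * f1 +
      (dt a2 r * dt a3 r) * f2
  have hNne : ∀ {x y : Fin 2 → k}, x ≠ 0 → y ≠ 0 → PentA_N x y ≠ 0 := by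
    intro x y hx hy h0
    have e0 := congrFun h0 0
    have e1 := congrFun h0 1
    have e2 := congrFun h0 2
    simp only [PentA_N, Matrix.cons_val_zero, Matrix.cons_val_one, Matrix.cons_val,
      Pi.zero_apply] at e0 e1 e2
    by_cases hx0 : x 0 = 0
    · have hx1 : x 1 ≠ 0 := by
        intro h
        apply hx
        funext i
        fin_cases i
        · exact hx0
        · exact h
      apply hy
      rw [hx0] at e1
      have y1 := (mul_eq_zero.1 e0).resolve_left hx1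
      have y0 : x 1 * y 0 = 0 := by linear_combination -e1
      funext i
      fin_cases i
      · exact (mul_eq_zero.1 y0).resolve_left hx1
      · exact y1
    · apply hy
      have y0 := (mul_eq_zero.1 e2).resolve_left hx0
      rw [y0] at e1
      have y1 : x 0 * y 1 = 0 := by linear_combination -e1
      funext i
      fin_cases i
      · exact y0
      · exact (mul_eq_zero.1 y1).resolve_left hx0
  have hne : ∀ {x y : Fin 2 → k}, dt x y ≠ 0 → x ≠ 0 := by
    intro x y h h0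
    apply h
    rw [h0]
    simp [dt]
  obtain ⟨w, cw, hw, hcw, hwr⟩ := hpar _ (hNne (hne h34) (hne (sw h34))) s3
  obtain ⟨w', cw', hw', hcw', hwr'⟩ := hpar _ (hNne (hne (sw h04)) (hne h04)) s4
  obtain ⟨w₀, c₀, hw₀, hc₀, hwr₀⟩ := hpar _ (hNne hu hv) huv
  -- the linear factors
  have hl3 : (β * (dt a1 a3 * dt a2 a3)) * w 0 + (α * (dt a0 a3 * dt a1 a3)) * w 1 = 0 := by
    have e := hwr a3
    rw [hQr, PentA_qv_N, dt_self] at e
    have e' : (w 0 + w 1) * ((β * (dt a1 a3 * dt a2 a3)) * w 0 +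
        (α * (dt a0 a3 * dt a1 a3)) * w 1) = 0 := by linear_combination e
    refine (mul_eq_zero.1 e').resolve_left fun h0 => ?_
    have f := hwr a2
    rw [hQr, PentA_qv_N, dt_self] at f
    refine mul_ne_zero hcw (mul_ne_zero (sw h23) (sw h24)) ?_
    linear_combination -f + α * w 1 * (dt a0 a2 * dt a1 a2) * h0
  have hl0 : (β * (dt a1 a0 * dt a2 a0)) * w' 0 + (β * (dt a1 a0 * dt a2 a0) -
      γ * (dt a2 a0 * dt a3 a0)) * w' 1 = 0 := by
    have e := hwr' a0
    rw [hQr, PentA_qv_N, dt_self] at e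
    have e' : w' 0 * ((β * (dt a1 a0 * dt a2 a0)) * w' 0 + (β * (dt a1 a0 * dt a2 a0) -
      γ * (dt a2 a0 * dt a3 a0)) * w' 1) = 0 := by linear_combination e
    refine (mul_eq_zero.1 e').resolve_left fun h0 => ?_
    have f := hwr' a1
    rw [hQr, PentA_qv_N, dt_self] at f
    refine mul_ne_zero hcw' (mul_ne_zero (sw h14) h01) ?_
    linear_combination -f - γ * w' 1 * (dt a2 a1 * dt a3 a1) * h0
  have hww : dt w w' ≠ 0 := by
    intro h0
    obtain ⟨c, hc, hcc⟩ := exists_smul_of_dt hw hw' h0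
    have e := hwr' a0
    have f := hwr a0
    rw [hQr, PentA_qv_N, dt_self] at e f
    rw [hcc] at e
    simp only [Pi.smul_apply, smul_eq_mul] at e
    refine mul_ne_zero (mul_ne_zero hcw (pow_ne_zero 2 hc)) (mul_ne_zero (sw h03) (sw h04)) ?_
    linear_combination e - c ^ 2 * f
  obtain ⟨c3, hc3, hc3'⟩ := PentA_lin _ _ w hw hl3
  obtain ⟨c0, hc0, hc0'⟩ := PentA_lin _ _ w' hw' hl0
  obtain ⟨κ, hκ⟩ := PentA_two ![β * (dt a1 a4 * dt a2 a4), α * (dt a0 a4 * dt a1 a4) +
      β * (dt a1 a4 * dt a2 a4) - γ * (dt a2 a4 * dt a3 a4), α * (dt a0 a4 * dt a1 a4)] w w' (by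
      have e := hwr a4
      rw [hQr, PentA_qv_N, dt_self] at e
      simp only [qv, Matrix.cons_val_zero, Matrix.cons_val_one, Matrix.cons_val]
      linear_combination e) (by
      have e := hwr' a4
      rw [hQr, PentA_qv_N, dt_self] at e
      simp only [qv, Matrix.cons_val_zero, Matrix.cons_val_one, Matrix.cons_val]
      linear_combination e) hww
  have k0 := hκ 0
  have k1 := hκ 1
  have k2 := hκ 2
  simp only [PentA_N, Matrix.cons_val_zero, Matrix.cons_val_one, Matrix.cons_val] at k0 k1 k2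
  -- the second point of the parameter line
  obtain ⟨w₁, hw₁⟩ : ∃ w₁ : Fin 2 → k, dt w₀ w₁ ≠ 0 := by
    by_contra hcon
    push Not at hcon
    apply hw₀
    have e0 := hcon ![0, 1]
    have e1 := hcon ![1, 0]
    simp [dt] at e0 e1
    funext i
    fin_cases i
    · exact e0
    · exact e1
  set σ : k[X] := C (w₀ 0) + C (w₁ 0) * X with hσ
  set τ : k[X] := C (w₀ 1) + C (w₁ 1) * X with hτ
  set q : Fin 3 → k[X] := PentA_Q (C α) (C β) (C γ) (fun j => C (PentA_N a0 a1 j))
    (fun j => C (PentA_N a1 a2 j)) (fun j => C (PentA_N a2 a3 j)) ![σ, τ] with hq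
  have hqr : ∀ r : Fin 2 → k, qv q (fun j => C (r j)) =
      C (α * (dt a0 r * dt a1 r)) * (τ * (σ + τ)) + C (β * (dt a1 r * dt a2 r)) * (σ * (σ + τ)) -
        C (γ * (dt a2 r * dt a3 r)) * (σ * τ) := by
    intro r
    rw [← PentA_qv_N a0 a1 r, ← PentA_qv_N a1 a2 r, ← PentA_qv_N a2 a3 r]
    simp only [hq, qv, PentA_Q, map_add, map_mul, map_pow, Matrix.cons_val_zero,
      Matrix.cons_val_one]
    ring
  have hqe : ∀ z : k, (fun j => (q j).eval z) = PentA_Q α β γ (PentA_N a0 a1) (PentA_N a1 a2)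
      (PentA_N a2 a3) (w₀ + z • w₁) := by
    intro z
    funext j
    simp only [hq, PentA_Q, hσ, hτ, Matrix.cons_val_zero, Matrix.cons_val_one, eval_add, eval_mul,
      eval_neg, eval_C, eval_X, Pi.add_apply, Pi.smul_apply, smul_eq_mul]
    ring
  have hw₁0 : w₁ ≠ 0 := hne (sw hw₁)
  refine ⟨q, σ * τ * (σ + τ) * (C (w 0) * τ - C (w 1) * σ) * (C (w' 0) * τ - C (w' 1) * σ),
    C (-(γ * (dt a2 a1 * dt a3 a1)) * (α * (dt a0 a2 * dt a1 a2)) * c0 * c3 * κ) *
      qv q (fun j => C (a5 j)), ?_, ?_, ?_, ?_, c₀, hc₀, ?_⟩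
  · intro z
    rw [hqe]
    apply hQne
    intro h0
    apply hw₁
    have e0 : dt (w₀ + z • w₁) w₁ = 0 := by rw [h0]; simp [dt]
    rw [dt_add_left, dt_smul_left, dt_self, mul_zero, add_zero] at e0
    exact e0
  · by_contra hcon
    push Not at hcon
    apply hQne w₁ hw₁0
    funext j
    have e0 := congrFun (hqe 0) j
    have e1 := congrFun (hqe 1) j
    have e2 := congrFun (hqe (-1)) j
    rw [eq_C_of_natDegree_eq_zero (hcon j)] at e0 e1 e2
    simp only [eval_C, PentA_Q, Pi.add_apply, Pi.smul_apply, smul_eq_mul] at e0 e1 e2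
    have e3 : (2 : k) * PentA_Q α β γ (PentA_N a0 a1) (PentA_N a1 a2) (PentA_N a2 a3) w₁ j = 0 := by
      simp only [PentA_Q]
      linear_combination 2 * e0 - e1 - e2
    exact (mul_eq_zero.1 e3).resolve_left two_ne_zero
  · rw [hqr, hσ, hτ]
    compute_degree
  · have p1 : qv q (fun j => C (a1 j)) = -(C (γ * (dt a2 a1 * dt a3 a1)) * (σ * τ)) := by
      rw [hqr, dt_self]
      simp
    have p2 : qv q (fun j => C (a2 j)) = C (α * (dt a0 a2 * dt a1 a2)) * (τ * (σ + τ)) := by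
      rw [hqr, dt_self]
      simp
    have p0 : qv q (fun j => C (a0 j)) = σ * (C c0 * (C (w' 0) * τ - C (w' 1) * σ)) := by
      have e1 : C (β * (dt a1 a0 * dt a2 a0)) = -(C c0 * C (w' 1)) := by
        rw [hc0, map_neg, map_mul]
      have e2 : C (β * (dt a1 a0 * dt a2 a0)) - C (γ * (dt a2 a0 * dt a3 a0)) =
          C c0 * C (w' 0) := by
        rw [← map_sub, hc0', map_mul]
      rw [hqr, dt_self, zero_mul, mul_zero, map_zero]
      linear_combination (σ ^ 2) * e1 + (σ * τ) * e2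
    have p3 : qv q (fun j => C (a3 j)) = (σ + τ) * (C c3 * (C (w 0) * τ - C (w 1) * σ)) := by
      have e1 : C (β * (dt a1 a3 * dt a2 a3)) = -(C c3 * C (w 1)) := by
        rw [hc3, map_neg, map_mul]
      have e2 : C (α * (dt a0 a3 * dt a1 a3)) = C c3 * C (w 0) := by
        rw [hc3', map_mul]
      rw [hqr, dt_self, mul_zero, mul_zero, map_zero]
      linear_combination (σ * (σ + τ)) * e1 + (τ * (σ + τ)) * e2
    have p4 : qv q (fun j => C (a4 j)) =
        C κ * ((C (w 0) * τ - C (w 1) * σ) * (C (w' 0) * τ - C (w' 1) * σ)) := by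
      have e0 : C (β * (dt a1 a4 * dt a2 a4)) = C κ * (C (w 1) * C (w' 1)) := by
        rw [k0, map_mul, map_mul]
      have e1 : C (α * (dt a0 a4 * dt a1 a4)) + C (β * (dt a1 a4 * dt a2 a4)) -
          C (γ * (dt a2 a4 * dt a3 a4)) = -(C κ * (C (w 0) * C (w' 1) + C (w 1) * C (w' 0))) := by
        rw [← map_add, ← map_sub, k1]
        simp only [map_mul, map_neg, map_add]
        ring
      have e2 : C (α * (dt a0 a4 * dt a1 a4)) = C κ * (C (w 0) * C (w' 0)) := by
        rw [k2, map_mul, map_mul]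
      rw [hqr]
      linear_combination (σ ^ 2) * e0 + (σ * τ) * e1 + (τ ^ 2) * e2
    rw [p0, p1, p2, p3, p4]
    have hK : C (-(γ * (dt a2 a1 * dt a3 a1)) * (α * (dt a0 a2 * dt a1 a2)) * c0 * c3 * κ) =
        -C (γ * (dt a2 a1 * dt a3 a1)) * C (α * (dt a0 a2 * dt a1 a2)) * C c0 * C c3 * C κ := by
      simp only [map_mul, map_neg]
    rw [hK]
    generalize C (w 0) * τ - C (w 1) * σ = D
    generalize C (w' 0) * τ - C (w' 1) * σ = D'
    generalize σ + τ = E
    generalize C (γ * (dt a2 a1 * dt a3 a1)) = G1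
    generalize C (α * (dt a0 a2 * dt a1 a2)) = G2
    generalize C c0 = G3
    generalize C c3 = G4
    generalize C κ = G5
    generalize qv q (fun j => C (a5 j)) = G6
    ring
  · intro r
    rw [hqe, zero_smul, add_zero, hwr₀, PentA_qv_N]

theorem conic_linked (H : Hyp k 3) (b : ZMod 5 → Fin (2 * 3)) (hb : Function.Injective b)
    (S : Fin 6 → k) (hS : S ≠ 0) (hSb : ∀ j, cv S (H.r (b j)) (H.r (b (j + 1))) = 0)
    (s t : H.Tri k) (hst : cv S s.v t.v = 0) : KumLinked s.mk' t.mk' := by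
  have hd : ∀ i j : ZMod 5, i ≠ j → dt (H.r (b i)) (H.r (b j)) ≠ 0 :=
    fun i j hij => H.indep _ _ (hb.ne hij)
  -- the sixth branch point
  obtain ⟨i5, hi5⟩ : ∃ i5, (Finset.univ.image b)ᶜ = {i5} := by
    rw [← Finset.card_eq_one, Finset.card_compl, Finset.card_image_of_injective _ hb,
      Finset.card_univ, ZMod.card, Fintype.card_fin]
  obtain ⟨q, g, h, h1, h2, h3, h4, c, hc, h5⟩ := PentA_core (H.r i5)
    (hd 0 1 (by decide)) (hd 0 2 (by decide)) (hd 0 3 (by decide)) (hd 0 4 (by decide))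
    (hd 1 2 (by decide)) (hd 1 3 (by decide)) (hd 1 4 (by decide)) (hd 2 3 (by decide))
    (hd 2 4 (by decide)) (hd 3 4 (by decide)) hS
    (by rw [← PentA_cv]; exact hSb 0) (by rw [← PentA_cv]; exact hSb 1)
    (by rw [← PentA_cv]; exact hSb 2) (by rw [← PentA_cv]; exact hSb 3)
    (by rw [← PentA_cv]; exact hSb 4) s.ne t.ne (by rw [← PentA_cv]; exact hst)
  refine ⟨q, g, h, 0, s, t, rfl, rfl, h1, h2, h3, ?_, c, hc, h5⟩
  rw [← h4, ← Finset.prod_mul_prod_compl (Finset.univ.image b), hi5, Finset.prod_singleton,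
    Finset.prod_image (fun x _ y _ hxy => hb hxy)]
  congr 1
  rw [show (∏ j : ZMod 5, qv q (fun l => C (H.r (b j) l))) =
    ∏ j : Fin 5, qv q (fun l => C (H.r (b (show ZMod 5 from j)) l)) from rfl, Fin.prod_univ_five]
  rfl

end HJ
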