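import Pool.Agent.H95.HJ.Basic
import Pool.Agent.H95.HJ.Defs2

/-!
Module PentB (project HJ part 2, helper95).  Poncelet pentagons: the diagonals.
PROOF.  exists_conic5: five linear conditions on six unknowns S (cv S v v' is linear in S): a nonzero solution.
diag: b_j (j mod 5) pairwise independent, S ≠ 0 with cv S b_j b_(j+1) = 0, S' ≠ 0 with cv S' b_j b_(j+2) = 0, v_j pairwise independent with cv S v_j v_(j+1) = 0.
Claim: cv S' v_j v_(j+2) = 0.
(1) For fixed j the binary quadratic form x ↦ cv S b_j x vanishes at b_(j-1), b_(j+1): cv S b_j x = c_j dt b_(j-1) x * dt b_(j+1) x, similarly cv S' b_j x = c'_j dt b_(j-2) x *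
dt b_(j+2) x.  (2) Put G(x) = prod_j dt b_j x, Φ(x,y) = dt x y * cv S x y * cv S' x y: antisymmetric, of bidegree (5,5), Φ(b_j, y) = λ_j G(y) for all y.
(3) There is a binary form q of degree 5 with Φ(x,y) = G(x) q(y) - G(y) q(x): choose q of degree 5 with q(b_j) = - λ_j for the five j (Lagrange interpolation, exists); then
Ψ = Φ - (G(x) q(y) - G(y) q(x)) is antisymmetric of bidegree (5,5) and vanishes for x = b_j, so Ψ(x,y) = G(x) c(y) with c a form of degree 5, and by antisymmetry c(b_j) = 0,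
c = γ G, Ψ = γ G(x) G(y) antisymmetric, so γ = 0.  ALTERNATIVE without q: for all x, y, w:
G(w) Φ(x,y) + G(x) Φ(y,w) + G(y) Φ(w,x) = 0 (*) (the cyclic identity equivalent to (3)); proof: as a form in x of degree 5 (y, w fixed) the left side vanishes at
the five points b_j: G(b_j) = 0, and G(w) λ_j G(y) + G(y) (-λ_j G(w)) = 0; so it is γ(y,w) G(x); put x = w: Φ(w,w) = 0, G(w)Φ(w,y) + G(w) Φ(y,w) + 0 = 0, so
γ(y,w) G(w) = 0, hence γ(y,w) = 0 whenever G(w) ≠ 0; similarly for G(y) ≠ 0 (x = y); in general by choosing (polynomial identity / k infinite), (*) holds when G(w) ≠ 0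
or G(y) ≠ 0 or G(x) ≠ 0, and it is trivially true when all three vanish.
(4) Application: choose w with G(w) ≠ 0.  Φ(v_j, v_(j+1)) = 0, so by (*) with (x,y) = (v_j, v_(j+1)): G(v_j) Φ(v_(j+1),w) = G(v_(j+1)) Φ(v_j,w) for all j, hence the vectors
(G(v_j), Φ(v_j,w)) are pairwise proportional for j and j+1.  (5) If G(v_j) = 0 for some j, say v_j = b_i: then the zeros v_(j±1) of cv S b_i x are b_(i±1) and so on: v is (a reflection of)
the pentagon b and the claim is the hypothesis on S'.  Otherwise all G(v_j) ≠ 0 and G(v_j) Φ(v_(j+2),w) = G(v_(j+2)) Φ(v_j,w), so by (*) Φ(v_j, v_(j+2)) = 0;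
dt v_j v_(j+2) ≠ 0; if cv S v_j v_(j+2) = 0 then x ↦ cv S v_j x vanishes at the three independent points v_(j-1), v_(j+1), v_(j+2), so identically, which is
impossible (6).  So cv S' v_j v_(j+2) = 0.
(6) x ↦ cv S v x is not identically zero for v ≠ 0: put x = b_i: cv S v b_i = c_i dt b_(i-1) v * dt b_(i+1) v = 0 for all i; c_i ≠ 0 (7); so v is proportional to b_(i-1) or
b_(i+1) for every i, impossible for five different points.
(7) c_i ≠ 0: cv S b_i x is not identically zero.  If c_i = 0 then the conic S contains the line of all {b_i, x}; so S is a product of two linear forms, the second vanishes at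
the points {b_(i+1), b_(i+2)}, {b_(i+2), b_(i+3)}, {b_(i+3), b_(i+4)} that are linearly independent (det(m(a,b), m(b,c), m(c,d)) = ± dt a c * dt b c * dt b d), so S = 0.
(Direct: if cv S b_i x = 0 for all x then cv S x y = dt b_i x * dt b_i y * L(x,y), L symmetric bilinear; L(b_(i+1), b_(i+2)) = L(b_(i+2),b_(i+3)) = L(b_(i+3),b_(i+4)) = 0 gives L = 0.)
-/

namespace HJ

open ZC Polynomial
open scoped Classical

variable {k : Type} [Field k] [IsAlgClosed k] [CharZero k]

theorem exists_conic5 (a b : ZMod 5 → Fin 2 → k) :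
    ∃ S : Fin 6 → k, S ≠ 0 ∧ ∀ j, cv S (a j) (b j) = 0 := by
  let f : (Fin 6 → k) →ₗ[k] (ZMod 5 → k) :=
    { toFun := fun S j => cv S (a j) (b j)
      map_add' := by
        intro S T
        funext j
        simp only [cv, Pi.add_apply]
        ring
      map_smul' := by
        intro c S
        funext j
        simp only [cv, Pi.smul_apply, smul_eq_mul, RingHom.id_apply]
        ring }
  have h1 : Module.finrank k (ZMod 5 → k) < Module.finrank k (Fin 6 → k) := by
    rw [Module.finrank_fintype_fun_eq_card, Module.finrank_fintype_fun_eq_card, ZMod.card,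
      Fintype.card_fin]
    norm_num
  have h2 := LinearMap.ker_ne_bot_of_finrank_lt (f := f) h1
  obtain ⟨S, hS, hne⟩ := (Submodule.ne_bot_iff _).1 h2
  refine ⟨S, hne, fun j => ?_⟩
  exact congrFun (LinearMap.mem_ker.1 hS) j

omit [IsAlgClosed k] [CharZero k] in
private theorem cv_symm (S : Fin 6 → k) (x y : Fin 2 → k) : cv S x y = cv S y x := by
  simp only [cv]; ring

omit [IsAlgClosed k] [CharZero k] in
private theorem cv_smul_l (S : Fin 6 → k) (c : k) (x y : Fin 2 → k) :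
    cv S (c • x) y = c ^ 2 * cv S x y := by
  simp only [cv, Pi.smul_apply, smul_eq_mul]; ring

omit [IsAlgClosed k] [CharZero k] in
private theorem cv_smul_r (S : Fin 6 → k) (c : k) (x y : Fin 2 → k) :
    cv S x (c • y) = c ^ 2 * cv S x y := by
  simp only [cv, Pi.smul_apply, smul_eq_mul]; ring

omit [IsAlgClosed k] [CharZero k] in
/-- A binary quadratic form vanishing at two independent vectors. -/
private theorem quad_factor (A B C : k) (u v : Fin 2 → k) (hd : dt u v ≠ 0)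
    (hu : A * u 0 ^ 2 + B * (u 0 * u 1) + C * u 1 ^ 2 = 0)
    (hv : A * v 0 ^ 2 + B * (v 0 * v 1) + C * v 1 ^ 2 = 0) :
    ∃ κ : k, ∀ y : Fin 2 → k,
      A * y 0 ^ 2 + B * (y 0 * y 1) + C * y 1 ^ 2 = κ * (dt u y * dt v y) := by
  refine ⟨-(2 * A * (u 0 * v 0) + B * (u 0 * v 1 + u 1 * v 0) + 2 * C * (u 1 * v 1)) /
    (dt u v) ^ 2, fun y => ?_⟩
  rw [div_mul_eq_mul_div, eq_div_iff (pow_ne_zero 2 hd)]
  simp only [dt]
  linear_combination (v 0 * y 1 - v 1 * y 0) ^ 2 * hu + (u 0 * y 1 - u 1 * y 0) ^ 2 * hv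

omit [IsAlgClosed k] [CharZero k] in
private theorem cv_quad (S : Fin 6 → k) (x : Fin 2 → k) :
    ∃ A B C : k, ∀ y : Fin 2 → k, cv S x y = A * y 0 ^ 2 + B * (y 0 * y 1) + C * y 1 ^ 2 := by
  refine ⟨S 0 * x 0 ^ 2 + S 1 * (x 0 * x 1) + S 2 * x 1 ^ 2,
    S 1 * x 0 ^ 2 + 2 * S 2 * (x 0 * x 1) + S 3 * (x 0 * x 1) + S 4 * x 1 ^ 2,
    S 2 * x 0 ^ 2 + S 4 * (x 0 * x 1) + S 5 * x 1 ^ 2, fun y => ?_⟩
  simp only [cv]; ring

omit [IsAlgClosed k] [CharZero k] in
private theorem cv_factor (S : Fin 6 → k) (x u v : Fin 2 → k) (hd : dt u v ≠ 0)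
    (hu : cv S x u = 0) (hv : cv S x v = 0) :
    ∃ κ : k, ∀ y : Fin 2 → k, cv S x y = κ * (dt u y * dt v y) := by
  obtain ⟨A, B, C, h⟩ := cv_quad S x
  rw [h] at hu hv
  obtain ⟨κ, hκ⟩ := quad_factor A B C u v hd hu hv
  exact ⟨κ, fun y => by rw [h, hκ]⟩

omit [IsAlgClosed k] [CharZero k] in
/-- A conic containing the line of all pairs `{b, x}` and three more points. -/
private theorem conic_zero (S : Fin 6 → k) (b b1 b2 b3 b4 : Fin 2 → k)
    (h01 : dt b1 b ≠ 0) (h02 : dt b2 b ≠ 0) (h03 : dt b3 b ≠ 0) (h04 : dt b4 b ≠ 0)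
    (h13 : dt b1 b3 ≠ 0) (h24 : dt b2 b4 ≠ 0) (h23 : dt b2 b3 ≠ 0)
    (hb : ∀ x, cv S b x = 0) (e1 : cv S b1 b2 = 0) (e2 : cv S b2 b3 = 0) (e3 : cv S b3 b4 = 0) :
    S = 0 := by
  obtain ⟨a, ha⟩ : ∃ a : Fin 2 → k, dt a b ≠ 0 := ⟨b1, h01⟩
  set A := cv S a a with hA
  set B := cv S a (a + b) - cv S a a with hB
  set C := cv S (a + b) (a + b) - A - 2 * B with hC
  have q1 := hb a
  have q2 := hb b
  have q3 := hb (a + b)
  -- the value of the conic
  have key : ∀ x y : Fin 2 → k, dt a b ^ 4 * cv S x y = (dt x b * dt y b) *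
      ((dt x b * dt y b) * A + (dt x b * dt a y + dt a x * dt y b) * B +
        (dt a x * dt a y) * C) := by
    intro x y
    obtain ⟨P, hP⟩ : ∃ P, P = dt x b * dt y b := ⟨_, rfl⟩
    obtain ⟨Q, hQ⟩ : ∃ Q, Q = dt x b * dt a y + dt a x * dt y b := ⟨_, rfl⟩
    obtain ⟨R, hR⟩ : ∃ R, R = dt a x * dt a y := ⟨_, rfl⟩
    have m0 : dt a b ^ 2 * (x 0 * y 0) = P * (a 0 * a 0) + Q * (a 0 * b 0) + R * (b 0 * b 0) := by
      rw [hP, hQ, hR]; simp only [dt]; ring
    have m1 : dt a b ^ 2 * (x 0 * y 1 + x 1 * y 0) = P * (2 * (a 0 * a 1)) +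
        Q * (a 0 * b 1 + a 1 * b 0) + R * (2 * (b 0 * b 1)) := by
      rw [hP, hQ, hR]; simp only [dt]; ring
    have m2 : dt a b ^ 2 * (x 1 * y 1) = P * (a 1 * a 1) + Q * (a 1 * b 1) + R * (b 1 * b 1) := by
      rw [hP, hQ, hR]; simp only [dt]; ring
    have h0 : dt a b ^ 4 * cv S x y = S 0 * (dt a b ^ 2 * (x 0 * y 0)) ^ 2 +
        S 1 * (dt a b ^ 2 * (x 0 * y 0)) * (dt a b ^ 2 * (x 0 * y 1 + x 1 * y 0)) +
        S 2 * (dt a b ^ 2 * (x 0 * y 1 + x 1 * y 0)) ^ 2 +
        S 3 * (dt a b ^ 2 * (x 0 * y 0)) * (dt a b ^ 2 * (x 1 * y 1)) +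
        S 4 * (dt a b ^ 2 * (x 0 * y 1 + x 1 * y 0)) * (dt a b ^ 2 * (x 1 * y 1)) +
        S 5 * (dt a b ^ 2 * (x 1 * y 1)) ^ 2 := by
      simp only [cv]; ring
    rw [h0, m0, m1, m2, ← hP, ← hQ, ← hR, hC, hB, hA]
    simp only [cv, Pi.add_apply] at q1 q2 q3 ⊢
    linear_combination (Q ^ 2 - P * Q - Q * R) * q1 + (R ^ 2 + P * R - Q * R) * q2 +
      (Q * R - 2 * P * R) * q3
  -- three linear equations
  have lin : ∀ x y : Fin 2 → k, dt x b ≠ 0 → dt y b ≠ 0 → cv S x y = 0 →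
      (dt x b * dt y b) * A + (dt x b * dt a y + dt a x * dt y b) * B +
        (dt a x * dt a y) * C = 0 := by
    intro x y hx hy h
    have h1 := key x y
    rw [h, mul_zero] at h1
    rcases mul_eq_zero.1 h1.symm with h2 | h2
    · exact absurd h2 (mul_ne_zero hx hy)
    · exact h2
  have l1 := lin b1 b2 h01 h02 e1
  have l2 := lin b2 b3 h02 h03 e2
  have l3 := lin b3 b4 h03 h04 e3
  have hD : (dt a b) ^ 3 * (dt b1 b3 * dt b2 b4 * dt b2 b3) ≠ 0 :=
    mul_ne_zero (pow_ne_zero 3 ha) (mul_ne_zero (mul_ne_zero h13 h24) h23)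
  have p13 : dt a b * dt b1 b3 = dt b1 b * dt a b3 - dt b3 b * dt a b1 := by
    simp only [dt]; ring
  have p24 : dt a b * dt b2 b4 = dt b2 b * dt a b4 - dt b4 b * dt a b2 := by
    simp only [dt]; ring
  have p23 : dt a b * dt b2 b3 = dt b2 b * dt a b3 - dt b3 b * dt a b2 := by
    simp only [dt]; ring
  have hD' : (dt a b) ^ 3 * (dt b1 b3 * dt b2 b4 * dt b2 b3) =
      (dt b1 b * dt a b3 - dt b3 b * dt a b1) * (dt b2 b * dt a b4 - dt b4 b * dt a b2) *
        (dt b2 b * dt a b3 - dt b3 b * dt a b2) := by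
    rw [← p13, ← p24, ← p23]; ring
  rw [hD'] at hD
  generalize dt b1 b = α1 at l1 l2 l3 hD
  generalize dt b2 b = α2 at l1 l2 l3 hD
  generalize dt b3 b = α3 at l1 l2 l3 hD
  generalize dt b4 b = α4 at l1 l2 l3 hD
  generalize dt a b1 = β1 at l1 l2 l3 hD
  generalize dt a b2 = β2 at l1 l2 l3 hD
  generalize dt a b3 = β3 at l1 l2 l3 hD
  generalize dt a b4 = β4 at l1 l2 l3 hD
  have hA0 : A = 0 := by
    refine (mul_eq_zero.1 (?_ : _ * A = 0)).resolve_left hD
    linear_combination ((α2 * β3 + β2 * α3) * (β3 * β4) - (β2 * β3) * (α3 * β4 + β3 * α4)) * l1 -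
      ((α1 * β2 + β1 * α2) * (β3 * β4) - (β1 * β2) * (α3 * β4 + β3 * α4)) * l2 +
      ((α1 * β2 + β1 * α2) * (β2 * β3) - (β1 * β2) * (α2 * β3 + β2 * α3)) * l3
  have hB0 : B = 0 := by
    refine (mul_eq_zero.1 (?_ : _ * B = 0)).resolve_left hD
    linear_combination -((α2 * α3) * (β3 * β4) - (β2 * β3) * (α3 * α4)) * l1 +
      ((α1 * α2) * (β3 * β4) - (β1 * β2) * (α3 * α4)) * l2 -
      ((α1 * α2) * (β2 * β3) - (β1 * β2) * (α2 * α3)) * l3
  have hC0 : C = 0 := by
    refine (mul_eq_zero.1 (?_ : _ * C = 0)).resolve_left hD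
    linear_combination ((α2 * α3) * (α3 * β4 + β3 * α4) - (α2 * β3 + β2 * α3) * (α3 * α4)) * l1 -
      ((α1 * α2) * (α3 * β4 + β3 * α4) - (α1 * β2 + β1 * α2) * (α3 * α4)) * l2 +
      ((α1 * α2) * (α2 * β3 + β2 * α3) - (α1 * β2 + β1 * α2) * (α2 * α3)) * l3
  have all : ∀ x y : Fin 2 → k, cv S x y = 0 := by
    intro x y
    have h1 := key x y
    rw [hA0, hB0, hC0, mul_zero, mul_zero, mul_zero, add_zero, add_zero, mul_zero] at h1
    exact (mul_eq_zero.1 h1).resolve_left (pow_ne_zero 4 ha)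
  have s0 := all ![1, 0] ![1, 0]
  have s2 := all ![1, 0] ![0, 1]
  have s5 := all ![0, 1] ![0, 1]
  have s1 := all ![1, 0] ![1, 1]
  have s4 := all ![0, 1] ![1, 1]
  have s3 := all ![1, 1] ![1, 1]
  simp [cv] at s0 s2 s5 s1 s4 s3
  funext i
  fin_cases i
  · simpa using s0
  · simp; linear_combination s1 - s0 - s2
  · simpa using s2
  · simp; linear_combination s3 - s0 - s5 - 4 * s2 - 2 * (s1 - s0 - s2) - 2 * (s4 - s5 - s2)
  · simp; linear_combination s4 - s5 - s2
  · simpa using s5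

omit [IsAlgClosed k] [CharZero k] in
private theorem conic_row (b : ZMod 5 → Fin 2 → k) (hb : ∀ i j, i ≠ j → dt (b i) (b j) ≠ 0)
    (S : Fin 6 → k) (hS : S ≠ 0) (h1 : ∀ j, cv S (b j) (b (j + 1)) = 0) (i : ZMod 5) :
    ∃ κ : k, κ ≠ 0 ∧ ∀ y, cv S (b i) y = κ * (dt (b (i - 1)) y * dt (b (i + 1)) y) := by
  have e1 : cv S (b i) (b (i - 1)) = 0 := by
    rw [cv_symm]
    have := h1 (i - 1)
    rwa [sub_add_cancel] at this
  have n1 : i - 1 ≠ i + 1 := (by decide : ∀ i : ZMod 5, i - 1 ≠ i + 1) i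
  obtain ⟨κ, hκ⟩ := cv_factor S (b i) (b (i - 1)) (b (i + 1)) (hb _ _ n1) e1 (h1 i)
  refine ⟨κ, ?_, hκ⟩
  intro h0
  apply hS
  have m1 : i + 1 ≠ i := (by decide : ∀ i : ZMod 5, i + 1 ≠ i) i
  have m2 : i + 1 + 1 ≠ i := (by decide : ∀ i : ZMod 5, i + 1 + 1 ≠ i) i
  have m3 : i + 1 + 1 + 1 ≠ i := (by decide : ∀ i : ZMod 5, i + 1 + 1 + 1 ≠ i) i
  have m4 : i + 1 + 1 + 1 + 1 ≠ i := (by decide : ∀ i : ZMod 5, i + 1 + 1 + 1 + 1 ≠ i) i
  have m13 : i + 1 ≠ i + 1 + 1 + 1 := (by decide : ∀ i : ZMod 5, i + 1 ≠ i + 1 + 1 + 1) i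
  have m24 : i + 1 + 1 ≠ i + 1 + 1 + 1 + 1 := (by decide : ∀ i : ZMod 5, i + 1 + 1 ≠ i + 1 + 1 + 1 + 1) i
  have m23 : i + 1 + 1 ≠ i + 1 + 1 + 1 := (by decide : ∀ i : ZMod 5, i + 1 + 1 ≠ i + 1 + 1 + 1) i
  exact conic_zero S (b i) (b (i + 1)) (b (i + 1 + 1)) (b (i + 1 + 1 + 1)) (b (i + 1 + 1 + 1 + 1))
    (hb _ _ m1) (hb _ _ m2) (hb _ _ m3) (hb _ _ m4) (hb _ _ m13) (hb _ _ m24) (hb _ _ m23)
    (fun x => by rw [hκ, h0, zero_mul]) (h1 _) (h1 _) (h1 _)

omit [IsAlgClosed k] [CharZero k] in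
private theorem conic_row' (b : ZMod 5 → Fin 2 → k) (hb : ∀ i j, i ≠ j → dt (b i) (b j) ≠ 0)
    (S' : Fin 6 → k) (h2 : ∀ j, cv S' (b j) (b (j + 2)) = 0) (i : ZMod 5) :
    ∃ κ : k, ∀ y, cv S' (b i) y = κ * (dt (b (i - 2)) y * dt (b (i + 2)) y) := by
  have e1 : cv S' (b i) (b (i - 2)) = 0 := by
    rw [cv_symm]
    have := h2 (i - 2)
    rwa [sub_add_cancel] at this
  have n1 : i - 2 ≠ i + 2 := (by decide : ∀ i : ZMod 5, i - 2 ≠ i + 2) i
  exact cv_factor S' (b i) (b (i - 2)) (b (i + 2)) (hb _ _ n1) e1 (h2 i)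

omit [IsAlgClosed k] [CharZero k] in
private theorem prod5 (f : ZMod 5 → k) (j : ZMod 5) :
    ∏ i, f i = f j * (f (j - 1) * f (j + 1)) * (f (j - 2) * f (j + 2)) := by
  rw [← Equiv.prod_comp (Equiv.addLeft j) f]
  have h : ∀ g : ZMod 5 → k, ∏ i, g i = g 0 * g 1 * g 2 * g 3 * g 4 := fun g =>
    Fin.prod_univ_five g
  rw [h]
  simp only [Equiv.coe_addLeft, add_zero]
  have h3 : j + 3 = j - 2 := (by decide : ∀ j : ZMod 5, j + 3 = j - 2) j
  have h4 : j + 4 = j - 1 := (by decide : ∀ j : ZMod 5, j + 4 = j - 1) j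
  rw [h3, h4]
  ring

omit [IsAlgClosed k] [CharZero k] in
private theorem exists_avoid [Infinite k] {J : Type} [Fintype J] (a : J → Fin 2 → k)
    (ha : ∀ j, a j ≠ 0) : ∃ w : Fin 2 → k, ∀ j, dt (a j) w ≠ 0 := by
  obtain ⟨z, hz⟩ := Infinite.exists_notMem_finset (Finset.univ.image fun j => a j 1 / a j 0)
  refine ⟨![1, z], fun j h => ?_⟩
  simp only [dt, Matrix.cons_val_zero, Matrix.cons_val_one, mul_one] at h
  by_cases h0 : a j 0 = 0
  · apply ha j
    rw [h0, zero_mul, zero_sub, neg_eq_zero] at h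
    funext i
    fin_cases i
    · exact h0
    · exact h
  · apply hz
    rw [Finset.mem_image]
    refine ⟨j, Finset.mem_univ _, ?_⟩
    rw [div_eq_iff h0]
    linear_combination -h

/-- The antisymmetric form `Φ`. -/
private def Ph (S S' : Fin 6 → k) (x y : Fin 2 → k) : k := dt x y * cv S x y * cv S' x y

/-- The form `G`. -/
private noncomputable def Gf (b : ZMod 5 → Fin 2 → k) (x : Fin 2 → k) : k := ∏ j, dt (b j) x

omit [IsAlgClosed k] [CharZero k] in
private theorem Ph_anti (S S' : Fin 6 → k) (x y : Fin 2 → k) : Ph S S' x y = - Ph S S' y x := by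
  simp only [Ph]
  rw [cv_symm S x y, cv_symm S' x y, dt_comm x y]; ring

omit [IsAlgClosed k] [CharZero k] in
private theorem Ph_smul_l (S S' : Fin 6 → k) (c : k) (x y : Fin 2 → k) :
    Ph S S' (c • x) y = c ^ 5 * Ph S S' x y := by
  simp only [Ph]
  rw [cv_smul_l, cv_smul_l, dt_smul_left]; ring

omit [IsAlgClosed k] [CharZero k] in
private theorem Ph_smul_r (S S' : Fin 6 → k) (c : k) (x y : Fin 2 → k) :
    Ph S S' x (c • y) = c ^ 5 * Ph S S' x y := by
  simp only [Ph]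
  rw [cv_smul_r, cv_smul_r, dt_smul_right]; ring

omit [IsAlgClosed k] [CharZero k] in
private theorem Ph_self (S S' : Fin 6 → k) (x : Fin 2 → k) : Ph S S' x x = 0 := by
  simp only [Ph]
  rw [dt_self]; ring

omit [IsAlgClosed k] [CharZero k] in
private theorem Gf_smul (b : ZMod 5 → Fin 2 → k) (c : k) (x : Fin 2 → k) :
    Gf b (c • x) = c ^ 5 * Gf b x := by
  simp only [Gf, dt_smul_right]
  rw [Finset.prod_mul_distrib, Finset.prod_const, Finset.card_univ, ZMod.card]

omit [IsAlgClosed k] [CharZero k] in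
private theorem Gf_row (b : ZMod 5 → Fin 2 → k) (j : ZMod 5) : Gf b (b j) = 0 :=
  Finset.prod_eq_zero (Finset.mem_univ j) (dt_self _)

omit [IsAlgClosed k] [CharZero k] in
/-- The cyclic identity. -/
private theorem cyc [Infinite k] (b : ZMod 5 → Fin 2 → k)
    (hb : ∀ i j, i ≠ j → dt (b i) (b j) ≠ 0) (S S' : Fin 6 → k) (hS : S ≠ 0)
    (h1 : ∀ j, cv S (b j) (b (j + 1)) = 0) (h2 : ∀ j, cv S' (b j) (b (j + 2)) = 0)
    (w : Fin 2 → k) (hw : ∀ j, dt (b j) w ≠ 0) (x y : Fin 2 → k) :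
    Gf b w * Ph S S' x y + Gf b x * Ph S S' y w + Gf b y * Ph S S' w x = 0 := by
  have hb0 : ∀ j, b j ≠ 0 := by
    intro j h
    have hj : j ≠ j + 1 := (by decide : ∀ j : ZMod 5, j ≠ j + 1) j
    apply hb j (j + 1) hj
    rw [h]; simp [dt]
  have hw0 : w ≠ 0 := by
    intro h
    apply hw 0
    rw [h]; simp [dt]
  -- the form at the branch points
  have row : ∀ j, ∃ l : k, ∀ y, Ph S S' (b j) y = l * Gf b y := by
    intro j
    obtain ⟨κ, -, hκ⟩ := conic_row b hb S hS h1 j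
    obtain ⟨κ', hκ'⟩ := conic_row' b hb S' h2 j
    refine ⟨κ * κ', fun y => ?_⟩
    simp only [Ph, Gf]
    rw [hκ, hκ', prod5 (fun i => dt (b i) y) j]
    ring
  by_cases hx : x = 0
  · have e1 : Ph S S' x y = 0 := by rw [hx]; simp [Ph, dt]
    have e2 : Ph S S' w x = 0 := by rw [hx]; simp [Ph, dt]
    have e3 : Gf b x = 0 := by
      rw [hx]
      exact Finset.prod_eq_zero (Finset.mem_univ 0) (by simp [dt])
    rw [e1, e2, e3]; ring
  let vv : Option (ZMod 5) → Fin 2 → k := fun o => o.elim w b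
  have hvv0 : ∀ o, vv o ≠ 0 := by
    intro o
    cases o with
    | none => exact hw0
    | some j => exact hb0 j
  have hind : ∀ o o', o ≠ o' → dt (vv o) (vv o') ≠ 0 := by
    intro o o' hne
    cases o with
    | none =>
      cases o' with
      | none => exact absurd rfl hne
      | some j =>
        show dt w (b j) ≠ 0
        rw [dt_comm]
        exact neg_ne_zero.2 (hw j)
    | some i =>
      cases o' with
      | none => exact hw i
      | some j => exact hb i j fun h => hne (by rw [h])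
  obtain ⟨u, hu⟩ := exists_avoid (fun o : Option (Option (ZMod 5)) => o.elim x vv) (by
    intro o
    cases o with
    | none => exact hx
    | some o => exact hvv0 o)
  have hux : dt x u ≠ 0 := hu none
  have huv : ∀ o, dt (vv o) u ≠ 0 := fun o => hu (some o)
  -- the value of the left hand side on the line
  let F : k → k := fun z => Gf b w * Ph S S' (x + z • u) y + Gf b (x + z • u) * Ph S S' y w +
    Gf b y * Ph S S' w (x + z • u)
  let Xv : Fin 2 → k[X] := fun i => C (x i) + X * C (u i)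
  let cc : (Fin 2 → k) → Fin 2 → k[X] := fun v i => C (v i)
  let cs : (Fin 6 → k) → Fin 6 → k[X] := fun v i => C (v i)
  let P : k[X] := C (Gf b w) * (dt Xv (cc y) * cv (cs S) Xv (cc y) * cv (cs S') Xv (cc y)) +
    (∏ j, dt (cc (b j)) Xv) * C (Ph S S' y w) +
    C (Gf b y) * (dt (cc w) Xv * cv (cs S) (cc w) Xv * cv (cs S') (cc w) Xv)
  have hPe : ∀ z, P.eval z = F z := by
    intro z
    have e : ∀ i, (Xv i).eval z = (x + z • u) i := by
      intro i
      simp only [Xv, eval_add, eval_mul, eval_C, eval_X, Pi.add_apply, Pi.smul_apply, smul_eq_mul]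
    have ec : ∀ (v : Fin 2 → k) i, (cc v i).eval z = v i := by
      intro v i
      simp [cc]
    have es : ∀ (v : Fin 6 → k) i, (cs v i).eval z = v i := by
      intro v i
      simp [cs]
    simp only [P, F, Gf, Ph, dt, cv, eval_add, eval_mul, eval_prod, eval_pow, eval_sub, eval_C, e,
      ec, es]
  have hdX : ∀ v : Fin 2 → k, (dt Xv (cc v)).natDegree ≤ 1 := by
    intro v
    simp only [dt, Xv, cc]
    compute_degree
  have hdX' : ∀ v : Fin 2 → k, (dt (cc v) Xv).natDegree ≤ 1 := by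
    intro v
    simp only [dt, Xv, cc]
    compute_degree
  have hcX : ∀ (T : Fin 6 → k) (v : Fin 2 → k), (cv (cs T) Xv (cc v)).natDegree ≤ 2 := by
    intro T v
    simp only [cv, Xv, cc, cs]
    compute_degree
  have hcX' : ∀ (T : Fin 6 → k) (v : Fin 2 → k), (cv (cs T) (cc v) Xv).natDegree ≤ 2 := by
    intro T v
    simp only [cv, Xv, cc, cs]
    compute_degree
  have hdeg : P.natDegree ≤ 5 := by
    have t1 : (C (Gf b w) * (dt Xv (cc y) * cv (cs S) Xv (cc y) * cv (cs S') Xv (cc y))).natDegree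
        ≤ 5 := by
      refine (natDegree_C_mul_le _ _).trans ?_
      refine natDegree_mul_le.trans ?_
      have := natDegree_mul_le (p := dt Xv (cc y)) (q := cv (cs S) Xv (cc y))
      have := hdX y
      have := hcX S y
      have := hcX S' y
      omega
    have t2 : ((∏ j, dt (cc (b j)) Xv) * C (Ph S S' y w)).natDegree ≤ 5 := by
      refine (natDegree_mul_C_le _ _).trans ?_
      refine (natDegree_prod_le _ _).trans ?_
      refine (Finset.sum_le_card_nsmul _ _ 1 fun j _ => hdX' (b j)).trans ?_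
      rw [Finset.card_univ, ZMod.card]
      norm_num
    have t3 : (C (Gf b y) * (dt (cc w) Xv * cv (cs S) (cc w) Xv * cv (cs S') (cc w) Xv)).natDegree
        ≤ 5 := by
      refine (natDegree_C_mul_le _ _).trans ?_
      refine natDegree_mul_le.trans ?_
      have := natDegree_mul_le (p := dt (cc w) Xv) (q := cv (cs S) (cc w) Xv)
      have := hdX' w
      have := hcX' S w
      have := hcX' S' w
      omega
    exact natDegree_add_le_of_degree_le (natDegree_add_le_of_degree_le t1 t2) t3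
  let zz : Option (ZMod 5) → k := fun o => -(dt x (vv o)) / dt u (vv o)
  have huv' : ∀ o, dt u (vv o) ≠ 0 := by
    intro o
    rw [dt_comm]
    exact neg_ne_zero.2 (huv o)
  have hzz : ∀ o, dt (x + zz o • u) (vv o) = 0 := by
    intro o
    rw [dt_add_left, dt_smul_left]
    simp only [zz]
    rw [div_mul_cancel₀ _ (huv' o)]
    ring
  have hne : ∀ z : k, x + z • u ≠ 0 := by
    intro z h
    apply hux
    have h3 : dt (x + z • u) u = 0 := by rw [h]; simp [dt]
    rwa [dt_add_left, dt_smul_left, dt_self, mul_zero, add_zero] at h3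
  have hinj : Function.Injective zz := by
    intro o o' h
    by_contra hoo
    apply hind o o' hoo
    have e1 := hzz o
    have e2 := hzz o'
    rw [← h] at e2
    obtain ⟨c, hc, e3⟩ := exists_smul_of_dt (hne _) (hvv0 o) e1
    rw [e3, dt_smul_left, e2, mul_zero]
  have hroot : ∀ o, P.eval (zz o) = 0 := by
    intro o
    rw [hPe]
    have e1 := hzz o
    have e0 : dt (vv o) (x + zz o • u) = 0 := by rw [dt_comm, e1, neg_zero]
    obtain ⟨c, hc, e3⟩ := exists_smul_of_dt (hvv0 o) (hne (zz o)) e0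
    simp only [F]
    rw [e3]
    cases o with
    | none =>
      show Gf b w * Ph S S' (c • w) y + Gf b (c • w) * Ph S S' y w + Gf b y * Ph S S' w (c • w) = 0
      rw [Ph_smul_l, Gf_smul, Ph_smul_r, Ph_self, Ph_anti S S' y w]
      ring
    | some j =>
      show Gf b w * Ph S S' (c • b j) y + Gf b (c • b j) * Ph S S' y w +
        Gf b y * Ph S S' w (c • b j) = 0
      obtain ⟨l, hl⟩ := row j
      rw [Ph_smul_l, Gf_smul, Ph_smul_r, Gf_row, Ph_anti S S' w (b j), hl, hl]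
      ring
  have hP0 : P = 0 := by
    refine eq_zero_of_natDegree_lt_card_of_eval_eq_zero P hinj hroot ?_
    rw [Fintype.card_option, ZMod.card]
    omega
  have h3 := hPe 0
  rw [hP0, eval_zero] at h3
  simp only [F, zero_smul, add_zero] at h3
  exact h3.symm

theorem diag (b v : ZMod 5 → Fin 2 → k) (hb : ∀ i j, i ≠ j → dt (b i) (b j) ≠ 0)
    (hv : ∀ i j, i ≠ j → dt (v i) (v j) ≠ 0) (S S' : Fin 6 → k) (hS : S ≠ 0) (hS' : S' ≠ 0)
    (h1 : ∀ j, cv S (b j) (b (j + 1)) = 0) (h2 : ∀ j, cv S' (b j) (b (j + 2)) = 0)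
    (h3 : ∀ j, cv S (v j) (v (j + 1)) = 0) (j : ZMod 5) : cv S' (v j) (v (j + 2)) = 0 := by
  haveI : Infinite k := IsAlgClosed.instInfinite
  have ne0 : ∀ a : ZMod 5 → Fin 2 → k, (∀ i j, i ≠ j → dt (a i) (a j) ≠ 0) → ∀ j, a j ≠ 0 := by
    intro a ha j h
    have hj : j ≠ j + 1 := (by decide : ∀ j : ZMod 5, j ≠ j + 1) j
    apply ha j (j + 1) hj
    rw [h]; simp [dt]
  have hb0 := ne0 b hb
  have hv0 := ne0 v hv
  -- a vertex proportional to a branch point
  have step : ∀ i j, dt (b i) (v j) = 0 → (dt (b (i - 1)) (v (j + 1)) = 0 ∨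
      dt (b (i + 1)) (v (j + 1)) = 0) := by
    intro i j h
    obtain ⟨c, hc, e⟩ := exists_smul_of_dt (hb0 i) (hv0 j) h
    obtain ⟨κ, hκ0, hκ⟩ := conic_row b hb S hS h1 i
    have h4 := h3 j
    rw [e, cv_smul_l, hκ] at h4
    rcases mul_eq_zero.1 h4 with h5 | h5
    · exact absurd h5 (pow_ne_zero 2 hc)
    · rcases mul_eq_zero.1 h5 with h6 | h6
      · exact absurd h6 hκ0
      · exact mul_eq_zero.1 h6
  by_cases hz : ∃ i j, dt (b i) (v j) = 0
  · -- the pentagon of the vertices is the pentagon of the branch points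
    have hall : ∀ m : ℕ, ∀ j : ZMod 5, (∃ i, dt (b i) (v j) = 0) →
        ∃ i, dt (b i) (v (j + m)) = 0 := by
      intro m
      induction m with
      | zero => intro j h; simpa using h
      | succ m ih =>
        intro j h
        obtain ⟨i, hi⟩ := ih j h
        rcases step i _ hi with h4 | h4
        · exact ⟨_, by rw [Nat.cast_succ, ← add_assoc]; exact h4⟩
        · exact ⟨_, by rw [Nat.cast_succ, ← add_assoc]; exact h4⟩
    obtain ⟨i0, j0, h0⟩ := hz
    obtain ⟨i, hi⟩ : ∃ i, dt (b i) (v j) = 0 := by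
      obtain ⟨i, hi⟩ := hall (j - j0).val j0 ⟨i0, h0⟩
      refine ⟨i, ?_⟩
      rwa [ZMod.natCast_zmod_val, add_sub_cancel] at hi
    have hj2 : j + 2 = j + 1 + 1 := (by decide : ∀ j : ZMod 5, j + 2 = j + 1 + 1) j
    obtain ⟨c, hc, e⟩ := exists_smul_of_dt (hb0 i) (hv0 j) hi
    have hjj : j ≠ j + 2 := (by decide : ∀ j : ZMod 5, j ≠ j + 2) j
    have nb : dt (b i) (v (j + 2)) ≠ 0 := by
      intro h
      obtain ⟨c', hc', e'⟩ := exists_smul_of_dt (hb0 i) (hv0 (j + 2)) h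
      apply hv j (j + 2) hjj
      rw [e, e', dt_smul_left, dt_smul_right, dt_self]; ring
    rcases step i j hi with h4 | h4
    · rcases step _ _ h4 with h5 | h5
      · rw [← hj2] at h5
        obtain ⟨c', hc', e'⟩ := exists_smul_of_dt (hb0 _) (hv0 (j + 2)) h5
        rw [e, e', cv_smul_l, cv_smul_r, cv_symm]
        have h6 := h2 (i - 1 - 1)
        have h7 : i - 1 - 1 + 2 = i := (by decide : ∀ i : ZMod 5, i - 1 - 1 + 2 = i) i
        rw [h7] at h6
        rw [h6]; ring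
      · rw [← hj2] at h5
        have h7 : i - 1 + 1 = i := by ring
        rw [h7] at h5
        exact absurd h5 nb
    · rcases step _ _ h4 with h5 | h5
      · rw [← hj2] at h5
        have h7 : i + 1 - 1 = i := by ring
        rw [h7] at h5
        exact absurd h5 nb
      · rw [← hj2] at h5
        obtain ⟨c', hc', e'⟩ := exists_smul_of_dt (hb0 _) (hv0 (j + 2)) h5
        rw [e, e', cv_smul_l, cv_smul_r]
        have h6 := h2 i
        have h7 : i + 2 = i + 1 + 1 := (by decide : ∀ i : ZMod 5, i + 2 = i + 1 + 1) i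
        rw [h7] at h6
        rw [h6]; ring
  · push Not at hz
    have hG : ∀ j, Gf b (v j) ≠ 0 := fun j => Finset.prod_ne_zero_iff.2 fun i _ => hz i j
    obtain ⟨w, hw⟩ := exists_avoid b hb0
    have hGw : Gf b w ≠ 0 := Finset.prod_ne_zero_iff.2 fun i _ => hw i
    have hc := cyc b hb S S' hS h1 h2 w hw
    have hP : ∀ j, Ph S S' (v j) (v (j + 1)) = 0 := by
      intro j
      simp only [Ph]
      rw [h3]; ring
    have pr : ∀ j, Gf b (v j) * Ph S S' (v (j + 1)) w = Gf b (v (j + 1)) * Ph S S' (v j) w := by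
      intro j
      have h4 := hc (v j) (v (j + 1))
      rw [hP, Ph_anti S S' w (v j)] at h4
      linear_combination h4
    have hj2 : j + 2 = j + 1 + 1 := (by decide : ∀ j : ZMod 5, j + 2 = j + 1 + 1) j
    have pr2 : Gf b (v j) * Ph S S' (v (j + 2)) w = Gf b (v (j + 2)) * Ph S S' (v j) w := by
      have h4 := pr j
      have h5 := pr (j + 1)
      rw [← hj2] at h5
      apply mul_left_cancel₀ (hG (j + 1))
      linear_combination Gf b (v (j + 2)) * h4 + Gf b (v j) * h5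
    have h6 : Ph S S' (v j) (v (j + 2)) = 0 := by
      have h4 := hc (v j) (v (j + 2))
      rw [Ph_anti S S' w (v j)] at h4
      have h5 : Gf b w * Ph S S' (v j) (v (j + 2)) = 0 := by linear_combination h4 - pr2
      exact (mul_eq_zero.1 h5).resolve_left hGw
    have hjj : j ≠ j + 2 := (by decide : ∀ j : ZMod 5, j ≠ j + 2) j
    simp only [Ph] at h6
    rcases mul_eq_zero.1 h6 with h7 | h7
    · rcases mul_eq_zero.1 h7 with h8 | h8
      · exact absurd h8 (hv _ _ hjj)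
      · exfalso
        have e1 : cv S (v j) (v (j - 1)) = 0 := by
          rw [cv_symm]
          have := h3 (j - 1)
          rwa [sub_add_cancel] at this
        have n1 : j - 1 ≠ j + 1 := (by decide : ∀ j : ZMod 5, j - 1 ≠ j + 1) j
        obtain ⟨κ, hκ⟩ := cv_factor S (v j) (v (j - 1)) (v (j + 1)) (hv _ _ n1) e1 (h3 j)
        rw [hκ] at h8
        have n2 : j - 1 ≠ j + 2 := (by decide : ∀ j : ZMod 5, j - 1 ≠ j + 2) j
        have n3 : j + 1 ≠ j + 2 := (by decide : ∀ j : ZMod 5, j + 1 ≠ j + 2) j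
        have hκ0 : κ = 0 := (mul_eq_zero.1 h8).resolve_right (mul_ne_zero (hv _ _ n2) (hv _ _ n3))
        obtain ⟨κ', hκ'0, hκ'⟩ := conic_row b hb S hS h1 0
        have h9 := hκ (b 0)
        rw [hκ0, zero_mul, cv_symm, hκ'] at h9
        exact mul_ne_zero hκ'0 (mul_ne_zero (hz _ _) (hz _ _)) h9
    · exact h7

end HJ
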