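import Pool.Agent.H95.HJ.SpecV

/-!
Module Idl (project HJ, helper95).  Rational equivalence is compatible with adding a constant point.
PROOF.  ratZero_add: it suffices (AddSubgroup.closure_induction; mapDomain is additive) to treat c with IsPrincipal H c,
and by induction on the multiset s (Finsupp.mapDomain_comp) the case s = {P} = {⟨i₀, p₀⟩}.  Let (K, J, i, T, f) be the data of c.  Take
J' = Option J, i' none = i₀, T' none = t₀.bc K where t₀ is a representative of p₀ (exists_mk'), i' (some j) = i j, T' (some j) = T j, the same f.
To check for every multiset s':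
  (mapDomain (· + {P}) c) s' = finsum over the places w with (exists p', Spec w (T' j) (p' j) for all j, s' = map ...) of ord_w f.
If P is not in s' both sides are 0 (Finsupp.mapDomain_notin_range; the condition fails because p' none = p₀ by spec_bc).  If s' = s'' + {P}:
the left side is c s'' (Finsupp.mapDomain_apply, injectivity of (· + {P})), and the condition for s' is equivalent to the condition for s''
(Fintype.univ_option / Multiset.map over univ of Option J = P ::ₘ map over J; p' none = p₀).  finsum_congr.
-/

namespace HJ

open ZC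
open scoped Classical

variable {k : Type} [Field k] [IsAlgClosed k] [CharZero k] {ι : Type} {n : ι → ℕ}
  {H : ∀ i, Hyp k (n i)}

omit [IsAlgClosed k] [CharZero k] in
private theorem idl_inj (P : Pts H) :
    Function.Injective (fun t : Multiset (Pts H) => t + {P}) := by
  intro a b h
  exact add_right_cancel h

private theorem idl_univ {J : Type} [Fintype J] {α : Type} (g : Option J → α) :
    (Finset.univ : Finset (Option J)).val.map g =
      (Finset.univ : Finset J).val.map (fun j => g (some j)) + {g none} := by
  have h : (Finset.univ : Finset (Option J)).val =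
      none ::ₘ (Finset.univ : Finset J).val.map some := rfl
  rw [h, Multiset.map_cons, Multiset.map_map, add_comm, Multiset.singleton_add]
  rfl

private theorem idl_princ (P : Pts H) {c : Cyc H} (hc : IsPrincipal H c) :
    IsPrincipal H (Finsupp.mapDomain (fun t => t + {P}) c) := by
  obtain ⟨K, iK, iA, hK, J, iJ, i, T, f, hf, h⟩ := hc
  obtain ⟨i₀, p₀⟩ := P
  obtain ⟨t₀, rfl⟩ := exists_mk' p₀
  refine ⟨K, iK, iA, hK, Option J, inferInstance, fun j => Option.elim j i₀ i,
    fun j => Option.rec (motive := fun j => (H (Option.elim j i₀ i)).Tri K) (t₀.bc K) T j,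
    f, hf, fun s' => ?_⟩
  have key : ∀ w : Place k K,
      (∃ p : ∀ j : Option J, (H (Option.elim j i₀ i)).Pt,
        (∀ j, Spec w (Option.rec (motive := fun j => (H (Option.elim j i₀ i)).Tri K)
          (t₀.bc K) T j) (p j)) ∧
        s' = (Finset.univ : Finset (Option J)).val.map
          (fun j => (⟨Option.elim j i₀ i, p j⟩ : Pts H))) ↔
      (∃ p : ∀ j, (H (i j)).Pt, (∀ j, Spec w (T j) (p j)) ∧
        s' = (Finset.univ : Finset J).val.map (fun j => (⟨i j, p j⟩ : Pts H)) +
          {(⟨i₀, t₀.mk'⟩ : Pts H)}) := by
    intro w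
    constructor
    · rintro ⟨p, hp, hs⟩
      refine ⟨fun j => p (some j), fun j => hp (some j), ?_⟩
      rw [hs, idl_univ]
      have h0 : p none = t₀.mk' := (spec_bc hK w t₀ (p none)).1 (hp none)
      congr 2
      exact congrArg (fun q => (⟨i₀, q⟩ : Pts H)) h0
    · rintro ⟨p, hp, hs⟩
      refine ⟨fun j => Option.rec (motive := fun j => (H (Option.elim j i₀ i)).Pt) t₀.mk' p j,
        ?_, ?_⟩
      · intro j
        cases j with
        | none => exact (spec_bc hK w t₀ t₀.mk').2 rfl
        | some j => exact hp j
      · rw [hs, idl_univ]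
        rfl
  rw [finsum_congr fun w => finsum_congr_Prop (by exact propext (key w)) fun _ => rfl]
  by_cases hs : ∃ s'', s'' + {(⟨i₀, t₀.mk'⟩ : Pts H)} = s'
  · obtain ⟨s'', rfl⟩ := hs
    rw [Finsupp.mapDomain_apply (idl_inj (⟨i₀, t₀.mk'⟩ : Pts H)), h s'']
    refine finsum_congr fun w => finsum_congr_Prop (propext ?_) fun _ => rfl
    constructor
    · rintro ⟨p, hp, hs⟩
      exact ⟨p, hp, by rw [hs]⟩
    · rintro ⟨p, hp, hs⟩
      exact ⟨p, hp, add_right_cancel hs⟩
  · rw [Finsupp.mapDomain_of_notMem_range]
    · symm
      apply finsum_eq_zero_of_forall_eq_zero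
      intro w
      refine @finsum_of_isEmpty _ _ _ ⟨?_⟩ _
      rintro ⟨p, hp, hs'⟩
      exact absurd ⟨_, hs'.symm⟩ hs
    · rintro ⟨s'', hs''⟩
      exact hs ⟨s'', hs''⟩

private theorem idl_single (P : Pts H) {c : Cyc H} (hc : c ∈ ratZero H) :
    Finsupp.mapDomain (fun t => t + {P}) c ∈ ratZero H := by
  unfold ratZero at hc
  induction hc using AddSubgroup.closure_induction with
  | mem x hx => exact AddSubgroup.subset_closure (idl_princ P hx)
  | zero => rw [Finsupp.mapDomain_zero]; exact (ratZero H).zero_mem
  | add x y _ _ hx hy => rw [Finsupp.mapDomain_add]; exact (ratZero H).add_mem hx hy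
  | neg x _ hx =>
    have h : Finsupp.mapDomain (fun t => t + {P}) (-x) =
        -Finsupp.mapDomain (fun t => t + {P}) x := by
      exact map_neg (Finsupp.mapDomain.addMonoidHom (fun t : Multiset (Pts H) => t + {P})) x
    rw [h]
    exact (ratZero H).neg_mem hx

theorem ratZero_add (s : Multiset (Pts H)) {c : Cyc H} (hc : c ∈ ratZero H) :
    Finsupp.mapDomain (fun t => t + s) c ∈ ratZero H := by
  induction s using Multiset.induction_on with
  | empty =>
    simp only [add_zero]
    have h : Finsupp.mapDomain (fun t : Multiset (Pts H) => t) c = c := Finsupp.mapDomain_id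
    rw [h]
    exact hc
  | cons P s ih =>
    have h := idl_single P ih
    rw [← Finsupp.mapDomain_comp] at h
    have h2 : ((fun t : Multiset (Pts H) => t + {P}) ∘ fun t => t + s) =
        fun t => t + (P ::ₘ s) := by
      funext t
      simp only [Function.comp]
      rw [← Multiset.singleton_add, add_assoc, add_comm s]
    rw [h2] at h
    exact h

end HJ
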