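import Pool.Agent.H95.HJ.Fib2
import Pool.Agent.H95.HJ.FFq

/-!
Module KumL (project HJ part 2, helper95).  e_P e_Q is torsion if {P, Q} lies on a rational curve of the Kummer surface.
DATA.  K a function field, z transcendental, σ in K, q in k[X]^3, T = (V, y) in C(K), V' in K^2 with qv (q(σ)) v = dt V v * dt V' v for all v; s, t points of C
with s.y, t.y ≠ 0 and q_(s₀)(v) = c dt s.v v * dt t.v v (c ≠ 0), q_(s₁) ≠ 0 and q_(s₁)(r_a) = 0; σ ≡ s₀ at the zeros of z, σ ≡ s₁ at the poles of z;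
Y in K with Y^2 = prod_i qv (q(σ)) (cst (r_i)) and Y ≡ Y₀ at the zeros of z, Y₀ in k.
PROOF of core.  F(V) F(V') = prod_i dt(r_i,V) dt(r_i,V') = Y^2 (two signs cancel; r_i constant), Y ≠ 0 (Y₀ ≠ 0: Y₀^2 = c^(2n) s.y^2 t.y^2), so
y ≠ 0 and T' = (V', Y / y) is in C(K).  fib_tors with T, T'.
Zero w of z: by Spec.exists there are e, e' with e V ≡ a ≠ 0, e' V' ≡ a' ≠ 0 (representatives of the values), e e' q_σ(v) ≡ dt a v * dt a' v for constant v,
q_σ(v) ≡ q_(s₀)(v); both forms are nonzero, so e e' ≡ κ ≠ 0 (a constant; res_const / compare at a v with q_(s₀)(v) ≠ 0) and κ c dt s.v v dt t.v v = dt a v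
dt a' v for all v in k^2.  So (a, a') = (μ s.v, μ' t.v) or (μ t.v, μ' s.v), μ μ' = κ c.  Rescale (spec_lift): values t₁, t₂ of T, T' with t₁.v = s.v, t₂.v = t.v
(or exchanged) and t₁.y t₂.y ≡ (e/μ)^n y (e'/μ')^n Y/y = (e e'/(μ μ'))^n Y ≡ Y₀ / c^n =: m, m^2 = s.y^2 t.y^2, m = ε s.y t.y, ε = ± 1 the same for all w.
With Q_ε = Q or inv Q the cycle pr p q + pr (inv p) (inv q) is pr P Q_ε + pr (inv P) (inv Q_ε) in all cases (pr_comm, inv_inv').
Pole w of z: the same computation shows κ q_(s₁)(v) = dt a v dt a' v, so dt a r_a = 0 or dt a' r_a = 0: the value of T or of T' is the Weierstrass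
point W = (r_a, 0); weier_tors compares with the fixed cycle pr W R + pr W (inv R), R = W.  Conclusion by ep_of_weier: Tors (ep P Q_ε); ep_inv_right.
PROOF of kum_linked.  s.y = 0 or t.y = 0: ep_left, ep_right (inv_eq_of_y).  Otherwise prod_i q_(z₀)(r_i) ≠ 0, so g(z₀), h(z₀) ≠ 0.  There is s₁ with
g(s₁)^2 h(s₁) = 0, and h(s₁) = 0 or h constant: if h is not constant take a root of h; otherwise g is not constant (if all q_z(r_i) are constant then so
are the q j: three of the r_i are pairwise independent) and s₁ a root of g.  (If h = c (s - ρ)^2 take s₁ = ρ.)  prod_i q_(s₁)(r_i) = 0 gives a.  exists_sigma (s₀ = z₀), exists_quad,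
Y = g(σ) y_h, where y_h^2 = h(σ); Y ≡ Y₀ because Y^2 ≡ constant: Y has a value ± Y₀; NOTE the sign may depend on the place w, unless y_h is the fixed
rational function of z of exists_sigma and all places with w.v z < 1 restrict to the same place of k(z): use instead that Y₀ := residue of Y exists
for one place and that Y is in the image φ of RatFunc k: an element φ y with y in RatFunc k, regular at 0, is ≡ y(0) (RatFunc num / denom) at every zero of
φ X.  (Lemma ratfunc_cong below.)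
-/

namespace HJ

open ZC Polynomial
open scoped Classical

variable {k : Type} [Field k] [IsAlgClosed k] [CharZero k]

section cong

variable {k K : Type} [Field k] [Field K] [Algebra k K]

/-- Congruence of a function and a constant at a place. -/
private def Cg (w : Place k K) (x : K) (a : k) : Prop := w.v (x - algebraMap k K a) < 1

private theorem cg_const (w : Place k K) (a : k) : Cg w (algebraMap k K a) a := by
  unfold Cg
  rw [sub_self, map_zero]
  exact zero_lt_one

private theorem const_le (w : Place k K) (a : k) : w.v (algebraMap k K a) ≤ 1 := by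
  by_cases ha : a = 0
  · rw [ha, map_zero, map_zero]
    exact zero_le_one
  · rw [w.triv a ha]

private theorem cg_le {w : Place k K} {x : K} {a : k} (h : Cg w x a) : w.v x ≤ 1 := by
  have h1 : x = (x - algebraMap k K a) + algebraMap k K a := by ring
  rw [h1]
  exact (w.v.map_add _ _).trans (max_le (le_of_lt h) (const_le w a))

private theorem cg_add {w : Place k K} {x y : K} {a b : k} (h : Cg w x a) (h' : Cg w y b) :
    Cg w (x + y) (a + b) := by
  unfold Cg
  have h1 : x + y - algebraMap k K (a + b) = (x - algebraMap k K a) + (y - algebraMap k K b) := by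
    rw [map_add]; ring
  rw [h1]
  exact w.v.map_add_lt h h'

private theorem cg_neg {w : Place k K} {x : K} {a : k} (h : Cg w x a) : Cg w (-x) (-a) := by
  unfold Cg
  have h1 : -x - algebraMap k K (-a) = -(x - algebraMap k K a) := by
    rw [map_neg]; ring
  rw [h1, Valuation.map_neg]
  exact h

private theorem cg_mul {w : Place k K} {x y : K} {a b : k} (h : Cg w x a) (h' : Cg w y b) :
    Cg w (x * y) (a * b) := by
  unfold Cg
  have h1 : x * y - algebraMap k K (a * b) =
      (x - algebraMap k K a) * y + algebraMap k K a * (y - algebraMap k K b) := by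
    rw [map_mul]; ring
  rw [h1]
  refine w.v.map_add_lt ?_ ?_
  · rw [map_mul]
    exact mul_lt_one_of_lt_of_le h (cg_le h')
  · rw [map_mul, mul_comm]
    exact mul_lt_one_of_lt_of_le h' (const_le w a)

private theorem cg_pow {w : Place k K} {x : K} {a : k} (h : Cg w x a) (m : ℕ) :
    Cg w (x ^ m) (a ^ m) := by
  induction m with
  | zero =>
    rw [pow_zero, pow_zero]
    have := cg_const w (1 : k)
    rwa [map_one] at this
  | succ m ih =>
    rw [pow_succ, pow_succ]
    exact cg_mul ih h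

private theorem cg_unique {w : Place k K} {x : K} {a b : k} (h : Cg w x a) (h' : Cg w x b) :
    a = b := by
  by_contra hne
  have h1 : w.v (algebraMap k K (a - b)) = 1 := w.triv _ (sub_ne_zero.2 hne)
  have h2 : algebraMap k K (a - b) = (x - algebraMap k K b) + -(x - algebraMap k K a) := by
    rw [map_sub]; ring
  have h3 : w.v (algebraMap k K (a - b)) < 1 := by
    rw [h2]
    refine w.v.map_add_lt h' ?_
    rw [Valuation.map_neg]
    exact h
  rw [h1] at h3
  exact lt_irrefl _ h3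

private theorem cg_prod {w : Place k K} {α : Type} (S : Finset α) {f : α → K} {g : α → k}
    (h : ∀ a ∈ S, Cg w (f a) (g a)) : Cg w (∏ a ∈ S, f a) (∏ a ∈ S, g a) := by
  induction S using Finset.induction_on with
  | empty =>
    rw [Finset.prod_empty, Finset.prod_empty]
    have := cg_const w (1 : k)
    rwa [map_one] at this
  | insert a S ha ih =>
    rw [Finset.prod_insert ha, Finset.prod_insert ha]
    exact cg_mul (h a (Finset.mem_insert_self a S))
      (ih fun b hb => h b (Finset.mem_insert_of_mem hb))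

private theorem cg_small {w : Place k K} {x : K} (h : w.v x < 1) : Cg w x 0 := by
  unfold Cg
  rw [map_zero, sub_zero]
  exact h

private theorem cg_one {w : Place k K} {x : K} {a : k} (ha : a ≠ 0) (h : Cg w x a) :
    w.v x = 1 := by
  refine le_antisymm (cg_le h) ?_
  by_contra hlt
  push Not at hlt
  have h1 := cg_unique (cg_small hlt) h
  exact ha h1.symm

/-- the inverse of a function congruent to a nonzero constant -/
private theorem cg_inv {w : Place k K} {x : K} {a : k} (ha : a ≠ 0) (h : Cg w x a) :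
    Cg w x⁻¹ a⁻¹ := by
  have ha' : algebraMap k K a ≠ 0 := by rwa [Ne, map_eq_zero]
  have hx : w.v x = 1 := cg_one ha h
  have hx0 : x ≠ 0 := by
    rintro rfl
    rw [map_zero] at hx
    exact zero_ne_one hx
  unfold Cg
  have h1 : x⁻¹ - algebraMap k K a⁻¹ = -((x - algebraMap k K a) * (x⁻¹ * (algebraMap k K a)⁻¹)) := by
    rw [map_inv₀]
    field_simp
    ring
  rw [h1, Valuation.map_neg, map_mul, map_mul, map_inv₀, map_inv₀, hx, w.triv a ha, inv_one, mul_one,
    mul_one]
  exact h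

/-- a polynomial in a function with a value -/
private theorem cg_aeval {w : Place k K} {x : K} {a : k} (h : Cg w x a) (P : k[X]) :
    Cg w (aeval x P) (P.eval a) := by
  induction P using Polynomial.induction_on' with
  | add p q hp hq =>
    rw [map_add, eval_add]
    exact cg_add hp hq
  | monomial m c =>
    rw [aeval_monomial, eval_monomial]
    exact cg_mul (cg_const w c) (cg_pow h m)

private theorem cg_qv {w : Place k K} {x : K} {a : k} (h : Cg w x a) (q : Fin 3 → k[X])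
    (v : Fin 2 → k) :
    Cg w (qv (fun j => aeval x (q j)) (cst K v)) (qv (fun j => (q j).eval a) v) := by
  unfold qv cst
  exact cg_add (cg_add (cg_mul (cg_aeval h _) (cg_pow (cg_const w _) 2))
    (cg_mul (cg_aeval h _) (cg_mul (cg_const w _) (cg_const w _))))
    (cg_mul (cg_aeval h _) (cg_pow (cg_const w _) 2))

end cong

section lin

variable {k : Type} [Field k]

private theorem exists_dt_ne {a : Fin 2 → k} (ha : a ≠ 0) : ∃ v : Fin 2 → k, dt a v ≠ 0 := by
  obtain ⟨j, hj⟩ := Function.ne_iff.1 ha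
  fin_cases j
  · refine ⟨![0, 1], ?_⟩
    simpa [dt] using hj
  · refine ⟨![1, 0], ?_⟩
    simpa [dt] using hj

private theorem exists_dt_ne2 {a b : Fin 2 → k} (ha : a ≠ 0) (hb : b ≠ 0) :
    ∃ v : Fin 2 → k, dt a v ≠ 0 ∧ dt b v ≠ 0 := by
  by_cases h : dt a b = 0
  · obtain ⟨c, hc, rfl⟩ := exists_smul_of_dt ha hb h
    obtain ⟨v, hv⟩ := exists_dt_ne ha
    refine ⟨v, hv, ?_⟩
    rw [dt_smul_left]
    exact mul_ne_zero hc hv
  · refine ⟨a + b, ?_, ?_⟩
    · rw [dt_add_right, dt_self, zero_add]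
      exact h
    · rw [dt_add_right, dt_self, add_zero, dt_comm]
      exact neg_ne_zero.2 h

/-- a nonzero binary quadratic form has a nonzero value -/
private theorem exists_qv_ne {q : Fin 3 → k} (hq : q ≠ 0) : ∃ v : Fin 2 → k, qv q v ≠ 0 := by
  by_contra hcon
  push Not at hcon
  have h0 := hcon ![1, 0]
  have h2 := hcon ![0, 1]
  have h1 := hcon ![1, 1]
  simp [qv] at h0 h1 h2
  rw [h0, h2] at h1
  apply hq
  funext j
  fin_cases j
  · exact h0
  · simpa using h1
  · exact h2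

/-- a binary quadratic form with three different zeros vanishes -/
private theorem qv_three {q : Fin 3 → k} {u v w : Fin 2 → k} (h1 : dt u v ≠ 0) (h2 : dt u w ≠ 0)
    (h3 : dt v w ≠ 0) (hu : qv q u = 0) (hv : qv q v = 0) (hw : qv q w = 0) : q = 0 := by
  by_contra hq
  obtain ⟨x, hx⟩ := exists_qv_ne hq
  have key : qv q x * (dt u v * dt u w * dt v w) = qv q u * (dt x v * dt x w * dt v w) -
      qv q v * (dt x u * dt x w * dt u w) + qv q w * (dt x u * dt x v * dt u v) := by
    simp only [qv, dt]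
    ring
  rw [hu, hv, hw] at key
  have : qv q x * (dt u v * dt u w * dt v w) = 0 := by rw [key]; ring
  exact mul_ne_zero hx (mul_ne_zero (mul_ne_zero h1 h2) h3) this

/-- comparison of two factorisations of a quadratic form -/
private theorem fac_unique {a a' s t : Fin 2 → k} {c : k} (hs : s ≠ 0)
    (h : ∀ v, c * (dt s v * dt t v) = dt a v * dt a' v) {μ : k} (ha : a = μ • s) (hμ : μ ≠ 0) :
    μ • a' = c • t := by
  obtain ⟨v, hv⟩ := exists_dt_ne hs
  have k1 : ∀ v, dt s v ≠ 0 → dt (μ • a' - c • t) v = 0 := by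
    intro v hv
    have h1 := h v
    rw [ha, dt_smul_left] at h1
    have h2 : dt s v * dt (μ • a' - c • t) v = 0 := by
      rw [dt_sub_left, dt_smul_left, dt_smul_left]
      linear_combination -h1
    exact (mul_eq_zero.1 h2).resolve_left hv
  have k2 := k1 v hv
  have k3 := k1 (v + s) (by rw [dt_add_right, dt_self, add_zero]; exact hv)
  rw [dt_add_right, k2, zero_add] at k3
  have k4 := dt_cramer s v (μ • a' - c • t)
  rw [k2, zero_smul, zero_add, dt_comm s (μ • a' - c • t), k3, neg_zero, zero_smul] at k4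
  exact sub_eq_zero.1 ((smul_eq_zero.1 k4).resolve_left hv)

end lin

/-- The value of a rational function of `z` at a zero of `z`. -/
theorem ratfunc_cong (y : RatFunc k) : ∃ c : k, ∀ (K : Type) (_ : Field K) (_ : Algebra k K)
    (φ : RatFunc k →ₐ[k] K) (w : Place k K), w.v (φ RatFunc.X) < 1 →
      (w.v (φ y) ≤ 1 → w.v (φ y - algebraMap k K c) < 1) := by
  refine ⟨y.num.eval 0 * (y.denom.eval 0)⁻¹, ?_⟩
  intro K _ _ φ w hw hy
  have hX : Cg w (φ RatFunc.X) 0 := cg_small hw
  have hae : ∀ A : k[X], φ (algebraMap k[X] (RatFunc k) A) = aeval (φ RatFunc.X) A := by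
    intro A
    rw [← RatFunc.aeval_X_left_eq_algebraMap, ← aeval_algHom_apply]
  have hn := cg_aeval hX y.num
  have hd := cg_aeval hX y.denom
  rw [← hae] at hn hd
  have hden : φ (algebraMap k[X] (RatFunc k) y.denom) ≠ 0 := by
    rw [Ne, map_eq_zero]
    exact RatFunc.algebraMap_ne_zero (RatFunc.denom_ne_zero y)
  have hyd : φ y * φ (algebraMap k[X] (RatFunc k) y.denom) =
      φ (algebraMap k[X] (RatFunc k) y.num) := by
    rw [← map_mul]
    congr 1
    have h1 := RatFunc.num_div_denom y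
    have h2 : algebraMap k[X] (RatFunc k) y.denom ≠ 0 :=
      RatFunc.algebraMap_ne_zero (RatFunc.denom_ne_zero y)
    exact (div_eq_iff h2).1 h1 |>.symm
  by_cases h0 : y.denom.eval 0 = 0
  · exfalso
    have hn0 : y.num.eval 0 ≠ 0 := by
      intro hn0
      have hco := RatFunc.isCoprime_num_denom y
      obtain ⟨A, B, hAB⟩ := hco
      have := congrArg (Polynomial.eval 0) hAB
      rw [eval_add, eval_mul, eval_mul, hn0, h0, mul_zero, mul_zero, add_zero, eval_one] at this
      exact zero_ne_one this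
    have h1 := cg_one hn0 hn
    rw [h0] at hd
    have h2 : w.v (φ (algebraMap k[X] (RatFunc k) y.denom)) < 1 := by
      have := hd
      unfold Cg at this
      rwa [map_zero, sub_zero] at this
    rw [← hyd, map_mul] at h1
    have h3 : w.v (φ y) * w.v (φ (algebraMap k[X] (RatFunc k) y.denom)) < 1 :=
      mul_lt_one_of_nonneg_of_lt_one_right hy zero_le h2
    rw [h1] at h3
    exact lt_irrefl _ h3
  · have h1 := cg_mul hn (cg_inv h0 hd)
    rw [← hyd, mul_inv_cancel_right₀ hden] at h1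
    exact h1

variable {ι : Type} {n : ι → ℕ} {H : ∀ i, Hyp k (n i)}

omit [IsAlgClosed k] [CharZero k] in
private theorem tri_sign {m : ℕ} {H : Hyp k m} (s t : H.Tri k) (h : t.v = s.v) :
    (t.y = s.y ∧ t.mk' = s.mk') ∨ (t.y = -s.y ∧ t.mk' = s.mk'.inv) := by
  have h2 : t.y ^ 2 = s.y ^ 2 := by rw [t.eq, s.eq, h]
  rcases sq_eq_sq_iff_eq_or_eq_neg.1 h2 with h3 | h3
  · left
    refine ⟨h3, ?_⟩
    exact ((mk'_eq_iff _ _).2 ⟨1, one_ne_zero, by rw [one_smul, h], by rw [one_pow, one_mul, h3]⟩).symm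
  · right
    refine ⟨h3, ?_⟩
    rw [← mk'_neg]
    exact ((mk'_eq_iff _ _).2 ⟨1, one_ne_zero, by rw [one_smul, h]; rfl,
      by rw [one_pow, one_mul, h3]; rfl⟩).symm

omit [IsAlgClosed k] [CharZero k] in
private theorem cong_scale {K : Type} [Field K] [Algebra k K] (w : Place k K) (μ : k) (e : K)
    {u : Fin 2 → K} {a b : Fin 2 → k} (h : Cong w (e • u) a) (hb : b = μ • a) :
    Cong w ((algebraMap k K μ * e) • u) b := by
  intro j
  have h1 : Cg w ((e • u) j) (a j) := h j
  have h2 := cg_mul (cg_const w μ) h1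
  rw [hb, mul_smul, Pi.smul_apply, smul_eq_mul, Pi.smul_apply, smul_eq_mul]
  exact h2

/-- The values of `T` and `T'` at a zero of `z`. -/
private theorem zero_val {K : Type} [Field K] [Algebra k K] (hK : IsFunctionField k K) {m : ℕ}
    {C : Hyp k m} (w : Place k K) (T T' : C.Tri K) (s t : C.Tri k) (hs : s.y ≠ 0) (ht : t.y ≠ 0)
    (c κ Y₀ : k) (hc : c ≠ 0) (hκ : κ ≠ 0) (Y : K) (hY : T.y * T'.y = Y) (hY0 : Cg w Y Y₀)
    (hst : s.y * t.y * c ^ m = Y₀) (e e' : K) (a a' : Fin 2 → k) (ha : a ≠ 0)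
    (he : Cong w (e • T.v) a) (he' : Cong w (e' • T'.v) a') (hee : Cg w (e * e') κ)
    (hid : ∀ v, κ * c * (dt s.v v * dt t.v v) = dt a v * dt a' v) (has : dt s.v a = 0)
    (p q : C.Pt) (hp : Spec w T p) (hq : Spec w T' q) :
    (p = s.mk' ∧ q = t.mk') ∨ (p = s.mk'.inv ∧ q = t.mk'.inv) := by
  obtain ⟨μ, hμ, hμs⟩ := exists_smul_of_dt s.ne ha has
  have hfac := fac_unique s.ne hid hμs hμ
  have hκc : κ * c ≠ 0 := mul_ne_zero hκ hc
  have e1 : s.v = μ⁻¹ • a := by rw [hμs, smul_smul, inv_mul_cancel₀ hμ, one_smul]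
  have e2 : t.v = (μ * (κ * c)⁻¹) • a' := by
    rw [mul_comm, mul_smul, hfac, smul_smul, inv_mul_cancel₀ hκc, one_smul]
  obtain ⟨t₁, h1, h2, h3⟩ := spec_lift hK w T _ s.v s.ne (cong_scale w μ⁻¹ e he e1)
  obtain ⟨t₂, g1, g2, g3⟩ := spec_lift hK w T' _ t.v t.ne
    (cong_scale w (μ * (κ * c)⁻¹) e' he' e2)
  have hp' := Spec.unique hK w T hp h3
  have hq' := Spec.unique hK w T' hq g3
  have k1 : Cg w ((algebraMap k K μ⁻¹ * e) ^ m * T.y *
      ((algebraMap k K (μ * (κ * c)⁻¹) * e') ^ m * T'.y)) (t₁.y * t₂.y) := cg_mul h2 g2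
  have k2 : (algebraMap k K μ⁻¹ * e) ^ m * T.y *
      ((algebraMap k K (μ * (κ * c)⁻¹) * e') ^ m * T'.y) =
      (algebraMap k K (κ * c)⁻¹ * (e * e')) ^ m * Y := by
    have h5 : algebraMap k K μ⁻¹ * algebraMap k K (μ * (κ * c)⁻¹) = algebraMap k K (κ * c)⁻¹ := by
      rw [← map_mul, ← mul_assoc, inv_mul_cancel₀ hμ, one_mul]
    rw [← h5, ← hY, mul_pow, mul_pow, mul_pow, mul_pow, mul_pow]
    ring
  rw [k2] at k1
  have k3 : Cg w ((algebraMap k K (κ * c)⁻¹ * (e * e')) ^ m * Y) (((κ * c)⁻¹ * κ) ^ m * Y₀) :=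
    cg_mul (cg_pow (cg_mul (cg_const w _) hee) m) hY0
  have k4 : t₁.y * t₂.y = s.y * t.y := by
    rw [cg_unique k1 k3, ← hst]
    have h5 : (κ * c)⁻¹ * κ = c⁻¹ := by
      field_simp
    rw [h5, inv_pow]
    have h6 : c ^ m ≠ 0 := pow_ne_zero m hc
    field_simp
  rcases tri_sign s t₁ h1 with ⟨f1, f2⟩ | ⟨f1, f2⟩
  · left
    refine ⟨hp'.trans f2, hq'.trans ?_⟩
    rw [f1] at k4
    have f3 : t₂.y = t.y := mul_left_cancel₀ hs k4
    rcases tri_sign t t₂ g1 with ⟨_, f5⟩ | ⟨f5, _⟩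
    · exact f5
    · exfalso
      rw [f3] at f5
      have : (2 : k) * t.y = 0 := by linear_combination f5
      exact ht ((mul_eq_zero.1 this).resolve_left two_ne_zero)
  · right
    refine ⟨hp'.trans f2, hq'.trans ?_⟩
    rw [f1] at k4
    have f3 : t₂.y = -t.y := by
      have : s.y * t₂.y = s.y * (-t.y) := by linear_combination -k4
      exact mul_left_cancel₀ hs this
    rcases tri_sign t t₂ g1 with ⟨f5, _⟩ | ⟨_, f5⟩
    · exfalso
      rw [f3] at f5
      have : (2 : k) * t.y = 0 := by linear_combination -f5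
      exact ht ((mul_eq_zero.1 this).resolve_left two_ne_zero)
    · exact f5

omit [IsAlgClosed k] [CharZero k] in
/-- A nonzero factor comparison at a place: `e e'` has a value. -/
private theorem kappa {K : Type} [Field K] [Algebra k K] (w : Place k K)
    (hres : ∀ u : K, w.v u ≤ 1 → ∃ c : k, w.v (u - algebraMap k K c) < 1)
    {V V' : Fin 2 → K} {σ : K} {s₀ : k} (hσ : Cg w σ s₀) (q : Fin 3 → k[X])
    (hq : ∀ v : Fin 2 → K, qv (fun j => aeval σ (q j)) v = dt V v * dt V' v)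
    (hq0 : (fun j => (q j).eval s₀) ≠ 0) {e e' : K} {a a' : Fin 2 → k} (ha : a ≠ 0) (ha' : a' ≠ 0)
    (he : Cong w (e • V) a) (he' : Cong w (e' • V') a')
    (hdt : ∀ {u u' : Fin 2 → K} {a a' : Fin 2 → k}, Cong w u a → Cong w u' a' →
      w.v (dt u u' - algebraMap k K (dt a a')) < 1) :
    ∃ κ : k, κ ≠ 0 ∧ Cg w (e * e') κ ∧
      ∀ v, κ * qv (fun j => (q j).eval s₀) v = dt a v * dt a' v := by
  have key : ∀ v : Fin 2 → k, Cg w ((e * e') * qv (fun j => aeval σ (q j)) (cst K v))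
      (dt a v * dt a' v) := by
    intro v
    have h1 : (e * e') * qv (fun j => aeval σ (q j)) (cst K v) =
        dt (e • V) (cst K v) * dt (e' • V') (cst K v) := by
      rw [hq, dt_smul_left, dt_smul_left]
      ring
    rw [h1]
    exact cg_mul (hdt he (fun j => cg_const w (v j))) (hdt he' (fun j => cg_const w (v j)))
  obtain ⟨v₀, hv₀⟩ := exists_qv_ne hq0
  have h1 := cg_qv hσ q v₀
  have h2 := cg_one hv₀ h1
  have h3 : w.v (e * e') ≤ 1 := by
    have h4 := cg_le (key v₀)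
    rwa [map_mul, h2, mul_one] at h4
  obtain ⟨κ, hκ⟩ := hres _ h3
  have h5 : ∀ v, κ * qv (fun j => (q j).eval s₀) v = dt a v * dt a' v := by
    intro v
    exact cg_unique (cg_mul hκ (cg_qv hσ q v)) (key v)
  refine ⟨κ, ?_, hκ, h5⟩
  rintro rfl
  obtain ⟨v, hv, hv'⟩ := exists_dt_ne2 ha ha'
  have h6 := h5 v
  rw [zero_mul] at h6
  exact mul_ne_zero hv hv' h6.symm

theorem core {K : Type} [Field K] [Algebra k K] (hK : IsFunctionField k K) (z σ Y : K)
    (hz : Transcendental k z) (i : ι) (q : Fin 3 → k[X]) (T : (H i).Tri K) (V' : Fin 2 → K)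
    (hV' : V' ≠ 0)
    (hq : ∀ v : Fin 2 → K, qv (fun j => aeval σ (q j)) v = dt T.v v * dt V' v)
    (s t : (H i).Tri k) (hs : s.y ≠ 0) (ht : t.y ≠ 0) (s₀ s₁ Y₀ c : k) (hc : c ≠ 0)
    (hq0 : ∀ v : Fin 2 → k, qv (fun j => (q j).eval s₀) v = c * (dt s.v v * dt t.v v))
    (hq1 : (fun j => (q j).eval s₁) ≠ 0) (a : Fin (2 * n i))
    (ha : qv (fun j => (q j).eval s₁) ((H i).r a) = 0)
    (hσ0 : ∀ w : Place k K, w.v z < 1 → w.v (σ - algebraMap k K s₀) < 1)
    (hσ1 : ∀ w : Place k K, 1 < w.v z → w.v (σ - algebraMap k K s₁) < 1)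
    (hY : Y ^ 2 = ∏ l, qv (fun j => aeval σ (q j)) (cst K ((H i).r l)))
    (hY0 : ∀ w : Place k K, w.v z < 1 → w.v (Y - algebraMap k K Y₀) < 1) :
    Tors H (ep (⟨i, s.mk'⟩ : Pts H) ⟨i, t.mk'⟩) := by
  obtain ⟨N, hN, -, -, s0, -⟩ := deg_zero hK z hz
  obtain ⟨w₀, hw₀⟩ : ∃ w : Place k K, w.v z < 1 := by
    by_contra hcon
    push Not at hcon
    have h1 : (∑ᶠ (w : Place k K) (_ : w.v z < 1), w.ord z) = 0 := by
      rw [← finsum_zero (α := Place k K)]
      refine finsum_congr fun w => ?_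
      rw [finsum_eq_if, if_neg (not_lt.2 (hcon w))]
    rw [h1] at s0
    omega
  -- the constant `Y₀`
  have hYY : Y₀ ^ 2 = (c ^ (n i)) ^ 2 * (s.y ^ 2 * t.y ^ 2) := by
    have h1 : Cg w₀ (Y ^ 2) (∏ l, qv (fun j => (q j).eval s₀) ((H i).r l)) := by
      rw [hY]
      exact cg_prod _ fun l _ => cg_qv (hσ0 w₀ hw₀) q _
    have h2 : Cg w₀ (Y ^ 2) (Y₀ ^ 2) := cg_pow (hY0 w₀ hw₀) 2
    rw [cg_unique h2 h1, s.eq, t.eq, Hyp.F_def, Hyp.F_def]
    have h3 : ∀ l ∈ (Finset.univ : Finset (Fin (2 * n i))),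
        qv (fun j => (q j).eval s₀) ((H i).r l) =
        c * (dt (cst k ((H i).r l)) s.v * dt (cst k ((H i).r l)) t.v) := by
      intro l _
      rw [hq0, cst_self, dt_comm s.v, dt_comm t.v]
      ring
    rw [Finset.prod_congr rfl h3, Finset.prod_mul_distrib, Finset.prod_mul_distrib,
      Finset.prod_const, Finset.card_univ, Fintype.card_fin, ← pow_mul, mul_comm (n i) 2]
  have hY₀ : Y₀ ≠ 0 := by
    rintro rfl
    have h1 : (c ^ (n i)) ^ 2 * (s.y ^ 2 * t.y ^ 2) ≠ 0 :=
      mul_ne_zero (pow_ne_zero _ (pow_ne_zero _ hc)) (mul_ne_zero (pow_ne_zero _ hs)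
        (pow_ne_zero _ ht))
    exact h1 (by rw [← hYY]; ring)
  have hYne : Y ≠ 0 := by
    rintro rfl
    have h1 := cg_one hY₀ (hY0 w₀ hw₀)
    rw [map_zero] at h1
    exact zero_ne_one h1
  have hFF : Y ^ 2 = (H i).F T.v * (H i).F V' := by
    rw [hY, Hyp.F_def, Hyp.F_def, ← Finset.prod_mul_distrib]
    refine Finset.prod_congr rfl fun l _ => ?_
    rw [hq, dt_comm T.v, dt_comm V']
    ring
  have hTy : T.y ≠ 0 := by
    intro h0
    rw [← T.eq, h0] at hFF
    exact hYne (pow_eq_zero_iff two_ne_zero |>.1 (by rw [hFF]; ring))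
  let T' : (H i).Tri K := ⟨V', Y / T.y, hV', by
    rw [div_pow, hFF, T.eq]
    have : (H i).F T.v ≠ 0 := by rw [← T.eq]; exact pow_ne_zero _ hTy
    field_simp⟩
  have hTT : T.y * T'.y = Y := by
    change T.y * (Y / T.y) = Y
    field_simp
  -- the sign
  obtain ⟨t', ht'v, ht'y, ht'p, ht's⟩ : ∃ t' : (H i).Tri k, t'.v = t.v ∧ t'.y ≠ 0 ∧
      (t'.mk' = t.mk' ∨ t'.mk' = t.mk'.inv) ∧ s.y * t'.y * c ^ (n i) = Y₀ := by
    have h1 : Y₀ ^ 2 = (s.y * t.y * c ^ (n i)) ^ 2 := by rw [hYY]; ring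
    rcases sq_eq_sq_iff_eq_or_eq_neg.1 h1 with h2 | h2
    · exact ⟨t, rfl, ht, Or.inl rfl, h2.symm⟩
    · refine ⟨t.neg, rfl, ?_, Or.inr (mk'_neg t), ?_⟩
      · exact neg_ne_zero.2 ht
      · rw [h2]
        change s.y * (-t.y) * c ^ (n i) = _
        ring
  have hq0' : ∀ v : Fin 2 → k, qv (fun j => (q j).eval s₀) v = c * (dt s.v v * dt t'.v v) := by
    intro v
    rw [hq0, ht'v]
  have hq0ne : (fun j => (q j).eval s₀) ≠ 0 := by
    intro h0
    obtain ⟨v, hv, hv'⟩ := exists_dt_ne2 s.ne t.ne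
    have h1 := hq0 v
    rw [h0] at h1
    have h2 : qv (0 : Fin 3 → k) v = 0 := by simp [qv]
    rw [h2] at h1
    exact mul_ne_zero hc (mul_ne_zero hv hv') h1.symm
  -- the branch point
  have hFa : (H i).F ((H i).r a) = 0 := by
    rw [← cst_self ((H i).r a), Hyp.F_def]
    exact Finset.prod_eq_zero (Finset.mem_univ a) (dt_self _)
  let ω : (H i).Tri k := ⟨(H i).r a, 0, (H i).r_ne a, by rw [hFa]; norm_num⟩
  have hω : inv (⟨i, ω.mk'⟩ : Pts H) = ⟨i, ω.mk'⟩ := inv_eq_of_y ω rfl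
  -- the values
  have hrep : ∀ (w : Place k K) (T : (H i).Tri K) (p : (H i).Pt), Spec w T p →
      ∃ (e : K) (t0 : (H i).Tri k), t0.mk' = p ∧ Cong w (e • T.v) t0.v := by
    intro w T p hp
    obtain ⟨e, t0, h1, h2, -⟩ := hp
    exact ⟨e, t0, h1, h2⟩
  have hfin : Tors H ((pr (⟨i, s.mk'⟩ : Pts H) ⟨i, t'.mk'⟩ +
      pr (inv (⟨i, s.mk'⟩ : Pts H)) (inv ⟨i, t'.mk'⟩)) -
      (pr (⟨i, ω.mk'⟩ : Pts H) ⟨i, ω.mk'⟩ + pr (⟨i, ω.mk'⟩ : Pts H) (inv ⟨i, ω.mk'⟩))) := by
    refine fib_tors hK z hz T T' _ _ ?_ ?_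
    · intro w hw p p' hp hp'
      obtain ⟨e, t0, -, he⟩ := hrep w T p hp
      obtain ⟨e', t0', -, he'⟩ := hrep w T' p' hp'
      obtain ⟨κ, hκ, hee, hid⟩ := kappa w (fun u hu => res_const hK w u hu) (hσ0 w hw) q hq hq0ne
        t0.ne t0'.ne he he' (fun h h' => dt_cong w h h')
      have hid' : ∀ v, κ * c * (dt s.v v * dt t'.v v) = dt t0.v v * dt t0'.v v := by
        intro v
        rw [← hid v, hq0']
        ring
      have h1 := hid' s.v
      rw [dt_self, zero_mul, mul_zero] at h1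
      have hgoal : pr (⟨i, p⟩ : Pts H) ⟨i, p'⟩ + pr (inv (⟨i, p⟩ : Pts H)) (inv ⟨i, p'⟩) =
          pr (⟨i, s.mk'⟩ : Pts H) ⟨i, t'.mk'⟩ +
            pr (inv (⟨i, s.mk'⟩ : Pts H)) (inv ⟨i, t'.mk'⟩) := by
        have f1 : ∀ x : (H i).Pt, (⟨i, x.inv⟩ : Pts H) = inv ⟨i, x⟩ := fun x => rfl
        rcases mul_eq_zero.1 h1.symm with h2 | h2
        · rcases zero_val hK w T T' s t' hs ht'y c κ Y₀ hc hκ Y hTT (hY0 w hw) ht's e e' t0.v
            t0'.v t0.ne he he' hee hid' (by rw [dt_comm, h2, neg_zero]) p p' hp hp' with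
            ⟨h3, h4⟩ | ⟨h3, h4⟩
          · rw [h3, h4]
          · rw [h3, h4, f1, f1, inv_inv', inv_inv', add_comm]
        · rcases zero_val hK w T' T s t' hs ht'y c κ Y₀ hc hκ Y (by rw [mul_comm]; exact hTT)
            (hY0 w hw) ht's e' e t0'.v t0.v t0'.ne he' he (by rw [mul_comm]; exact hee)
            (fun v => by rw [hid' v, mul_comm]) (by rw [dt_comm, h2, neg_zero]) p' p hp' hp with
            ⟨h3, h4⟩ | ⟨h3, h4⟩
          · rw [h3, h4, pr_comm, pr_comm (inv _) (inv _)]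
          · rw [h3, h4, f1, f1, inv_inv', inv_inv', add_comm, pr_comm, pr_comm (inv _) (inv _)]
      rw [hgoal, sub_self]
      exact tors_zero
    · intro w hw p p' hp hp'
      obtain ⟨e, t0, h0, he⟩ := hrep w T p hp
      obtain ⟨e', t0', h0', he'⟩ := hrep w T' p' hp'
      obtain ⟨κ, hκ, hee, hid⟩ := kappa w (fun u hu => res_const hK w u hu) (hσ1 w hw) q hq hq1
        t0.ne t0'.ne he he' (fun h h' => dt_cong w h h')
      have h1 := hid ((H i).r a)
      rw [ha, mul_zero] at h1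
      have hW : ∀ t0 : (H i).Tri k, dt t0.v ((H i).r a) = 0 →
          inv (⟨i, t0.mk'⟩ : Pts H) = ⟨i, t0.mk'⟩ := by
        intro t0 h2
        refine inv_eq_of_y t0 ?_
        have h3 : t0.y ^ 2 = 0 := by
          rw [t0.eq, Hyp.F_def]
          refine Finset.prod_eq_zero (Finset.mem_univ a) ?_
          rw [cst_self, dt_comm, h2, neg_zero]
        exact pow_eq_zero_iff two_ne_zero |>.1 h3
      rcases mul_eq_zero.1 h1.symm with h2 | h2
      · have h3 := hW t0 h2
        rw [h0] at h3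
        rw [h3]
        exact weier_tors _ _ _ _ h3 hω (Or.inl ⟨rfl, rfl⟩)
      · have h3 := hW t0' h2
        rw [h0'] at h3
        rw [h3, pr_comm, pr_comm (inv _) _]
        exact weier_tors _ _ _ _ h3 hω (Or.inl ⟨rfl, rfl⟩)
  have hep := ep_of_weier (⟨i, s.mk'⟩ : Pts H) ⟨i, t'.mk'⟩ ⟨i, ω.mk'⟩ ⟨i, ω.mk'⟩ hω
    (Or.inl ⟨rfl, rfl⟩) hfin
  rcases ht'p with h1 | h1
  · rwa [h1] at hep
  · rw [h1] at hep
    have f1 : (⟨i, t.mk'.inv⟩ : Pts H) = inv ⟨i, t.mk'⟩ := rfl
    rw [f1, ep_inv_right] at hep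
    have h2 := hep.neg
    rwa [neg_neg] at h2


theorem kum_linked (i : ι) (P Q : (H i).Pt) (h : KumLinked P Q) :
    Tors H (ep (⟨i, P⟩ : Pts H) ⟨i, Q⟩) := by
  obtain ⟨q, g, h, z₀, s, t, hsP, htQ, hq1, hq2, hh, hprod, c, hc, hq0⟩ := h
  obtain rfl : s.mk' = P := hsP
  obtain rfl : t.mk' = Q := htQ
  by_cases hsy : s.y = 0
  · rw [ep_left _ _ (inv_eq_of_y s hsy)]
    exact tors_zero
  by_cases hty : t.y = 0
  · rw [ep_right _ _ (inv_eq_of_y t hty)]
    exact tors_zero
  -- evaluation of the product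
  have hev : ∀ x : k, (g.eval x) ^ 2 * h.eval x =
      ∏ l, qv (fun j => (q j).eval x) ((H i).r l) := by
    intro x
    rw [← eval_pow, ← eval_mul, ← hprod, eval_prod]
    refine Finset.prod_congr rfl fun l _ => ?_
    simp only [qv, eval_add, eval_mul, eval_pow, eval_C]
  have hz₀ : (g.eval z₀) ^ 2 * h.eval z₀ ≠ 0 := by
    rw [hev z₀]
    have h3 : ∀ l ∈ (Finset.univ : Finset (Fin (2 * n i))),
        qv (fun j => (q j).eval z₀) ((H i).r l) =
        c * (dt (cst k ((H i).r l)) s.v * dt (cst k ((H i).r l)) t.v) := by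
      intro l _
      rw [hq0, cst_self, dt_comm s.v, dt_comm t.v]
      ring
    rw [Finset.prod_congr rfl h3, Finset.prod_mul_distrib, Finset.prod_mul_distrib,
      Finset.prod_const, ← Hyp.F_def, ← Hyp.F_def, ← s.eq, ← t.eq]
    exact mul_ne_zero (pow_ne_zero _ hc) (mul_ne_zero (pow_ne_zero _ hsy) (pow_ne_zero _ hty))
  have hg0 : g.eval z₀ ≠ 0 := by
    intro h0
    rw [h0] at hz₀
    exact hz₀ (by ring)
  have hh0 : h.eval z₀ ≠ 0 := by
    intro h0
    rw [h0] at hz₀
    exact hz₀ (by ring)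
  obtain ⟨s₁, hs₁, hs₁g⟩ : ∃ s₁ : k, (h.eval s₁ = 0 ∨ h.natDegree = 0) ∧
      (g.eval s₁) ^ 2 * h.eval s₁ = 0 := by
    by_cases hdeg : h.natDegree = 0
    · by_cases hgdeg : g.natDegree = 0
      · exfalso
        -- all values of `q` at branch points are constant
        have hne : ∀ l, qv q (fun j => C ((H i).r l j)) ≠ 0 := by
          intro l h0
          have h1 : ∏ l, qv q (fun j => C ((H i).r l j)) = 0 :=
            Finset.prod_eq_zero (Finset.mem_univ l) h0
          rw [hprod] at h1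
          have h2 := congrArg (Polynomial.eval z₀) h1
          rw [eval_mul, eval_pow, eval_zero] at h2
          exact hz₀ h2
        have hsum : ∑ l, (qv q (fun j => C ((H i).r l j))).natDegree = 0 := by
          rw [← natDegree_prod _ _ fun l _ => hne l, hprod]
          have hg' : g ≠ 0 := by
            rintro rfl
            exact hg0 (eval_zero)
          have hh' : h ≠ 0 := by
            rintro rfl
            exact hh0 (eval_zero)
          rw [natDegree_mul (pow_ne_zero 2 hg') hh', natDegree_pow, hgdeg, hdeg]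
        have hdl : ∀ l, (qv q (fun j => C ((H i).r l j))).natDegree = 0 := fun l =>
          Finset.sum_eq_zero_iff.1 hsum l (Finset.mem_univ l)
        obtain ⟨j, hj⟩ := hq2
        apply hj
        rw [natDegree_eq_zero_iff_degree_le_zero, degree_le_zero_iff]
        ext m
        rw [coeff_C]
        split_ifs with hm
        · rw [hm]
        · have h2 := (H i).two_le
          have hcz : ∀ l, qv (fun j => (q j).coeff m) ((H i).r l) = 0 := by
            intro l
            have h3 : (qv q (fun j => C ((H i).r l j))).coeff m =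
                qv (fun j => (q j).coeff m) ((H i).r l) := by
              simp only [qv, coeff_add, ← C_pow, ← C_mul, coeff_mul_C]
            rw [← h3]
            exact coeff_eq_zero_of_natDegree_lt (by rw [hdl l]; omega)
          have h4 := qv_three ((H i).indep ⟨0, by omega⟩ ⟨1, by omega⟩ (by simp))
            ((H i).indep ⟨0, by omega⟩ ⟨2, by omega⟩ (by simp))
            ((H i).indep ⟨1, by omega⟩ ⟨2, by omega⟩ (by simp)) (hcz _) (hcz _) (hcz _)
          exact congrFun h4 j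
      · obtain ⟨s₁, hs₁⟩ := IsAlgClosed.exists_root g (by
          intro h0
          exact hgdeg (natDegree_eq_zero_iff_degree_le_zero.2 h0.le))
        refine ⟨s₁, Or.inr hdeg, ?_⟩
        rw [IsRoot.def.1 hs₁]
        ring
    · obtain ⟨s₁, hs₁⟩ := IsAlgClosed.exists_root h (by
        intro h0
        exact hdeg (natDegree_eq_zero_iff_degree_le_zero.2 h0.le))
      refine ⟨s₁, Or.inl (IsRoot.def.1 hs₁), ?_⟩
      rw [IsRoot.def.1 hs₁]
      ring
  have hne : z₀ ≠ s₁ := by
    rintro rfl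
    exact hz₀ hs₁g
  obtain ⟨a, ha⟩ : ∃ a : Fin (2 * n i), qv (fun j => (q j).eval s₁) ((H i).r a) = 0 := by
    rw [hev s₁] at hs₁g
    obtain ⟨a, -, ha⟩ := Finset.prod_eq_zero_iff.1 hs₁g
    exact ⟨a, ha⟩
  obtain ⟨σ, y, hy, hσ, hpl⟩ := exists_sigma h hh z₀ s₁ hne hh0 hs₁
  have hqne : q ≠ 0 := by
    rintro rfl
    apply hq1 z₀
    funext j
    simp
  obtain ⟨K, _, _, φ, T, V', hK, hz, hV', hqv⟩ := exists_quad (H i) q hqne σ hσ
  obtain ⟨Y₀, hY₀⟩ := ratfunc_cong (aeval σ g * y)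
  have hYsq : (φ (aeval σ g * y)) ^ 2 =
      ∏ l, qv (fun j => aeval (φ σ) (q j)) (cst K ((H i).r l)) := by
    have h1 : (aeval σ g * y) ^ 2 = aeval σ (g ^ 2 * h) := by
      rw [mul_pow, hy, map_mul, map_pow]
    rw [← map_pow, h1, ← hprod, ← aeval_algHom_apply, map_prod]
    refine Finset.prod_congr rfl fun l _ => ?_
    simp only [qv, cst, map_add, map_mul, map_pow, aeval_C]
  have hpl' := hpl K _ _ φ
  refine core hK (φ RatFunc.X) (φ σ) (φ (aeval σ g * y)) hz i q T V' hV' hqv s t hsy hty z₀ s₁ Y₀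
    c hc hq0 (hq1 s₁) a ha (fun w hw => (hpl' w).1 hw) (fun w hw => (hpl' w).2 hw) hYsq ?_
  intro w hw
  refine hY₀ K _ _ φ w hw ?_
  have h1 : Cg w ((φ (aeval σ g * y)) ^ 2) (∏ l, qv (fun j => (q j).eval z₀) ((H i).r l)) := by
    rw [hYsq]
    exact cg_prod _ fun l _ => cg_qv ((hpl' w).1 hw) q _
  have h2 := cg_le h1
  rw [map_pow] at h2
  exact (pow_le_one_iff_of_nonneg zero_le two_ne_zero).1 h2

end HJ
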