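import Pool.Agent.H95.HJ.Fib
import Pool.Agent.H95.HJ.FF

/-!
Module LemB (project HJ, helper95).  The class of [P] + [w P] does not depend on P; isomorphisms of curves.
PROOFS.
* line_vals: s, t with dt s.v t.v <> 0, T over K with T.v j = s.v j - z * t.v j (exists_curve with V j = C (s.v j) - X * C (t.v j)).  If
  w.v z < 1: Cong w (1 • T.v) s.v, so by spec_lift, Spec.unique and eq_or_inv the value p of T is s.mk' or s.mk'.inv.  If 1 < w.v z:
  Cong w ((-z⁻¹) • T.v) t.v, so the value is t.mk' or t.mk'.inv.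
* ksum: s, t representatives of P, P'.  If dt s.v t.v = 0 the difference is 0 (eq_or_inv, Pt.inv_inv).  Otherwise fib_one with line_vals.
* tors_zero: N = 1.   tors_neg: obvious.
* inv_eq_of_y: a point with y = 0 is fixed by inv (mk'_eq_iff with c = 1).  ep_eq_zero: if inv P = P (or inv Q = Q) then ep P Q = 0.
* iso_full: s, t representatives with t.v = M s.v (exact_over: rescale).  F' (M v) = κ F(v) with a constant κ <> 0 (each
  M r_a = μ_a r'_(σ a), dt_mulVec, Equiv.prod_comp), κ = ρ^2.  If s.y = 0: ep_eq_zero.  Otherwise dt s.v r_0 <> 0 for the branch point r_0 = (H i).r ⟨0, _⟩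
  (Hyp.F_def: F(s.v) <> 0).  Let ω = (r_0, 0), T as in line_vals for (s, ω), T' = (M T.v, ρ T.y).  fib_pair with a = b = 1, c = d = -1.  w.v z < 1: the
  value p = t₁.mk' with t₁.v = s.v, T.y ≡ t₁.y; the value q of T' is (M s.v, ρ t₁.y).  If t₁.y = s.y: p = P, q = q₀ := (t.v, ρ s.y).mk'; if
  t₁.y = - s.y: p = inv P, q = inv q₀; in both cases the cycle is ep P q₀ (Pt.inv_inv).  1 < w.v z: p = ω, inv p = p, the cycle is 0.
  So Tors (ep P q₀), and q₀ = Q or inv Q (eq_or_inv), ep P (inv Q) = - ep P Q.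
-/

namespace HJ

open ZC
open scoped Classical

section tors

variable {k : Type} [Field k] {ι : Type} {n : ι → ℕ} {H : ∀ i, Hyp k (n i)}

theorem tors_zero : Tors H 0 := ⟨1, one_pos, by rw [smul_zero]; exact zero_mem _⟩

theorem Tors.neg {c : Cyc H} (h : Tors H c) : Tors H (-c) := by
  obtain ⟨N, hN, h⟩ := h
  exact ⟨N, hN, by rw [smul_neg]; exact neg_mem h⟩

theorem inv_inv' (P : Pts H) : inv (inv P) = P := by
  obtain ⟨i, p⟩ := P
  simp only [inv]
  rw [Pt.inv_inv]

theorem inv_eq_of_y {i : ι} (s : (H i).Tri k) (h : s.y = 0) :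
    inv (⟨i, s.mk'⟩ : Pts H) = ⟨i, s.mk'⟩ := by
  simp only [inv]
  congr 1
  rw [← mk'_neg, mk'_eq_iff]
  refine ⟨1, one_ne_zero, ?_, ?_⟩
  · simp [Hyp.Tri.neg]
  · simp [Hyp.Tri.neg, h]

theorem pr_comm (P Q : Pts H) : pr P Q = pr Q P := by
  unfold pr
  rw [Multiset.pair_comm]

theorem ep_left (P Q : Pts H) (h : inv P = P) : ep P Q = 0 := by
  unfold ep
  rw [h]
  abel

theorem ep_right (P Q : Pts H) (h : inv Q = Q) : ep P Q = 0 := by
  unfold ep
  rw [h]
  abel

theorem ep_inv_right (P Q : Pts H) : ep P (inv Q) = - ep P Q := by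
  unfold ep
  rw [inv_inv']
  abel

theorem ep_inv_inv (P Q : Pts H) : ep (inv P) (inv Q) = ep P Q := by
  unfold ep
  rw [inv_inv', inv_inv']
  abel

/-- Representatives adapted to `M`. -/
theorem exact_over {m m' : ℕ} {H : Hyp k m} {H' : Hyp k m'} {M : Matrix (Fin 2) (Fin 2) k}
    (hM : M.det ≠ 0) {P : H.Pt} {Q : H'.Pt} (h : Over M P Q) :
    ∃ (s : H.Tri k) (t : H'.Tri k), s.mk' = P ∧ t.mk' = Q ∧ t.v = M.mulVec s.v := by
  obtain ⟨s, t, hs, ht, hst⟩ := h
  obtain ⟨c, hc, hct⟩ := exists_smul_of_dt (mulVec_ne_zero hM s.ne) t.ne hst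
  refine ⟨s.smul c hc, t, ?_, ht, ?_⟩
  · rw [mk'_smul]; exact hs
  · rw [hct]
    exact (Matrix.mulVec_smul M c s.v).symm

end tors

variable {k : Type} [Field k] [IsAlgClosed k] [CharZero k] {ι : Type} {n : ι → ℕ}
  {H : ∀ i, Hyp k (n i)}

omit [IsAlgClosed k] [CharZero k] in
private theorem LemB_const_le {K : Type} [Field K] [Algebra k K] (w : Place k K) (c : k) :
    w.v (algebraMap k K c) ≤ 1 := by
  by_cases hc : c = 0
  · rw [hc, map_zero, map_zero]; exact zero_le_one
  · rw [w.triv c hc]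

omit [IsAlgClosed k] [CharZero k] in
private theorem LemB_small {K : Type} [Field K] [Algebra k K] (w : Place k K) {z : K}
    (hz : w.v z < 1) (c : k) : w.v (z * algebraMap k K c) < 1 := by
  rw [map_mul]
  exact lt_of_le_of_lt (mul_le_of_le_one_right' (LemB_const_le w c)) hz

omit [IsAlgClosed k] [CharZero k] in
private theorem LemB_lo {m : ℕ} {H : Hyp k m} {K : Type} [Field K] [Algebra k K]
    (z : K) (s t : Fin 2 → k) (T : H.Tri K)
    (hT : ∀ j, T.v j = algebraMap k K (s j) - z * algebraMap k K (t j)) (w : Place k K)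
    (hz : w.v z < 1) : Cong w ((1 : K) • T.v) s := by
  intro j
  have h1 : ((1 : K) • T.v) j - algebraMap k K (s j) = -(z * algebraMap k K (t j)) := by
    rw [one_smul, hT]; ring
  rw [h1, Valuation.map_neg]
  exact LemB_small w hz _

omit [IsAlgClosed k] [CharZero k] in
private theorem LemB_hi {m : ℕ} {H : Hyp k m} {K : Type} [Field K] [Algebra k K]
    (z : K) (s t : Fin 2 → k) (T : H.Tri K)
    (hT : ∀ j, T.v j = algebraMap k K (s j) - z * algebraMap k K (t j)) (w : Place k K)
    (hz : 1 < w.v z) : Cong w ((-z⁻¹) • T.v) t := by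
  have hz0 : z ≠ 0 := by
    rintro rfl
    rw [map_zero] at hz
    exact absurd hz (not_lt.2 zero_le_one)
  intro j
  have h1 : ((-z⁻¹) • T.v) j - algebraMap k K (t j) = -(z⁻¹ * algebraMap k K (s j)) := by
    rw [Pi.smul_apply, smul_eq_mul, hT]
    field_simp
    ring
  rw [h1, Valuation.map_neg]
  refine LemB_small w ?_ _
  rw [map_inv₀]
  exact inv_lt_one_of_one_lt₀ hz

theorem line_vals {m : ℕ} {H : Hyp k m} {K : Type} [Field K] [Algebra k K]
    (hK : IsFunctionField k K) (z : K) (s t : H.Tri k) (T : H.Tri K)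
    (hT : ∀ j, T.v j = algebraMap k K (s.v j) - z * algebraMap k K (t.v j)) (w : Place k K)
    (p : H.Pt) (hp : Spec w T p) :
    (w.v z < 1 → p = s.mk' ∨ p = s.mk'.inv) ∧ (1 < w.v z → p = t.mk' ∨ p = t.mk'.inv) := by
  constructor
  · intro hz
    obtain ⟨t₁, h1, -, h3⟩ := spec_lift hK w T 1 s.v s.ne (LemB_lo z s.v t.v T hT w hz)
    rw [Spec.unique hK w T hp h3]
    exact eq_or_inv s t₁ (by rw [h1, dt_self])
  · intro hz
    obtain ⟨t₁, h1, -, h3⟩ := spec_lift hK w T (-z⁻¹) t.v t.ne (LemB_hi z s.v t.v T hT w hz)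
    rw [Spec.unique hK w T hp h3]
    exact eq_or_inv t t₁ (by rw [h1, dt_self])

private theorem LemB_line {m : ℕ} (H : Hyp k m) (s t : Fin 2 → k) (hs : s ≠ 0) :
    ∃ (K : Type) (_ : Field K) (_ : Algebra k K) (z : K) (T : H.Tri K), IsFunctionField k K ∧
      Transcendental k z ∧
      ∀ j, T.v j = algebraMap k K (s j) - z * algebraMap k K (t j) := by
  obtain ⟨K, i1, i2, z, T, hK, hz, hT⟩ := exists_curve H
    (fun j => Polynomial.C (s j) - Polynomial.X * Polynomial.C (t j)) (by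
      intro h
      apply hs
      funext j
      have h1 := congrArg (fun p => Polynomial.coeff p 0) (congrFun h j)
      simpa using h1)
  refine ⟨K, i1, i2, z, T, hK, hz, fun j => ?_⟩
  rw [hT j, map_sub, map_mul, Polynomial.aeval_C, Polynomial.aeval_X, Polynomial.aeval_C]

theorem ksum (i : ι) (P P' : (H i).Pt) :
    Tors H ((pt (⟨i, P⟩ : Pts H) + pt (inv ⟨i, P⟩)) - (pt (⟨i, P'⟩ : Pts H) + pt (inv ⟨i, P'⟩))) := by
  obtain ⟨s, rfl⟩ := exists_mk' P
  obtain ⟨t, rfl⟩ := exists_mk' P'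
  obtain ⟨K, i1, i2, z, T, hK, hz, hT⟩ := LemB_line (H i) s.v t.v s.ne
  refine fib_one hK z hz T _ _ ?_ ?_
  · intro w hw p hp
    rcases (line_vals hK z s t T hT w p hp).1 hw with h | h
    · rw [h]
    · rw [h]
      simp only [inv]
      rw [Pt.inv_inv, add_comm]
  · intro w hw p hp
    rcases (line_vals hK z s t T hT w p hp).2 hw with h | h
    · rw [h]
    · rw [h]
      simp only [inv]
      rw [Pt.inv_inv, add_comm]

omit [IsAlgClosed k] [CharZero k] in
/-- The form of the second curve on the image of `M`. -/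
private theorem LemB_kappa {m m' : ℕ} (H : Hyp k m) (H' : Hyp k m')
    (M : Matrix (Fin 2) (Fin 2) k) (hM : M.det ≠ 0) (σ : Fin (2 * m) ≃ Fin (2 * m'))
    (hσ : ∀ a, dt (M.mulVec (H.r a)) (H'.r (σ a)) = 0) :
    ∃ κ : k, ∀ {K : Type} [Field K] [Algebra k K] (v : Fin 2 → K),
      H'.F ((M.map (algebraMap k K)).mulVec v) = algebraMap k K κ * H.F v := by
  have h1 : ∀ a, ∃ c : k, c ≠ 0 ∧ H'.r (σ a) = c • M.mulVec (H.r a) := fun a =>
    exists_smul_of_dt (mulVec_ne_zero hM (H.r_ne a)) (H'.r_ne _) (hσ a)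
  choose c hc hc' using h1
  refine ⟨∏ a, c a * M.det, ?_⟩
  intro K _ _ v
  rw [Hyp.F_def, Hyp.F_def, ← Equiv.prod_comp σ, map_prod, ← Finset.prod_mul_distrib]
  refine Finset.prod_congr rfl fun a _ => ?_
  have h2 : cst K (H'.r (σ a)) =
      algebraMap k K (c a) • (M.map (algebraMap k K)).mulVec (cst K (H.r a)) := by
    rw [hc' a, ← cst_mulVec]
    funext j
    simp [cst]
  have h3 : (M.map (algebraMap k K)).det = algebraMap k K M.det := by
    rw [Matrix.det_fin_two, Matrix.det_fin_two]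
    simp
  rw [h2, dt_smul_left, dt_mulVec, h3, map_mul, mul_assoc]

theorem iso_full (i j : ι) (P : (H i).Pt) (Q : (H j).Pt) (M : Matrix (Fin 2) (Fin 2) k)
    (hM : M.det ≠ 0) (hO : Over M P Q) (σ : Fin (2 * n i) ≃ Fin (2 * n j))
    (hσ : ∀ a, dt (M.mulVec ((H i).r a)) ((H j).r (σ a)) = 0) :
    Tors H (ep (⟨i, P⟩ : Pts H) ⟨j, Q⟩) := by
  obtain ⟨s, t, rfl, rfl, hst⟩ := exact_over hM hO
  obtain ⟨κ, hκ⟩ := LemB_kappa (H i) (H j) M hM σ hσ
  obtain ⟨ρ, hρ⟩ := IsAlgClosed.exists_pow_nat_eq κ (n := 2) (by norm_num)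
  have h2 := (H i).two_le
  -- the point over the first branch point
  have hF0 : (H i).F ((H i).r ⟨0, by omega⟩) = 0 := by
    rw [← cst_self ((H i).r ⟨0, by omega⟩), Hyp.F_def]
    exact Finset.prod_eq_zero (Finset.mem_univ (⟨0, by omega⟩ : Fin (2 * n i))) (dt_self _)
  let ω : (H i).Tri k := ⟨(H i).r ⟨0, by omega⟩, 0, (H i).r_ne _, by
    rw [hF0]; norm_num⟩
  have hMs : M.map (algebraMap k k) = M := by
    ext a b; rfl
  -- the second point
  let q₀ : (H j).Tri k := ⟨t.v, ρ * s.y, t.ne, by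
    rw [hst]
    have h3 := hκ (K := k) s.v
    rw [hMs] at h3
    rw [h3, mul_pow, hρ, s.eq]
    rfl⟩
  obtain ⟨K, i1, i2, z, T, hK, hz, hT⟩ := LemB_line (H i) s.v ω.v s.ne
  have hdetK : (M.map (algebraMap k K)).det ≠ 0 := by
    have h3 : (M.map (algebraMap k K)).det = algebraMap k K M.det := by
      rw [Matrix.det_fin_two, Matrix.det_fin_two]
      simp
    rw [h3]
    simpa using hM
  let T' : (H j).Tri K := ⟨(M.map (algebraMap k K)).mulVec T.v, algebraMap k K ρ * T.y,
    mulVec_ne_zero hdetK T.ne, by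
      rw [hκ T.v, mul_pow, ← map_pow, hρ, T.eq]⟩
  have key : Tors H (ep (⟨i, s.mk'⟩ : Pts H) ⟨j, q₀.mk'⟩ - 0) := by
    refine fib_pair hK z hz T T' 1 1 (-1) (-1) _ _ ?_ ?_
    · intro w hw p q hp hq
      have hc := LemB_lo z s.v ω.v T hT w hw
      obtain ⟨t₁, ht1, ht2, ht3⟩ := spec_lift hK w T 1 s.v s.ne hc
      have hp' := Spec.unique hK w T hp ht3
      have hcM := mulVec_cong w M hc
      let t₂ : (H j).Tri k := ⟨t.v, ρ * t₁.y, t.ne, by
        rw [hst]
        have h3 := hκ (K := k) s.v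
        rw [hMs] at h3
        rw [h3, mul_pow, hρ, t₁.eq, ht1]
        rfl⟩
      have hq2 : Spec w T' t₂.mk' := by
        refine ⟨1, t₂, rfl, ?_, ?_⟩
        · intro l
          have h4 := hcM l
          rw [one_smul] at h4
          rw [one_mul]
          change w.v ((M.map (algebraMap k K)).mulVec T.v l - algebraMap k K (t.v l)) < 1
          rw [hst]
          exact h4
        · rw [one_pow, one_mul] at ht2 ⊢
          change w.v (algebraMap k K ρ * T.y - algebraMap k K (ρ * t₁.y)) < 1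
          rw [map_mul, ← mul_sub, mul_comm, map_mul]
          exact lt_of_le_of_lt (mul_le_of_le_one_right' (LemB_const_le w _)) ht2
      have hq' := Spec.unique hK w T' hq hq2
      have hy : t₁.y ^ 2 = s.y ^ 2 := by rw [t₁.eq, s.eq, ht1]
      rcases sq_eq_sq_iff_eq_or_eq_neg.1 hy with h3 | h3
      · have e1 : p = s.mk' := by
          rw [hp']
          exact ((mk'_eq_iff _ _).2 ⟨1, one_ne_zero, by rw [one_smul, ht1], by
            rw [one_pow, one_mul, h3]⟩)
        have e2 : q = q₀.mk' := by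
          rw [hq']
          refine ((mk'_eq_iff _ _).2 ⟨1, one_ne_zero, ?_, ?_⟩)
          · rw [one_smul]
          · rw [one_pow, one_mul]
            change ρ * s.y = ρ * t₁.y
            rw [h3]
        rw [e1, e2]
        unfold ep
        simp only [one_smul, neg_smul]
        abel
      · have e1 : p = s.mk'.inv := by
          rw [hp', ← mk'_neg]
          refine ((mk'_eq_iff _ _).2 ⟨1, one_ne_zero, ?_, ?_⟩)
          · rw [one_smul, ht1]; rfl
          · rw [one_pow, one_mul, h3]; rfl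
        have e2 : q = q₀.mk'.inv := by
          rw [hq', ← mk'_neg]
          refine ((mk'_eq_iff _ _).2 ⟨1, one_ne_zero, ?_, ?_⟩)
          · rw [one_smul]; rfl
          · rw [one_pow, one_mul]
            change -(ρ * s.y) = ρ * t₁.y
            rw [h3]; ring
        rw [e1, e2]
        unfold ep
        simp only [one_smul, neg_smul, inv, Pt.inv_inv]
        abel
    · intro w hw p q hp hq
      have h3 : inv (⟨i, p⟩ : Pts H) = ⟨i, p⟩ := by
        rcases (line_vals hK z s ω T hT w p hp).2 hw with h | h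
        · rw [h]
          exact inv_eq_of_y ω rfl
        · rw [h]
          have h4 := inv_eq_of_y (H := H) ω rfl
          have h5 : ω.mk'.inv = ω.mk' := by
            simp only [inv] at h4
            exact eq_of_heq (Sigma.mk.inj h4).2
          rw [h5]
          exact h4
      rw [h3]
      simp only [one_smul, neg_smul]
      abel
  rw [sub_zero] at key
  rcases eq_or_inv t q₀ (by
    change dt t.v t.v = 0
    exact dt_self _) with h | h
  · rw [← h]; exact key
  · have h4 : (⟨j, t.mk'⟩ : Pts H) = inv ⟨j, q₀.mk'⟩ := by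
      simp only [inv]
      rw [h, Pt.inv_inv]
    rw [h4, ep_inv_right]
    exact key.neg

end HJ
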