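import Pool.Agent.H95.HJ.LemB

/-!
Module LinkI (project HJ, helper95).  e_P e_Q is torsion if P and Q are linked by an involution that interchanges all but two of the branch
points in pairs.
PROOF.  Rescale M such that det M = -1 (M / δ, δ^2 = - det M); then M M v = v (mulVec_mulVec), dt(Mu,Mv) = -dt(u,v), dt(u,Mv) = dt(v,Mu).
s, t representatives, t.v = M s.v (exact_over), M t.v = s.v.  If s.y = 0 or t.y = 0: ep_left, ep_right.  β = r_(i₀), γ = r_(σ i₀).  If dt(M β, γ) = 0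
then (symmetry) M r_a is proportional to r_(σ a) for all a and iso_full applies.
G(v) = prod over a ≠ i₀, σ i₀ of dt(r_a, v); q_r(v) = dt(r,v) dt(r,Mv).  M r_a = μ_a r_(σ a), μ_a μ_(σ a) = 1, so prod μ_a = 1
(Finset.prod_involution) and G(M v) = prod dt(r_(σ a), M v) = prod μ_a⁻¹ dt(M r_a, M v) = G(v) (even number of factors); q_r(M v) = q_r(v).
F(v) = G(v) dt(β,v) dt(γ,v), F(v) F(Mv) = G(v)^2 q_β(v) q_γ(v).  All factors are nonzero at s.v.  u₀ = s.y t.y / (G(s.v) q_γ(s.v)), u₀^2 = q_β(s.v)/q_γ(s.v).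
Curve (exists_conic): (1-z)^2 q_β(T.v) = (u₀ (1+z))^2 q_γ(T.v), u = u₀ (1+z)/(1-z).  T.y <> 0: otherwise F(T.v) = 0, T.v = c r_a for
a constant vector r_a, (1-z)^2 q_β(r_a) = (u₀(1+z))^2 q_γ(r_a) with constants that are not both 0 (dt(β,γ), dt(β,Mγ) <> 0), so z algebraic.
T' = (M T.v, y'), y' = G(T.v) q_γ(T.v) u / T.y, y'^2 = F(M T.v).
fib_pair with a = b = 1, c = d = 0.  Place w with w.v z < 1 (Spec.exists): e T.v ≡ a, a <> 0, q_β(a) = u₀^2 q_γ(a), hence
q_β(a) q_γ(s.v) = q_β(s.v) q_γ(a), and by the identity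
  q_β(a) q_γ(b) - q_β(b) q_γ(a) = ± dt(a,b) dt(a,Mb) dt(β,γ) dt(β,Mγ)     (trace M = 0, det M = -1)
a is proportional to s.v or to M s.v = t.v.  Rescale e.  Case 1, e T.v ≡ s.v: spec_lift gives t₁.v = s.v for T, t₂.v = t.v for T', and
t₁.y t₂.y = G(s.v) q_γ(s.v) u₀ = s.y t.y: (p,q) = (P,Q) or (inv P, inv Q).  Case 2, e T.v ≡ t.v: t₁.v = t.v, t₂.v = M t.v = s.v,
t₁.y t₂.y = G(t.v) q_γ(t.v) u₀ = s.y t.y: (p,q) = (Q,P) or (inv Q, inv P) (pr_comm).  1 < w.v z: the same with u ≡ -u₀ (divide the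
equation by z^2), opposite signs.  The difference of the two cycles is ep P Q.
-/

namespace HJ

open ZC
open scoped Classical

section aux

variable {k : Type} [Field k] {n : ℕ}

/-- The product of the linear forms with indices in `A`. -/
private noncomputable def GG (H : Hyp k n) (A : Finset (Fin (2 * n))) {L : Type} [Field L]
    [Algebra k L] (v : Fin 2 → L) : L := ∏ a ∈ A, dt (cst L (H.r a)) v

/-- The action of the matrix `M` on vectors over `L`. -/
private def mm (M : Matrix (Fin 2) (Fin 2) k) {L : Type} [Field L] [Algebra k L]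
    (v : Fin 2 → L) : Fin 2 → L := (M.map (algebraMap k L)).mulVec v

/-- The quadratic form `det (r, v) det (r, M v)`. -/
private def qq (M : Matrix (Fin 2) (Fin 2) k) (r : Fin 2 → k) {L : Type} [Field L] [Algebra k L]
    (v : Fin 2 → L) : L := dt (cst L r) v * dt (cst L r) (mm M v)

variable {L : Type} [Field L] [Algebra k L]

private theorem mm_smul (M : Matrix (Fin 2) (Fin 2) k) (c : L) (v : Fin 2 → L) :
    mm M (c • v) = c • mm M v := by
  simp only [mm, Matrix.mulVec_smul]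

private theorem mm_cst (M : Matrix (Fin 2) (Fin 2) k) (v : Fin 2 → k) :
    mm M (cst L v) = cst L (M.mulVec v) := (cst_mulVec M v).symm

private theorem mm_self (M : Matrix (Fin 2) (Fin 2) k) (v : Fin 2 → k) :
    mm M v = M.mulVec v := rfl

private theorem det_map (M : Matrix (Fin 2) (Fin 2) k) :
    (M.map (algebraMap k L)).det = algebraMap k L M.det := by
  simp [Matrix.det_fin_two]

private theorem trace_map (M : Matrix (Fin 2) (Fin 2) k) (h : M.trace = 0) :
    (M.map (algebraMap k L)).trace = 0 := by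
  rw [Matrix.trace_fin_two] at h ⊢
  simp only [Matrix.map_apply]
  rw [← map_add, h, map_zero]

private theorem mm_mm (M : Matrix (Fin 2) (Fin 2) k) (hd : M.det = -1) (ht : M.trace = 0)
    (v : Fin 2 → L) : mm M (mm M v) = v := by
  rw [mm, mm, mulVec_mulVec _ (trace_map M ht), det_map, hd]
  simp

private theorem dt_mm (M : Matrix (Fin 2) (Fin 2) k) (hd : M.det = -1) (u v : Fin 2 → L) :
    dt (mm M u) (mm M v) = - dt u v := by
  rw [mm, mm, dt_mulVec, det_map, hd]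
  simp

private theorem dt_mm_symm (M : Matrix (Fin 2) (Fin 2) k) (ht : M.trace = 0) (u v : Fin 2 → L) :
    dt u (mm M v) = dt v (mm M u) := by
  rw [mm, mm, dt_mulVec_symm _ (trace_map M ht)]

private theorem GG_smul (H : Hyp k n) (A : Finset (Fin (2 * n))) (c : L) (v : Fin 2 → L) :
    GG H A (c • v) = c ^ A.card * GG H A v := by
  simp only [GG, dt_smul_right, Finset.prod_mul_distrib, Finset.prod_const]

private theorem GG_cst (H : Hyp k n) (A : Finset (Fin (2 * n))) (v : Fin 2 → k) :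
    GG H A (cst L v) = algebraMap k L (GG H A v) := by
  simp only [GG, dt_cst, map_prod]
  rfl

private theorem qq_smul (M : Matrix (Fin 2) (Fin 2) k) (r : Fin 2 → k) (c : L) (v : Fin 2 → L) :
    qq M r (c • v) = c ^ 2 * qq M r v := by
  simp only [qq, mm_smul, dt_smul_right]; ring

private theorem qq_cst (M : Matrix (Fin 2) (Fin 2) k) (r : Fin 2 → k) (v : Fin 2 → k) :
    qq M r (cst L v) = algebraMap k L (qq M r v) := by
  simp only [qq, mm_cst, dt_cst, map_mul]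
  rfl

private theorem qq_mm (M : Matrix (Fin 2) (Fin 2) k) (hd : M.det = -1) (ht : M.trace = 0)
    (r : Fin 2 → k) (v : Fin 2 → L) : qq M r (mm M v) = qq M r v := by
  rw [qq, qq, mm_mm M hd ht, mul_comm]

/-- The fundamental identity. -/
private theorem qq_ident (M : Matrix (Fin 2) (Fin 2) k) (ht : M.trace = 0)
    (β γ a b : Fin 2 → k) :
    qq M β a * qq M γ b - qq M β b * qq M γ a =
      dt a b * dt a (M.mulVec b) * dt β γ * dt β (M.mulVec γ) := by
  rw [Matrix.trace_fin_two] at ht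
  have h : M 1 1 = - M 0 0 := by linear_combination ht
  simp only [qq, mm_self, cst_self, dt, Matrix.mulVec, dotProduct, Fin.sum_univ_two, h]
  ring

private theorem GG_mm (H : Hyp k n) (M : Matrix (Fin 2) (Fin 2) k) (hd : M.det = -1)
    (ht : M.trace = 0) (σ : Equiv.Perm (Fin (2 * n))) (A : Finset (Fin (2 * n)))
    (hA : ∀ a ∈ A, σ a ∈ A) (hf : ∀ a, σ a ≠ a) (hi : ∀ a, σ (σ a) = a)
    (hr : ∀ a ∈ A, dt (M.mulVec (H.r a)) (H.r (σ a)) = 0) (v : Fin 2 → L) :
    GG H A (mm M v) = GG H A v := by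
  have hM : M.det ≠ 0 := by rw [hd]; exact neg_ne_zero.2 one_ne_zero
  -- the factors
  have h1 : ∀ a, ∃ μ : k, a ∈ A → μ ≠ 0 ∧ H.r (σ a) = μ • M.mulVec (H.r a) := by
    intro a
    by_cases ha : a ∈ A
    · obtain ⟨c, hc, h⟩ := exists_smul_of_dt (mulVec_ne_zero hM (H.r_ne a)) (H.r_ne (σ a)) (hr a ha)
      exact ⟨c, fun _ => ⟨hc, h⟩⟩
    · exact ⟨0, fun h => absurd h ha⟩
  choose μ hμ using h1
  have h2 : ∀ a ∈ A, μ a * μ (σ a) = 1 := by
    intro a ha
    have e1 := (hμ a ha).2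
    have e2 := (hμ (σ a) (hA a ha)).2
    rw [hi, e1, Matrix.mulVec_smul, mulVec_mulVec M ht, hd, smul_smul, smul_smul, neg_neg,
      mul_one] at e2
    have hne := H.r_ne a
    obtain ⟨j, hj⟩ := Function.ne_iff.1 hne
    have e3 := congrFun e2 j
    rw [Pi.smul_apply, smul_eq_mul] at e3
    have hj' : H.r a j ≠ 0 := hj
    have e4 : (μ (σ a) * μ a - 1) * H.r a j = 0 := by linear_combination - e3
    rcases mul_eq_zero.1 e4 with h | h
    · linear_combination h
    · exact absurd h hj'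
  have h3 : GG H A (mm M v) = ∏ a ∈ A, dt (cst L (H.r (σ a))) (mm M v) := by
    rw [GG]
    refine Finset.prod_nbij' (fun a => σ a) (fun a => σ a) hA hA (fun a _ => hi a)
      (fun a _ => hi a) (fun a _ => ?_)
    rw [hi]
  have h4 : ∀ a ∈ A, dt (cst L (H.r (σ a))) (mm M v) =
      algebraMap k L (-μ a) * dt (cst L (H.r a)) v := by
    intro a ha
    have e1 : cst L (H.r (σ a)) = algebraMap k L (μ a) • mm M (cst L (H.r a)) := by
      rw [(hμ a ha).2, mm_cst]
      funext j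
      simp [cst]
    rw [e1, dt_smul_left, dt_mm M hd, map_neg]
    ring
  rw [h3, Finset.prod_congr rfl h4, Finset.prod_mul_distrib, ← map_prod]
  have h5 : ∏ a ∈ A, (-μ a) = 1 := by
    refine Finset.prod_involution (fun a _ => σ a) (fun a ha => ?_) (fun a ha _ => hf a)
      (fun a ha => hA a ha) (fun a ha => hi a)
    rw [neg_mul_neg]
    exact h2 a ha
  rw [h5, map_one, one_mul, GG]

private theorem F_split (H : Hyp k n) (i₀ j₀ : Fin (2 * n)) (hij : j₀ ≠ i₀) (v : Fin 2 → L) :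
    H.F v = GG H ((Finset.univ.erase i₀).erase j₀) v * dt (cst L (H.r i₀)) v *
      dt (cst L (H.r j₀)) v := by
  rw [Hyp.F_def, GG, ← Finset.mul_prod_erase Finset.univ _ (Finset.mem_univ i₀),
    ← Finset.mul_prod_erase (Finset.univ.erase i₀) _
      (Finset.mem_erase.2 ⟨hij, Finset.mem_univ j₀⟩)]
  ring

end aux

section cong

variable {k K : Type} [Field k] [Field K] [Algebra k K]

/-- Congruence of a function and a constant at a place. -/
private def Cg (w : Place k K) (x : K) (c : k) : Prop := w.v (x - algebraMap k K c) < 1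

private theorem v_const (w : Place k K) (c : k) : w.v (algebraMap k K c) ≤ 1 := by
  by_cases hc : c = 0
  · rw [hc, map_zero, map_zero]; exact zero_le_one
  · rw [w.triv c hc]

private theorem Cg.le1 {w : Place k K} {x : K} {c : k} (h : Cg w x c) : w.v x ≤ 1 := by
  have e : x = (x - algebraMap k K c) + algebraMap k K c := by ring
  rw [e]
  exact (w.v.map_add _ _).trans (max_le (le_of_lt h) (v_const w c))

private theorem Cg.const (w : Place k K) (c : k) : Cg w (algebraMap k K c) c := by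
  rw [Cg, sub_self, map_zero]; exact zero_lt_one

private theorem Cg.mul {w : Place k K} {x y : K} {c d : k} (h : Cg w x c) (h' : Cg w y d) :
    Cg w (x * y) (c * d) := by
  have e : x * y - algebraMap k K (c * d) =
      (x - algebraMap k K c) * y + algebraMap k K c * (y - algebraMap k K d) := by
    rw [map_mul]; ring
  rw [Cg, e]
  refine Valuation.map_add_lt _ ?_ ?_
  · rw [map_mul]
    exact mul_lt_one_of_nonneg_of_lt_one_left zero_le h h'.le1
  · rw [map_mul]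
    exact mul_lt_one_of_nonneg_of_lt_one_right (v_const w c) zero_le h'

private theorem Cg.pow {w : Place k K} {x : K} {c : k} (h : Cg w x c) (m : ℕ) :
    Cg w (x ^ m) (c ^ m) := by
  induction m with
  | zero =>
    rw [pow_zero, pow_zero]
    have := Cg.const w (1 : k)
    rwa [map_one] at this
  | succ m ih =>
    rw [pow_succ, pow_succ]
    exact ih.mul h

private theorem Cg.unique {w : Place k K} {x : K} {c d : k} (h : Cg w x c) (h' : Cg w x d) :
    c = d := by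
  by_contra hne
  have h1 := w.triv (c - d) (sub_ne_zero.2 hne)
  have e : algebraMap k K (c - d) = (x - algebraMap k K d) - (x - algebraMap k K c) := by
    rw [map_sub]; ring
  rw [e] at h1
  exact absurd (Valuation.map_sub_lt _ h' h) (by rw [h1]; exact lt_irrefl _)

private theorem Cg.prod {w : Place k K} {ι : Type} (s : Finset ι) (f : ι → K) (g : ι → k)
    (h : ∀ a ∈ s, Cg w (f a) (g a)) : Cg w (∏ a ∈ s, f a) (∏ a ∈ s, g a) := by
  induction s using Finset.induction_on with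
  | empty =>
    rw [Finset.prod_empty, Finset.prod_empty]
    have := Cg.const w (1 : k)
    rwa [map_one] at this
  | insert a s ha ih =>
    rw [Finset.prod_insert ha, Finset.prod_insert ha]
    exact (h a (Finset.mem_insert_self a s)).mul
      (ih fun b hb => h b (Finset.mem_insert_of_mem hb))

private theorem cong_cst (w : Place k K) (r : Fin 2 → k) : Cong w (cst K r) r := fun j =>
  Cg.const w (r j)

end cong

section vals

variable {k K : Type} [Field k] [IsAlgClosed k] [CharZero k] [Field K] [Algebra k K] {n : ℕ}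
  {H : Hyp k n}

private theorem GG_cong (w : Place k K) (A : Finset (Fin (2 * n))) {u : Fin 2 → K} {a : Fin 2 → k}
    (h : Cong w u a) : Cg w (GG H A u) (GG H A a) :=
  Cg.prod A _ _ fun _ _ => dt_cong w (cong_cst w _) h

private theorem qq_cong (w : Place k K) (M : Matrix (Fin 2) (Fin 2) k) (r : Fin 2 → k)
    {u : Fin 2 → K} {a : Fin 2 → k} (h : Cong w u a) : Cg w (qq M r u) (qq M r a) :=
  Cg.mul (dt_cong w (cong_cst w _) h) (dt_cong w (cong_cst w _) (mulVec_cong w M h))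

omit [IsAlgClosed k] [CharZero k] in
private theorem cong_smul (w : Place k K) (e : k) {u : Fin 2 → K} {a : Fin 2 → k}
    (h : Cong w u a) : Cong w (algebraMap k K e • u) (e • a) := fun j =>
  (Cg.const w e).mul (h j)

private theorem vals_aux (hK : IsFunctionField k K) (w : Place k K) (M : Matrix (Fin 2) (Fin 2) k)
    (A : Finset (Fin (2 * n))) (hcard : A.card + 2 = n + n) (γ : Fin 2 → k) (e : k)
    (T T' : H.Tri K) (hT' : T'.v = mm M T.v) (u : K) (hu : Cg w u e)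
    (hyy : T.y * T'.y = GG H A T.v * qq M γ T.v * u) (p q : H.Pt) (hp : Spec w T p)
    (hq : Spec w T' q) (c : K) (b : Fin 2 → k) (hb : b ≠ 0) (hb' : M.mulVec b ≠ 0)
    (hc : Cong w (c • T.v) b) :
    ∃ t₁ t₂ : H.Tri k, p = t₁.mk' ∧ q = t₂.mk' ∧ t₁.v = b ∧ t₂.v = M.mulVec b ∧
      t₁.y * t₂.y = GG H A b * qq M γ b * e := by
  obtain ⟨t₁, h1, h2, h3⟩ := spec_lift hK w T c b hb hc
  have hc' : Cong w (c • T'.v) (M.mulVec b) := by
    rw [hT', ← mm_smul]
    exact mulVec_cong w M hc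
  obtain ⟨t₂, h4, h5, h6⟩ := spec_lift hK w T' c (M.mulVec b) hb' hc'
  refine ⟨t₁, t₂, Spec.unique hK w T hp h3, Spec.unique hK w T' hq h6, h1, h4, ?_⟩
  have e1 : Cg w (c ^ n * T.y * (c ^ n * T'.y)) (t₁.y * t₂.y) := Cg.mul h2 h5
  have e2 : Cg w (GG H A (c • T.v) * qq M γ (c • T.v) * u) (GG H A b * qq M γ b * e) :=
    ((GG_cong w A hc).mul (qq_cong w M γ hc)).mul hu
  have e3 : c ^ n * T.y * (c ^ n * T'.y) = GG H A (c • T.v) * qq M γ (c • T.v) * u := by
    rw [GG_smul, qq_smul]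
    have e4 : c ^ n * T.y * (c ^ n * T'.y) = c ^ (A.card + 2) * (T.y * T'.y) := by
      rw [hcard, pow_add]; ring
    rw [e4, hyy, pow_add]
    ring
  rw [e3] at e1
  exact e1.unique e2

private theorem vals (hK : IsFunctionField k K) (w : Place k K) (M : Matrix (Fin 2) (Fin 2) k)
    (hd : M.det = -1) (ht : M.trace = 0)
    (A : Finset (Fin (2 * n))) (hcard : A.card + 2 = n + n) (β γ : Fin 2 → k)
    (h1 : dt β γ ≠ 0) (h2 : dt β (M.mulVec γ) ≠ 0)
    (hG : ∀ v : Fin 2 → k, GG H A (M.mulVec v) = GG H A v) (s t : H.Tri k)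
    (hst : t.v = M.mulVec s.v) (e : k) (he : e ^ 2 * qq M γ s.v = qq M β s.v)
    (T T' : H.Tri K) (hT' : T'.v = mm M T.v) (u : K) (hu : Cg w u e)
    (hU : u ^ 2 * qq M γ T.v = qq M β T.v)
    (hyy : T.y * T'.y = GG H A T.v * qq M γ T.v * u) (p q : H.Pt) (hp : Spec w T p)
    (hq : Spec w T' q) :
    ∃ t₁ t₂ : H.Tri k, p = t₁.mk' ∧ q = t₂.mk' ∧
      ((t₁.v = s.v ∧ t₂.v = t.v) ∨ (t₁.v = t.v ∧ t₂.v = s.v)) ∧
      t₁.y * t₂.y = GG H A s.v * qq M γ s.v * e := by
  have hM : M.det ≠ 0 := by rw [hd]; exact neg_ne_zero.2 one_ne_zero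
  obtain ⟨c, t0, -, hc1, -⟩ := id hp
  have hc : Cong w (c • T.v) t0.v := hc1
  have e1 : u ^ 2 * qq M γ (c • T.v) = qq M β (c • T.v) := by
    rw [qq_smul, qq_smul, ← hU]; ring
  have e2 : Cg w (u ^ 2 * qq M γ (c • T.v)) (e ^ 2 * qq M γ t0.v) :=
    (hu.pow 2).mul (qq_cong w M γ hc)
  rw [e1] at e2
  have e3 : e ^ 2 * qq M γ t0.v = qq M β t0.v := e2.unique (qq_cong w M β hc)
  have e4 := qq_ident M ht β γ t0.v s.v
  rw [← e3, ← he] at e4
  have e5 : dt t0.v s.v * dt t0.v (M.mulVec s.v) * dt β γ * dt β (M.mulVec γ) = 0 := by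
    rw [← e4]; ring
  have e6 : dt t0.v s.v = 0 ∨ dt t0.v (M.mulVec s.v) = 0 := by
    rcases mul_eq_zero.1 e5 with h | h
    · rcases mul_eq_zero.1 h with h | h
      · exact mul_eq_zero.1 h
      · exact absurd h h1
    · exact absurd h h2
  have hMM : M.mulVec t.v = s.v := by
    rw [hst, mulVec_mulVec M ht, hd]; simp
  rcases e6 with h | h
  · obtain ⟨f, hf, hf'⟩ := exists_smul_of_dt t0.ne s.ne h
    have hc' : Cong w ((algebraMap k K f * c) • T.v) s.v := by
      rw [hf', mul_smul]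
      exact cong_smul w f hc
    obtain ⟨t₁, t₂, g1, g2, g3, g4, g5⟩ := vals_aux hK w M A hcard γ e T T' hT' u hu hyy p q hp hq
      (algebraMap k K f * c) s.v s.ne (mulVec_ne_zero hM s.ne) hc'
    exact ⟨t₁, t₂, g1, g2, Or.inl ⟨g3, by rw [g4, hst]⟩, g5⟩
  · rw [← hst] at h
    obtain ⟨f, hf, hf'⟩ := exists_smul_of_dt t0.ne t.ne h
    have hc' : Cong w ((algebraMap k K f * c) • T.v) t.v := by
      rw [hf', mul_smul]
      exact cong_smul w f hc
    obtain ⟨t₁, t₂, g1, g2, g3, g4, g5⟩ := vals_aux hK w M A hcard γ e T T' hT' u hu hyy p q hp hq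
      (algebraMap k K f * c) t.v t.ne (mulVec_ne_zero hM t.ne) hc'
    refine ⟨t₁, t₂, g1, g2, Or.inr ⟨g3, by rw [g4, hMM]⟩, ?_⟩
    rw [g5, hst, hG]
    have : qq M γ (M.mulVec s.v) = qq M γ s.v := qq_mm M hd ht γ s.v
    rw [this]

end vals


section final

variable {k : Type} [Field k] [IsAlgClosed k] [CharZero k]

omit [IsAlgClosed k] [CharZero k] in
private theorem tri_eq {n : ℕ} {H : Hyp k n} (s t : H.Tri k) (h : t.v = s.v) :
    (t.y = s.y ∧ t.mk' = s.mk') ∨ (t.y = -s.y ∧ t.mk' = s.mk'.inv) := by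
  have h1 : t.y ^ 2 = s.y ^ 2 := by rw [t.eq, s.eq, h]
  rcases sq_eq_sq_iff_eq_or_eq_neg.1 h1 with h2 | h2
  · left
    refine ⟨h2, ?_⟩
    cases t; cases s
    simp only at h h2
    subst h; subst h2
    rfl
  · right
    refine ⟨h2, ?_⟩
    rw [← mk'_neg]
    cases t; cases s
    simp only at h h2
    subst h; subst h2
    rfl

variable {ι : Type} {n : ι → ℕ} {H : ∀ i, Hyp k (n i)}

omit [IsAlgClosed k] [CharZero k] in
private theorem pts_inv_inv (i : ι) (p : (H i).Pt) :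
    inv (⟨i, p.inv⟩ : Pts H) = ⟨i, p⟩ := inv_inv' ⟨i, p⟩

omit [IsAlgClosed k] in
/-- The value of the cycle. -/
private theorem cyc_val (i : ι) (s t t₁ t₂ : (H i).Tri k) (hs : s.y ≠ 0) (ht : t.y ≠ 0)
    (h : (t₁.v = s.v ∧ t₂.v = t.v) ∨ (t₁.v = t.v ∧ t₂.v = s.v)) (ε : k)
    (hy : t₁.y * t₂.y = ε * (s.y * t.y)) :
    (ε = 1 → pr (⟨i, t₁.mk'⟩ : Pts H) ⟨i, t₂.mk'⟩ + pr (inv ⟨i, t₁.mk'⟩) (inv ⟨i, t₂.mk'⟩) =
      pr ⟨i, s.mk'⟩ ⟨i, t.mk'⟩ + pr (inv ⟨i, s.mk'⟩) (inv ⟨i, t.mk'⟩)) ∧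
    (ε = -1 → pr (⟨i, t₁.mk'⟩ : Pts H) ⟨i, t₂.mk'⟩ + pr (inv ⟨i, t₁.mk'⟩) (inv ⟨i, t₂.mk'⟩) =
      pr ⟨i, s.mk'⟩ (inv ⟨i, t.mk'⟩) + pr (inv ⟨i, s.mk'⟩) ⟨i, t.mk'⟩) := by
  have hst : s.y * t.y ≠ 0 := mul_ne_zero hs ht
  have h2 : (2 : k) ≠ 0 := two_ne_zero
  have hI : ∀ p : (H i).Pt, (⟨i, p.inv⟩ : Pts H) = inv ⟨i, p⟩ := fun p => rfl
  have hbad : ∀ x : k, x = -x → x = 0 := by
    intro x hx
    have : 2 * x = 0 := by linear_combination hx
    exact (mul_eq_zero.1 this).resolve_left h2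
  rcases h with ⟨h3, h4⟩ | ⟨h3, h4⟩
  · rcases tri_eq s t₁ h3 with ⟨a1, a2⟩ | ⟨a1, a2⟩ <;>
    rcases tri_eq t t₂ h4 with ⟨b1, b2⟩ | ⟨b1, b2⟩ <;>
    refine ⟨fun he => ?_, fun he => ?_⟩ <;>
    rw [a1, b1, he] at hy <;> rw [a2, b2] <;> try simp only [hI, inv_inv']
    · exact absurd (hbad _ (by linear_combination hy)) hst
    · exact absurd (hbad _ (by linear_combination - hy)) hst
    · exact absurd (hbad _ (by linear_combination - hy)) hst
    · rw [add_comm]
    · rw [add_comm]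
    · exact absurd (hbad _ (by linear_combination hy)) hst
  · rcases tri_eq t t₁ h3 with ⟨a1, a2⟩ | ⟨a1, a2⟩ <;>
    rcases tri_eq s t₂ h4 with ⟨b1, b2⟩ | ⟨b1, b2⟩ <;>
    refine ⟨fun he => ?_, fun he => ?_⟩ <;>
    rw [a1, b1, he] at hy <;> rw [a2, b2] <;> try simp only [hI, inv_inv']
    · rw [pr_comm, pr_comm (inv _)]
    · exact absurd (hbad _ (by linear_combination hy)) hst
    · exact absurd (hbad _ (by linear_combination - hy)) hst
    · rw [pr_comm (⟨i, t.mk'⟩ : Pts H) (inv ⟨i, s.mk'⟩),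
        pr_comm (inv (⟨i, t.mk'⟩ : Pts H)) ⟨i, s.mk'⟩, add_comm]
    · exact absurd (hbad _ (by linear_combination - hy)) hst
    · rw [pr_comm, pr_comm (inv _)]
    · rw [pr_comm, pr_comm (⟨i, t.mk'⟩ : Pts H), add_comm]
    · exact absurd (hbad _ (by linear_combination hy)) hst

end final


section mainthm

variable {k : Type} [Field k] [IsAlgClosed k] [CharZero k] {ι : Type} {n : ι → ℕ}
  {H : ∀ i, Hyp k (n i)}

omit [IsAlgClosed k] [CharZero k] in
private theorem z_ne {K : Type} [Field K] [Algebra k K] {z : K} (hz : Transcendental k z) :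
    (1 : K) - z ≠ 0 := by
  intro h
  have : z = 1 := by linear_combination - h
  rw [this] at hz
  exact hz isAlgebraic_one

omit [IsAlgClosed k] in
private theorem not_both {K : Type} [Field K] [Algebra k K] {z : K} (hz : Transcendental k z)
    (A B u₀ : k) (hu : u₀ ≠ 0) (h : (1 - z) ^ 2 * algebraMap k K A =
      (algebraMap k K u₀ * (1 + z)) ^ 2 * algebraMap k K B) : A = 0 ∧ B = 0 := by
  have h1 := (transcendental_iff.1 hz) ((1 - Polynomial.X) ^ 2 * Polynomial.C A -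
    (Polynomial.C u₀ * (1 + Polynomial.X)) ^ 2 * Polynomial.C B) (by
      simp only [map_sub, map_mul, map_pow, map_one, map_add, Polynomial.aeval_X,
        Polynomial.aeval_C]
      rw [h, sub_self])
  have h2 := congrArg (Polynomial.eval (-1)) h1
  have h3 := congrArg (Polynomial.eval 1) h1
  simp only [Polynomial.eval_sub, Polynomial.eval_mul, Polynomial.eval_pow, Polynomial.eval_one,
    Polynomial.eval_X, Polynomial.eval_C, Polynomial.eval_add, Polynomial.eval_zero] at h2 h3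
  constructor
  · have : (4 : k) * A = 0 := by linear_combination h2
    exact (mul_eq_zero.1 this).resolve_left (by norm_num)
  · have : (4 * u₀ ^ 2 : k) * B = 0 := by linear_combination - h3
    exact (mul_eq_zero.1 this).resolve_left (mul_ne_zero (by norm_num) (pow_ne_zero _ hu))

theorem inv_linked (i : ι) (P Q : (H i).Pt) (h : InvLinked P Q) :
    Tors H (ep (⟨i, P⟩ : Pts H) ⟨i, Q⟩) := by
  obtain ⟨M0, hM0, htr0, hO, σ, hσf, hσi, i₀, hr0⟩ := h
  obtain ⟨δ, hδ⟩ := IsAlgClosed.exists_pow_nat_eq (-M0.det) (n := 2) (by norm_num)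
  have hδ0 : δ ≠ 0 := by
    rintro rfl
    apply hM0
    rw [zero_pow two_ne_zero] at hδ
    exact neg_eq_zero.1 hδ.symm
  obtain ⟨M, hMdef⟩ : ∃ M : Matrix (Fin 2) (Fin 2) k, M = δ⁻¹ • M0 := ⟨_, rfl⟩
  have hd : M.det = -1 := by
    rw [hMdef, Matrix.det_smul, Fintype.card_fin]
    have : M0.det = - δ ^ 2 := by rw [hδ, neg_neg]
    rw [this]
    field_simp
  have ht : M.trace = 0 := by rw [hMdef, Matrix.trace_smul, htr0, smul_zero]
  have hM : M.det ≠ 0 := by rw [hd]; exact neg_ne_zero.2 one_ne_zero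
  have hmv : ∀ v : Fin 2 → k, M.mulVec v = δ⁻¹ • M0.mulVec v := by
    intro v
    rw [hMdef, Matrix.smul_mulVec]
  have hr : ∀ a, a ≠ i₀ → a ≠ σ i₀ → dt (M.mulVec ((H i).r a)) ((H i).r (σ a)) = 0 := by
    intro a h1 h2
    rw [hmv, dt_smul_left, hr0 a h1 h2, mul_zero]
  have hO' : Over M P Q := by
    obtain ⟨s, t, hs, ht', h⟩ := hO
    exact ⟨s, t, hs, ht', by rw [hmv, dt_smul_left, h, mul_zero]⟩
  clear hr0 hO
  obtain ⟨s, t, hs, ht', hst⟩ := exact_over hM hO'
  subst hs; subst ht'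
  by_cases hs0 : s.y = 0
  · rw [ep_left _ _ (inv_eq_of_y s hs0)]; exact tors_zero
  by_cases ht0 : t.y = 0
  · rw [ep_right _ _ (inv_eq_of_y t ht0)]; exact tors_zero
  by_cases hbc : dt (M.mulVec ((H i).r i₀)) ((H i).r (σ i₀)) = 0
  · refine iso_full i i _ _ M hM hO' σ (fun a => ?_)
    by_cases h1 : a = i₀
    · rw [h1]; exact hbc
    by_cases h2 : a = σ i₀
    · rw [h2, hσi, dt_comm, dt_mulVec_symm M ht, ← dt_comm]
      exact hbc
    · exact hr a h1 h2

  -- the general case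
  obtain ⟨β, hβ⟩ : ∃ β, β = (H i).r i₀ := ⟨_, rfl⟩
  obtain ⟨γ, hγ⟩ : ∃ γ, γ = (H i).r (σ i₀) := ⟨_, rfl⟩
  obtain ⟨A, hA⟩ : ∃ A : Finset (Fin (2 * n i)), A = (Finset.univ.erase i₀).erase (σ i₀) :=
    ⟨_, rfl⟩
  have hn := (H i).two_le
  have hcard : A.card + 2 = n i + n i := by
    rw [hA, Finset.card_erase_of_mem (Finset.mem_erase.2 ⟨hσf i₀, Finset.mem_univ _⟩),
      Finset.card_erase_of_mem (Finset.mem_univ _), Finset.card_univ, Fintype.card_fin]
    omega
  have hmemA : ∀ a, a ∈ A ↔ a ≠ i₀ ∧ a ≠ σ i₀ := by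
    intro a
    rw [hA, Finset.mem_erase, Finset.mem_erase]
    constructor
    · rintro ⟨h1, h2, -⟩; exact ⟨h2, h1⟩
    · rintro ⟨h1, h2⟩; exact ⟨h2, h1, Finset.mem_univ _⟩
  have hAσ : ∀ a ∈ A, σ a ∈ A := by
    intro a ha
    rw [hmemA] at ha ⊢
    constructor
    · intro h
      apply ha.2
      rw [← h, hσi]
    · intro h
      exact ha.1 (σ.injective h)
  have hGm : ∀ (L : Type) [Field L] [Algebra k L] (v : Fin 2 → L),
      GG (H i) A (mm M v) = GG (H i) A v := by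
    intro L _ _ v
    exact GG_mm (H i) M hd ht σ A hAσ hσf hσi
      (fun a ha => hr a ((hmemA a).1 ha).1 ((hmemA a).1 ha).2) v
  have hbg : dt β γ ≠ 0 := by rw [hβ, hγ]; exact (H i).indep _ _ (hσf i₀).symm
  have hbMg : dt β (M.mulVec γ) ≠ 0 := by
    rw [dt_mulVec_symm M ht, dt_comm, hβ, hγ]
    exact neg_ne_zero.2 hbc
  have hFs : ∀ (L : Type) [Field L] [Algebra k L] (v : Fin 2 → L),
      (H i).F v = GG (H i) A v * dt (cst L β) v * dt (cst L γ) v := by
    intro L _ _ v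
    rw [hA, hβ, hγ]
    exact F_split (H i) i₀ (σ i₀) (hσf i₀) v
  have hFs' : ∀ (L : Type) [Field L] [Algebra k L] (v : Fin 2 → L),
      (H i).F (mm M v) = GG (H i) A v * dt (cst L β) (mm M v) * dt (cst L γ) (mm M v) := by
    intro L _ _ v
    rw [hFs L, hGm L]
  have e1 : s.y ^ 2 = GG (H i) A s.v * dt β s.v * dt γ s.v := by
    rw [s.eq]; exact hFs k s.v
  have e2 : t.y ^ 2 = GG (H i) A s.v * dt β (M.mulVec s.v) * dt γ (M.mulVec s.v) := by
    rw [t.eq, hst]; exact hFs' k s.v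
  have n1 : GG (H i) A s.v ≠ 0 := by
    intro h
    rw [h, zero_mul, zero_mul] at e1
    exact hs0 (pow_eq_zero_iff (two_ne_zero) |>.1 e1)
  have n2 : dt γ s.v ≠ 0 := by
    intro h
    rw [h, mul_zero] at e1
    exact hs0 (pow_eq_zero_iff (two_ne_zero) |>.1 e1)
  have n3 : dt γ (M.mulVec s.v) ≠ 0 := by
    intro h
    rw [h, mul_zero] at e2
    exact ht0 (pow_eq_zero_iff (two_ne_zero) |>.1 e2)
  have hqγ : qq M γ s.v = dt γ s.v * dt γ (M.mulVec s.v) := rfl
  have hqβ : qq M β s.v = dt β s.v * dt β (M.mulVec s.v) := rfl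
  have nq : qq M γ s.v ≠ 0 := by rw [hqγ]; exact mul_ne_zero n2 n3
  obtain ⟨u₀, hu₀⟩ : ∃ u₀ : k, u₀ = s.y * t.y / (GG (H i) A s.v * qq M γ s.v) := ⟨_, rfl⟩
  have hyy₀ : GG (H i) A s.v * qq M γ s.v * u₀ = s.y * t.y := by
    rw [hu₀]; field_simp
  have hu0 : u₀ ≠ 0 := by
    rintro rfl
    rw [mul_zero] at hyy₀
    exact mul_ne_zero hs0 ht0 hyy₀.symm
  have he : u₀ ^ 2 * qq M γ s.v = qq M β s.v := by
    have h1 : (GG (H i) A s.v) ^ 2 * qq M γ s.v * (u₀ ^ 2 * qq M γ s.v) =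
        (GG (H i) A s.v) ^ 2 * qq M γ s.v * qq M β s.v := by
      have h2 : (GG (H i) A s.v) ^ 2 * qq M γ s.v * (u₀ ^ 2 * qq M γ s.v) =
          s.y ^ 2 * t.y ^ 2 := by
        rw [← mul_pow, ← hyy₀]; ring
      rw [h2, e1, e2, hqγ, hqβ]; ring
    exact mul_left_cancel₀ (mul_ne_zero (pow_ne_zero _ n1) nq) h1
  obtain ⟨K, _, _, z, T, hK, hz, heq⟩ := exists_conic (H i) M β γ u₀
  have heq' : (1 - z) ^ 2 * qq M β T.v = (algebraMap k K u₀ * (1 + z)) ^ 2 * qq M γ T.v := heq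
  have hz1 : (1 : K) - z ≠ 0 := z_ne hz
  obtain ⟨u, hu⟩ : ∃ u : K, u = algebraMap k K u₀ * (1 + z) / (1 - z) := ⟨_, rfl⟩
  have hU : u ^ 2 * qq M γ T.v = qq M β T.v := by
    have h1 : u * (1 - z) = algebraMap k K u₀ * (1 + z) := by rw [hu]; field_simp
    rw [← h1] at heq'
    have h2 : (1 - z) ^ 2 * (u ^ 2 * qq M γ T.v) = (1 - z) ^ 2 * qq M β T.v := by
      rw [heq']; ring
    exact mul_left_cancel₀ (pow_ne_zero _ hz1) h2
  have hTy : T.y ≠ 0 := by
    intro h
    have h1 := T.eq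
    rw [h, zero_pow two_ne_zero, Hyp.F_def] at h1
    obtain ⟨a, -, ha⟩ := Finset.prod_eq_zero_iff.1 h1.symm
    obtain ⟨c, hc, hc'⟩ := exists_smul_of_dt (cst_ne ((H i).r_ne a)) T.ne ha
    rw [hc', qq_smul, qq_smul, qq_cst, qq_cst] at heq'
    have h2 : (1 - z) ^ 2 * algebraMap k K (qq M β ((H i).r a)) =
        (algebraMap k K u₀ * (1 + z)) ^ 2 * algebraMap k K (qq M γ ((H i).r a)) := by
      apply mul_left_cancel₀ (pow_ne_zero 2 hc)
      linear_combination heq'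
    obtain ⟨h3, h4⟩ := not_both hz _ _ u₀ hu0 h2
    have h3' : dt β ((H i).r a) * dt β (M.mulVec ((H i).r a)) = 0 := h3
    have h4' : dt γ ((H i).r a) * dt γ (M.mulVec ((H i).r a)) = 0 := h4
    by_cases ha1 : a = i₀
    · rw [ha1, ← hβ] at h4'
      rcases mul_eq_zero.1 h4' with h5 | h5
      · rw [dt_comm, neg_eq_zero] at h5
        exact hbg h5
      · rw [dt_mulVec_symm M ht] at h5
        exact hbMg h5
    by_cases ha2 : a = σ i₀
    · rw [ha2, ← hγ] at h3'
      rcases mul_eq_zero.1 h3' with h5 | h5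
      · exact hbg h5
      · exact hbMg h5
    rcases mul_eq_zero.1 h3' with h5 | h5
    · rw [hβ] at h5
      exact (H i).indep _ _ (Ne.symm ha1) h5
    · obtain ⟨c', hc0, hc1⟩ := exists_smul_of_dt (mulVec_ne_zero hM ((H i).r_ne a))
        ((H i).r_ne (σ a)) (hr a ha1 ha2)
      have h6 : dt β ((H i).r (σ a)) = 0 := by rw [hc1, dt_smul_right, h5, mul_zero]
      rw [hβ] at h6
      refine (H i).indep _ _ ?_ h6
      intro h7
      apply ha2
      rw [h7, hσi]
  have hmne : mm M T.v ≠ 0 := by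
    have : (M.map (algebraMap k K)).det ≠ 0 := by
      rw [det_map, hd, map_neg, map_one]; exact neg_ne_zero.2 one_ne_zero
    exact mulVec_ne_zero this T.ne
  obtain ⟨T', hT'v, hT'y⟩ : ∃ T' : (H i).Tri K, T'.v = mm M T.v ∧
      T'.y = GG (H i) A T.v * qq M γ T.v * u / T.y := by
    refine ⟨⟨mm M T.v, GG (H i) A T.v * qq M γ T.v * u / T.y, hmne, ?_⟩, rfl, rfl⟩
    rw [div_pow, div_eq_iff (pow_ne_zero _ hTy), T.eq, hFs' K, hFs K T.v]
    have h1 : (GG (H i) A T.v * qq M γ T.v * u) ^ 2 =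
        (GG (H i) A T.v) ^ 2 * qq M γ T.v * (u ^ 2 * qq M γ T.v) := by ring
    rw [h1, hU, qq, qq]
    ring
  have hyy : T.y * T'.y = GG (H i) A T.v * qq M γ T.v * u := by
    rw [hT'y]; field_simp
  have hfin := fib_pair hK z hz T T' 1 1 0 0
    (pr (⟨i, s.mk'⟩ : Pts H) ⟨i, t.mk'⟩ + pr (inv ⟨i, s.mk'⟩) (inv ⟨i, t.mk'⟩))
    (pr (⟨i, s.mk'⟩ : Pts H) (inv ⟨i, t.mk'⟩) + pr (inv ⟨i, s.mk'⟩) ⟨i, t.mk'⟩)
    (by
      intro w hw p q hp hq
      have hcu : Cg w u u₀ := by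
        have h1 : w.v (1 - z) = 1 := Valuation.map_one_sub_of_lt _ hw
        have h2 : u - algebraMap k K u₀ = algebraMap k K (u₀ * 2) * z / (1 - z) := by
          rw [hu, map_mul, map_ofNat]; field_simp; ring
        rw [Cg, h2, map_div₀, h1, div_one, map_mul]
        exact mul_lt_one_of_nonneg_of_lt_one_right (v_const w _) zero_le hw
      obtain ⟨t₁, t₂, g1, g2, g3, g4⟩ := vals hK w M hd ht A hcard β γ hbg hbMg
        (fun v => hGm k v) s t hst u₀ he T T' hT'v u hcu hU hyy p q hp hq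
      have g5 := (cyc_val i s t t₁ t₂ hs0 ht0 g3 1 (by rw [g4, hyy₀, one_mul])).1 rfl
      rw [g1, g2, one_smul, one_smul, zero_smul, zero_smul, add_zero, add_zero]
      exact g5)
    (by
      intro w hw p q hp hq
      have hcu : Cg w u (-u₀) := by
        have hz0 : z ≠ 0 := by
          rintro rfl
          rw [map_zero] at hw
          exact absurd hw (not_lt.2 zero_le_one)
        have h1 : w.v (1 - z) = w.v z := by
          rw [Valuation.map_sub_swap]
          exact Valuation.map_sub_eq_of_lt_left _ (by rw [map_one]; exact hw)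
        have h2 : u - algebraMap k K (-u₀) = algebraMap k K (u₀ * 2) / (1 - z) := by
          rw [hu, map_mul, map_ofNat, map_neg]; field_simp; ring
        rw [Cg, h2, map_div₀, h1]
        exact (div_lt_one₀ (zero_lt_one.trans hw)).2 (lt_of_le_of_lt (v_const w _) hw)
      obtain ⟨t₁, t₂, g1, g2, g3, g4⟩ := vals hK w M hd ht A hcard β γ hbg hbMg
        (fun v => hGm k v) s t hst (-u₀) (by rw [neg_sq]; exact he) T T' hT'v u hcu hU hyy
        p q hp hq
      have g5 := (cyc_val i s t t₁ t₂ hs0 ht0 g3 (-1) (by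
        rw [g4, mul_neg, hyy₀, neg_one_mul])).2 rfl
      rw [g1, g2, one_smul, one_smul, zero_smul, zero_smul, add_zero, add_zero]
      exact g5)
  have hend : ep (⟨i, s.mk'⟩ : Pts H) ⟨i, t.mk'⟩ =
      (pr (⟨i, s.mk'⟩ : Pts H) ⟨i, t.mk'⟩ + pr (inv ⟨i, s.mk'⟩) (inv ⟨i, t.mk'⟩)) -
      (pr (⟨i, s.mk'⟩ : Pts H) (inv ⟨i, t.mk'⟩) + pr (inv ⟨i, s.mk'⟩) ⟨i, t.mk'⟩) := by
    rw [ep]; abel
  rw [hend]
  exact hfin

end mainthm

end HJ
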