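import Pool.Agent.H95.HJ.Basic

/-!
Module Orbit (project HJ, helper95).  The group (Z/2)^2 of Moebius transformations attached to four of the branch points of a curve of genus 2.
PROOFS.
* exists_swap: r₁, r₂, r₃, r₄ pairwise independent.  In the basis (r₁, r₂): r₃ = p r₁ + q r₂, r₄ = p' r₁ + q' r₂ (dt_cramer), all coefficients ≠ 0.
  M r₁ = q q' r₂, M r₂ = p p' r₁: M is traceless with det = - p p' q q' ≠ 0, M r₃ = q p p' r₁ + p q q' r₂ = p q r₄, and M r₄ is
  proportional to r₃ (or by mulVec_mulVec).  Explicitly M v = (q q' dt(v, r₂) r₂ + p p' dt(r₁, v) r₁) / dt(r₁, r₂).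
* eq_of_three: two matrices M, N with det ≠ 0 such that dt (M v) (N v) = 0 for three pairwise independent vectors v: then dt (M v) (N v) = 0 for all v
  (v ↦ dt (M v) (N v) is a binary quadratic form with three different zeros; or N⁻¹ M has three eigenlines).
* orbit: V = ZMod 2 × ZMod 2.  M 0 = 1; for a ≠ 0 take b ∉ {0, a} and M a = the matrix of exists_swap for (r(e 0), r(e a), r(e b), r(e (a+b))).  Then
  M a maps r(e x) to a multiple of r(e (a + x)) for all x in V (V = {0, a, b, a + b}).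
  a = a': Q, Q' lie over the same point of the line: right alternative with M = 1, σ = 1.
  a ≠ a': N = M (a + a'); dt (N (M a v)) (M a' v) = 0 for all v by eq_of_three, so Over N Q Q'.  σ: e x ↦ e (x + a + a'), and the two indices outside
  the range of e are interchanged; i₀ one of these two.
-/

namespace HJ

open ZC
open scoped Classical

variable {k : Type} [Field k] [IsAlgClosed k] [CharZero k]

theorem exists_swap (r₁ r₂ r₃ r₄ : Fin 2 → k) (h12 : dt r₁ r₂ ≠ 0) (h13 : dt r₁ r₃ ≠ 0)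
    (h14 : dt r₁ r₄ ≠ 0) (h23 : dt r₂ r₃ ≠ 0) (h24 : dt r₂ r₄ ≠ 0) :
    ∃ M : Matrix (Fin 2) (Fin 2) k, M.det ≠ 0 ∧ M.trace = 0 ∧ dt (M.mulVec r₁) r₂ = 0 ∧
      dt (M.mulVec r₂) r₁ = 0 ∧ dt (M.mulVec r₃) r₄ = 0 ∧ dt (M.mulVec r₄) r₃ = 0 := by
  let A : k := dt r₁ r₃ * dt r₁ r₄
  let B : k := dt r₂ r₃ * dt r₂ r₄
  refine ⟨!![A * r₂ 1 * r₂ 0 - B * r₁ 1 * r₁ 0, B * r₁ 0 * r₁ 0 - A * r₂ 0 * r₂ 0;
    A * r₂ 1 * r₂ 1 - B * r₁ 1 * r₁ 1, B * r₁ 0 * r₁ 1 - A * r₂ 0 * r₂ 1], ?_, ?_, ?_, ?_, ?_, ?_⟩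
  · have h : Matrix.det !![A * r₂ 1 * r₂ 0 - B * r₁ 1 * r₁ 0, B * r₁ 0 * r₁ 0 - A * r₂ 0 * r₂ 0;
        A * r₂ 1 * r₂ 1 - B * r₁ 1 * r₁ 1, B * r₁ 0 * r₁ 1 - A * r₂ 0 * r₂ 1] =
        -(A * B * (dt r₁ r₂) ^ 2) := by
      rw [Matrix.det_fin_two_of]
      simp only [dt]
      ring
    rw [h, neg_ne_zero]
    exact mul_ne_zero (mul_ne_zero (mul_ne_zero h13 h14) (mul_ne_zero h23 h24)) (pow_ne_zero 2 h12)
  · rw [Matrix.trace_fin_two_of]
    ring
  · simp only [dt, Matrix.mulVec, dotProduct, Fin.sum_univ_two, Matrix.of_apply,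
      Matrix.cons_val', Matrix.cons_val_zero, Matrix.cons_val_one]
    ring
  · simp only [dt, Matrix.mulVec, dotProduct, Fin.sum_univ_two, Matrix.of_apply,
      Matrix.cons_val', Matrix.cons_val_zero, Matrix.cons_val_one]
    ring
  · simp only [A, B, dt, Matrix.mulVec, dotProduct, Fin.sum_univ_two, Matrix.of_apply,
      Matrix.cons_val', Matrix.cons_val_zero, Matrix.cons_val_one]
    ring
  · simp only [A, B, dt, Matrix.mulVec, dotProduct, Fin.sum_univ_two, Matrix.of_apply,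
      Matrix.cons_val', Matrix.cons_val_zero, Matrix.cons_val_one]
    ring

theorem eq_of_three (M N : Matrix (Fin 2) (Fin 2) k) (hM : M.det ≠ 0) (hN : N.det ≠ 0)
    (u v w : Fin 2 → k) (huv : dt u v ≠ 0) (huw : dt u w ≠ 0) (hvw : dt v w ≠ 0)
    (hu : dt (M.mulVec u) (N.mulVec u) = 0) (hv : dt (M.mulVec v) (N.mulVec v) = 0)
    (hw : dt (M.mulVec w) (N.mulVec w) = 0) (x : Fin 2 → k) :
    dt (M.mulVec x) (N.mulVec x) = 0 := by
  have key : ∀ x : Fin 2 → k, (dt u v) ^ 2 * dt (M.mulVec x) (N.mulVec x) =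
      dt x v * dt u x * (dt (M.mulVec u) (N.mulVec v) + dt (M.mulVec v) (N.mulVec u)) := by
    intro x
    have h : (dt u v) ^ 2 * dt (M.mulVec x) (N.mulVec x) =
        (dt x v) ^ 2 * dt (M.mulVec u) (N.mulVec u) + (dt u x) ^ 2 *
          dt (M.mulVec v) (N.mulVec v) +
        dt x v * dt u x * (dt (M.mulVec u) (N.mulVec v) + dt (M.mulVec v) (N.mulVec u)) := by
      simp only [dt, Matrix.mulVec, dotProduct, Fin.sum_univ_two]
      ring
    rw [h, hu, hv]
    ring
  have h1 := key w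
  rw [hw, mul_zero] at h1
  have h2 : dt w v * dt u w ≠ 0 := by
    apply mul_ne_zero _ huw
    rw [dt_comm w v, neg_ne_zero]
    exact hvw
  have h3 := (mul_eq_zero.1 h1.symm).resolve_left h2
  have h4 := key x
  rw [h3, mul_zero] at h4
  exact (mul_eq_zero.1 h4).resolve_left (pow_ne_zero 2 huv)

private theorem Orbit_trans {u v w : Fin 2 → k} (hv : v ≠ 0) (h1 : dt u v = 0)
    (h2 : dt v w = 0) : dt u w = 0 := by
  by_cases hu : u = 0
  · rw [hu]; simp [dt]
  by_cases hw : w = 0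
  · rw [hw]; simp [dt]
  obtain ⟨c, -, rfl⟩ := exists_smul_of_dt hu hv h1
  rw [dt_smul_left] at h2
  have hc : c ≠ 0 := by
    rintro rfl
    exact hv (zero_smul _ _)
  exact (mul_eq_zero.1 h2).resolve_left hc

private theorem Orbit_symm {u v : Fin 2 → k} (h : dt u v = 0) : dt v u = 0 := by
  rw [dt_comm, h, neg_zero]

private theorem Orbit_mulVec (M : Matrix (Fin 2) (Fin 2) k) {u v : Fin 2 → k} (h : dt u v = 0) :
    dt (M.mulVec u) (M.mulVec v) = 0 := by
  rw [dt_mulVec, h, mul_zero]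

private theorem Orbit_four : ∀ a : ZMod 2 × ZMod 2, a ≠ 0 → ∃ b : ZMod 2 × ZMod 2,
    b ≠ 0 ∧ b ≠ a ∧ (∀ x, x = 0 ∨ x = a ∨ x = b ∨ x = a + b) ∧ a + a = 0 ∧ a + (a + b) = b ∧
      a + b ≠ 0 ∧ a + b ≠ a ∧ a + b ≠ b := by
  decide

private theorem Orbit_add : ∀ a a' x : ZMod 2 × ZMod 2, (a + a') + (a + x) = a' + x := by
  decide

private theorem Orbit_ne : ∀ a a' : ZMod 2 × ZMod 2, a ≠ a' → a + a' ≠ 0 := by
  decide

private theorem Orbit_inv : ∀ a x : ZMod 2 × ZMod 2, a + (a + x) = x := by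
  decide

theorem orbit (H : Hyp k 3) (e : ZMod 2 × ZMod 2 → Fin (2 * 3)) (he : Function.Injective e) :
    ∃ M : ZMod 2 × ZMod 2 → Matrix (Fin 2) (Fin 2) k, M 0 = 1 ∧ (∀ a, (M a).det ≠ 0) ∧
      (∀ a x, dt ((M a).mulVec (H.r (e x))) (H.r (e (a + x))) = 0) ∧
      ∀ (P : H.Pt) (a a' : ZMod 2 × ZMod 2) (Q Q' : H.Pt), Over (M a) P Q → Over (M a') P Q' →
        InvLinked Q Q' ∨ IsoLinked Q Q' := by
  have hd : ∀ x y : ZMod 2 × ZMod 2, x ≠ y → dt (H.r (e x)) (H.r (e y)) ≠ 0 :=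
    fun x y h => H.indep _ _ (fun hh => h (he hh))
  have hex : ∀ a : ZMod 2 × ZMod 2, ∃ M : Matrix (Fin 2) (Fin 2) k, (a = 0 → M = 1) ∧
      (a ≠ 0 → M.trace = 0) ∧ M.det ≠ 0 ∧
      ∀ x, dt (M.mulVec (H.r (e x))) (H.r (e (a + x))) = 0 := by
    intro a
    by_cases ha : a = 0
    · subst ha
      refine ⟨1, fun _ => rfl, fun h => absurd rfl h, by simp, ?_⟩
      intro x
      rw [Matrix.one_mulVec, zero_add, dt_self]
    · obtain ⟨b, hb0, hba, hall, haa, hab, h0, h1, h2⟩ := Orbit_four a ha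
      obtain ⟨M, hM, htr, m1, m2, m3, m4⟩ := exists_swap (H.r (e 0)) (H.r (e a)) (H.r (e b))
        (H.r (e (a + b))) (hd _ _ (Ne.symm ha)) (hd _ _ (Ne.symm hb0)) (hd _ _ (Ne.symm h0))
        (hd _ _ (Ne.symm hba)) (hd _ _ (Ne.symm h1))
      refine ⟨M, fun h => absurd h ha, fun _ => htr, hM, ?_⟩
      intro x
      rcases hall x with rfl | rfl | rfl | rfl
      · rw [add_zero]; exact m1
      · rw [haa]; exact m2
      · exact m3
      · rw [hab]; exact m4
  choose M hM0 hMtr hMdet hMr using hex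
  refine ⟨M, hM0 0 rfl, hMdet, hMr, ?_⟩
  rintro P a a' Q Q' ⟨s, t, hs, ht, h⟩ ⟨s', t', hs', ht', h'⟩
  -- the two coordinate systems of `P`
  have hss : dt s.v s'.v = 0 := by
    have h1 : s.mk' = s'.mk' := by
      change (⟦s⟧ : Quotient H.setoid) = ⟦s'⟧
      rw [hs, hs']
    obtain ⟨c, -, h2, -⟩ := (mk'_eq_iff _ _).1 h1
    exact dt_eq_zero_of_smul h2
  have hMs : (M a).mulVec s.v ≠ 0 := mulVec_ne_zero (hMdet a) s.ne
  have hMs' : (M a').mulVec s'.v ≠ 0 := mulVec_ne_zero (hMdet a') s'.ne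
  by_cases haa : a = a'
  · subst haa
    right
    have h1 : dt t.v t'.v = 0 := by
      apply Orbit_trans hMs (Orbit_symm h)
      apply Orbit_trans hMs' (Orbit_mulVec _ hss) h'
    refine ⟨1, by simp, ⟨t, t', ht, ht', ?_⟩, Equiv.refl _, ⟨0, by norm_num⟩, ?_⟩
    · rw [Matrix.one_mulVec]
      exact h1
    · intro i _
      rw [Matrix.one_mulVec, Equiv.refl_apply, dt_self]
  · left
    have hc : a + a' ≠ 0 := Orbit_ne a a' haa
    have hthree : ∀ x : Fin 2 → k, dt ((M (a + a') * M a).mulVec x) ((M a').mulVec x) = 0 := by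
      have hr : ∀ y : ZMod 2 × ZMod 2, dt ((M (a + a') * M a).mulVec (H.r (e y)))
          ((M a').mulVec (H.r (e y))) = 0 := by
        intro y
        rw [← Matrix.mulVec_mulVec]
        have h1 : dt ((M (a + a')).mulVec ((M a).mulVec (H.r (e y))))
            ((M (a + a')).mulVec (H.r (e (a + y)))) = 0 := Orbit_mulVec _ (hMr a y)
        have h2 := hMr (a + a') (a + y)
        rw [Orbit_add] at h2
        have h3 := hMr a' y
        exact Orbit_trans (mulVec_ne_zero (hMdet _) (H.r_ne _)) h1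
          (Orbit_trans (H.r_ne _) h2 (Orbit_symm h3))
      intro x
      apply eq_of_three (M (a + a') * M a) (M a') (by
        rw [Matrix.det_mul]
        exact mul_ne_zero (hMdet _) (hMdet _)) (hMdet _) (H.r (e (0, 0))) (H.r (e (0, 1)))
        (H.r (e (1, 0))) (hd _ _ (by decide)) (hd _ _ (by decide)) (hd _ _ (by decide))
        (hr _) (hr _) (hr _)
    have hover : dt ((M (a + a')).mulVec t.v) t'.v = 0 := by
      have h1 : dt ((M (a + a')).mulVec t.v) ((M (a + a')).mulVec ((M a).mulVec s.v)) = 0 :=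
        Orbit_mulVec _ (Orbit_symm h)
      have h2 : dt ((M (a + a')).mulVec ((M a).mulVec s.v)) ((M a').mulVec s.v) = 0 := by
        rw [Matrix.mulVec_mulVec]
        exact hthree s.v
      have h3 : dt ((M a').mulVec s.v) ((M a').mulVec s'.v) = 0 := Orbit_mulVec _ hss
      exact Orbit_trans (mulVec_ne_zero (hMdet _) hMs) h1
        (Orbit_trans (mulVec_ne_zero (hMdet _) s.ne) h2 (Orbit_trans hMs' h3 h'))
    -- the permutation
    have hcard : (Finset.univ \ Finset.univ.image e).card = 2 := by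
      rw [Finset.card_sdiff_of_subset (Finset.subset_univ _), Finset.card_univ,
        Finset.card_image_of_injective _ he, Finset.card_univ, Fintype.card_fin,
        Fintype.card_prod, ZMod.card]
    obtain ⟨i₀, i₁, hne, hS⟩ := Finset.card_eq_two.1 hcard
    have hi₀ : ∀ x, e x ≠ i₀ := by
      intro x hx
      have h1 : i₀ ∈ Finset.univ \ Finset.univ.image e := by rw [hS]; simp
      rw [Finset.mem_sdiff] at h1
      exact h1.2 (Finset.mem_image.2 ⟨x, Finset.mem_univ _, hx⟩)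
    have hi₁ : ∀ x, e x ≠ i₁ := by
      intro x hx
      have h1 : i₁ ∈ Finset.univ \ Finset.univ.image e := by rw [hS]; simp
      rw [Finset.mem_sdiff] at h1
      exact h1.2 (Finset.mem_image.2 ⟨x, Finset.mem_univ _, hx⟩)
    have hcases : ∀ i, i = i₀ ∨ i = i₁ ∨ ∃ x, e x = i := by
      intro i
      by_cases h1 : ∃ x, e x = i
      · exact Or.inr (Or.inr h1)
      · have h2 : i ∈ Finset.univ \ Finset.univ.image e := by
          rw [Finset.mem_sdiff]
          refine ⟨Finset.mem_univ _, ?_⟩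
          rw [Finset.mem_image]
          rintro ⟨x, -, hx⟩
          exact h1 ⟨x, hx⟩
        rw [hS, Finset.mem_insert, Finset.mem_singleton] at h2
        rcases h2 with h2 | h2
        · exact Or.inl h2
        · exact Or.inr (Or.inl h2)
    let f : Fin (2 * 3) → Fin (2 * 3) := fun i =>
      if i = i₀ then i₁ else if i = i₁ then i₀ else e ((a + a') + Function.invFun e i)
    have f0 : f i₀ = i₁ := if_pos rfl
    have f1 : f i₁ = i₀ := by
      change (if i₁ = i₀ then i₁ else if i₁ = i₁ then i₀ else _) = i₀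
      rw [if_neg (Ne.symm hne), if_pos rfl]
    have fe : ∀ x, f (e x) = e ((a + a') + x) := by
      intro x
      change (if e x = i₀ then i₁ else if e x = i₁ then i₀ else
        e ((a + a') + Function.invFun e (e x))) = _
      rw [if_neg (hi₀ x), if_neg (hi₁ x), Function.leftInverse_invFun he x]
    have hinv : Function.Involutive f := by
      intro i
      rcases hcases i with rfl | rfl | ⟨x, rfl⟩
      · rw [f0, f1]
      · rw [f1, f0]
      · rw [fe, fe, Orbit_inv]
    refine ⟨M (a + a'), hMdet _, hMtr _ hc, ⟨t, t', ht, ht', hover⟩, hinv.toPerm, ?_, ?_, i₀, ?_⟩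
    · intro i
      change f i ≠ i
      rcases hcases i with rfl | rfl | ⟨x, rfl⟩
      · rw [f0]; exact Ne.symm hne
      · rw [f1]; exact hne
      · rw [fe]
        intro h1
        have h2 := he h1
        apply hc
        have h3 : (a + a') + x = 0 + x := by rw [h2, zero_add]
        exact add_right_cancel h3
    · intro i
      exact hinv i
    · intro i hne0 hne1
      change i ≠ f i₀ at hne1
      rw [f0] at hne1
      change dt ((M (a + a')).mulVec (H.r i)) (H.r (f i)) = 0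
      rcases hcases i with rfl | rfl | ⟨x, rfl⟩
      · exact absurd rfl hne0
      · exact absurd rfl hne1
      · rw [fe]
        exact hMr (a + a') x

end HJ
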